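import Mathlib

/-!
# Elementary limits
-/

set_option autoImplicit false

open Set Filter Topology Asymptotics

namespace Pool.Agent.Run7.h456.Win

theorem small_o {ε : ℝ} (hε : 0 < ε) (A B : ℝ) :
    (fun x : ℝ => A + B * Real.log x + x ^ (1 - ε) * (A + B * Real.log x)) =o[atTop] fun x : ℝ => x := by
  have h1 : (fun _ : ℝ => A) =o[atTop] fun x : ℝ => x := isLittleO_const_id_atTop A
  have h2 : (fun x : ℝ => B * Real.log x) =o[atTop] fun x : ℝ => x :=
    Real.isLittleO_log_id_atTop.const_mul_left B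
  have h3 : (fun x : ℝ => A + B * Real.log x) =o[atTop] fun x : ℝ => x ^ ε := by
    have a1 : (fun _ : ℝ => A) =o[atTop] fun x : ℝ => x ^ ε := by
      refine (isLittleO_const_left.2 (Or.inr ?_))
      exact tendsto_norm_atTop_atTop.comp (tendsto_rpow_atTop hε)
    exact a1.add ((isLittleO_log_rpow_atTop hε).const_mul_left B)
  have h4 : (fun x : ℝ => x ^ (1 - ε) * (A + B * Real.log x)) =o[atTop] fun x : ℝ => x := by
    have a2 := (isBigO_refl (fun x : ℝ => x ^ (1 - ε)) atTop).mul_isLittleO h3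
    refine a2.congr' EventuallyEq.rfl ?_
    filter_upwards [eventually_gt_atTop 0] with x hx
    rw [← Real.rpow_add hx]
    simp
  exact (h1.add h2).add h4

theorem small_ev {ε : ℝ} (hε : 0 < ε) (A B : ℝ) {τ : ℝ} (hτ : 0 < τ) :
    ∀ᶠ N : ℕ in atTop, A + B * Real.log N + (N : ℝ) ^ (1 - ε) * (A + B * Real.log N) ≤ τ * N := by
  have h := (small_o hε A B).def hτ
  filter_upwards [tendsto_natCast_atTop_atTop.eventually h] with N hN
  rw [Real.norm_eq_abs, Real.norm_eq_abs, abs_of_nonneg (Nat.cast_nonneg N : (0 : ℝ) ≤ N)] at hN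
  exact (le_abs_self _).trans hN

theorem card_ev {ε η : ℝ} (hε : 0 < ε) (hη : 2 * ε < η) (C : ℝ) {b : ℝ} (hb : 0 < b) :
    ∀ᶠ N : ℕ in atTop, C * (b * (N : ℝ) ^ (1 + ε)) ^ (1 - η) ≤ (N : ℝ) ^ (1 - ε) := by
  set e : ℝ := (1 - ε) - (1 + ε) * (1 - η) with he
  have he0 : 0 < e := by
    have : e = η - 2 * ε + ε * η := by rw [he]; ring
    rw [this]
    have : 0 < ε * η := mul_pos hε (by linarith)
    linarith
  have h1 : Tendsto (fun N : ℕ => (N : ℝ) ^ e) atTop atTop :=
    (tendsto_rpow_atTop he0).comp tendsto_natCast_atTop_atTop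
  filter_upwards [h1.eventually_ge_atTop (C * b ^ (1 - η)), eventually_gt_atTop 0] with N hN hN0
  have hN0' : (0 : ℝ) < N := by exact_mod_cast hN0
  rw [Real.mul_rpow hb.le (by positivity), ← Real.rpow_mul hN0'.le]
  calc C * (b ^ (1 - η) * (N : ℝ) ^ ((1 + ε) * (1 - η))) = (C * b ^ (1 - η)) * (N : ℝ) ^ ((1 + ε) * (1 - η)) := by ring
    _ ≤ (N : ℝ) ^ e * (N : ℝ) ^ ((1 + ε) * (1 - η)) := mul_le_mul_of_nonneg_right hN (by positivity)
    _ = _ := by rw [← Real.rpow_add hN0', he]; congr 1; ring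

theorem fin_small {L g ε C Q σ1 σ2 : ℝ} (hL : 0 < L) (hg : 0 < g) (hσ : σ1 + g ≤ σ2) (hε : 0 < ε)
    (hC : 0 < C) (hQ : 1 ≤ Q) (K : ℕ) :
    ∀ᶠ N : ℕ in atTop, ∀ (n : ℕ) (X : ℝ), (n : ℝ) ≤ (N : ℝ) ^ (1 - ε) → 0 ≤ X → X ≤ Q * N →
      Real.exp L * ((Real.exp (σ2 * L) ^ N)⁻¹ *
        (X ^ n * (C * (N : ℝ) ^ K * Real.exp (σ1 * (N + (N : ℝ) ^ (1 - ε)) * L)))) ≤ 1 / 4 := by
  set A : ℝ := L + |Real.log C| + Real.log Q + |σ1| * L with hA
  have hlogQ : 0 ≤ Real.log Q := Real.log_nonneg hQ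
  have h1 := small_ev hε A (K + 1) (τ := g * L / 2) (by positivity)
  have h2 : Tendsto (fun N : ℕ => g * L / 2 * (N : ℝ)) atTop atTop :=
    tendsto_natCast_atTop_atTop.const_mul_atTop (by positivity)
  filter_upwards [h1, h2.eventually_ge_atTop (Real.log 4), eventually_ge_atTop 1] with N hN hN2 hN1 n X hn hX0 hX
  have hN1' : (1 : ℝ) ≤ N := by exact_mod_cast hN1
  have hN0 : (0 : ℝ) < N := by linarith
  have hlogN : 0 ≤ Real.log N := Real.log_nonneg hN1'
  set u : ℝ := (N : ℝ) ^ (1 - ε) with hu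
  have hu0 : 0 ≤ u := by positivity
  have hQN : 0 < Q * N := by positivity
  have hXn : X ^ n ≤ Real.exp (u * (Real.log Q + Real.log N)) := by
    refine (pow_le_pow_left₀ hX0 hX n).trans ?_
    have e1 : (Q * N) ^ n = Real.exp (n * (Real.log Q + Real.log N)) := by
      rw [← Real.log_mul (by positivity) (by positivity), Real.exp_nat_mul, Real.exp_log hQN]
    rw [e1]
    exact Real.exp_le_exp.2 (mul_le_mul_of_nonneg_right hn (by positivity))
  have hCe : C ≤ Real.exp |Real.log C| := by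
    rw [← Real.log_le_iff_le_exp hC]
    exact le_abs_self _
  have hNK : (N : ℝ) ^ K = Real.exp (K * Real.log N) := by
    rw [Real.exp_nat_mul, Real.exp_log hN0]
  have hpow : (Real.exp (σ2 * L) ^ N)⁻¹ = Real.exp (-(N * (σ2 * L))) := by
    rw [← Real.exp_nat_mul, Real.exp_neg]
  rw [hpow, hNK]
  calc Real.exp L * (Real.exp (-(N * (σ2 * L))) * (X ^ n * (C * Real.exp (K * Real.log N) * Real.exp (σ1 * (N + u) * L))))
      ≤ Real.exp L * (Real.exp (-(N * (σ2 * L))) * (Real.exp (u * (Real.log Q + Real.log N)) *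
        (Real.exp |Real.log C| * Real.exp (K * Real.log N) * Real.exp (σ1 * (N + u) * L)))) := by gcongr
    _ = Real.exp (L + (-(N * (σ2 * L)) + (u * (Real.log Q + Real.log N) + (|Real.log C| + K * Real.log N +
        σ1 * (N + u) * L)))) := by simp only [Real.exp_add]
    _ ≤ Real.exp (-Real.log 4) := by
      refine Real.exp_le_exp.2 ?_
      have e1 : σ1 * (N + u) * L ≤ σ1 * N * L + |σ1| * L * u := by
        have : σ1 * (N + u) * L = σ1 * N * L + σ1 * (L * u) := by ring
        rw [this]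
        have := mul_le_mul_of_nonneg_right (le_abs_self σ1) (show 0 ≤ L * u by positivity)
        linarith
      have e2 : (σ1 + g) * (N * L) ≤ σ2 * (N * L) := mul_le_mul_of_nonneg_right hσ (by positivity)
      have e3 : 0 ≤ |σ1| * L := by positivity
      have e4 : 0 ≤ Real.log N * (K + 1) * u := by positivity
      have e5 : 0 ≤ u * (K * Real.log N) := by positivity
      have e6 : 0 ≤ |Real.log C| := abs_nonneg _
      have e7 : 0 ≤ u * (L + |Real.log C|) := by positivity
      have e8 : A + (K + 1) * Real.log N + u * (A + (K + 1) * Real.log N) =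
        (L + |Real.log C| + K * Real.log N) + (Real.log Q + |σ1| * L + Real.log N) +
          (u * (L + |Real.log C|) + u * (K * Real.log N)) + u * (Real.log Q + Real.log N) + |σ1| * L * u := by
        rw [hA]; ring
      rw [e8] at hN
      nlinarith
    _ = 1 / 4 := by rw [Real.exp_neg, Real.exp_log (by norm_num)]; norm_num

end Pool.Agent.Run7.h456.Win
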