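import Mathlib
import Pool.Agent.Y757.LL.Landau

/-!
# The zeros in a large disc: factorisation with polynomial bounds
-/

set_option autoImplicit false

open Complex Finset

namespace Pool.Agent.Run7.h456.Win

/-- The analytic facts about an L-function that are used. `F(s) = (s-1)^δ L(s)` is entire, `-L'/L = ∑ c(n) n^(-s)`. -/
structure LD (δ : ℕ) (c : ℕ → ℂ) (F : ℂ → ℂ) : Prop where
  diff : Differentiable ℂ F
  c0 : ∀ n : ℕ, n ≤ 1 → c n = 0
  summ : ∀ σ : ℝ, 1 < σ → Summable fun n : ℕ => ‖c n‖ * (n : ℝ) ^ (-σ)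
  ne : ∀ s : ℂ, 1 < s.re → F s ≠ 0
  ld : ∀ s : ℂ, 1 < s.re → deriv F s / F s = δ / (s - 1) - ∑' n : ℕ, c n * (n : ℂ) ^ (-s)
  growth : ∃ A : ℝ, 1 ≤ A ∧ ∀ s : ℂ, 1 / 4 ≤ s.re → ‖F s‖ ≤ A * (2 + ‖s‖) ^ A
  lower : ∃ B : ℝ, 0 < B ∧ ∀ s : ℂ, 2 ≤ s.re → B ≤ ‖F s‖

variable {δ : ℕ} {c : ℕ → ℂ} {F : ℂ → ℂ}

theorem LD.re_le (h : LD δ c F) {ρ : ℂ} (hρ : F ρ = 0) : ρ.re ≤ 1 := by
  by_contra hc
  exact h.ne ρ (not_le.1 hc) hρ

/-- Zeros in a large disc. -/
theorem disc (h : LD δ c F) {a σ : ℝ} (ha : 1 / 2 < a) (haσ : a < σ) (hσ : σ ≤ 1) :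
    ∃ C : ℝ, 1 ≤ C ∧ ∀ H : ℝ, 1 ≤ H → ∃ (L : List ℂ) (G : ℂ → ℂ),
      (∀ ρ ∈ L, F ρ = 0 ∧ a ≤ ρ.re ∧ ρ.re ≤ 1) ∧
      (∀ ρ : ℂ, F ρ = 0 → σ ≤ ρ.re → |ρ.im| ≤ H → ρ ∈ L) ∧
      (L.length : ℝ) ≤ C * H ^ 4 ∧ Differentiable ℂ G ∧
      (∀ z : ℂ, σ ≤ z.re → z.re ≤ 2 → |z.im| ≤ H → G z ≠ 0 ∧ ‖deriv G z / G z‖ ≤ C * H ^ 8) ∧
      ∀ v : ℂ, F v = (L.map (fun r => v - r)).prod * G v := by
  obtain ⟨A, hA, hg⟩ := h.growth
  obtain ⟨B, hB, hl⟩ := h.lower
  set d : ℝ := (σ - a) / 2 with hd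
  have hd0 : 0 < d := by rw [hd]; linarith
  have hd1 : d ≤ 1 / 4 := by rw [hd]; linarith
  set C1 : ℝ := |Real.log (A / B)| + 4 * A with hC1
  have hC10 : 4 ≤ C1 := by
    have := abs_nonneg (Real.log (A / B))
    linarith
  set D : ℝ := 1 / d + 3 with hD
  have hD4 : 4 ≤ D := by
    have : 1 ≤ 1 / d := by rw [le_div_iff₀ hd0]; linarith
    linarith
  set C2 : ℝ := 8 * C1 * D ^ 2 with hC2
  set C3 : ℝ := 8 / d ^ 2 * (33 * C1 + 1) * D ^ 4 with hC3
  refine ⟨max 1 (max C2 C3), le_max_left _ _, fun H hH => ?_⟩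
  have hH0 : 0 < H := by linarith
  set R1 : ℝ := H ^ 2 / d + 3 with hR1
  have hR1d : H ^ 2 ≤ d * R1 := by
    have : d * R1 = H ^ 2 + 3 * d := by rw [hR1]; field_simp
    rw [this]; linarith
  have hR13 : 3 ≤ R1 := by
    have : 0 ≤ H ^ 2 / d := by positivity
    linarith
  have hR1D : R1 ≤ D * H ^ 2 := by
    have h1 : 1 ≤ H ^ 2 := by nlinarith
    have h2 : D * H ^ 2 = H ^ 2 / d + 3 * H ^ 2 := by rw [hD]; ring
    rw [h2, hR1]; linarith
  have hR10 : 0 < R1 := by linarith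
  set cc : ℂ := ((R1 + a : ℝ) : ℂ) with hcc
  have hccre : cc.re = R1 + a := Complex.ofReal_re _
  have hccim : cc.im = 0 := Complex.ofReal_im _
  have hFc : B ≤ ‖F cc‖ := hl cc (by rw [hccre]; linarith)
  have hFc0 : F cc ≠ 0 := by
    intro h0
    rw [h0, norm_zero] at hFc
    linarith
  obtain ⟨M, hM⟩ : ∃ M : ℝ, M = A * (4 * R1) ^ A := ⟨_, rfl⟩
  have hM0 : 0 < M := by rw [hM]; positivity
  have hbound : ∀ z ∈ Metric.closedBall cc (R1 + 1 / 4), ‖F z‖ ≤ M := by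
    intro z hz
    rw [Metric.mem_closedBall, dist_eq_norm] at hz
    have h1 : |(z - cc).re| ≤ R1 + 1 / 4 := (Complex.abs_re_le_norm _).trans hz
    rw [Complex.sub_re, hccre] at h1
    have h2 := (abs_le.1 h1).1
    have h3 : ‖z‖ ≤ 3 * R1 := by
      have h4 : ‖z‖ ≤ ‖z - cc‖ + ‖cc‖ := by
        have := norm_add_le (z - cc) cc
        rwa [sub_add_cancel] at this
      have h5 : ‖cc‖ = R1 + a := by
        rw [hcc, Complex.norm_real, Real.norm_eq_abs, abs_of_pos (by linarith)]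
      rw [h5] at h4
      linarith
    refine (hg z (by linarith)).trans ?_
    rw [hM]
    refine mul_le_mul_of_nonneg_left ?_ (by linarith)
    exact Real.rpow_le_rpow (by positivity) (by linarith) (by linarith)
  obtain ⟨L, G, h1, h2, h3, h4, h5, h6, h7⟩ := Pool.Agent.Y757.LL.landau2 F h.diff cc (r := R1 - d) (R1 := R1)
    (R2 := R1 + 1 / 4) (M := M) (by linarith) (by linarith) (by linarith) hFc0 hbound
  -- the logarithm
  have hlog : Real.log (M / ‖F cc‖) ≤ C1 * R1 := by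
    have h8 : M / ‖F cc‖ ≤ A / B * (4 * R1) ^ A := by
      rw [hM, div_mul_eq_mul_div]
      exact div_le_div_of_nonneg_left (by positivity) hB hFc
    have h9 : 0 < M / ‖F cc‖ := div_pos hM0 (lt_of_lt_of_le hB hFc)
    refine (Real.log_le_log h9 h8).trans ?_
    rw [Real.log_mul (by positivity) (by positivity), Real.log_rpow (by positivity)]
    have h10 : Real.log (4 * R1) ≤ 4 * R1 := (Real.log_le_sub_one_of_pos (by positivity)).trans (by linarith)
    have h11 := le_abs_self (Real.log (A / B))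
    have h12 := abs_nonneg (Real.log (A / B))
    have h13 : A * Real.log (4 * R1) ≤ A * (4 * R1) := mul_le_mul_of_nonneg_left h10 (by linarith)
    have h14 : |Real.log (A / B)| ≤ |Real.log (A / B)| * R1 := le_mul_of_one_le_right h12 (by linarith)
    rw [hC1]
    nlinarith
  have hlogR : 1 / (8 * R1) ≤ Real.log ((R1 + 1 / 4) / R1) := by
    have e : (R1 + 1 / 4) / R1 = 1 + 1 / (4 * R1) := by field_simp
    rw [e]
    have h8 : 0 < 1 / (4 * R1) := by positivity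
    have h9 : 1 / (4 * R1) ≤ 1 := by rw [div_le_one (by positivity)]; linarith
    have h10 := Real.one_sub_inv_le_log_of_pos (x := 1 + 1 / (4 * R1)) (by positivity)
    refine le_trans ?_ h10
    have h11 : 1 - (1 + 1 / (4 * R1))⁻¹ = (1 / (4 * R1)) / (1 + 1 / (4 * R1)) := by
      field_simp
      ring
    rw [h11, le_div_iff₀ (by positivity)]
    have h12 : 1 / (8 * R1) * (1 + 1 / (4 * R1)) ≤ 1 / (8 * R1) * 2 := by
      refine mul_le_mul_of_nonneg_left (by linarith) (by positivity)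
    refine h12.trans (le_of_eq ?_)
    field_simp
    norm_num
  have hlen : (L.length : ℝ) ≤ 8 * C1 * R1 ^ 2 := by
    have h8 : (L.length : ℝ) * (1 / (8 * R1)) ≤ C1 * R1 :=
      (mul_le_mul_of_nonneg_left hlogR (Nat.cast_nonneg _)).trans (h6.trans hlog)
    rw [mul_one_div, div_le_iff₀ (by positivity)] at h8
    refine h8.trans (le_of_eq ?_)
    ring
  have hH4 : (L.length : ℝ) ≤ C2 * H ^ 4 := by
    refine hlen.trans ?_
    have h8 : R1 ^ 2 ≤ (D * H ^ 2) ^ 2 := pow_le_pow_left₀ hR10.le hR1D 2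
    have h9 : (D * H ^ 2) ^ 2 = D ^ 2 * H ^ 4 := by ring
    rw [h9] at h8
    rw [hC2]
    have h10 : 8 * C1 * R1 ^ 2 ≤ 8 * C1 * (D ^ 2 * H ^ 4) := mul_le_mul_of_nonneg_left h8 (by positivity)
    linarith
  have hGb : 8 * R1 / (R1 - (R1 - d)) ^ 2 * (Real.log (M / ‖F cc‖) +
      L.length * |Real.log (R1 / (R1 + 1 / 4 - R1))| + 1) ≤ C3 * H ^ 8 := by
    have e1 : R1 - (R1 - d) = d := by ring
    have e2 : R1 / (R1 + 1 / 4 - R1) = 4 * R1 := by
      have : R1 + 1 / 4 - R1 = 1 / 4 := by ring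
      rw [this]; ring
    rw [e1, e2]
    have h8 : |Real.log (4 * R1)| ≤ 4 * R1 := by
      rw [abs_of_nonneg (Real.log_nonneg (by linarith))]
      exact (Real.log_le_sub_one_of_pos (by positivity)).trans (by linarith)
    have h9 : (L.length : ℝ) * |Real.log (4 * R1)| ≤ 8 * C1 * R1 ^ 2 * (4 * R1) :=
      mul_le_mul hlen h8 (abs_nonneg _) (by positivity)
    have h10 : Real.log (M / ‖F cc‖) + L.length * |Real.log (4 * R1)| + 1 ≤ (33 * C1 + 1) * R1 ^ 3 := by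
      have h11 : R1 ≤ R1 ^ 3 := by nlinarith [sq_nonneg (R1 - 1), sq_nonneg R1]
      have h12 : 1 ≤ R1 ^ 3 := by nlinarith
      have h13 : C1 * R1 ≤ C1 * R1 ^ 3 := mul_le_mul_of_nonneg_left h11 (by linarith)
      nlinarith
    have h14 : 8 * R1 / d ^ 2 * (Real.log (M / ‖F cc‖) + L.length * |Real.log (4 * R1)| + 1) ≤
        8 * R1 / d ^ 2 * ((33 * C1 + 1) * R1 ^ 3) := mul_le_mul_of_nonneg_left h10 (by positivity)
    refine h14.trans ?_
    have h15 : R1 ^ 4 ≤ (D * H ^ 2) ^ 4 := pow_le_pow_left₀ hR10.le hR1D 4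
    have h16 : 8 * R1 / d ^ 2 * ((33 * C1 + 1) * R1 ^ 3) = 8 / d ^ 2 * (33 * C1 + 1) * R1 ^ 4 := by ring
    rw [h16, hC3]
    have h17 : 8 / d ^ 2 * (33 * C1 + 1) * R1 ^ 4 ≤ 8 / d ^ 2 * (33 * C1 + 1) * (D * H ^ 2) ^ 4 :=
      mul_le_mul_of_nonneg_left h15 (by positivity)
    refine h17.trans (le_of_eq ?_)
    ring
  have hrect : ∀ z : ℂ, σ ≤ z.re → z.re ≤ 2 → |z.im| ≤ H → z ∈ Metric.closedBall cc (R1 - d) := by
    intro z hz1 hz2 hz3
    rw [Metric.mem_closedBall, dist_eq_norm]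
    have h8 : ‖z - cc‖ ^ 2 ≤ (R1 - d) ^ 2 := by
      rw [← Complex.normSq_eq_norm_sq, Complex.normSq_apply, Complex.sub_re, Complex.sub_im, hccre, hccim, sub_zero]
      have h9 : z.im * z.im ≤ H ^ 2 := by
        rw [← abs_mul_abs_self, sq]
        exact mul_self_le_mul_self (abs_nonneg _) hz3
      have h10 : (z.re - (R1 + a)) * (z.re - (R1 + a)) ≤ (R1 - 2 * d) ^ 2 := by
        have e1 : R1 - 2 * d = R1 + a - σ := by rw [hd]; ring
        have e2 : (z.re - (R1 + a)) * (z.re - (R1 + a)) = (R1 + a - z.re) * (R1 + a - z.re) := by ring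
        rw [e1, e2, sq]
        exact mul_self_le_mul_self (by linarith) (by linarith)
      have h11 : (R1 - d) ^ 2 = (R1 - 2 * d) ^ 2 + d * (R1 + (R1 - 3 * d)) := by ring
      have h12 : d * R1 ≤ d * (R1 + (R1 - 3 * d)) := mul_le_mul_of_nonneg_left (by linarith) hd0.le
      linarith
    exact (sq_le_sq₀ (norm_nonneg _) (by linarith)).1 h8
  refine ⟨L, G, fun ρ hρ => ?_, fun ρ hρ h8 h9 => ?_, ?_, h3, fun z hz1 hz2 hz3 => ?_, h5⟩
  · obtain ⟨h8, h9⟩ := h1 ρ hρ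
    refine ⟨h8, ?_, h.re_le h8⟩
    rw [Metric.mem_closedBall, dist_eq_norm] at h9
    have h10 : |(ρ - cc).re| ≤ R1 := (Complex.abs_re_le_norm _).trans h9
    rw [Complex.sub_re, hccre] at h10
    have := (abs_le.1 h10).1
    linarith
  · refine h2 ρ ?_ hρ
    refine Metric.closedBall_subset_closedBall (by linarith) (hrect ρ h8 ?_ h9)
    linarith [h.re_le hρ]
  · refine hH4.trans (mul_le_mul_of_nonneg_right ?_ (by positivity))
    exact (le_max_left _ _).trans (le_max_right _ _)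
  · have h8 := hrect z hz1 hz2 hz3
    refine ⟨h4 z (Metric.closedBall_subset_closedBall (by linarith) h8), (h7 z h8).trans (hGb.trans ?_)⟩
    exact mul_le_mul_of_nonneg_right ((le_max_right _ _).trans (le_max_right _ _)) (by positivity)

end Pool.Agent.Run7.h456.Win
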