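import Mathlib
import Pool.Agent.TH949.TX.Tools
import Pool.Agent.Run7.h456.Win.Disc

/-!
# The explicit formula with a Gaussian weight, with uniform error terms
-/

set_option autoImplicit false

open Complex MeasureTheory Set Filter Topology

namespace Pool.Agent.Run7.h456.Win

open Pool.Agent.TH949.TX (gk EE t_polar)
open Pool.Agent.TH113.TX.Shift (ee norm_ee EE_eq norm_EE ee_diff)
open Pool.Agent.TH443.TXSum (ee_int ee_cont ee_integral)

/-- Shifting a Gaussian weighted line integral from `Re w = 2` to `Re w = b`. -/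
theorem shiftq {k1 : ℝ → ℂ} {k : ℂ → ℂ} {b V κ Y B M : ℝ} (hκ : 0 < κ) (hb : 0 < b) (hb2 : b < 2)
    (hV : 0 < V) (hY : 0 ≤ Y) (hk1c : Continuous k1) (hk1 : ∀ v, ‖k1 v‖ ≤ B)
    (hk : ∀ w ∈ Icc b 2 ×ℂ Icc (-V) V, DifferentiableAt ℂ k w)
    (hM : ∀ w ∈ Icc b 2 ×ℂ Icc (-V) V, ‖k w‖ ≤ M)
    (heq : ∀ v ∈ Icc (-V) V, k (((2 : ℝ) : ℂ) + v * I) = k1 v) :
    ‖∫ v : ℝ, k1 v * EE κ Y 2 v‖ ≤ M * (2 * V) * Real.exp (4 * κ + b * Y) +
      4 * M * Real.exp (4 * κ - κ * V ^ 2 + 2 * Y) +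
      B * Real.exp (4 * κ + 2 * Y - κ * V ^ 2 / 2) * Real.sqrt (2 * Real.pi / κ) := by
  have hB : 0 ≤ B := (norm_nonneg _).trans (hk1 0)
  have hM0 : 0 ≤ M := by
    have h : ((b : ℂ) + (V : ℝ) * I) ∈ Icc b 2 ×ℂ Icc (-V) V := by
      rw [mem_reProdIm]
      simp only [add_re, ofReal_re, mul_re, I_re, mul_zero, ofReal_im, I_im, mul_one, sub_self,
        add_zero, add_im, mul_im, zero_add]
      exact ⟨⟨le_rfl, hb2.le⟩, ⟨by linarith, le_rfl⟩⟩
    exact (norm_nonneg _).trans (hM _ h)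
  obtain ⟨g, hg⟩ : ∃ g : ℝ → ℂ, g = fun v : ℝ => k1 v * EE κ Y 2 v := ⟨_, rfl⟩
  have hgc : Continuous g := by
    rw [hg]
    exact hk1c.mul (ee_cont _ _ _)
  have hint2 : Integrable (fun v : ℝ => B * Real.exp (4 * κ + 2 * Y) *
      Real.exp (-κ * v ^ 2)) := (integrable_exp_neg_mul_sq (by positivity)).const_mul _
  have hint : Integrable g := by
    refine hint2.mono' hgc.aestronglyMeasurable (Eventually.of_forall fun v => ?_)
    rw [hg]
    show ‖k1 v * EE κ Y 2 v‖ ≤ _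
    rw [norm_mul, norm_EE, mul_assoc B, ← Real.exp_add]
    have e : κ * ((2 : ℝ) ^ 2 - v ^ 2) + 2 * Y = 4 * κ + 2 * Y + -κ * v ^ 2 := by ring
    rw [e]
    exact mul_le_mul_of_nonneg_right (hk1 v) (Real.exp_pos _).le
  have hsplit : ∫ v : ℝ, g v = (∫ v in -V..V, g v) + ∫ v in (Ioc (-V) V)ᶜ, g v := by
    rw [intervalIntegral.integral_of_le (by linarith)]
    exact (integral_add_compl measurableSet_Ioc hint).symm
  have hgauss : ∫ v : ℝ, Real.exp (-(κ / 2) * v ^ 2) = Real.sqrt (2 * Real.pi / κ) := by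
    rw [integral_gaussian]
    congr 1
    field_simp
  have hout : ‖∫ v in (Ioc (-V) V)ᶜ, g v‖ ≤
      B * Real.exp (4 * κ + 2 * Y - κ * V ^ 2 / 2) * Real.sqrt (2 * Real.pi / κ) := by
    have hi : Integrable (fun v : ℝ => B * Real.exp (4 * κ + 2 * Y - κ * V ^ 2 / 2) *
        Real.exp (-(κ / 2) * v ^ 2)) := (integrable_exp_neg_mul_sq (by positivity)).const_mul _
    calc ‖∫ v in (Ioc (-V) V)ᶜ, g v‖ ≤ ∫ v in (Ioc (-V) V)ᶜ,
          B * Real.exp (4 * κ + 2 * Y - κ * V ^ 2 / 2) * Real.exp (-(κ / 2) * v ^ 2) := by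
          refine norm_integral_le_of_norm_le hi.integrableOn ?_
          refine (ae_restrict_iff' measurableSet_Ioc.compl).2 (Eventually.of_forall fun v hv => ?_)
          have hv2 : V ^ 2 ≤ v ^ 2 := by
            have h1 : ¬ (-V < v ∧ v ≤ V) := hv
            by_cases h2 : -V < v
            · have h3 : V < v := by
                by_contra h4
                exact h1 ⟨h2, not_lt.1 h4⟩
              nlinarith
            · have h3 : v ≤ -V := not_lt.1 h2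
              nlinarith
          rw [hg]
          show ‖k1 v * EE κ Y 2 v‖ ≤ _
          rw [norm_mul, norm_EE, mul_assoc B, ← Real.exp_add]
          refine mul_le_mul (hk1 v) (Real.exp_le_exp.2 ?_) (Real.exp_pos _).le hB
          have h5 : κ * V ^ 2 ≤ κ * v ^ 2 := mul_le_mul_of_nonneg_left hv2 hκ.le
          linarith
      _ ≤ ∫ v : ℝ, B * Real.exp (4 * κ + 2 * Y - κ * V ^ 2 / 2) * Real.exp (-(κ / 2) * v ^ 2) := by
          refine setIntegral_le_integral hi (Eventually.of_forall fun v => ?_)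
          show 0 ≤ B * Real.exp (4 * κ + 2 * Y - κ * V ^ 2 / 2) * Real.exp (-(κ / 2) * v ^ 2)
          positivity
      _ = _ := by
          rw [integral_const_mul, hgauss]
  -- the inner part
  obtain ⟨F, hF⟩ : ∃ F : ℂ → ℂ, F = fun w => k w * ee κ Y w := ⟨_, rfl⟩
  have hFd : DifferentiableOn ℂ F (Icc b 2 ×ℂ Icc (-V) V) := by
    intro w hw
    rw [hF]
    exact ((hk w hw).mul (ee_diff _ _ w)).differentiableWithinAt
  have hgF : ∫ v in -V..V, g v = ∫ v in -V..V, F (((2 : ℝ) : ℂ) + v * I) := by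
    refine intervalIntegral.integral_congr fun v hv => ?_
    rw [uIcc_of_le (by linarith)] at hv
    rw [hg, hF]
    show k1 v * EE κ Y 2 v = k (((2 : ℝ) : ℂ) + v * I) * ee κ Y (((2 : ℝ) : ℂ) + v * I)
    rw [heq v hv, EE_eq]
  have hrect := integral_boundary_rect_eq_zero_of_differentiableOn F ((b : ℂ) + (-V : ℝ) * I)
    (((2 : ℝ) : ℂ) + (V : ℝ) * I) (by
      have e1 : ((b : ℂ) + (-V : ℝ) * I).re = b := by simp
      have e2 : ((b : ℂ) + (-V : ℝ) * I).im = -V := by simp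
      have e3 : (((2 : ℝ) : ℂ) + (V : ℝ) * I).re = 2 := by simp
      have e4 : (((2 : ℝ) : ℂ) + (V : ℝ) * I).im = V := by simp
      rw [e1, e2, e3, e4, uIcc_of_le hb2.le, uIcc_of_le (by linarith)]
      exact hFd)
  have e1 : ((b : ℂ) + (-V : ℝ) * I).re = b := by simp
  have e2 : ((b : ℂ) + (-V : ℝ) * I).im = -V := by simp
  have e3 : (((2 : ℝ) : ℂ) + (V : ℝ) * I).re = 2 := by simp
  have e4 : (((2 : ℝ) : ℂ) + (V : ℝ) * I).im = V := by simp
  rw [e1, e2, e3, e4] at hrect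
  -- bounds of F
  have hFn : ∀ x v : ℝ, x ∈ Icc b 2 → v ∈ Icc (-V) V →
      ‖F ((x : ℂ) + v * I)‖ ≤ M * Real.exp (κ * (x ^ 2 - v ^ 2) + x * Y) := by
    intro x v hx hv
    rw [hF]
    show ‖k ((x : ℂ) + v * I) * ee κ Y ((x : ℂ) + v * I)‖ ≤ _
    rw [norm_mul, norm_ee]
    have r1 : ((x : ℂ) + v * I).re = x := by simp
    have r2 : ((x : ℂ) + v * I).im = v := by simp
    rw [r1, r2]
    refine mul_le_mul_of_nonneg_right (hM _ ?_) (Real.exp_pos _).le
    rw [mem_reProdIm, r1, r2]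
    exact ⟨hx, hv⟩
  have hleft : ‖∫ y in -V..V, F ((b : ℂ) + y * I)‖ ≤ M * (2 * V) * Real.exp (4 * κ + b * Y) := by
    have h := intervalIntegral.norm_integral_le_of_norm_le_const (a := -V) (b := V)
      (f := fun y : ℝ => F ((b : ℂ) + y * I)) (C := M * Real.exp (4 * κ + b * Y)) (by
        intro y hy
        rw [uIoc_of_le (by linarith)] at hy
        refine (hFn b y ⟨le_rfl, hb2.le⟩ ⟨hy.1.le, hy.2⟩).trans ?_
        refine mul_le_mul_of_nonneg_left (Real.exp_le_exp.2 ?_) hM0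
        have h5 : 0 ≤ κ * y ^ 2 := by positivity
        have h6 : b ^ 2 ≤ 4 := by nlinarith
        nlinarith)
    refine h.trans (le_of_eq ?_)
    rw [abs_of_pos (by linarith)]
    ring
  have hside : ∀ v : ℝ, v ∈ Icc (-V) V → v ^ 2 = V ^ 2 →
      ‖∫ x in b..2, F ((x : ℂ) + v * I)‖ ≤ 2 * M * Real.exp (4 * κ - κ * V ^ 2 + 2 * Y) := by
    intro v hv hv2
    have h := intervalIntegral.norm_integral_le_of_norm_le_const (a := b) (b := 2)
      (f := fun x : ℝ => F ((x : ℂ) + v * I)) (C := M * Real.exp (4 * κ - κ * V ^ 2 + 2 * Y)) (by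
        intro x hx
        rw [uIoc_of_le hb2.le] at hx
        refine (hFn x v ⟨hx.1.le, hx.2⟩ hv).trans ?_
        refine mul_le_mul_of_nonneg_left (Real.exp_le_exp.2 ?_) hM0
        have hxm : x ^ 2 ≤ 4 := by nlinarith [hx.1, hx.2]
        have h5 : κ * x ^ 2 ≤ κ * 4 := mul_le_mul_of_nonneg_left hxm hκ.le
        have h6 : 0 ≤ (2 - x) * Y := mul_nonneg (by linarith [hx.2]) hY
        rw [hv2]
        nlinarith)
    refine h.trans ?_
    rw [abs_of_pos (by linarith)]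
    have h7 : 0 ≤ M * Real.exp (4 * κ - κ * V ^ 2 + 2 * Y) := by positivity
    nlinarith
  have hs1 := hside V ⟨by linarith, le_rfl⟩ rfl
  have hs2 := hside (-V) ⟨le_rfl, by linarith⟩ (by ring)
  have hin : ‖∫ v in -V..V, g v‖ ≤
      M * (2 * V) * Real.exp (4 * κ + b * Y) + 4 * M * Real.exp (4 * κ - κ * V ^ 2 + 2 * Y) := by
    rw [hgF]
    have e : I • (∫ y in -V..V, F (((2 : ℝ) : ℂ) + y * I)) =
        I • (∫ y in -V..V, F ((b : ℂ) + y * I)) + (∫ x in b..2, F ((x : ℂ) + V * I)) -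
          ∫ x in b..2, F ((x : ℂ) + (-V : ℝ) * I) := by
      linear_combination hrect
    have h1 : ‖∫ y in -V..V, F (((2 : ℝ) : ℂ) + y * I)‖ =
        ‖I • (∫ y in -V..V, F (((2 : ℝ) : ℂ) + y * I))‖ := by
      rw [norm_smul, norm_I, one_mul]
    rw [h1, e]
    refine (norm_sub_le _ _).trans ?_
    have h2 := norm_add_le (I • (∫ y in -V..V, F ((b : ℂ) + y * I)))
      (∫ x in b..2, F ((x : ℂ) + V * I))
    rw [norm_smul, norm_I, one_mul] at h2
    linarith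
  show ‖∫ v : ℝ, k1 v * EE κ Y 2 v‖ ≤ _
  have e5 : (∫ v : ℝ, k1 v * EE κ Y 2 v) = ∫ v : ℝ, g v := by rw [hg]
  rw [e5, hsplit]
  refine (norm_add_le _ _).trans ?_
  linarith

/-- `∑ c(n) gk(log n - Y)` -/
noncomputable def Jc (c : ℕ → ℂ) (κ Y : ℝ) : ℂ := ∑' n : ℕ, c n * (gk κ (Real.log n - Y) : ℂ)

variable {δ : ℕ} {c : ℕ → ℂ} {F : ℂ → ℂ}

theorem gauss_line (h0 : ∀ n : ℕ, n ≤ 1 → c n = 0)
    (hs : Summable fun n : ℕ => ‖c n‖ * (n : ℝ) ^ (-(2 : ℝ))) {κ : ℝ} (hκ : 0 < κ) (Y : ℝ) :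
    Continuous (fun v : ℝ => ∑' n : ℕ, c n * (n : ℂ) ^ (-(((2 : ℝ) : ℂ) + v * I))) ∧
    (∀ v : ℝ, ‖∑' n : ℕ, c n * (n : ℂ) ^ (-(((2 : ℝ) : ℂ) + v * I))‖ ≤ ∑' n : ℕ, ‖c n‖ * (n : ℝ) ^ (-(2 : ℝ))) ∧
    Integrable (fun v : ℝ => (∑' n : ℕ, c n * (n : ℂ) ^ (-(((2 : ℝ) : ℂ) + v * I))) * EE κ Y 2 v) ∧
    ∫ v : ℝ, (∑' n : ℕ, c n * (n : ℂ) ^ (-(((2 : ℝ) : ℂ) + v * I))) * EE κ Y 2 v = 2 * Real.pi * Jc c κ Y := by
  have hcp : ∀ (n : ℕ) (v : ℝ), c n * (n : ℂ) ^ (-(((2 : ℝ) : ℂ) + v * I)) =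
      c n * cexp (-((((2 : ℝ) : ℂ) + v * I) * Real.log n)) := by
    intro n v
    rcases Nat.eq_zero_or_pos n with rfl | hn
    · rw [h0 0 (by norm_num), zero_mul, zero_mul]
    · have hn0 : (n : ℂ) ≠ 0 := by exact_mod_cast hn.ne'
      rw [Complex.cpow_def_of_ne_zero hn0, ← Complex.natCast_log]
      congr 2
      ring
  have hn : ∀ (n : ℕ) (v : ℝ), ‖c n * (n : ℂ) ^ (-(((2 : ℝ) : ℂ) + v * I))‖ = ‖c n‖ * (n : ℝ) ^ (-(2 : ℝ)) := by
    intro n v
    rcases Nat.eq_zero_or_pos n with rfl | hn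
    · rw [h0 0 (by norm_num)]
      simp
    · rw [norm_mul, Complex.norm_natCast_cpow_of_pos hn]
      congr 2
      simp
  have hcont : Continuous (fun v : ℝ => ∑' n : ℕ, c n * (n : ℂ) ^ (-(((2 : ℝ) : ℂ) + v * I))) := by
    refine continuous_tsum (fun n => ?_) hs fun n v => (hn n v).le
    simp_rw [hcp]
    fun_prop
  have hb : ∀ v : ℝ, ‖∑' n : ℕ, c n * (n : ℂ) ^ (-(((2 : ℝ) : ℂ) + v * I))‖ ≤
      ∑' n : ℕ, ‖c n‖ * (n : ℝ) ^ (-(2 : ℝ)) := by
    intro v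
    refine tsum_of_norm_bounded hs.hasSum fun i => ?_
    rw [hn]
  refine ⟨hcont, hb, ?_, ?_⟩
  · exact (ee_int hκ Y 2).bdd_mul hcont.aestronglyMeasurable (Eventually.of_forall hb)
  · have hterm : ∀ (n : ℕ) (v : ℝ), c n * (n : ℂ) ^ (-(((2 : ℝ) : ℂ) + v * I)) * EE κ Y 2 v =
        c n * EE κ (Y - Real.log n) 2 v := by
      intro n v
      rw [hcp, EE, EE, mul_assoc, ← Complex.exp_add]
      congr 2
      push_cast
      ring
    have hF : ∀ n : ℕ, Integrable (fun v : ℝ => c n * (n : ℂ) ^ (-(((2 : ℝ) : ℂ) + v * I)) * EE κ Y 2 v) := by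
      intro n
      simp_rw [hterm n]
      exact (ee_int hκ (Y - Real.log n) 2).const_mul _
    have hS : Summable fun n : ℕ => ∫ v : ℝ, ‖c n * (n : ℂ) ^ (-(((2 : ℝ) : ℂ) + v * I)) * EE κ Y 2 v‖ := by
      have : (fun n : ℕ => ∫ v : ℝ, ‖c n * (n : ℂ) ^ (-(((2 : ℝ) : ℂ) + v * I)) * EE κ Y 2 v‖) =
          fun n : ℕ => ‖c n‖ * (n : ℝ) ^ (-(2 : ℝ)) * ∫ v : ℝ, ‖EE κ Y 2 v‖ := by
        funext n
        rw [← integral_const_mul]
        refine integral_congr_ae (Eventually.of_forall fun v => ?_)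
        simp only
        rw [norm_mul, hn]
      rw [this]
      exact hs.mul_right _
    have h := hasSum_integral_of_summable_integral_norm hF hS
    have h1 : (fun v : ℝ => ∑' n : ℕ, c n * (n : ℂ) ^ (-(((2 : ℝ) : ℂ) + v * I)) * EE κ Y 2 v) =
        fun v : ℝ => (∑' n : ℕ, c n * (n : ℂ) ^ (-(((2 : ℝ) : ℂ) + v * I))) * EE κ Y 2 v := by
      funext v
      rw [tsum_mul_right]
    rw [h1] at h
    rw [← h.tsum_eq, Jc, ← tsum_mul_left]
    refine tsum_congr fun n => ?_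
    simp_rw [hterm n]
    rw [integral_const_mul, ee_integral hκ]
    have h2 : gk κ (Y - Real.log n) = gk κ (Real.log n - Y) := by
      rw [gk, gk]
      congr 4
      ring
    rw [h2]
    ring

theorem ld_list (L : List ℂ) {G : ℂ → ℂ} (hG : Differentiable ℂ G) {s : ℂ} (hs : ∀ r ∈ L, s ≠ r)
    (hG0 : G s ≠ 0) :
    logDeriv (fun v => (L.map (fun r => v - r)).prod * G v) s =
      (L.map (fun r => (s - r)⁻¹)).sum + logDeriv G s ∧ (L.map (fun r => s - r)).prod * G s ≠ 0 ∧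
      Differentiable ℂ (fun v => (L.map (fun r => v - r)).prod * G v) := by
  induction L with
  | nil => simp [hG0, hG]
  | cons a L ih =>
    obtain ⟨h1, h2, h3⟩ := ih (fun r hr => hs r (List.mem_cons_of_mem _ hr))
    have ha : s - a ≠ 0 := sub_ne_zero.2 (hs a List.mem_cons_self)
    have e : (fun v => ((a :: L).map (fun r => v - r)).prod * G v) =
        fun v => (v - a) * ((L.map (fun r => v - r)).prod * G v) := by
      funext v
      rw [List.map_cons, List.prod_cons, mul_assoc]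
    have hd : Differentiable ℂ (fun v : ℂ => v - a) := by fun_prop
    refine ⟨?_, ?_, ?_⟩
    · rw [e, logDeriv_mul s ha h2 (hd s) (h3 s), h1, List.map_cons, List.sum_cons]
      have : logDeriv (fun v : ℂ => v - a) s = (s - a)⁻¹ := by
        rw [logDeriv_apply, deriv_sub_const, deriv_id'', one_div]
      rw [this, add_assoc]
    · rw [List.map_cons, List.prod_cons, mul_assoc]
      exact mul_ne_zero ha h2
    · rw [e]
      exact hd.mul h3

end Pool.Agent.Run7.h456.Win
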