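import Mathlib
import Pool.Agent.Run7.h456.Win.Gauss

/-!
# The explicit formula
-/

set_option autoImplicit false

open Complex MeasureTheory Set Filter Topology

namespace Pool.Agent.Run7.h456.Win

open Pool.Agent.TH949.TX (gk EE t_polar)
open Pool.Agent.TH443.TXSum (ee_int ee_cont ee_integral)

variable {δ : ℕ} {c : ℕ → ℂ} {F : ℂ → ℂ}

theorem list_int (L : List ℂ) (f : ℂ → ℝ → ℂ) (h : ∀ r ∈ L, Integrable (f r)) :
    Integrable (fun v => (L.map (fun r => f r v)).sum) ∧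
      ∫ v, (L.map (fun r => f r v)).sum = (L.map (fun r => ∫ v, f r v)).sum := by
  induction L with
  | nil => simp
  | cons a L ih =>
    obtain ⟨h1, h2⟩ := ih fun r hr => h r (List.mem_cons_of_mem _ hr)
    have h3 := h a List.mem_cons_self
    simp only [List.map_cons, List.sum_cons]
    exact ⟨h3.add h1, by rw [integral_add h3 h1, h2]⟩

theorem list_sub_le (L : List ℂ) (f g : ℂ → ℂ) {E : ℝ} (h : ∀ r ∈ L, ‖f r - g r‖ ≤ E) :
    ‖(L.map f).sum - (L.map g).sum‖ ≤ L.length * E := by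
  induction L with
  | nil => simp
  | cons a L ih =>
    have h1 := ih fun r hr => h r (List.mem_cons_of_mem _ hr)
    have h2 := h a List.mem_cons_self
    simp only [List.map_cons, List.sum_cons, List.length_cons]
    have e : f a + (L.map f).sum - (g a + (L.map g).sum) = (f a - g a) + ((L.map f).sum - (L.map g).sum) := by ring
    rw [e]
    refine (norm_add_le _ _).trans ?_
    push_cast
    linarith

theorem list_norm_le (L : List ℂ) (f : ℂ → ℂ) {E : ℝ} (h : ∀ r ∈ L, ‖f r‖ ≤ E) :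
    ‖(L.map f).sum‖ ≤ L.length * E := by
  induction L with
  | nil => simp
  | cons a L ih =>
    have h1 := ih fun r hr => h r (List.mem_cons_of_mem _ hr)
    have h2 := h a List.mem_cons_self
    simp only [List.map_cons, List.sum_cons, List.length_cons]
    refine (norm_add_le _ _).trans ?_
    push_cast
    linarith

theorem list_mul_sum (L : List ℂ) (f : ℂ → ℂ) (k : ℂ) :
    (L.map (fun r => k * f r)).sum = k * (L.map f).sum := by
  induction L with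
  | nil => simp
  | cons a L ih => simp only [List.map_cons, List.sum_cons, ih]; ring

/-- **The explicit formula.** -/
theorem expl (h : LD δ c F) {a σ : ℝ} (ha : 1 / 2 < a) (haσ : a < σ) (hσ : σ ≤ 1) :
    ∃ C : ℝ, 1 ≤ C ∧ ∀ H : ℝ, 1 ≤ H → ∃ L : List ℂ,
      (∀ ρ ∈ L, F ρ = 0 ∧ a ≤ ρ.re ∧ ρ.re ≤ 1) ∧
      (∀ ρ : ℂ, F ρ = 0 → σ ≤ ρ.re → |ρ.im| ≤ H → ρ ∈ L) ∧
      (L.length : ℝ) ≤ C * H ^ 4 ∧
      ∀ κ Y : ℝ, 0 < κ → κ ≤ 1 → 0 ≤ Y → 4 * Y ≤ κ * H ^ 2 →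
        ‖Jc c κ Y - δ * cexp (κ + Y) + (L.map (fun ρ => cexp (κ * ρ ^ 2 + ρ * Y))).sum‖ ≤
          C * H ^ 9 / κ * Real.exp (σ * Y) := by
  obtain ⟨C0, hC0, hdisc⟩ := disc h ha haσ hσ
  set K : ℝ := ∑' n : ℕ, ‖c n‖ * (n : ℝ) ^ (-(2 : ℝ)) with hK
  have hK0 : 0 ≤ K := tsum_nonneg fun n => by positivity
  have hδ0 : (0 : ℝ) ≤ δ := Nat.cast_nonneg _
  refine ⟨500 * (C0 + K + δ + 1), by linarith, fun H hH => ?_⟩
  obtain ⟨L, G, h1, h2, h3, h4, h5, h6⟩ := hdisc H hH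
  have hH0 : 0 < H := by linarith
  refine ⟨L, h1, h2, h3.trans (mul_le_mul_of_nonneg_right (by linarith) (by positivity)), ?_⟩
  intro κ Y hκ hκ1 hY hYH
  have hpi := Real.pi_pos
  -- the line `Re s = 2`
  have hF0 : ∀ v : ℝ, F (((2 : ℝ) : ℂ) + v * I) ≠ 0 := fun v => h.ne _ (by simp)
  have hG0 : ∀ v : ℝ, G (((2 : ℝ) : ℂ) + v * I) ≠ 0 := by
    intro v h0
    apply hF0 v
    rw [h6, h0, mul_zero]
  have hre : ∀ v : ℝ, (((2 : ℝ) : ℂ) + v * I).re = 2 := fun v => by simp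
  have hLne : ∀ v : ℝ, ∀ r ∈ L, (((2 : ℝ) : ℂ) + v * I) ≠ r := by
    intro v r hr h0
    have := (h1 r hr).2.2
    rw [← h0, hre] at this
    linarith
  set Z : ℝ → ℂ := fun v => ∑' n : ℕ, c n * (n : ℂ) ^ (-(((2 : ℝ) : ℂ) + v * I)) with hZ
  obtain ⟨g1, g2, g3, g4⟩ := gauss_line (c := c) h.c0 (h.summ 2 (by norm_num)) hκ Y
  set k1 : ℝ → ℂ := fun v => logDeriv G (((2 : ℝ) : ℂ) + v * I) with hk1
  have hfun : F = fun v => (L.map (fun r => v - r)).prod * G v := funext h6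
  have hk : ∀ v : ℝ, k1 v = δ / (((2 : ℝ) : ℂ) + v * I - 1) - Z v -
      (L.map (fun r => ((((2 : ℝ) : ℂ) + v * I) - r)⁻¹)).sum := by
    intro v
    have e1 := h.ld (((2 : ℝ) : ℂ) + v * I) (by rw [hre]; norm_num)
    have e2 := (ld_list L h4 (hLne v) (hG0 v)).1
    rw [← hfun, logDeriv_apply, e1] at e2
    rw [hk1, hZ]
    simp only
    linear_combination -e2
  have hn1 : ∀ (v : ℝ) (r : ℂ), r.re ≤ 1 → ‖((((2 : ℝ) : ℂ) + v * I) - r)⁻¹‖ ≤ 1 := by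
    intro v r hr
    rw [norm_inv]
    refine inv_le_one_of_one_le₀ ?_
    refine le_trans ?_ (Complex.re_le_norm _)
    rw [Complex.sub_re, hre]
    linarith
  have hk1b : ∀ v : ℝ, ‖k1 v‖ ≤ K + δ + C0 * H ^ 4 := by
    intro v
    rw [hk v]
    have e1 := g2 v
    have e2 : ‖(δ : ℂ) / (((2 : ℝ) : ℂ) + v * I - 1)‖ ≤ δ := by
      rw [div_eq_mul_inv, norm_mul, Complex.norm_natCast]
      have := hn1 v 1 (by simp)
      exact mul_le_of_le_one_right hδ0 this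
    have e3 := list_norm_le L (fun r => ((((2 : ℝ) : ℂ) + v * I) - r)⁻¹) (E := 1)
      fun r hr => hn1 v r (h1 r hr).2.2
    refine (norm_sub_le _ _).trans ?_
    have e4 := norm_sub_le ((δ : ℂ) / (((2 : ℝ) : ℂ) + v * I - 1)) (Z v)
    have e5 : ‖Z v‖ ≤ K := e1
    linarith
  have hGd : ∀ z : ℂ, DifferentiableAt ℂ (deriv G) z := fun z => (h4.analyticAt z).deriv.differentiableAt
  have hk1c : Continuous k1 := by
    rw [hk1, continuous_iff_continuousAt]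
    intro v
    have e1 : ContinuousAt (fun s : ℂ => deriv G s / G s) (((2 : ℝ) : ℂ) + v * I) :=
      (hGd _).continuousAt.div (h4 _).continuousAt (hG0 v)
    exact ContinuousAt.comp (f := fun v : ℝ => ((2 : ℝ) : ℂ) + v * I) e1 (by fun_prop)
  have hmem : ∀ w ∈ Icc σ 2 ×ℂ Icc (-H) H, G w ≠ 0 ∧ ‖deriv G w / G w‖ ≤ C0 * H ^ 8 := by
    intro w hw
    obtain ⟨hw1, hw2⟩ := Complex.mem_reProdIm.1 hw
    exact h5 w hw1.1 hw1.2 (abs_le.2 ⟨hw2.1, hw2.2⟩)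
  have hsh := shiftq (k1 := k1) (k := logDeriv G) (b := σ) (V := H) (κ := κ) (Y := Y)
    (B := K + δ + C0 * H ^ 4) (M := C0 * H ^ 8) hκ (by linarith) (by linarith) hH0 hY hk1c hk1b
    (fun w hw => (hGd w).div (h4 w) (hmem w hw).1) (fun w hw => (hmem w hw).2) (fun v _ => rfl)
  -- the polar parts
  have hpol1 := t_polar (κ := κ) (a := 2) hκ (z := 1) (by simp) (by simp) Y
  have hpol : ∀ r ∈ L, _ := fun r hr => t_polar (κ := κ) (a := 2) hκ (z := r)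
    (by linarith [(h1 r hr).2.1]) (by linarith [(h1 r hr).2.2]) Y
  have hi1 : Integrable fun v : ℝ => (δ : ℂ) * (EE κ Y 2 v / (((2 : ℝ) : ℂ) + v * I - 1)) := hpol1.1.const_mul _
  obtain ⟨l1, l2⟩ := list_int L (fun r v => EE κ Y 2 v / (((2 : ℝ) : ℂ) + v * I - r)) fun r hr => (hpol r hr).1
  have hik : Integrable fun v : ℝ => k1 v * EE κ Y 2 v :=
    (ee_int hκ Y 2).bdd_mul hk1c.aestronglyMeasurable (Eventually.of_forall hk1b)
  have hdec : ∀ v : ℝ, Z v * EE κ Y 2 v = (δ : ℂ) * (EE κ Y 2 v / (((2 : ℝ) : ℂ) + v * I - 1)) -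
      (L.map (fun r => EE κ Y 2 v / (((2 : ℝ) : ℂ) + v * I - r))).sum - k1 v * EE κ Y 2 v := by
    intro v
    have e1 : (L.map (fun r => EE κ Y 2 v / (((2 : ℝ) : ℂ) + v * I - r))).sum =
        EE κ Y 2 v * (L.map (fun r => ((((2 : ℝ) : ℂ) + v * I) - r)⁻¹)).sum := by
      rw [← list_mul_sum]
      simp only [div_eq_mul_inv]
    rw [e1, hk v]
    ring
  have hJ : 2 * Real.pi * Jc c κ Y = (δ : ℂ) * (∫ v : ℝ, EE κ Y 2 v / (((2 : ℝ) : ℂ) + v * I - 1)) -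
      (L.map (fun r => ∫ v : ℝ, EE κ Y 2 v / (((2 : ℝ) : ℂ) + v * I - r))).sum - ∫ v : ℝ, k1 v * EE κ Y 2 v := by
    have hi2 : Integrable fun v : ℝ => (δ : ℂ) * (EE κ Y 2 v / (((2 : ℝ) : ℂ) + v * I - 1)) -
      (L.map (fun r => EE κ Y 2 v / (((2 : ℝ) : ℂ) + v * I - r))).sum := hi1.sub l1
    rw [← g4, ← l2, ← integral_const_mul, ← integral_sub hi1 l1, ← integral_sub hi2 hik]
    exact integral_congr_ae (Eventually.of_forall hdec)
  have hdiff : 2 * (Real.pi : ℂ) * (Jc c κ Y - δ * cexp (κ + Y) + (L.map (fun ρ => cexp (κ * ρ ^ 2 + ρ * Y))).sum) =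
      (δ : ℂ) * ((∫ v : ℝ, EE κ Y 2 v / (((2 : ℝ) : ℂ) + v * I - 1)) - 2 * Real.pi * cexp (κ * 1 ^ 2 + 1 * Y)) -
      ((L.map (fun r => ∫ v : ℝ, EE κ Y 2 v / (((2 : ℝ) : ℂ) + v * I - r))).sum -
        (L.map (fun ρ => 2 * Real.pi * cexp (κ * ρ ^ 2 + ρ * Y))).sum) - ∫ v : ℝ, k1 v * EE κ Y 2 v := by
    rw [list_mul_sum, one_pow, mul_one, one_mul]
    linear_combination hJ
  have hb1 := hpol1.2
  have hb2 := list_sub_le L (fun r => ∫ v : ℝ, EE κ Y 2 v / (((2 : ℝ) : ℂ) + v * I - r))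
    (fun ρ => 2 * Real.pi * cexp (κ * ρ ^ 2 + ρ * Y)) (E := 2 * Real.pi * Real.exp (κ - Y))
    fun r hr => (hpol r hr).2
  have hnorm : 2 * Real.pi * ‖Jc c κ Y - δ * cexp (κ + Y) + (L.map (fun ρ => cexp (κ * ρ ^ 2 + ρ * Y))).sum‖ ≤
      δ * (2 * Real.pi * Real.exp (κ - Y)) + L.length * (2 * Real.pi * Real.exp (κ - Y)) +
        ‖∫ v : ℝ, k1 v * EE κ Y 2 v‖ := by
    have e1 : ‖2 * (Real.pi : ℂ)‖ = 2 * Real.pi := by
      rw [norm_mul, Complex.norm_real, Real.norm_eq_abs, abs_of_pos hpi]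
      norm_num
    rw [← e1, ← norm_mul, hdiff]
    refine (norm_sub_le _ _).trans ?_
    refine add_le_add ?_ le_rfl
    refine (norm_sub_le _ _).trans ?_
    rw [e1]
    refine add_le_add ?_ hb2
    rw [norm_mul, Complex.norm_natCast]
    exact mul_le_mul_of_nonneg_left hb1 hδ0
  -- numerical bounds
  obtain ⟨N, hN⟩ : ∃ N : ℝ, N = ‖Jc c κ Y - δ * cexp (κ + Y) + (L.map (fun ρ => cexp (κ * ρ ^ 2 + ρ * Y))).sum‖ :=
    ⟨_, rfl⟩
  rw [← hN] at hnorm ⊢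
  obtain ⟨X, hX⟩ : ∃ X : ℝ, X = Real.exp (σ * Y) := ⟨_, rfl⟩
  have hX1 : 1 ≤ X := by rw [hX]; exact Real.one_le_exp (mul_nonneg (by linarith) hY)
  have he4 : Real.exp 4 ≤ 55 := by
    have := Real.exp_one_lt_d9
    have e : Real.exp 4 = Real.exp 1 ^ 4 := by rw [← Real.exp_nat_mul]; norm_num
    rw [e]
    have h7 : Real.exp 1 ^ 4 ≤ 2.7182818286 ^ 4 := pow_le_pow_left₀ (Real.exp_pos _).le this.le 4
    exact h7.trans (by norm_num)
  have he1 : Real.exp 1 ≤ 3 := by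
    have := Real.exp_one_lt_d9
    linarith
  have a1 : Real.exp (4 * κ + σ * Y) ≤ 55 * X := by
    rw [Real.exp_add, ← hX]
    refine mul_le_mul_of_nonneg_right ((Real.exp_le_exp.2 ?_).trans he4) (by linarith)
    linarith
  have a2 : Real.exp (4 * κ - κ * H ^ 2 + 2 * Y) ≤ 55 := (Real.exp_le_exp.2 (by linarith)).trans he4
  have a3 : Real.exp (4 * κ + 2 * Y - κ * H ^ 2 / 2) ≤ 55 := (Real.exp_le_exp.2 (by linarith)).trans he4
  have a4 : Real.sqrt (2 * Real.pi / κ) ≤ 3 / κ := by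
    rw [Real.sqrt_le_left (by positivity), div_pow, div_le_div_iff₀ hκ (by positivity)]
    have h7 : Real.pi < 3.15 := Real.pi_lt_d2
    have h8 : κ ^ 2 ≤ κ := by nlinarith
    have h9 : 2 * Real.pi * κ ^ 2 ≤ 2 * Real.pi * κ := mul_le_mul_of_nonneg_left h8 (by positivity)
    nlinarith
  have a5 : Real.exp (κ - Y) ≤ 3 := (Real.exp_le_exp.2 (by linarith)).trans he1
  have hH4 : H ^ 4 ≤ H ^ 9 := pow_le_pow_right₀ hH (by norm_num)
  have hH8 : H ^ 8 ≤ H ^ 9 := pow_le_pow_right₀ hH (by norm_num)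
  have hH9 : 1 ≤ H ^ 9 := one_le_pow₀ hH
  obtain ⟨P, hP⟩ : ∃ P : ℝ, P = H ^ 9 / κ := ⟨_, rfl⟩
  have hPκ : H ^ 9 ≤ P := by
    rw [hP, le_div_iff₀ hκ]
    exact mul_le_of_le_one_right (by positivity) hκ1
  have hP1 : 1 / κ ≤ P := by
    rw [hP]
    exact div_le_div_of_nonneg_right hH9 hκ.le
  have hP2 : H ^ 4 * (1 / κ) ≤ P := by
    rw [hP, mul_one_div]
    exact div_le_div_of_nonneg_right hH4 hκ.le
  have hP0 : 1 ≤ P := hH9.trans hPκ
  have b1 : C0 * H ^ 8 * (2 * H) * Real.exp (4 * κ + σ * Y) ≤ 110 * C0 * (P * X) := by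
    have e1 : C0 * H ^ 8 * (2 * H) = 2 * C0 * H ^ 9 := by ring
    rw [e1]
    calc 2 * C0 * H ^ 9 * Real.exp (4 * κ + σ * Y) ≤ 2 * C0 * P * (55 * X) := by gcongr
      _ = _ := by ring
  have b2 : 4 * (C0 * H ^ 8) * Real.exp (4 * κ - κ * H ^ 2 + 2 * Y) ≤ 220 * C0 * (P * X) := by
    calc 4 * (C0 * H ^ 8) * Real.exp (4 * κ - κ * H ^ 2 + 2 * Y) ≤ 4 * (C0 * P) * 55 := by
          gcongr
          exact hH8.trans hPκ
      _ = 220 * C0 * (P * 1) := by ring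
      _ ≤ _ := by gcongr
  have b3 : (K + δ + C0 * H ^ 4) * Real.exp (4 * κ + 2 * Y - κ * H ^ 2 / 2) * Real.sqrt (2 * Real.pi / κ) ≤
      165 * (K + δ + C0) * (P * X) := by
    have e1 : (K + δ + C0 * H ^ 4) * (3 / κ) ≤ 3 * (K + δ + C0) * P := by
      have e2 : (K + δ + C0 * H ^ 4) * (3 / κ) = 3 * ((K + δ) * (1 / κ) + C0 * (H ^ 4 * (1 / κ))) := by ring
      rw [e2]
      have e3 : (K + δ) * (1 / κ) ≤ (K + δ) * P := mul_le_mul_of_nonneg_left hP1 (by positivity)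
      have e4 : C0 * (H ^ 4 * (1 / κ)) ≤ C0 * P := mul_le_mul_of_nonneg_left hP2 (by linarith)
      linarith
    calc (K + δ + C0 * H ^ 4) * Real.exp (4 * κ + 2 * Y - κ * H ^ 2 / 2) * Real.sqrt (2 * Real.pi / κ)
        ≤ (K + δ + C0 * H ^ 4) * 55 * (3 / κ) := by gcongr
      _ = 55 * ((K + δ + C0 * H ^ 4) * (3 / κ)) := by ring
      _ ≤ 55 * (3 * (K + δ + C0) * P) := by gcongr
      _ = 165 * (K + δ + C0) * (P * 1) := by ring
      _ ≤ _ := by gcongr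
  have b4 : (δ + (L.length : ℝ)) * Real.exp (κ - Y) ≤ 3 * (δ + C0) * (P * X) := by
    have e1 : (δ + (L.length : ℝ)) ≤ (δ + C0) * P := by
      have e2 : (L.length : ℝ) ≤ C0 * P := h3.trans (by
        refine mul_le_mul_of_nonneg_left (hH4.trans hPκ) (by linarith))
      have e3 : (δ : ℝ) ≤ δ * P := le_mul_of_one_le_right hδ0 hP0
      linarith
    calc (δ + (L.length : ℝ)) * Real.exp (κ - Y) ≤ (δ + C0) * P * 3 := by gcongr
      _ = 3 * (δ + C0) * (P * 1) := by ring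
      _ ≤ _ := by gcongr
  have hfin : 2 * Real.pi * N ≤ 2 * Real.pi * (3 * (δ + C0) * (P * X)) + (110 * C0 * (P * X) +
      220 * C0 * (P * X) + 165 * (K + δ + C0) * (P * X)) := by
    have e1 : δ * (2 * Real.pi * Real.exp (κ - Y)) + L.length * (2 * Real.pi * Real.exp (κ - Y)) =
        2 * Real.pi * ((δ + (L.length : ℝ)) * Real.exp (κ - Y)) := by ring
    rw [e1] at hnorm
    have e2 : 2 * Real.pi * ((δ + (L.length : ℝ)) * Real.exp (κ - Y)) ≤ 2 * Real.pi * (3 * (δ + C0) * (P * X)) :=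
      mul_le_mul_of_nonneg_left b4 (by positivity)
    linarith
  have hPX : 0 ≤ P * X := by positivity
  have hpi3 : 3 < Real.pi := Real.pi_gt_three
  have hN2 : N ≤ 500 * (C0 + K + δ + 1) * (P * X) := by
    by_contra hcon
    rw [not_le] at hcon
    have h8 : 2 * Real.pi * (500 * (C0 + K + δ + 1) * (P * X)) < 2 * Real.pi * N := by
      refine mul_lt_mul_of_pos_left hcon (by positivity)
    have h9 : 0 ≤ (110 * C0 + 220 * C0 + 165 * (K + δ + C0)) * (P * X) * (2 * Real.pi - 1) := by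
      refine mul_nonneg (by positivity) (by linarith)
    have h10 : 0 ≤ 2 * Real.pi * ((5 * C0 + 335 * K + 332 * δ + 500) * (P * X)) := by positivity
    nlinarith
  refine hN2.trans (le_of_eq ?_)
  rw [hP, hX]
  ring

end Pool.Agent.Run7.h456.Win
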