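import Mathlib

/-!
# A power sum inequality of Turan type

If the sums `∑ b(z) z^k` over a finite set `V` are small for `card V` consecutive exponents `k = m, …`, then the
sum of the `b(z)` over the `z` outside a circle which does not pass near the points of `V` is small.
-/

set_option autoImplicit false

open Complex Finset

namespace Pool.Agent.Run7.h456.Win

/-- the numerator of `∑ b(z) z^m / (w - z)` -/
noncomputable def Num (m : ℕ) (V : Finset ℂ) (b : ℂ → ℂ) (w : ℂ) : ℂ :=
  ∑ z ∈ V, b z * z ^ m * ∏ z' ∈ V.erase z, (w - z')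

theorem num_insert {m : ℕ} {a : ℂ} {V : Finset ℂ} (ha : a ∉ V) (b : ℂ → ℂ) (w : ℂ) :
    Num m (insert a V) b w = (∏ z' ∈ V, (w - z')) * (∑ z ∈ insert a V, b z * z ^ m) +
      Num m V (fun z => b z * (z - a)) w := by
  unfold Num
  rw [Finset.sum_insert ha, Finset.erase_insert ha, Finset.sum_insert ha]
  have h1 : ∀ z ∈ V, b z * z ^ m * ∏ z' ∈ (insert a V).erase z, (w - z') =
      (∏ z' ∈ V, (w - z')) * (b z * z ^ m) + b z * (z - a) * z ^ m * ∏ z' ∈ V.erase z, (w - z') := by
    intro z hz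
    have hza : z ≠ a := fun h => ha (h ▸ hz)
    rw [Finset.erase_insert_of_ne hza.symm, Finset.prod_insert (by
      intro h
      exact ha (Finset.mem_of_mem_erase h)), ← Finset.mul_prod_erase V (fun z' => w - z') hz]
    ring
  rw [Finset.sum_congr rfl h1, Finset.sum_add_distrib, ← Finset.mul_sum]
  ring

theorem norm_num_le {m : ℕ} {R : ℝ} (hR : 0 ≤ R) (w : ℂ) (V : Finset ℂ) (hV : ∀ z ∈ V, ‖z‖ ≤ R) :
    ∀ (b : ℂ → ℂ) (M : ℝ), 0 ≤ M → (∀ j < V.card, ‖∑ z ∈ V, b z * z ^ (m + j)‖ ≤ M) →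
      ‖Num m V b w‖ ≤ (2 + ‖w‖ + R) ^ V.card * M := by
  classical
  induction V using Finset.induction_on with
  | empty =>
    intro b M hM _
    simp [Num, hM]
  | insert a V ha ih =>
    intro b M hM h
    have hV' : ∀ z ∈ V, ‖z‖ ≤ R := fun z hz => hV z (Finset.mem_insert_of_mem hz)
    have haR : ‖a‖ ≤ R := hV a (Finset.mem_insert_self _ _)
    rw [Finset.card_insert_of_notMem ha] at h ⊢
    have h1 : ∀ j < V.card, ‖∑ z ∈ V, b z * (z - a) * z ^ (m + j)‖ ≤ (1 + R) * M := by
      intro j hj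
      have e : ∑ z ∈ V, b z * (z - a) * z ^ (m + j) =
          (∑ z ∈ insert a V, b z * z ^ (m + (j + 1))) - a * ∑ z ∈ insert a V, b z * z ^ (m + j) := by
        rw [Finset.sum_insert ha, Finset.sum_insert ha, mul_add, Finset.mul_sum]
        have : ∑ z ∈ V, b z * (z - a) * z ^ (m + j) =
            ∑ z ∈ V, b z * z ^ (m + (j + 1)) - ∑ z ∈ V, a * (b z * z ^ (m + j)) := by
          rw [← Finset.sum_sub_distrib]
          refine Finset.sum_congr rfl fun z _ => ?_
          rw [← add_assoc, pow_succ]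
          ring
        rw [this, ← add_assoc, pow_succ]
        ring
      rw [e]
      refine (norm_sub_le _ _).trans ?_
      rw [norm_mul]
      have h2 := h (j + 1) (by omega)
      have h3 := h j (by omega)
      have h4 : ‖a‖ * ‖∑ z ∈ insert a V, b z * z ^ (m + j)‖ ≤ R * M :=
        mul_le_mul haR h3 (norm_nonneg _) hR
      linarith
    have h2 := ih hV' (fun z => b z * (z - a)) ((1 + R) * M) (by positivity) h1
    rw [num_insert ha]
    have h3 : ‖∏ z' ∈ V, (w - z')‖ ≤ (2 + ‖w‖ + R) ^ V.card := by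
      rw [norm_prod]
      refine (Finset.prod_le_prod (fun i _ => norm_nonneg _) (g := fun _ => 2 + ‖w‖ + R) fun z hz => ?_).trans ?_
      · refine (norm_sub_le _ _).trans ?_
        have := hV' z hz
        linarith
      · simp
    have h4 : ‖∑ z ∈ insert a V, b z * z ^ m‖ ≤ M := by
      have := h 0 (by omega)
      simpa using this
    refine (norm_add_le _ _).trans ?_
    rw [norm_mul]
    have hw := norm_nonneg w
    have hK : 0 ≤ (2 + ‖w‖ + R) ^ V.card := by positivity
    calc ‖∏ z' ∈ V, (w - z')‖ * ‖∑ z ∈ insert a V, b z * z ^ m‖ + ‖Num m V (fun z => b z * (z - a)) w‖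
        ≤ (2 + ‖w‖ + R) ^ V.card * M + (2 + ‖w‖ + R) ^ V.card * ((1 + R) * M) :=
          add_le_add (mul_le_mul h3 h4 (norm_nonneg _) hK) h2
      _ = (2 + ‖w‖ + R) ^ V.card * ((2 + R) * M) := by ring
      _ ≤ (2 + ‖w‖ + R) ^ V.card * ((2 + ‖w‖ + R) * M) := by gcongr; linarith
      _ = _ := by ring

/-! ### the integrals over a circle -/

theorem int_inv_pow {r : ℝ} (hr : 0 < r) {z : ℂ} (hz : ‖z‖ ≠ r) (hz0 : z ≠ 0) (m : ℕ) (hm : 1 ≤ m) :
    (∮ w in C(0, r), (w ^ m)⁻¹ * (w - z)⁻¹) =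
      if r < ‖z‖ then -(2 * Real.pi * I) * (z ^ m)⁻¹ else 0 := by
  have hsph : ∀ w ∈ Metric.sphere (0 : ℂ) r, w ≠ 0 ∧ w - z ≠ 0 := by
    intro w hw
    rw [mem_sphere_zero_iff_norm] at hw
    refine ⟨?_, ?_⟩
    · rintro rfl
      rw [norm_zero] at hw
      linarith
    · intro h
      rw [sub_eq_zero] at h
      rw [h] at hw
      exact hz hw
  have hci : ∀ j : ℕ, CircleIntegrable (fun w : ℂ => (w ^ j)⁻¹) 0 r := by
    intro j
    refine ContinuousOn.circleIntegrable hr.le fun w hw => ?_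
    refine ContinuousAt.continuousWithinAt ?_
    exact (continuousAt_id.pow j).inv₀ (pow_ne_zero _ (hsph w hw).1)
  have hci2 : ∀ j : ℕ, CircleIntegrable (fun w : ℂ => (w ^ j)⁻¹ * (w - z)⁻¹) 0 r := by
    intro j
    refine ContinuousOn.circleIntegrable hr.le fun w hw => ?_
    refine ContinuousAt.continuousWithinAt ?_
    exact ((continuousAt_id.pow j).inv₀ (pow_ne_zero _ (hsph w hw).1)).mul
      ((continuousAt_id.sub continuousAt_const).inv₀ (hsph w hw).2)
  have hI0 : (∮ w in C(0, r), (w - z)⁻¹) = if r < ‖z‖ then 0 else 2 * Real.pi * I := by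
    split_ifs with h
    · refine Complex.circleIntegral_eq_zero_of_differentiable_on_off_countable hr.le
        Set.countable_empty (fun w hw => ?_) fun w hw => ?_
      · refine ContinuousAt.continuousWithinAt ?_
        refine (continuousAt_id.sub continuousAt_const).inv₀ ?_
        rw [mem_closedBall_zero_iff] at hw
        intro h0
        have h0' : w = z := sub_eq_zero.1 h0
        rw [h0'] at hw
        linarith
      · have hw' := hw.1
        rw [mem_ball_zero_iff] at hw'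
        refine DifferentiableAt.inv (differentiableAt_id.sub_const _) ?_
        intro h0
        have h0' : w = z := sub_eq_zero.1 h0
        rw [h0'] at hw'
        linarith
    · refine circleIntegral.integral_sub_inv_of_mem_ball ?_
      rw [mem_ball_zero_iff]
      exact lt_of_le_of_ne (not_lt.1 h) hz
  have hpow : ∀ j : ℕ, 2 ≤ j → (∮ w in C(0, r), (w ^ j)⁻¹) = 0 := by
    intro j hj
    have h1 := circleIntegral.integral_sub_zpow_of_ne (n := -(j : ℤ)) (by omega) (0 : ℂ) 0 r
    rw [← h1]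
    congr 1
    funext w
    rw [sub_zero, zpow_neg, zpow_natCast]
  have hpow1 : (∮ w in C(0, r), (w ^ 1)⁻¹) = 2 * Real.pi * I := by
    have h1 := circleIntegral.integral_sub_center_inv (0 : ℂ) hr.ne'
    rw [← h1]
    congr 1
    funext w
    rw [sub_zero, pow_one]
  have hstep : ∀ j : ℕ, (∮ w in C(0, r), (w ^ (j + 1))⁻¹ * (w - z)⁻¹) =
      z⁻¹ * ((∮ w in C(0, r), (w ^ j)⁻¹ * (w - z)⁻¹) - ∮ w in C(0, r), (w ^ (j + 1))⁻¹) := by
    intro j
    rw [← circleIntegral.integral_sub (hci2 j) (hci (j + 1)), ← circleIntegral.integral_const_mul]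
    refine circleIntegral.integral_congr hr.le fun w hw => ?_
    obtain ⟨h1, h2⟩ := hsph w hw
    show (w ^ (j + 1))⁻¹ * (w - z)⁻¹ = z⁻¹ * ((w ^ j)⁻¹ * (w - z)⁻¹ - (w ^ (j + 1))⁻¹)
    rw [pow_succ]
    field_simp
    ring
  induction m with
  | zero => omega
  | succ m ih =>
    rcases Nat.eq_zero_or_pos m with rfl | hm0
    · rw [hstep 0]
      have e : (∮ w in C(0, r), (w ^ 0)⁻¹ * (w - z)⁻¹) = ∮ w in C(0, r), (w - z)⁻¹ := by
        congr 1
        funext w
        simp
      rw [e, hI0, zero_add, hpow1]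
      split_ifs
      · rw [pow_one]; ring
      · ring
    · rw [hstep m, ih hm0, hpow (m + 1) (by omega)]
      split_ifs
      · rw [pow_succ]
        field_simp
        ring
      · ring

/-- **The power sum inequality.** -/
theorem psum {V : Finset ℂ} {b : ℂ → ℂ} {m : ℕ} (hm : 1 ≤ m) {r R d M : ℝ} (hr : 0 < r) (hR : 0 ≤ R)
    (hd : 0 < d) (hM : 0 ≤ M) (hV0 : ∀ z ∈ V, z ≠ 0) (hV : ∀ z ∈ V, ‖z‖ ≤ R)
    (hgap : ∀ z ∈ V, d ≤ |‖z‖ - r|)
    (h : ∀ j < V.card, ‖∑ z ∈ V, b z * z ^ (m + j)‖ ≤ M) :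
    ‖∑ z ∈ V.filter (fun z => r < ‖z‖), b z‖ ≤ r * ((r ^ m)⁻¹ * (((2 + r + R) / d) ^ V.card * M)) := by
  classical
  set Ψ : ℂ → ℂ := fun w => ∑ z ∈ V, b z * z ^ m * ((w ^ m)⁻¹ * (w - z)⁻¹) with hΨ
  have hne : ∀ z ∈ V, ‖z‖ ≠ r := by
    intro z hz h0
    have := hgap z hz
    rw [h0, sub_self, abs_zero] at this
    linarith
  have hsph : ∀ w ∈ Metric.sphere (0 : ℂ) r, w ≠ 0 ∧ ∀ z ∈ V, w - z ≠ 0 := by
    intro w hw
    rw [mem_sphere_zero_iff_norm] at hw
    refine ⟨?_, fun z hz => ?_⟩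
    · rintro rfl
      rw [norm_zero] at hw
      linarith
    · intro h
      rw [sub_eq_zero] at h
      rw [h] at hw
      exact hne z hz hw
  have hint : (∮ w in C(0, r), Ψ w) =
      -(2 * Real.pi * I) * ∑ z ∈ V.filter (fun z => r < ‖z‖), b z := by
    rw [hΨ, circleIntegral.integral_fun_sum (fun z hz => ?_)]
    · rw [Finset.mul_sum, Finset.sum_filter]
      refine Finset.sum_congr rfl fun z hz => ?_
      rw [circleIntegral.integral_const_mul, int_inv_pow hr (hne z hz) (hV0 z hz) m hm]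
      have := pow_ne_zero m (hV0 z hz)
      split_ifs
      · field_simp
      · ring
    · refine ContinuousOn.circleIntegrable hr.le fun w hw => ?_
      refine ContinuousAt.continuousWithinAt ?_
      exact continuousAt_const.mul (((continuousAt_id.pow m).inv₀ (pow_ne_zero _ (hsph w hw).1)).mul
        ((continuousAt_id.sub continuousAt_const).inv₀ ((hsph w hw).2 z hz)))
  have hbd : ∀ w ∈ Metric.sphere (0 : ℂ) r, ‖Ψ w‖ ≤ (r ^ m)⁻¹ * (((2 + r + R) / d) ^ V.card * M) := by
    intro w hw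
    obtain ⟨h1, h2⟩ := hsph w hw
    have hw' : ‖w‖ = r := by rwa [mem_sphere_zero_iff_norm] at hw
    have e : Ψ w = (w ^ m)⁻¹ * (Num m V b w / ∏ z ∈ V, (w - z)) := by
      rw [hΨ, Num, Finset.sum_div, Finset.mul_sum]
      refine Finset.sum_congr rfl fun z hz => ?_
      have h3 : ∏ z' ∈ V.erase z, (w - z') ≠ 0 :=
        Finset.prod_ne_zero_iff.2 fun z' hz' => h2 z' (Finset.mem_of_mem_erase hz')
      have h4 := h2 z hz
      rw [← Finset.mul_prod_erase V (fun z' => w - z') hz]
      field_simp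
    rw [e, norm_mul, norm_inv, norm_pow, hw', norm_div, norm_prod]
    have h3 := norm_num_le (m := m) hR w V hV b M hM h
    rw [hw'] at h3
    have h4 : d ^ V.card ≤ ∏ z ∈ V, ‖w - z‖ := by
      rw [← Finset.prod_const]
      refine Finset.prod_le_prod (fun _ _ => hd.le) fun z hz => ?_
      refine (hgap z hz).trans ?_
      have := abs_norm_sub_norm_le w z
      rw [hw'] at this
      rwa [abs_sub_comm] at this
    have h5 : 0 < d ^ V.card := by positivity
    refine mul_le_mul_of_nonneg_left ?_ (by positivity)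
    rw [div_le_iff₀ (lt_of_lt_of_le h5 h4)]
    refine h3.trans ?_
    rw [div_pow]
    have h6 : 0 ≤ (2 + r + R) ^ V.card := by positivity
    calc (2 + r + R) ^ V.card * M = (2 + r + R) ^ V.card / d ^ V.card * M * d ^ V.card := by
          field_simp
      _ ≤ _ := by
          refine mul_le_mul_of_nonneg_left h4 ?_
          positivity
  have hb := circleIntegral.norm_integral_le_of_norm_le_const hr.le hbd
  rw [hint, norm_mul, norm_neg] at hb
  have h2pi : ‖(2 * Real.pi * I : ℂ)‖ = 2 * Real.pi := by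
    rw [norm_mul, norm_mul, Complex.norm_I, mul_one, Complex.norm_real, Real.norm_eq_abs,
      abs_of_pos Real.pi_pos]
    norm_num
  rw [h2pi] at hb
  have hpi := Real.pi_pos
  have h7 : 2 * Real.pi * ‖∑ z ∈ V.filter (fun z => r < ‖z‖), b z‖ ≤
      2 * Real.pi * (r * ((r ^ m)⁻¹ * (((2 + r + R) / d) ^ V.card * M))) := by
    refine hb.trans (le_of_eq ?_)
    ring
  exact le_of_mul_le_mul_left h7 (by positivity)

/-- a point of `[a, b]` far from a given finite set -/
theorem exists_gap (X : Finset ℝ) {a b : ℝ} (hab : a < b) :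
    ∃ r ∈ Set.Icc a b, ∀ x ∈ X, (b - a) / (2 * (X.card + 1)) ≤ |x - r| := by
  classical
  by_contra hcon
  push Not at hcon
  set h : ℝ := (b - a) / (2 * (X.card + 1)) with hh
  have hc : (0 : ℝ) < 2 * (X.card + 1) := by positivity
  have hpos : 0 < h := div_pos (by linarith) hc
  have hsum : h * (2 * (X.card + 1)) = b - a := by rw [hh]; field_simp
  have hg : ∀ i ∈ Finset.range (X.card + 1), ∃ x ∈ X, |x - (a + h * (2 * i + 1))| < h := by
    intro i hi
    rw [Finset.mem_range] at hi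
    have hi' : (i : ℝ) + 1 ≤ X.card + 1 := by exact_mod_cast hi
    have hi0 : (0 : ℝ) ≤ i := Nat.cast_nonneg i
    exact hcon (a + h * (2 * i + 1)) ⟨by nlinarith, by nlinarith⟩
  choose! f hf1 hf2 using hg
  obtain ⟨i, hi, j, hj, hij, hfe⟩ := Finset.exists_ne_map_eq_of_card_lt_of_maps_to
    (s := Finset.range (X.card + 1)) (t := X) (by rw [Finset.card_range]; omega) (f := f) hf1
  have h1 := hf2 i hi
  have h2 := hf2 j hj
  rw [hfe] at h1
  have h3 : |(h * (2 * i + 1)) - (h * (2 * (j : ℝ) + 1))| < 2 * h := by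
    have e : (h * (2 * i + 1)) - (h * (2 * (j : ℝ) + 1)) =
        (f j - (a + h * (2 * j + 1))) - (f j - (a + h * (2 * i + 1))) := by ring
    rw [e]
    refine (abs_sub _ _).trans_lt ?_
    linarith
  have h4 : (h * (2 * i + 1)) - (h * (2 * (j : ℝ) + 1)) = 2 * h * ((i : ℝ) - j) := by ring
  rw [h4, abs_mul, abs_of_pos (by positivity : 0 < 2 * h)] at h3
  have h5 : (1 : ℝ) ≤ |(i : ℝ) - j| := by
    have : (i : ℤ) - j ≠ 0 := by omega
    have h6 := Int.one_le_abs this
    have h7 : ((1 : ℤ) : ℝ) ≤ ((|(i : ℤ) - j| : ℤ) : ℝ) := by exact_mod_cast h6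
    rw [Int.cast_abs] at h7
    push_cast at h7
    exact h7
  nlinarith

end Pool.Agent.Run7.h456.Win
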