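import Mathlib
import Pool.Agent.Run7.h456.Win.Psum
import Pool.Agent.Run7.h456.Win.Expl

/-!
# The sum over the outer zeros
-/

set_option autoImplicit false

open Complex MeasureTheory Set Filter Topology

namespace Pool.Agent.Run7.h456.Win

theorem list_group (l : List ℂ) (V : Finset ℂ) (p f g : ℂ → ℂ) (h : ∀ ρ ∈ l, p ρ ∈ V) :
    ∑ z ∈ V, g z * (l.map (fun ρ => if p ρ = z then f ρ else 0)).sum = (l.map (fun ρ => g (p ρ) * f ρ)).sum := by
  induction l with
  | nil => simp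
  | cons a l ih =>
    have h1 := ih fun ρ hρ => h ρ (List.mem_cons_of_mem _ hρ)
    have h2 := h a List.mem_cons_self
    simp only [List.map_cons, List.sum_cons, mul_add, Finset.sum_add_distrib]
    rw [h1]
    congr 1
    rw [Finset.sum_eq_single (p a)]
    · rw [if_pos rfl]
    · intro z _ hz
      rw [if_neg (Ne.symm hz), mul_zero]
    · intro hn
      exact absurd h2 hn

theorem list_re_ge (l : List ℂ) (f : ℂ → ℂ) {E : ℝ} (hE : 0 ≤ E) (h : ∀ ρ ∈ l, -E ≤ (f ρ).re) :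
    -(l.length * E) ≤ ((l.map f).sum).re := by
  induction l with
  | nil => simp
  | cons a l ih =>
    have h1 := ih fun ρ hρ => h ρ (List.mem_cons_of_mem _ hρ)
    have h2 := h a List.mem_cons_self
    simp only [List.map_cons, List.sum_cons, List.length_cons, Complex.add_re]
    push_cast
    linarith

theorem list_re_ge' (l : List ℂ) (f : ℂ → ℂ) {E q : ℝ} (hE : 0 ≤ E) (h : ∀ ρ ∈ l, -E ≤ (f ρ).re) {ρ₀ : ℂ}
    (h0 : ρ₀ ∈ l) (hq : q ≤ (f ρ₀).re) :
    q - l.length * E ≤ ((l.map f).sum).re := by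
  induction l with
  | nil => simp at h0
  | cons a l ih =>
    simp only [List.map_cons, List.sum_cons, List.length_cons, Complex.add_re]
    push_cast
    rcases List.mem_cons.1 h0 with rfl | h0
    · have := list_re_ge l f hE fun ρ hρ => h ρ (List.mem_cons_of_mem _ hρ)
      linarith
    · have h1 := ih (fun ρ hρ => h ρ (List.mem_cons_of_mem _ hρ)) h0
      have h2 := h a List.mem_cons_self
      linarith

/-- The power sum lemma for the zeros. -/
theorem outer {l : List ℂ} {L κ σ2 σ3 M : ℝ} {N n : ℕ} (hL : 0 < L) (hN : 1 ≤ N) (hσ : σ2 < σ3) (hM : 0 ≤ M)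
    (hσ3 : σ3 ≤ 1) (hl : ∀ ρ ∈ l, ρ.re ≤ 1) (hn : l.toFinset.card ≤ n)
    (h : ∀ j < n, ‖(l.map (fun ρ => cexp (κ * ρ ^ 2 + ρ * ((((N + j : ℕ) : ℝ) * L : ℝ) : ℂ)))).sum‖ ≤ M) :
    ∃ r ∈ Icc (Real.exp (σ2 * L)) (Real.exp (σ3 * L)),
      ‖(l.map (fun ρ => (if r < ‖cexp (ρ * L)‖ then 1 else 0) * cexp (κ * ρ ^ 2))).sum‖ ≤
        Real.exp L * ((Real.exp (σ2 * L) ^ N)⁻¹ *
          (((2 + 2 * Real.exp L) * (2 * (n + 1)) / (Real.exp (σ3 * L) - Real.exp (σ2 * L))) ^ n * M)) := by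
  classical
  set p : ℂ → ℂ := fun ρ => cexp (ρ * L) with hp
  set f : ℂ → ℂ := fun ρ => cexp (κ * ρ ^ 2) with hf
  set V : Finset ℂ := l.toFinset.image p with hV
  set b : ℂ → ℂ := fun z => (l.map (fun ρ => if p ρ = z then f ρ else 0)).sum with hb
  have hpV : ∀ ρ ∈ l, p ρ ∈ V := fun ρ hρ => Finset.mem_image_of_mem p (List.mem_toFinset.2 hρ)
  have hVn : V.card ≤ n := Finset.card_image_le.trans hn
  have hE : Real.exp (σ2 * L) < Real.exp (σ3 * L) := Real.exp_lt_exp.2 (mul_lt_mul_of_pos_right hσ hL)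
  obtain ⟨r, hr, hgap⟩ := exists_gap (V.image (fun z => ‖z‖)) hE
  refine ⟨r, hr, ?_⟩
  set D : ℝ := Real.exp (σ3 * L) - Real.exp (σ2 * L) with hD
  have hD0 : 0 < D := by rw [hD]; linarith
  have hr0 : 0 < r := (Real.exp_pos _).trans_le hr.1
  have hrL : r ≤ Real.exp L := hr.2.trans (Real.exp_le_exp.2 (by nlinarith))
  have hDL : D ≤ Real.exp L := by
    have : Real.exp (σ3 * L) ≤ Real.exp L := Real.exp_le_exp.2 (by nlinarith)
    have := Real.exp_pos (σ2 * L)
    rw [hD]; linarith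
  have hd0 : 0 < D / (2 * (n + 1)) := by positivity
  have hpow : ∀ (k : ℕ) (ρ : ℂ), p ρ ^ k * f ρ = cexp (κ * ρ ^ 2 + ρ * (((k : ℝ) * L : ℝ) : ℂ)) := by
    intro k ρ
    rw [hp, hf]
    simp only
    rw [← Complex.exp_nat_mul, ← Complex.exp_add]
    congr 1
    push_cast
    ring
  have hps := psum (V := V) (b := b) (m := N) hN (r := r) (R := Real.exp L) (d := D / (2 * (n + 1))) (M := M) hr0
    (Real.exp_pos _).le hd0 hM ?_ ?_ ?_ ?_
  · have hsum : ∑ z ∈ V.filter (fun z => r < ‖z‖), b z =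
        (l.map (fun ρ => (if r < ‖cexp (ρ * L)‖ then 1 else 0) * cexp (κ * ρ ^ 2))).sum := by
      rw [Finset.sum_filter]
      have := list_group l V p f (fun z => if r < ‖z‖ then 1 else 0) hpV
      rw [← this]
      refine Finset.sum_congr rfl fun z _ => ?_
      rw [hb]
      simp only [ite_mul, one_mul, zero_mul]
    rw [hsum] at hps
    refine hps.trans ?_
    have hbase : (2 + r + Real.exp L) / (D / (2 * (n + 1))) ≤ (2 + 2 * Real.exp L) * (2 * (n + 1)) / D := by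
      rw [div_div_eq_mul_div]
      have e : 2 + r + Real.exp L ≤ 2 + 2 * Real.exp L := by linarith
      exact div_le_div_of_nonneg_right (mul_le_mul_of_nonneg_right e (by positivity)) hD0.le
    have hbase1 : 1 ≤ (2 + 2 * Real.exp L) * (2 * (n + 1)) / D := by
      rw [le_div_iff₀ hD0, one_mul]
      have := Real.exp_pos L
      have hn0 : (0 : ℝ) ≤ n := Nat.cast_nonneg n
      nlinarith [mul_nonneg this.le hn0]
    have hb0 : 0 ≤ (2 + r + Real.exp L) / (D / (2 * (n + 1))) := by positivity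
    have h1 : ((2 + r + Real.exp L) / (D / (2 * (n + 1)))) ^ V.card ≤
        ((2 + 2 * Real.exp L) * (2 * (n + 1)) / D) ^ n :=
      (pow_le_pow_left₀ hb0 hbase _).trans (pow_le_pow_right₀ hbase1 hVn)
    have h2 : (r ^ N)⁻¹ ≤ (Real.exp (σ2 * L) ^ N)⁻¹ :=
      inv_anti₀ (by positivity) (pow_le_pow_left₀ (Real.exp_pos _).le hr.1 _)
    gcongr
  · intro z hz
    obtain ⟨ρ, _, rfl⟩ := Finset.mem_image.1 hz
    exact Complex.exp_ne_zero _
  · intro z hz
    obtain ⟨ρ, hρ, rfl⟩ := Finset.mem_image.1 hz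
    rw [hp]
    simp only
    rw [Complex.norm_exp]
    refine Real.exp_le_exp.2 ?_
    rw [Complex.mul_re, Complex.ofReal_re, Complex.ofReal_im, mul_zero, sub_zero]
    have := hl ρ (List.mem_toFinset.1 hρ)
    nlinarith
  · intro z hz
    have h1 := hgap ‖z‖ (Finset.mem_image_of_mem _ hz)
    refine le_trans ?_ h1
    have h2 : ((V.image (fun z => ‖z‖)).card : ℝ) ≤ n := by
      exact_mod_cast Finset.card_image_le.trans hVn
    exact div_le_div_of_nonneg_left hD0.le (by positivity) (by linarith)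
  · intro j hj
    have h1 := h j (hj.trans_le hVn)
    have h2 : ∑ z ∈ V, b z * z ^ (N + j) =
        (l.map (fun ρ => cexp (κ * ρ ^ 2 + ρ * ((((N + j : ℕ) : ℝ) * L : ℝ) : ℂ)))).sum := by
      have := list_group l V p f (fun z => z ^ (N + j)) hpV
      simp only [hpow] at this
      rw [← this]
      exact Finset.sum_congr rfl fun z _ => mul_comm _ _
    rw [h2]
    exact h1

/-- Real part of `exp(κρ²)`. -/
theorem re_exp_ge {κ : ℝ} (hκ : 0 < κ) {ρ : ℂ} (h0 : 0 ≤ ρ.re) (h1 : ρ.re ≤ 1) :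
    -Real.exp (κ - 1 / (2 * κ)) ≤ (cexp (κ * ρ ^ 2)).re := by
  have hre : ((κ : ℂ) * ρ ^ 2).re = κ * (ρ.re ^ 2 - ρ.im ^ 2) := by
    rw [pow_two, Complex.re_ofReal_mul, Complex.mul_re]
    ring
  have him : ((κ : ℂ) * ρ ^ 2).im = 2 * κ * ρ.re * ρ.im := by
    rw [pow_two, Complex.im_ofReal_mul, Complex.mul_im]
    ring
  rw [Complex.exp_re, hre, him]
  have hpi := Real.pi_pos
  have hpi3 := Real.pi_gt_three
  rcases le_or_gt (2 * κ * |ρ.im|) (Real.pi / 2) with h | h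
  · have hc : 0 ≤ Real.cos (2 * κ * ρ.re * ρ.im) := by
      apply Real.cos_nonneg_of_mem_Icc
      have : |2 * κ * ρ.re * ρ.im| ≤ Real.pi / 2 := by
        rw [abs_mul, abs_mul, abs_of_nonneg h0, abs_of_pos (by linarith : (0 : ℝ) < 2 * κ)]
        have : 2 * κ * ρ.re * |ρ.im| ≤ 2 * κ * |ρ.im| := by
          have := abs_nonneg ρ.im
          have h3 : 0 ≤ 2 * κ * |ρ.im| := by positivity
          nlinarith
        linarith
      exact ⟨by linarith [(abs_le.1 this).1], (abs_le.1 this).2⟩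
    have := mul_nonneg (Real.exp_pos (κ * (ρ.re ^ 2 - ρ.im ^ 2))).le hc
    have := Real.exp_pos (κ - 1 / (2 * κ))
    linarith
  · have h2 : -Real.exp (κ * (ρ.re ^ 2 - ρ.im ^ 2)) ≤
        Real.exp (κ * (ρ.re ^ 2 - ρ.im ^ 2)) * Real.cos (2 * κ * ρ.re * ρ.im) := by
      have := Real.neg_one_le_cos (2 * κ * ρ.re * ρ.im)
      have := Real.exp_pos (κ * (ρ.re ^ 2 - ρ.im ^ 2))
      nlinarith
    refine le_trans ?_ h2
    refine neg_le_neg (Real.exp_le_exp.2 ?_)
    have h3 : 3 / 4 ≤ κ * |ρ.im| := by linarith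
    have h4 : 1 / 2 ≤ κ ^ 2 * ρ.im ^ 2 := by
      have : κ ^ 2 * ρ.im ^ 2 = (κ * |ρ.im|) ^ 2 := by rw [mul_pow, sq_abs]
      rw [this]
      nlinarith
    have h5 : 1 / (2 * κ) ≤ κ * ρ.im ^ 2 := by
      rw [div_le_iff₀ (by positivity)]
      nlinarith
    have h6 : κ * ρ.re ^ 2 ≤ κ := by
      have : ρ.re ^ 2 ≤ 1 := by nlinarith
      nlinarith
    nlinarith

end Pool.Agent.Run7.h456.Win
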