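import Mathlib
import Pool.Agent.Run7.h456.Win.Gauss

/-!
# From a window to the Gaussian mean
-/

set_option autoImplicit false

open Complex MeasureTheory Set Filter Topology

namespace Pool.Agent.Run7.h456.Win

open Pool.Agent.TH949.TX (gk EE)

/-- Partial summation with general nodes. -/
theorem abel_nodes {s : Finset ℕ} {c : ℕ → ℂ} {ℓ : ℕ → ℝ} {a b : ℝ}
    (hℓ : ∀ n ∈ s, a < ℓ n ∧ ℓ n ≤ b) {φ φ' : ℝ → ℂ} (hφ : ∀ u, HasDerivAt φ (φ' u) u) (hφ' : Continuous φ') :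
    IntervalIntegrable (fun u => φ' u * ∑ n ∈ s.filter (fun n => ℓ n ≤ u), c n) volume a b ∧
    ∑ n ∈ s, c n * φ (ℓ n) = φ b * ∑ n ∈ s, c n -
      ∫ u in a..b, φ' u * ∑ n ∈ s.filter (fun n => ℓ n ≤ u), c n := by
  classical
  have key : ∀ n ∈ s, IntervalIntegrable (fun u => φ' u * (if ℓ n ≤ u then c n else 0)) volume a b ∧
      ∫ u in a..b, φ' u * (if ℓ n ≤ u then c n else 0) = c n * (φ b - φ (ℓ n)) := by
    intro n hn
    obtain ⟨h1, h2⟩ := hℓ n hn
    have e1 : EqOn (fun u => φ' u * (if ℓ n ≤ u then c n else 0)) (fun _ => 0) (Ioo a (ℓ n)) := by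
      intro u hu
      simp only
      rw [if_neg (not_le.2 hu.2), mul_zero]
    have e2 : EqOn (fun u => φ' u * (if ℓ n ≤ u then c n else 0)) (fun u => φ' u * c n) (Ioc (ℓ n) b) := by
      intro u hu
      simp only
      rw [if_pos hu.1.le]
    have i1 : IntervalIntegrable (fun u => φ' u * (if ℓ n ≤ u then c n else 0)) volume a (ℓ n) := by
      rw [intervalIntegrable_iff_integrableOn_Ioo_of_le h1.le]
      exact IntegrableOn.congr_fun integrableOn_zero (fun u hu => (e1 hu).symm) measurableSet_Ioo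
    have i2 : IntervalIntegrable (fun u => φ' u * (if ℓ n ≤ u then c n else 0)) volume (ℓ n) b := by
      rw [intervalIntegrable_iff_integrableOn_Ioc_of_le h2]
      have : IntegrableOn (fun u => φ' u * c n) (Ioc (ℓ n) b) :=
        ((hφ'.mul continuous_const).integrableOn_Icc).mono_set Ioc_subset_Icc_self
      exact this.congr_fun (fun u hu => (e2 hu).symm) measurableSet_Ioc
    refine ⟨i1.trans i2, ?_⟩
    rw [← intervalIntegral.integral_add_adjacent_intervals i1 i2]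
    have v1 : ∫ u in a..ℓ n, φ' u * (if ℓ n ≤ u then c n else 0) = 0 := by
      rw [intervalIntegral.integral_of_le h1.le, integral_Ioc_eq_integral_Ioo,
        setIntegral_congr_fun measurableSet_Ioo e1]
      simp
    have v2 : ∫ u in ℓ n..b, φ' u * (if ℓ n ≤ u then c n else 0) = c n * (φ b - φ (ℓ n)) := by
      rw [intervalIntegral.integral_of_le h2, setIntegral_congr_fun measurableSet_Ioc e2,
        ← intervalIntegral.integral_of_le h2, intervalIntegral.integral_mul_const,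
        intervalIntegral.integral_eq_sub_of_hasDerivAt (fun u _ => hφ u) (hφ'.intervalIntegrable _ _)]
      ring
    rw [v1, v2, zero_add]
  have hfun : (fun u => φ' u * ∑ n ∈ s.filter (fun n => ℓ n ≤ u), c n) =
      fun u => ∑ n ∈ s, φ' u * (if ℓ n ≤ u then c n else 0) := by
    funext u
    rw [Finset.sum_filter, Finset.mul_sum]
  rw [hfun]
  refine ⟨?_, ?_⟩
  · have := IntervalIntegrable.sum s (f := fun n u => φ' u * (if ℓ n ≤ u then c n else 0)) fun n hn => (key n hn).1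
    exact this.congr (fun u _ => by rw [Finset.sum_apply])
  · rw [intervalIntegral.integral_finsetSum fun n hn => (key n hn).1,
      Finset.sum_congr rfl fun n hn => (key n hn).2, Finset.mul_sum, ← Finset.sum_sub_distrib]
    exact Finset.sum_congr rfl fun n _ => by ring

theorem gk_nonneg (κ u : ℝ) : 0 ≤ gk κ u := by
  unfold Pool.Agent.TH949.TX.gk
  positivity

theorem gk_le {κ : ℝ} (hκ : 0 < κ) (hκ1 : κ ≤ 1) (u : ℝ) : gk κ u ≤ 1 / κ := by
  unfold Pool.Agent.TH949.TX.gk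
  have h1 : κ ≤ Real.sqrt (4 * Real.pi * κ) := by
    refine Real.le_sqrt_of_sq_le ?_
    have := Real.pi_gt_three
    nlinarith
  have h2 : (Real.sqrt (4 * Real.pi * κ))⁻¹ ≤ 1 / κ := by
    rw [one_div]
    exact inv_anti₀ hκ h1
  have h3 : Real.exp (-(u ^ 2 / (4 * κ))) ≤ 1 := by
    rw [Real.exp_le_one_iff]
    have : 0 ≤ u ^ 2 / (4 * κ) := by positivity
    linarith
  calc (Real.sqrt (4 * Real.pi * κ))⁻¹ * Real.exp (-(u ^ 2 / (4 * κ))) ≤ 1 / κ * 1 :=
        mul_le_mul h2 h3 (Real.exp_pos _).le (by positivity)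
    _ = _ := mul_one _

theorem gk_deriv (κ Y u : ℝ) : HasDerivAt (fun u : ℝ => gk κ (u - Y))
    (-((u - Y) / (2 * κ)) * gk κ (u - Y)) u := by
  unfold Pool.Agent.TH949.TX.gk
  have h1 : HasDerivAt (fun u : ℝ => -((u - Y) ^ 2 / (4 * κ))) (-((2 * (u - Y)) / (4 * κ))) u := by
    have := (((hasDerivAt_id u).sub_const Y).pow 2).div_const (4 * κ)
    refine (this.neg).congr_deriv ?_
    simp
  have h2 := (h1.exp).const_mul (Real.sqrt (4 * Real.pi * κ))⁻¹
  refine h2.congr_deriv ?_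
  rcases eq_or_ne κ 0 with rfl | hκ
  · simp
  · field_simp
    ring

theorem gk_cont (κ : ℝ) : Continuous (gk κ) := by
  unfold Pool.Agent.TH949.TX.gk
  fun_prop

/-- The whole Gaussian integral. -/
theorem gk_full {κ : ℝ} (hκ : 0 < κ) (Y : ℝ) :
    Integrable (fun u : ℝ => gk κ (u - Y) * Real.exp u) ∧
      ∫ u : ℝ, gk κ (u - Y) * Real.exp u = Real.exp (κ + Y) := by
  have h1 : (fun u : ℝ => gk κ (u - Y) * Real.exp u) = fun u =>
      ((Real.sqrt (4 * Real.pi * κ))⁻¹ * Real.exp (κ + Y)) * Real.exp (-(1 / (4 * κ)) * (u - (Y + 2 * κ)) ^ 2) := by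
    funext u
    unfold Pool.Agent.TH949.TX.gk
    have : Real.exp (-((u - Y) ^ 2 / (4 * κ))) * Real.exp u =
        Real.exp (κ + Y) * Real.exp (-(1 / (4 * κ)) * (u - (Y + 2 * κ)) ^ 2) := by
      rw [← Real.exp_add, ← Real.exp_add]
      congr 1
      field_simp
      ring
    linear_combination (Real.sqrt (4 * Real.pi * κ))⁻¹ * this
  have h2 : (0 : ℝ) < 1 / (4 * κ) := by positivity
  have h3 := (integrable_exp_neg_mul_sq h2).comp_sub_right (Y + 2 * κ)
  rw [h1]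
  refine ⟨h3.const_mul _, ?_⟩
  rw [integral_const_mul, integral_sub_right_eq_self (fun u : ℝ => Real.exp (-(1 / (4 * κ)) * u ^ 2)),
    integral_gaussian]
  have h4 : Real.pi / (1 / (4 * κ)) = 4 * Real.pi * κ := by field_simp
  rw [h4]
  have h5 : Real.sqrt (4 * Real.pi * κ) ≠ 0 := by
    have := Real.pi_pos
    positivity
  field_simp

/-- The tail of the Gaussian kernel. -/
theorem gk_tail {κ w : ℝ} (hκ : 0 < κ) (hκ1 : κ ≤ 1) {v : ℝ} (hv : w ^ 2 ≤ v ^ 2) :
    gk κ v ≤ 1 / κ * Real.exp (-(w ^ 2 / (8 * κ)) - 2 * v + 8 * κ) := by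
  unfold Pool.Agent.TH949.TX.gk
  have h1 : κ ≤ Real.sqrt (4 * Real.pi * κ) := by
    refine Real.le_sqrt_of_sq_le ?_
    have := Real.pi_gt_three
    nlinarith
  have h2 : (Real.sqrt (4 * Real.pi * κ))⁻¹ ≤ 1 / κ := by
    rw [one_div]
    exact inv_anti₀ hκ h1
  refine mul_le_mul h2 (Real.exp_le_exp.2 ?_) (Real.exp_pos _).le (by positivity)
  have h3 : w ^ 2 / (8 * κ) ≤ v ^ 2 / (8 * κ) := by gcongr
  have h4 : 0 ≤ (v - 8 * κ) ^ 2 / (8 * κ) := by positivity
  have h5 : (v - 8 * κ) ^ 2 / (8 * κ) = v ^ 2 / (8 * κ) - 2 * v + 8 * κ := by field_simp; ring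
  have h6 : v ^ 2 / (4 * κ) = v ^ 2 / (8 * κ) + v ^ 2 / (8 * κ) := by field_simp; ring
  rw [h5] at h4
  rw [h6]
  linarith

theorem gk_tail2 {κ w : ℝ} (hκ : 0 < κ) {v : ℝ} (hv : w ^ 2 ≤ v ^ 2) :
    gk κ v ≤ 2 * Real.exp (-(w ^ 2 / (8 * κ))) * gk (2 * κ) v := by
  unfold Pool.Agent.TH949.TX.gk
  have hpi := Real.pi_pos
  have h1 : (Real.sqrt (4 * Real.pi * κ))⁻¹ ≤ 2 * (Real.sqrt (4 * Real.pi * (2 * κ)))⁻¹ := by
    have e1 : Real.sqrt (4 * Real.pi * (2 * κ)) ≤ 2 * Real.sqrt (4 * Real.pi * κ) := by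
      rw [Real.sqrt_le_left (by positivity), mul_pow, Real.sq_sqrt (by positivity)]
      nlinarith [mul_pos hpi hκ]
    have e2 : 0 < Real.sqrt (4 * Real.pi * κ) := by positivity
    have e3 : 0 < Real.sqrt (4 * Real.pi * (2 * κ)) := by positivity
    rw [← div_eq_mul_inv, inv_eq_one_div, div_le_div_iff₀ e2 e3]
    linarith
  have h3 : w ^ 2 / (8 * κ) ≤ v ^ 2 / (8 * κ) := by gcongr
  have h6 : v ^ 2 / (4 * κ) = v ^ 2 / (8 * κ) + v ^ 2 / (4 * (2 * κ)) := by field_simp; ring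
  have h7 : Real.exp (-(v ^ 2 / (4 * κ))) ≤ Real.exp (-(w ^ 2 / (8 * κ))) * Real.exp (-(v ^ 2 / (4 * (2 * κ)))) := by
    rw [← Real.exp_add]
    refine Real.exp_le_exp.2 ?_
    rw [h6]
    linarith
  calc (Real.sqrt (4 * Real.pi * κ))⁻¹ * Real.exp (-(v ^ 2 / (4 * κ))) ≤
      (2 * (Real.sqrt (4 * Real.pi * (2 * κ)))⁻¹) *
        (Real.exp (-(w ^ 2 / (8 * κ))) * Real.exp (-(v ^ 2 / (4 * (2 * κ))))) :=
        mul_le_mul h1 h7 (Real.exp_pos _).le (by positivity)
    _ = _ := by ring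

/-- The Gaussian integral over a window. -/
theorem gk_window {κ w : ℝ} (hκ : 0 < κ) (hw : 0 < w) (Y : ℝ) :
    |(∫ u in (Y - w)..(Y + w), gk κ (u - Y) * Real.exp u) - Real.exp (κ + Y)| ≤
      2 * Real.exp (-(w ^ 2 / (8 * κ))) * Real.exp (2 * κ + Y) := by
  obtain ⟨h1, h2⟩ := gk_full hκ Y
  obtain ⟨h3, h4⟩ := gk_full (κ := 2 * κ) (by linarith) Y
  have hsplit := integral_add_compl (s := Ioc (Y - w) (Y + w)) measurableSet_Ioc h1
  rw [← intervalIntegral.integral_of_le (by linarith), h2] at hsplit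
  have e : (∫ u in (Y - w)..(Y + w), gk κ (u - Y) * Real.exp u) - Real.exp (κ + Y) =
      -∫ u in (Ioc (Y - w) (Y + w))ᶜ, gk κ (u - Y) * Real.exp u := by linarith
  rw [e, abs_neg, abs_of_nonneg (integral_nonneg fun u => mul_nonneg (gk_nonneg _ _) (Real.exp_pos _).le)]
  calc ∫ u in (Ioc (Y - w) (Y + w))ᶜ, gk κ (u - Y) * Real.exp u
      ≤ ∫ u in (Ioc (Y - w) (Y + w))ᶜ, 2 * Real.exp (-(w ^ 2 / (8 * κ))) * (gk (2 * κ) (u - Y) * Real.exp u) := by
        refine setIntegral_mono_on h1.integrableOn (h3.const_mul _).integrableOn measurableSet_Ioc.compl ?_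
        intro u hu
        have hu2 : w ^ 2 ≤ (u - Y) ^ 2 := by
          rw [mem_compl_iff, mem_Ioc, not_and_or, not_lt, not_le] at hu
          rcases hu with hu | hu
          · nlinarith
          · nlinarith
        have := gk_tail2 hκ hu2
        rw [← mul_assoc]
        exact mul_le_mul_of_nonneg_right this (Real.exp_pos _).le
    _ ≤ ∫ u : ℝ, 2 * Real.exp (-(w ^ 2 / (8 * κ))) * (gk (2 * κ) (u - Y) * Real.exp u) := by
        refine setIntegral_le_integral (h3.const_mul _) (Eventually.of_forall fun u => ?_)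
        exact mul_nonneg (by positivity) (mul_nonneg (gk_nonneg _ _) (Real.exp_pos _).le)
    _ = _ := by rw [integral_const_mul, h4]

/-- The Gaussian mean is controlled by one window. -/
theorem winJ {δ : ℕ} {c : ℕ → ℂ} (h0 : ∀ n : ℕ, n ≤ 1 → c n = 0)
    (hs : Summable fun n : ℕ => ‖c n‖ * (n : ℝ) ^ (-(2 : ℝ))) {κ Y w B : ℝ} (hκ : 0 < κ) (hκ1 : κ ≤ 1)
    (hw : 0 < w) (hw1 : w ≤ 1 / 2) (hY : 0 ≤ Y)
    (hwin : ∀ u : ℝ, Y - w ≤ u → u ≤ Y + w →
      ‖∑ n ∈ Finset.Ioc ⌊Real.exp (Y - w)⌋₊ ⌊Real.exp u⌋₊, c n - δ * ((Real.exp u : ℂ) - Real.exp (Y - w))‖ ≤ B) :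
    ‖Jc c κ Y - δ * cexp (κ + Y)‖ ≤ 2 / κ ^ 2 * B +
      (∑' n : ℕ, ‖c n‖ * (n : ℝ) ^ (-(2 : ℝ)) + 2 * δ) * (1 / κ) * Real.exp (8 * κ + 2 * Y - w ^ 2 / (8 * κ)) := by
  classical
  set s : Finset ℕ := Finset.Ioc ⌊Real.exp (Y - w)⌋₊ ⌊Real.exp (Y + w)⌋₊ with hsdef
  have hmem : ∀ n : ℕ, n ∈ s ↔ (Real.exp (Y - w) < n ∧ (n : ℝ) ≤ Real.exp (Y + w)) := by
    intro n
    rw [hsdef, Finset.mem_Ioc, Nat.floor_lt (Real.exp_pos _).le, Nat.le_floor_iff (Real.exp_pos _).le]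
  have hlog : ∀ n ∈ s, Y - w < Real.log n ∧ Real.log n ≤ Y + w := by
    intro n hn
    obtain ⟨h1, h2⟩ := (hmem n).1 hn
    have h3 : (0 : ℝ) < n := (Real.exp_pos _).trans h1
    exact ⟨(Real.lt_log_iff_exp_lt h3).2 h1, (Real.log_le_iff_le_exp h3).2 h2⟩
  have hfilt : ∀ u : ℝ, u ≤ Y + w → s.filter (fun n : ℕ => Real.log n ≤ u) =
      Finset.Ioc ⌊Real.exp (Y - w)⌋₊ ⌊Real.exp u⌋₊ := by
    intro u hu
    ext n
    rw [Finset.mem_filter, hmem, Finset.mem_Ioc, Nat.floor_lt (Real.exp_pos _).le, Nat.le_floor_iff (Real.exp_pos _).le]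
    constructor
    · rintro ⟨⟨h1, h2⟩, h3⟩
      have h4 : (0 : ℝ) < n := (Real.exp_pos _).trans h1
      exact ⟨h1, (Real.log_le_iff_le_exp h4).1 h3⟩
    · rintro ⟨h1, h2⟩
      have h4 : (0 : ℝ) < n := (Real.exp_pos _).trans h1
      exact ⟨⟨h1, h2.trans (Real.exp_le_exp.2 hu)⟩, (Real.log_le_iff_le_exp h4).2 h2⟩
  set φ : ℝ → ℂ := fun u => (gk κ (u - Y) : ℂ) with hφ
  set φ' : ℝ → ℂ := fun u => ((-((u - Y) / (2 * κ)) * gk κ (u - Y) : ℝ) : ℂ) with hφ'
  have hder : ∀ u, HasDerivAt φ (φ' u) u := fun u => (gk_deriv κ Y u).ofReal_comp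
  have hφc : Continuous φ := continuous_ofReal.comp ((gk_cont κ).comp (continuous_id.sub continuous_const))
  have hφ'c : Continuous φ' := by
    refine continuous_ofReal.comp (Continuous.mul ?_ ((gk_cont κ).comp (continuous_id.sub continuous_const)))
    fun_prop
  obtain ⟨q1, q2⟩ := abel_nodes (c := c) (ℓ := fun n : ℕ => Real.log n) (fun n hn => hlog n hn) hder hφ'c
  -- the smooth part
  set E : ℝ → ℂ := fun u => (Real.exp u : ℂ) - Real.exp (Y - w) with hE
  have hEd : ∀ u, HasDerivAt E (Real.exp u : ℂ) u := fun u =>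
    ((Real.hasDerivAt_exp u).ofReal_comp).sub_const _
  have hEc : Continuous E := by
    rw [hE]
    exact (continuous_ofReal.comp Real.continuous_exp).sub continuous_const
  have hparts := intervalIntegral.integral_mul_deriv_eq_deriv_mul (a := Y - w) (b := Y + w) (u := φ) (v := E)
    (u' := φ') (v' := fun u => (Real.exp u : ℂ)) (fun u _ => hder u) (fun u _ => hEd u)
    (hφ'c.intervalIntegrable _ _) ((continuous_ofReal.comp Real.continuous_exp).intervalIntegrable _ _)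
  have hEa : E (Y - w) = 0 := by rw [hE]; simp
  rw [hEa, mul_zero, sub_zero] at hparts
  set R : ℝ → ℂ := fun u => ∑ n ∈ Finset.Ioc ⌊Real.exp (Y - w)⌋₊ ⌊Real.exp u⌋₊, c n - δ * E u with hR
  have hRb : ∀ u : ℝ, Y - w ≤ u → u ≤ Y + w → ‖R u‖ ≤ B := fun u h1 h2 => hwin u h1 h2
  have hB : 0 ≤ B := (norm_nonneg _).trans (hRb (Y - w) le_rfl (by linarith))
  have hint : ∫ u in (Y - w)..(Y + w), φ' u * ∑ n ∈ s.filter (fun n : ℕ => Real.log n ≤ u), c n =
      (∫ u in (Y - w)..(Y + w), φ' u * R u) + δ * ∫ u in (Y - w)..(Y + w), φ' u * E u := by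
    have e0 : EqOn (fun u => φ' u * ∑ n ∈ s.filter (fun n : ℕ => Real.log n ≤ u), c n)
        (fun u => φ' u * R u + δ * (φ' u * E u)) (uIcc (Y - w) (Y + w)) := by
      intro u hu
      rw [uIcc_of_le (by linarith)] at hu
      simp only
      rw [hfilt u hu.2, hR]
      ring
    have i2 : IntervalIntegrable (fun u => (δ : ℂ) * (φ' u * E u)) volume (Y - w) (Y + w) :=
      (continuous_const.mul (hφ'c.mul hEc)).intervalIntegrable _ _
    have i1 : IntervalIntegrable (fun u => φ' u * R u) volume (Y - w) (Y + w) := by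
      have := q1.sub i2
      refine this.congr fun u hu => ?_
      have hu' : u ∈ uIcc (Y - w) (Y + w) := uIoc_subset_uIcc hu
      have := e0 hu'
      simp only at this ⊢
      rw [this]
      ring
    rw [intervalIntegral.integral_congr e0, intervalIntegral.integral_add i1 i2,
      intervalIntegral.integral_const_mul]
  have hsum : ∑ n ∈ s, c n * φ (Real.log n) - δ * ∫ u in (Y - w)..(Y + w), φ u * (Real.exp u : ℂ) =
      φ (Y + w) * R (Y + w) - ∫ u in (Y - w)..(Y + w), φ' u * R u := by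
    rw [q2, hint, hparts, hR]
    simp only
    ring
  have hreal : ∫ u in (Y - w)..(Y + w), φ u * (Real.exp u : ℂ) =
      ((∫ u in (Y - w)..(Y + w), gk κ (u - Y) * Real.exp u : ℝ) : ℂ) := by
    rw [← intervalIntegral.integral_ofReal]
    refine intervalIntegral.integral_congr fun u _ => ?_
    simp only [hφ]
    push_cast
    rfl
  have hgk := gk_window hκ hw Y
  -- bounds
  have hmain : ‖∑ n ∈ s, c n * φ (Real.log n) - δ * ∫ u in (Y - w)..(Y + w), φ u * (Real.exp u : ℂ)‖ ≤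
      2 / κ ^ 2 * B := by
    rw [hsum]
    have e1 : ‖φ (Y + w) * R (Y + w)‖ ≤ 1 / κ * B := by
      rw [norm_mul]
      refine mul_le_mul ?_ (hRb _ (by linarith) le_rfl) (norm_nonneg _) (by positivity)
      rw [hφ]
      simp only
      rw [Complex.norm_real, Real.norm_eq_abs, abs_of_nonneg (gk_nonneg _ _)]
      exact gk_le hκ hκ1 _
    have e2 : ‖∫ u in (Y - w)..(Y + w), φ' u * R u‖ ≤ (1 / (4 * κ) * (1 / κ) * B) * |Y + w - (Y - w)| := by
      refine intervalIntegral.norm_integral_le_of_norm_le_const fun u hu => ?_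
      rw [uIoc_of_le (by linarith)] at hu
      rw [norm_mul]
      refine mul_le_mul ?_ (hRb u hu.1.le hu.2) (norm_nonneg _) (by positivity)
      rw [hφ']
      simp only
      rw [Complex.norm_real, Real.norm_eq_abs, abs_mul, abs_of_nonneg (gk_nonneg _ _), abs_neg]
      refine mul_le_mul ?_ (gk_le hκ hκ1 _) (gk_nonneg _ _) (by positivity)
      rw [abs_div, abs_of_pos (by linarith : (0 : ℝ) < 2 * κ), div_le_div_iff₀ (by linarith) (by linarith)]
      have : |u - Y| ≤ 1 / 2 := abs_le.2 ⟨by linarith [hu.1], by linarith [hu.2]⟩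
      nlinarith
    have e3 : |Y + w - (Y - w)| ≤ 1 := by
      rw [show Y + w - (Y - w) = 2 * w by ring, abs_of_pos (by linarith)]
      linarith
    have e4 : 1 / κ * B ≤ 1 / κ ^ 2 * B := by
      refine mul_le_mul_of_nonneg_right ?_ hB
      exact one_div_le_one_div_of_le (by positivity) (by nlinarith)
    have e5 : (1 / (4 * κ) * (1 / κ) * B) * |Y + w - (Y - w)| ≤ 1 / κ ^ 2 * B := by
      calc (1 / (4 * κ) * (1 / κ) * B) * |Y + w - (Y - w)| ≤ (1 / (4 * κ) * (1 / κ) * B) * 1 :=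
            mul_le_mul_of_nonneg_left e3 (by positivity)
        _ = 1 / 4 * (1 / κ ^ 2 * B) := by field_simp
        _ ≤ _ := by
          have : 0 ≤ 1 / κ ^ 2 * B := by positivity
          linarith
    refine (norm_sub_le _ _).trans ?_
    have : 2 / κ ^ 2 * B = 1 / κ ^ 2 * B + 1 / κ ^ 2 * B := by ring
    rw [this]
    exact add_le_add (e1.trans e4) (e2.trans e5)
  -- the tail of the sum
  set T : ℝ := 1 / κ * Real.exp (8 * κ + 2 * Y - w ^ 2 / (8 * κ)) with hT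
  have hT0 : 0 ≤ T := by positivity
  have hterm : ∀ n : ℕ, n ∉ s → ‖c n * (gk κ (Real.log n - Y) : ℂ)‖ ≤ ‖c n‖ * (n : ℝ) ^ (-(2 : ℝ)) * T := by
    intro n hn
    rcases Nat.eq_zero_or_pos n with rfl | hn0
    · rw [h0 0 (by norm_num)]
      simp
    · have hn0' : (0 : ℝ) < n := by exact_mod_cast hn0
      rw [norm_mul, Complex.norm_real, Real.norm_eq_abs, abs_of_nonneg (gk_nonneg _ _), mul_assoc]
      refine mul_le_mul_of_nonneg_left ?_ (norm_nonneg _)
      have h5 : w ^ 2 ≤ (Real.log n - Y) ^ 2 := by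
        rw [hmem, not_and_or, not_lt, not_le] at hn
        rcases hn with hn | hn
        · have := (Real.log_le_iff_le_exp hn0').2 hn
          nlinarith
        · have := (Real.lt_log_iff_exp_lt hn0').2 hn
          nlinarith
      refine (gk_tail hκ hκ1 h5).trans (le_of_eq ?_)
      rw [hT, Real.rpow_def_of_pos hn0']
      have : Real.exp (-(w ^ 2 / (8 * κ)) - 2 * (Real.log n - Y) + 8 * κ) =
          Real.exp (Real.log n * -2) * Real.exp (8 * κ + 2 * Y - w ^ 2 / (8 * κ)) := by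
        rw [← Real.exp_add]
        congr 1
        ring
      rw [this]
      ring
  have hfin : Summable fun n : ℕ => if n ∈ s then (0 : ℂ) else c n * (gk κ (Real.log n - Y) : ℂ) := by
    refine Summable.of_norm_bounded (hs.mul_right T) fun n => ?_
    split_ifs with h
    · rw [norm_zero]
      positivity
    · exact hterm n h
  have hJ : Jc c κ Y = ∑ n ∈ s, c n * φ (Real.log n) +
      ∑' n : ℕ, (if n ∈ s then (0 : ℂ) else c n * (gk κ (Real.log n - Y) : ℂ)) := by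
    have e1 : HasSum (fun n : ℕ => if n ∈ s then c n * φ (Real.log n) else 0) (∑ n ∈ s, c n * φ (Real.log n)) := by
      have e0 : ∑ n ∈ s, (if n ∈ s then c n * φ (Real.log n) else 0) = ∑ n ∈ s, c n * φ (Real.log n) :=
        Finset.sum_congr rfl fun n hn => if_pos hn
      rw [← e0]
      exact hasSum_sum_of_ne_finset_zero fun n hn => by rw [if_neg hn]
    have e2 := e1.add hfin.hasSum
    rw [← e2.tsum_eq]
    unfold Jc
    refine tsum_congr fun n => ?_
    split_ifs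
    · rw [add_zero]
    · rw [zero_add]
  have htail : ‖∑' n : ℕ, (if n ∈ s then (0 : ℂ) else c n * (gk κ (Real.log n - Y) : ℂ))‖ ≤
      (∑' n : ℕ, ‖c n‖ * (n : ℝ) ^ (-(2 : ℝ))) * T := by
    rw [← tsum_mul_right]
    refine tsum_of_norm_bounded (hs.mul_right T).hasSum fun n => ?_
    split_ifs with h
    · rw [norm_zero]
      positivity
    · exact hterm n h
  have hδ : ‖(δ : ℂ) * ((∫ u in (Y - w)..(Y + w), φ u * (Real.exp u : ℂ)) - cexp (κ + Y))‖ ≤ 2 * δ * T := by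
    rw [hreal, norm_mul, Complex.norm_natCast]
    have e1 : cexp (κ + Y) = ((Real.exp (κ + Y) : ℝ) : ℂ) := by push_cast; rfl
    rw [e1, ← Complex.ofReal_sub, Complex.norm_real, Real.norm_eq_abs]
    have e2 : 2 * Real.exp (-(w ^ 2 / (8 * κ))) * Real.exp (2 * κ + Y) ≤ 2 * T := by
      rw [mul_assoc, ← Real.exp_add, hT]
      have e3 : Real.exp (-(w ^ 2 / (8 * κ)) + (2 * κ + Y)) ≤ Real.exp (8 * κ + 2 * Y - w ^ 2 / (8 * κ)) :=
        Real.exp_le_exp.2 (by linarith)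
      have e4 : 1 ≤ 1 / κ := by rw [le_div_iff₀ hκ]; linarith
      have e5 : Real.exp (8 * κ + 2 * Y - w ^ 2 / (8 * κ)) ≤ 1 / κ * Real.exp (8 * κ + 2 * Y - w ^ 2 / (8 * κ)) :=
        le_mul_of_one_le_left (Real.exp_pos _).le e4
      linarith
    calc (δ : ℝ) * |(∫ u in (Y - w)..(Y + w), gk κ (u - Y) * Real.exp u) - Real.exp (κ + Y)| ≤ δ * (2 * T) :=
          mul_le_mul_of_nonneg_left (hgk.trans e2) (Nat.cast_nonneg _)
      _ = _ := by ring
  have hdecomp : Jc c κ Y - δ * cexp (κ + Y) =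
      (∑ n ∈ s, c n * φ (Real.log n) - δ * ∫ u in (Y - w)..(Y + w), φ u * (Real.exp u : ℂ)) +
      ∑' n : ℕ, (if n ∈ s then (0 : ℂ) else c n * (gk κ (Real.log n - Y) : ℂ)) +
      (δ : ℂ) * ((∫ u in (Y - w)..(Y + w), φ u * (Real.exp u : ℂ)) - cexp (κ + Y)) := by
    rw [hJ]
    ring
  rw [hdecomp]
  refine (norm_add_le _ _).trans ?_
  have := norm_add_le (∑ n ∈ s, c n * φ (Real.log n) - δ * ∫ u in (Y - w)..(Y + w), φ u * (Real.exp u : ℂ))
    (∑' n : ℕ, (if n ∈ s then (0 : ℂ) else c n * (gk κ (Real.log n - Y) : ℂ)))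
  have e6 : (∑' n : ℕ, ‖c n‖ * (n : ℝ) ^ (-(2 : ℝ)) + 2 * δ) * (1 / κ) * Real.exp (8 * κ + 2 * Y - w ^ 2 / (8 * κ)) =
      (∑' n : ℕ, ‖c n‖ * (n : ℝ) ^ (-(2 : ℝ))) * T + 2 * δ * T := by
    rw [hT]; ring
  rw [e6]
  linarith

end Pool.Agent.Run7.h456.Win
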