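import Mathlib
import Pool.Agent.Run7.h456.Win.WinJ
import Pool.Agent.Run7.h456.Win.Outer
import Pool.Agent.Run7.h456.Win.Num

/-!
# Windows imply the zero-free half-plane
-/

set_option autoImplicit false

open Complex MeasureTheory Set Filter Topology

namespace Pool.Agent.Run7.h456.Win

/-- The window condition at level `N`. -/
def WinAt (δ : ℕ) (c : ℕ → ℂ) (lam θ ε : ℝ) (N : ℕ) : Prop :=
  ∀ k : ℕ, N ≤ k → (k : ℝ) ≤ N + (N : ℝ) ^ (1 - ε) →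
    ∀ x y : ℝ, lam ^ k * (1 - (N : ℝ) ^ (-ε)) ≤ x → x ≤ y → y ≤ lam ^ k * (1 + (N : ℝ) ^ (-ε)) →
      ‖∑ n ∈ Finset.Ioc ⌊x⌋₊ ⌊y⌋₊, c n - δ * ((y : ℂ) - x)‖ ≤ lam ^ ((k : ℝ) * (θ + ε))

/-- A zero density estimate. -/
def Dens (F : ℂ → ℂ) : Prop :=
  ∀ d : ℝ, 0 < d → ∃ C η : ℝ, 0 < η ∧ ∀ T : ℝ, 1 ≤ T → ∀ S : Finset ℂ,
    (∀ ρ ∈ S, F ρ = 0 ∧ 1 / 2 + d ≤ ρ.re ∧ |ρ.im| ≤ T) → (S.card : ℝ) ≤ C * T ^ (1 - η)

variable {δ : ℕ} {c : ℕ → ℂ} {F : ℂ → ℂ}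

theorem list_split (l : List ℂ) (P : ℂ → Prop) [DecidablePred P] (f : ℂ → ℂ) {E : ℝ}
    (h : ∀ ρ ∈ l, ¬ P ρ → ‖f ρ‖ ≤ E) (hE : 0 ≤ E) :
    ‖(l.map f).sum - ((l.filter (fun ρ => decide (P ρ))).map f).sum‖ ≤ l.length * E := by
  induction l with
  | nil => simp
  | cons a l ih =>
    have h1 := ih fun ρ hρ => h ρ (List.mem_cons_of_mem _ hρ)
    have h2 := h a List.mem_cons_self
    by_cases hP : P a
    · rw [List.filter_cons_of_pos (by simpa using hP)]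
      simp only [List.map_cons, List.sum_cons, List.length_cons]
      rw [add_sub_add_left_eq_sub]
      push_cast
      linarith
    · rw [List.filter_cons_of_neg (by simpa using hP)]
      simp only [List.map_cons, List.sum_cons, List.length_cons]
      rw [add_sub_assoc]
      refine (norm_add_le _ _).trans ?_
      have := h2 hP
      push_cast
      linarith

theorem pow_bounds {ε κ0 b : ℝ} (hε : 0 < ε) (hε1 : ε ≤ 1 / 2) (hκ0 : 0 < κ0) (hb : 0 < b) {N : ℝ} (hN : 1 ≤ N) :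
    1 / (κ0 * N ^ (-1 - 2 * ε)) ≤ 1 / κ0 * N ^ 2 ∧ b * N ^ (1 + ε) ≤ b * N ^ 2 ∧ N ≤ N ^ (1 + ε) ∧
      N ^ (-1 - 2 * ε) ≤ N⁻¹ ∧ (κ0 * N ^ (-1 - 2 * ε)) * (b * N ^ (1 + ε)) ^ 2 = κ0 * b ^ 2 * N ∧
      (N ^ (-ε) / 2) ^ 2 / (8 * (κ0 * N ^ (-1 - 2 * ε))) = N / (32 * κ0) := by
  have hN0 : 0 < N := by linarith
  refine ⟨?_, ?_, ?_, ?_, ?_, ?_⟩
  · rw [one_div, mul_inv, ← Real.rpow_neg hN0.le, one_div]
    refine mul_le_mul_of_nonneg_left ?_ (by positivity)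
    rw [← Real.rpow_natCast]
    exact Real.rpow_le_rpow_of_exponent_le hN (by push_cast; linarith)
  · refine mul_le_mul_of_nonneg_left ?_ hb.le
    rw [← Real.rpow_natCast]
    exact Real.rpow_le_rpow_of_exponent_le hN (by push_cast; linarith)
  · nth_rewrite 1 [← Real.rpow_one N]
    exact Real.rpow_le_rpow_of_exponent_le hN (by linarith)
  · rw [← Real.rpow_neg_one N]
    exact Real.rpow_le_rpow_of_exponent_le hN (by linarith)
  · rw [mul_pow, ← Real.rpow_natCast (N ^ (1 + ε)), ← Real.rpow_mul hN0.le]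
    have : N ^ (-1 - 2 * ε) * N ^ ((1 + ε) * ((2 : ℕ) : ℝ)) = N := by
      rw [← Real.rpow_add hN0]
      push_cast
      ring_nf
      exact Real.rpow_one N
    linear_combination κ0 * b ^ 2 * this
  · rw [div_pow, ← Real.rpow_natCast (N ^ (-ε)), ← Real.rpow_mul hN0.le]
    have h1 : N ^ (-ε * ((2 : ℕ) : ℝ)) = N * N ^ (-1 - 2 * ε) := by
      nth_rewrite 2 [← Real.rpow_one N]
      rw [← Real.rpow_add hN0]
      push_cast
      ring_nf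
    rw [h1]
    have h2 : N ^ (-1 - 2 * ε) ≠ 0 := by positivity
    field_simp
    norm_num

theorem exp_w {w t : ℝ} (hw0 : 0 < w) (hw1 : w ≤ 1 / 2) (hw : w = t / 2) :
    Real.exp w ≤ 1 + t ∧ 1 - t ≤ Real.exp (-w) := by
  have e3 : t = 2 * w := by rw [hw]; ring
  rw [e3]
  constructor
  · have e1 := Real.abs_exp_sub_one_sub_id_le (x := w) (by rw [abs_of_pos hw0]; linarith)
    have e2 := (abs_le.1 e1).2
    nlinarith
  · have e1 := Real.add_one_le_exp (-w)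
    linarith

theorem other_bound {κ H Y σ : ℝ} (hκ : 0 < κ) (hκ1 : κ ≤ 1) (hY0 : 0 ≤ Y) (hYH : 4 * Y ≤ κ * H ^ 2)
    (hH : 0 ≤ H) (hσ : 0 ≤ σ) {ρ : ℂ} (h0 : 0 ≤ ρ.re) (h1 : ρ.re ≤ 1) (hneg : ¬ (σ ≤ ρ.re ∧ |ρ.im| ≤ H)) :
    ‖cexp (κ * ρ ^ 2 + ρ * Y)‖ ≤ 3 * Real.exp (σ * Y) := by
  have hre : ((κ : ℂ) * ρ ^ 2 + ρ * Y).re = κ * (ρ.re ^ 2 - ρ.im ^ 2) + ρ.re * Y := by
    rw [Complex.add_re, pow_two, Complex.re_ofReal_mul, Complex.mul_re, Complex.mul_re]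
    simp only [Complex.ofReal_re, Complex.ofReal_im, mul_zero, sub_zero]
    ring
  rw [Complex.norm_exp, hre]
  have hr2 : ρ.re ^ 2 ≤ 1 := pow_le_one₀ h0 h1
  have hκr : κ * ρ.re ^ 2 ≤ 1 := by
    calc κ * ρ.re ^ 2 ≤ 1 * 1 := mul_le_mul hκ1 hr2 (sq_nonneg _) zero_le_one
      _ = 1 := one_mul 1
  have hexp1 : Real.exp 1 ≤ 3 := by
    have := Real.exp_one_lt_d9
    linarith
  have hcase : κ * (ρ.re ^ 2 - ρ.im ^ 2) + ρ.re * Y ≤ 1 + σ * Y := by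
    rw [not_and_or, not_le, not_le] at hneg
    rcases hneg with hneg | hneg
    · have e1 : ρ.re * Y ≤ σ * Y := mul_le_mul_of_nonneg_right hneg.le hY0
      have e3 : 0 ≤ κ * ρ.im ^ 2 := by positivity
      linarith
    · have e1 : ρ.re * Y ≤ 1 * Y := mul_le_mul_of_nonneg_right h1 hY0
      have e3 : κ * H ^ 2 ≤ κ * ρ.im ^ 2 := by
        refine mul_le_mul_of_nonneg_left ?_ hκ.le
        rw [← sq_abs ρ.im]
        exact pow_le_pow_left₀ hH hneg.le 2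
      have e4 : 0 ≤ σ * Y := mul_nonneg hσ hY0
      linarith
  calc Real.exp (κ * (ρ.re ^ 2 - ρ.im ^ 2) + ρ.re * Y) ≤ Real.exp (1 + σ * Y) := Real.exp_le_exp.2 hcase
    _ = Real.exp 1 * Real.exp (σ * Y) := Real.exp_add _ _
    _ ≤ _ := mul_le_mul_of_nonneg_right hexp1 (Real.exp_pos _).le

/-- numerical bounds -/
theorem C2_bound {κ κ0 K b H C1 d N : ℝ} (hκ : 0 < κ) (hκ0 : 0 < κ0) (hK : 0 ≤ K) (hd : 0 ≤ d) (hb : 0 < b)
    (hH : 0 ≤ H) (hC1 : 0 ≤ C1) (hN : 1 ≤ N) (p1 : 1 / κ ≤ 1 / κ0 * N ^ 2) (p2 : H ≤ b * N ^ 2) :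
    2 / κ ^ 2 + (K + 2 * d) * (1 / κ) * Real.exp 8 + C1 * H ^ 9 / κ + C1 * H ^ 4 * 3 ≤
      (2 / κ0 ^ 2 + (K + 2 * d) * (1 / κ0) * Real.exp 8 + C1 * b ^ 9 * (1 / κ0) + C1 * b ^ 4 * 3) * N ^ 20 := by
  have hN20 : ∀ i : ℕ, i ≤ 20 → N ^ i ≤ N ^ 20 := fun i hi => pow_le_pow_right₀ hN hi
  have q1 : 2 / κ ^ 2 ≤ 2 / κ0 ^ 2 * N ^ 20 := by
    have e1 : 2 / κ ^ 2 = 2 * (1 / κ) ^ 2 := by field_simp
    rw [e1]
    calc 2 * (1 / κ) ^ 2 ≤ 2 * (1 / κ0 * N ^ 2) ^ 2 := by gcongr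
      _ = 2 / κ0 ^ 2 * N ^ 4 := by field_simp
      _ ≤ _ := mul_le_mul_of_nonneg_left (hN20 4 (by norm_num)) (by positivity)
  have q2 : (K + 2 * d) * (1 / κ) * Real.exp 8 ≤ (K + 2 * d) * (1 / κ0) * Real.exp 8 * N ^ 20 := by
    calc (K + 2 * d) * (1 / κ) * Real.exp 8 ≤ (K + 2 * d) * (1 / κ0 * N ^ 2) * Real.exp 8 := by gcongr
      _ = (K + 2 * d) * (1 / κ0) * Real.exp 8 * N ^ 2 := by ring
      _ ≤ _ := mul_le_mul_of_nonneg_left (hN20 2 (by norm_num)) (by positivity)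
  have q3 : C1 * H ^ 9 / κ ≤ C1 * b ^ 9 * (1 / κ0) * N ^ 20 := by
    calc C1 * H ^ 9 / κ = C1 * H ^ 9 * (1 / κ) := by ring
      _ ≤ C1 * (b * N ^ 2) ^ 9 * (1 / κ0 * N ^ 2) := by gcongr
      _ = _ := by ring
  have q4 : C1 * H ^ 4 * 3 ≤ C1 * b ^ 4 * 3 * N ^ 20 := by
    calc C1 * H ^ 4 * 3 ≤ C1 * (b * N ^ 2) ^ 4 * 3 := by gcongr
      _ = C1 * b ^ 4 * 3 * N ^ 8 := by ring
      _ ≤ _ := mul_le_mul_of_nonneg_left (hN20 8 (by norm_num)) (by positivity)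
  have : (2 / κ0 ^ 2 + (K + 2 * d) * (1 / κ0) * Real.exp 8 + C1 * b ^ 9 * (1 / κ0) + C1 * b ^ 4 * 3) * N ^ 20 =
    2 / κ0 ^ 2 * N ^ 20 + (K + 2 * d) * (1 / κ0) * Real.exp 8 * N ^ 20 +
          C1 * b ^ 9 * (1 / κ0) * N ^ 20 + C1 * b ^ 4 * 3 * N ^ 20 := by ring
  rw [this]
  linarith

theorem comb_bound {J S1 S2 : ℂ} {A B Z W : ℝ} (h1 : ‖J‖ ≤ A * W) (h2 : ‖J + S1‖ ≤ B * W)
    (h3 : ‖S1 - S2‖ ≤ Z * W) : ‖S2‖ ≤ (A + B + Z) * W := by
  have e1 : S2 = -(S1 - S2) + (J + S1) - J := by ring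
  rw [e1]
  refine (norm_sub_le _ _).trans ?_
  have e2 := norm_add_le (-(S1 - S2)) (J + S1)
  rw [norm_neg] at e2
  linarith

theorem conv_at (h : LD δ c F) {lam θ : ℝ} (hlam : 1 < lam) (hθ : 1 / 2 ≤ θ) {ρ₀ : ℂ} (hρ0 : F ρ₀ = 0)
    {g : ℝ} (hg : 0 < g) (hρg : ρ₀.re = θ + 5 * g) {C η : ℝ}
    (hd : ∀ T : ℝ, 1 ≤ T → ∀ S : Finset ℂ,
      (∀ ρ ∈ S, F ρ = 0 ∧ θ + 2 * g ≤ ρ.re ∧ |ρ.im| ≤ T) → (S.card : ℝ) ≤ C * T ^ (1 - η))
    {ε : ℝ} (hε : 0 < ε) (hε1 : ε ≤ 1 / 2) (hεg : ε ≤ g) (hεη : 2 * ε < η) :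
    ∀ᶠ N : ℕ in atTop, ¬ WinAt δ c lam θ ε N := by
  classical
  have hre1 := h.re_le hρ0
  set L : ℝ := Real.log lam with hL
  have hL0 : 0 < L := Real.log_pos hlam
  have hexpL : Real.exp L = lam := Real.exp_log (by linarith)
  set κ0 : ℝ := 1 / (32 * (4 * L + 1)) with hκ0
  have hκ00 : 0 < κ0 := by positivity
  have hκ01 : κ0 ≤ 1 := by
    rw [hκ0, div_le_one (by positivity)]
    linarith
  set b : ℝ := 1 + 8 * L / κ0 with hb
  have hb1 : 1 ≤ b := by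
    have : 0 ≤ 8 * L / κ0 := by positivity
    linarith
  have hb0 : 0 < b := by linarith
  have hκb : 8 * L ≤ κ0 * b ^ 2 := by
    have e1 : κ0 * b = κ0 + 8 * L := by rw [hb]; field_simp
    nlinarith
  obtain ⟨C1, hC1, hex⟩ := expl h (a := θ + g) (σ := θ + 2 * g) (by linarith) (by linarith) (by linarith)
  set K : ℝ := ∑' n : ℕ, ‖c n‖ * (n : ℝ) ^ (-(2 : ℝ)) with hK
  have hK0 : 0 ≤ K := tsum_nonneg fun n => by positivity
  -- the constants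
  set C2 : ℝ := 2 / κ0 ^ 2 + (K + 2 * δ) * (1 / κ0) * Real.exp 8 + C1 * b ^ 9 * (1 / κ0) + C1 * b ^ 4 * 3 with hC2
  have hC20 : 0 < C2 := by positivity
  set D : ℝ := Real.exp ((θ + 4 * g) * L) - Real.exp ((θ + 3 * g) * L) with hD
  have hD0 : 0 < D := by
    rw [hD, sub_pos]
    exact Real.exp_lt_exp.2 (mul_lt_mul_of_pos_right (by linarith) hL0)
  set Q : ℝ := 1 + (2 + 2 * Real.exp L) * 4 / D with hQ
  have hQ1 : 1 ≤ Q := by
    have : 0 ≤ (2 + 2 * Real.exp L) * 4 / D := by positivity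
    linarith
  have ev1 := card_ev hε hεη C hb0
  have ev2 := fin_small (L := L) (g := g) (ε := ε) (C := C2) (Q := Q) (σ1 := θ + 2 * g) (σ2 := θ + 3 * g)
    hL0 hg (by linarith) hε hC20 hQ1 20
  have ev3 : ∀ᶠ N : ℕ in atTop, |ρ₀.im| ≤ (N : ℝ) := tendsto_natCast_atTop_atTop.eventually_ge_atTop _
  have hinv : Tendsto (fun N : ℕ => (N : ℝ)⁻¹) atTop (𝓝 0) := tendsto_inv_atTop_nhds_zero_nat
  have ev4 : ∀ᶠ N : ℕ in atTop, ∀ κ : ℝ, 0 < κ → κ ≤ (N : ℝ)⁻¹ → 3 / 4 ≤ (cexp (κ * ρ₀ ^ 2)).re := by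
    have e1 : Tendsto (fun κ : ℝ => (cexp (κ * ρ₀ ^ 2)).re) (𝓝 0) (𝓝 1) := by
      have : Continuous (fun κ : ℝ => (cexp (κ * ρ₀ ^ 2)).re) := by fun_prop
      have := this.tendsto 0
      simpa using this
    have e2 := e1.eventually_const_le (show (3 / 4 : ℝ) < 1 by norm_num)
    rw [Metric.eventually_nhds_iff] at e2
    obtain ⟨r, hr, he⟩ := e2
    filter_upwards [hinv.eventually_lt_const hr] with N hN κ hκ hκN
    refine he ?_
    rw [Real.dist_eq, sub_zero, abs_of_pos hκ]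
    linarith
  have ev5 : ∀ᶠ N : ℕ in atTop, C1 * b ^ 4 * (N : ℝ) ^ 8 * (3 * Real.exp (-(N : ℝ) / 2)) ≤ 1 / 8 := by
    have e1 : Tendsto (fun x : ℝ => x ^ 8 * Real.exp (-(1 / 2 : ℝ) * x)) atTop (𝓝 0) := by
      have := tendsto_rpow_mul_exp_neg_mul_atTop_nhds_zero 8 (1 / 2) (by norm_num)
      refine this.congr fun x => ?_
      norm_num
    have e2 := ((e1.comp tendsto_natCast_atTop_atTop).const_mul (C1 * b ^ 4 * 3))
    rw [mul_zero] at e2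
    filter_upwards [e2.eventually_le_const (show (0 : ℝ) < 1 / 8 by norm_num)] with N hN
    refine le_trans (le_of_eq ?_) hN
    simp only [Function.comp_apply]
    rw [show -(N : ℝ) / 2 = -(1 / 2 : ℝ) * N by ring]
    ring
  filter_upwards [ev1, ev2, ev3, ev4, ev5, eventually_ge_atTop 1] with N h1 h2 h3 h4 h5 hN1 hwin
  have hN1' : (1 : ℝ) ≤ N := by exact_mod_cast hN1
  have hN0 : (0 : ℝ) < N := by linarith
  obtain ⟨p1, p2, p3, p4, p5, p6⟩ := pow_bounds hε hε1 hκ00 hb0 hN1'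
  obtain ⟨κ, hκ⟩ : ∃ κ : ℝ, κ = κ0 * (N : ℝ) ^ (-1 - 2 * ε) := ⟨_, rfl⟩
  obtain ⟨H, hH⟩ : ∃ H : ℝ, H = b * (N : ℝ) ^ (1 + ε) := ⟨_, rfl⟩
  obtain ⟨w, hw⟩ : ∃ w : ℝ, w = (N : ℝ) ^ (-ε) / 2 := ⟨_, rfl⟩
  rw [← hκ] at p1
  rw [← hH] at p2
  rw [← hκ, ← hH] at p5
  rw [← hκ, ← hw] at p6
  have hκ0' : 0 < κ := by rw [hκ]; positivity
  have hκN : κ ≤ (N : ℝ)⁻¹ := by
    rw [hκ]
    calc κ0 * (N : ℝ) ^ (-1 - 2 * ε) ≤ 1 * (N : ℝ)⁻¹ := mul_le_mul hκ01 p4 (by positivity) (by norm_num)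
      _ = _ := one_mul _
  have hκ1 : κ ≤ 1 := hκN.trans (inv_le_one_of_one_le₀ hN1')
  have hHN : (N : ℝ) ≤ H := by
    rw [hH]
    calc (N : ℝ) ≤ 1 * (N : ℝ) ^ (1 + ε) := by rw [one_mul]; exact p3
      _ ≤ _ := mul_le_mul_of_nonneg_right hb1 (by positivity)
  have hH1 : 1 ≤ H := hN1'.trans hHN
  have hw0 : 0 < w := by rw [hw]; positivity
  have hNε : (N : ℝ) ^ (-ε) ≤ 1 := Real.rpow_le_one_of_one_le_of_nonpos hN1' (by linarith)
  have hw1 : w ≤ 1 / 2 := by rw [hw]; linarith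
  obtain ⟨l, l1, l2, l3, l4⟩ := hex H hH1
  -- the number of steps
  set n : ℕ := ⌊(N : ℝ) ^ (1 - ε)⌋₊ with hn
  have hnN : (n : ℝ) ≤ (N : ℝ) ^ (1 - ε) := Nat.floor_le (by positivity)
  have hNN : (N : ℝ) ^ (1 - ε) ≤ N := by
    nth_rewrite 2 [← Real.rpow_one (N : ℝ)]
    exact Real.rpow_le_rpow_of_exponent_le hN1' (by linarith)
  set l' : List ℂ := l.filter (fun ρ => decide (θ + 2 * g ≤ ρ.re ∧ |ρ.im| ≤ H)) with hl'
  have hl'mem : ∀ ρ, ρ ∈ l' ↔ ρ ∈ l ∧ (θ + 2 * g ≤ ρ.re ∧ |ρ.im| ≤ H) := by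
    intro ρ
    rw [hl', List.mem_filter, decide_eq_true_eq]
  have hcard : l'.toFinset.card ≤ n := by
    rw [hn]
    refine Nat.le_floor ?_
    refine le_trans (hd H hH1 l'.toFinset ?_) ?_
    · intro ρ hρ
      have := (hl'mem ρ).1 (List.mem_toFinset.1 hρ)
      exact ⟨(l1 ρ this.1).1, this.2.1, this.2.2⟩
    · rw [hH]
      exact h1
  -- the sums over the zeros
  have hsum : ∀ j < n, ‖(l'.map (fun ρ => cexp (κ * ρ ^ 2 + ρ * ((((N + j : ℕ) : ℝ) * L : ℝ) : ℂ)))).sum‖ ≤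
      C2 * (N : ℝ) ^ 20 * Real.exp ((θ + 2 * g) * (N + (N : ℝ) ^ (1 - ε)) * L) := by
    intro j hj
    set k : ℕ := N + j with hk
    set Y : ℝ := ((k : ℕ) : ℝ) * L with hY
    have hjn : (j : ℝ) ≤ (N : ℝ) ^ (1 - ε) := by
      have : (j : ℝ) ≤ n := by exact_mod_cast hj.le
      linarith
    have hkN : (k : ℝ) ≤ N + (N : ℝ) ^ (1 - ε) := by
      rw [hk]
      push_cast
      linarith
    have hk2 : (k : ℝ) ≤ 2 * N := by linarith
    have hY0 : 0 ≤ Y := by positivity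
    have hY2 : Y ≤ 2 * N * L := mul_le_mul_of_nonneg_right hk2 hL0.le
    have hYH : 4 * Y ≤ κ * H ^ 2 := by
      rw [p5]
      have e1 := mul_le_mul_of_nonneg_right hκb hN0.le
      linarith
    have hlamk : lam ^ k = Real.exp Y := by
      rw [hY, Real.exp_nat_mul, hexpL]
    have hlamr : ∀ t : ℝ, lam ^ ((k : ℝ) * t) = Real.exp (t * Y) := by
      intro t
      rw [Real.rpow_def_of_pos (by linarith), ← hL, hY]
      congr 1
      ring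
    have hwin' := hwin k (by rw [hk]; omega) hkN
    have hexpw := (exp_w hw0 hw1 hw).1
    have hexpw2 := (exp_w hw0 hw1 hw).2
    have hYw : Real.exp (Y - w) = Real.exp Y * Real.exp (-w) := by
      rw [← Real.exp_add, ← sub_eq_add_neg]
    have hJ := winJ (δ := δ) h.c0 (h.summ 2 (by norm_num)) (κ := κ) (Y := Y) (w := w)
      (B := Real.exp ((θ + ε) * Y)) hκ0' hκ1 hw0 hw1 hY0 (by
        intro u hu1 hu2
        have := hwin' (Real.exp (Y - w)) (Real.exp u) (by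
          rw [hlamk, hYw]
          exact mul_le_mul_of_nonneg_left hexpw2 (Real.exp_pos _).le) (Real.exp_le_exp.2 hu1) (by
          refine (Real.exp_le_exp.2 hu2).trans ?_
          rw [hlamk, Real.exp_add]
          exact mul_le_mul_of_nonneg_left hexpw (Real.exp_pos _).le)
        rwa [hlamr] at this)
    have hE := l4 κ Y hκ0' hκ1 hY0 hYH
    -- the other zeros
    have hS := list_split l (fun ρ => θ + 2 * g ≤ ρ.re ∧ |ρ.im| ≤ H) (fun ρ => cexp (κ * ρ ^ 2 + ρ * Y))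
      (E := 3 * Real.exp ((θ + 2 * g) * Y)) (by
        intro ρ hρ hneg
        exact other_bound hκ0' hκ1 hY0 hYH (by linarith) (by linarith) (by linarith [(l1 ρ hρ).2.1])
          (l1 ρ hρ).2.2 hneg) (by positivity)
    rw [← hl'] at hS
    -- combine
    obtain ⟨S1, hS1⟩ : ∃ S1, S1 = (l.map (fun ρ => cexp (κ * ρ ^ 2 + ρ * Y))).sum := ⟨_, rfl⟩
    obtain ⟨S2, hS2⟩ : ∃ S2, S2 = (l'.map (fun ρ => cexp (κ * ρ ^ 2 + ρ * Y))).sum := ⟨_, rfl⟩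
    rw [← hS1] at hE hS
    rw [← hS2] at hS ⊢
    obtain ⟨J, hJdef⟩ : ∃ J, J = Jc c κ Y - δ * cexp (κ + Y) := ⟨_, rfl⟩
    rw [← hJdef] at hJ hE
    obtain ⟨W, hW⟩ : ∃ W : ℝ, W = Real.exp ((θ + 2 * g) * Y) := ⟨_, rfl⟩
    have hW1 : 1 ≤ W := by
      rw [hW]
      exact Real.one_le_exp (mul_nonneg (by linarith) hY0)
    rw [← hW] at hS hE
    have hexpl8 : Real.exp (8 * κ + 2 * Y - w ^ 2 / (8 * κ)) ≤ Real.exp 8 := by
      refine Real.exp_le_exp.2 ?_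
      rw [p6]
      have e1 : (N : ℝ) / (32 * κ0) = (4 * L + 1) * N := by
        rw [hκ0]
        field_simp
      rw [e1]
      linarith
    have hB : Real.exp ((θ + ε) * Y) ≤ W := by
      rw [hW]
      exact Real.exp_le_exp.2 (mul_le_mul_of_nonneg_right (by linarith) hY0)
    have hJ2 : ‖J‖ ≤ (2 / κ ^ 2 + (K + 2 * δ) * (1 / κ) * Real.exp 8) * W := by
      have e0 : (2 / κ ^ 2 + (K + 2 * δ) * (1 / κ) * Real.exp 8) * W =
          2 / κ ^ 2 * W + (K + 2 * δ) * (1 / κ) * Real.exp 8 * W := add_mul _ _ _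
      rw [e0]
      refine hJ.trans ?_
      refine add_le_add (mul_le_mul_of_nonneg_left hB (by positivity)) ?_
      calc (K + 2 * δ) * (1 / κ) * Real.exp (8 * κ + 2 * Y - w ^ 2 / (8 * κ)) ≤ (K + 2 * δ) * (1 / κ) * Real.exp 8 :=
            mul_le_mul_of_nonneg_left hexpl8 (by positivity)
        _ = ((K + 2 * δ) * (1 / κ) * Real.exp 8) * 1 := (mul_one _).symm
        _ ≤ _ := mul_le_mul_of_nonneg_left hW1 (by positivity)
    have hS2n : ‖S2‖ ≤ (2 / κ ^ 2 + (K + 2 * δ) * (1 / κ) * Real.exp 8 + C1 * H ^ 9 / κ + C1 * H ^ 4 * 3) * W := by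
      refine comb_bound hJ2 hE (hS.trans ?_)
      calc (l.length : ℝ) * (3 * W) ≤ C1 * H ^ 4 * (3 * W) := mul_le_mul_of_nonneg_right l3 (by linarith)
        _ = _ := by ring
    have hWN : W ≤ Real.exp ((θ + 2 * g) * (N + (N : ℝ) ^ (1 - ε)) * L) := by
      rw [hW, hY, mul_assoc]
      refine Real.exp_le_exp.2 (mul_le_mul_of_nonneg_left ?_ (by linarith))
      exact mul_le_mul_of_nonneg_right hkN hL0.le
    calc ‖S2‖ ≤ _ := hS2n
      _ ≤ (C2 * (N : ℝ) ^ 20) * Real.exp ((θ + 2 * g) * (N + (N : ℝ) ^ (1 - ε)) * L) := by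
        exact mul_le_mul (C2_bound hκ0' hκ00 hK0 (Nat.cast_nonneg _) hb0 (by linarith) (by linarith) hN1' p1 p2)
          hWN (by linarith) (mul_nonneg hC20.le (by positivity))
  obtain ⟨r, hr, hout⟩ := outer (κ := κ) (σ2 := θ + 3 * g) (σ3 := θ + 4 * g) hL0 hN1 (by linarith) (by positivity)
    (by linarith) (fun ρ hρ => (l1 ρ ((hl'mem ρ).1 hρ).1).2.2) hcard hsum
  have hX : (2 + 2 * Real.exp L) * (2 * (n + 1)) / D ≤ Q * N := by
    have e1 : (n : ℝ) + 1 ≤ 2 * N := by linarith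
    calc (2 + 2 * Real.exp L) * (2 * (n + 1)) / D ≤ (2 + 2 * Real.exp L) * (2 * (2 * N)) / D := by gcongr
      _ = (2 + 2 * Real.exp L) * 4 / D * N := by ring
      _ ≤ _ := by
        refine mul_le_mul_of_nonneg_right ?_ hN0.le
        rw [hQ]
        linarith
  have hsmall := h2 n ((2 + 2 * Real.exp L) * (2 * (n + 1)) / D) hnN (by positivity) hX
  have hle := hout.trans hsmall
  -- lower bound
  have hE0 : 0 ≤ Real.exp (κ - 1 / (2 * κ)) := (Real.exp_pos _).le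
  have hlow := list_re_ge' l' (fun ρ => (if r < ‖cexp (ρ * L)‖ then 1 else 0) * cexp (κ * ρ ^ 2))
    (E := Real.exp (κ - 1 / (2 * κ))) (q := 3 / 4) (ρ₀ := ρ₀) hE0 ?_ ?_ ?_
  · have e1 := Complex.re_le_norm ((l'.map (fun ρ => (if r < ‖cexp (ρ * L)‖ then 1 else 0) * cexp (κ * ρ ^ 2))).sum)
    have e2 : (l'.length : ℝ) * Real.exp (κ - 1 / (2 * κ)) ≤ 1 / 8 := by
      refine le_trans ?_ h5
      have e3 : (l'.length : ℝ) ≤ C1 * b ^ 4 * (N : ℝ) ^ 8 := by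
        have e4 : (l'.length : ℝ) ≤ l.length := by exact_mod_cast List.length_filter_le _ _
        refine e4.trans (l3.trans ?_)
        calc C1 * H ^ 4 ≤ C1 * (b * (N : ℝ) ^ 2) ^ 4 := by gcongr
          _ = _ := by ring
      have e5 : Real.exp (κ - 1 / (2 * κ)) ≤ 3 * Real.exp (-(N : ℝ) / 2) := by
        have e6 : (N : ℝ) / 2 ≤ 1 / (2 * κ) := by
          rw [div_le_div_iff₀ (by norm_num) (by positivity)]
          have : (N : ℝ) * κ ≤ 1 := by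
            calc (N : ℝ) * κ ≤ N * (N : ℝ)⁻¹ := mul_le_mul_of_nonneg_left hκN hN0.le
              _ = 1 := mul_inv_cancel₀ hN0.ne'
          linarith
        have e7 : Real.exp 1 ≤ 3 := by
          have := Real.exp_one_lt_d9
          linarith
        calc Real.exp (κ - 1 / (2 * κ)) ≤ Real.exp (1 + -(N : ℝ) / 2) := Real.exp_le_exp.2 (by linarith)
          _ = Real.exp 1 * Real.exp (-(N : ℝ) / 2) := Real.exp_add _ _
          _ ≤ _ := mul_le_mul_of_nonneg_right e7 (Real.exp_pos _).le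
      exact mul_le_mul e3 e5 hE0 (by positivity)
    linarith
  · intro ρ hρ
    have e1 := (hl'mem ρ).1 hρ
    have e2 := re_exp_ge hκ0' (ρ := ρ) (by linarith [e1.2.1]) (l1 ρ e1.1).2.2
    split_ifs
    · rw [one_mul]
      exact e2
    · rw [zero_mul, Complex.zero_re]
      linarith
  · rw [hl'mem]
    have e1 : θ + 2 * g ≤ ρ₀.re := by linarith
    exact ⟨l2 ρ₀ hρ0 e1 (h3.trans hHN), e1, h3.trans hHN⟩
  · have e1 : r < ‖cexp (ρ₀ * L)‖ := by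
      rw [Complex.norm_exp, Complex.mul_re, Complex.ofReal_re, Complex.ofReal_im, mul_zero, sub_zero]
      refine lt_of_le_of_lt hr.2 (Real.exp_lt_exp.2 ?_)
      rw [hρg]
      exact mul_lt_mul_of_pos_right (by linarith) hL0
    rw [if_pos e1, one_mul]
    exact h4 κ hκ0' hκN

/-- **Windows imply the zero-free half-plane.** -/
theorem conv (h : LD δ c F) (hF : Dens F) {lam θ : ℝ} (hlam : 1 < lam) (hθ : 1 / 2 ≤ θ)
    (hw : ∀ ε : ℝ, 0 < ε → ∃ᶠ N : ℕ in atTop, WinAt δ c lam θ ε N) :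
    ∀ ρ : ℂ, F ρ = 0 → ρ.re ≤ θ := by
  intro ρ hρ
  by_contra hcon
  rw [not_le] at hcon
  set g : ℝ := (ρ.re - θ) / 5 with hg
  have hg0 : 0 < g := by rw [hg]; linarith
  obtain ⟨C, η, hη, hd⟩ := hF (θ + 2 * g - 1 / 2) (by linarith)
  have hd' : ∀ T : ℝ, 1 ≤ T → ∀ S : Finset ℂ,
      (∀ ρ ∈ S, F ρ = 0 ∧ θ + 2 * g ≤ ρ.re ∧ |ρ.im| ≤ T) → (S.card : ℝ) ≤ C * T ^ (1 - η) := by
    intro T hT S hS
    refine hd T hT S fun r hr => ⟨(hS r hr).1, ?_, (hS r hr).2.2⟩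
    linarith [(hS r hr).2.1]
  set ε : ℝ := min (1 / 2) (min g (η / 3)) with hε
  have hε0 : 0 < ε := by
    rw [hε]
    exact lt_min (by norm_num) (lt_min hg0 (by linarith))
  have hε1 : ε ≤ 1 / 2 := min_le_left _ _
  have hε2 : ε ≤ g := (min_le_right _ _).trans (min_le_left _ _)
  have hε3 : ε ≤ η / 3 := (min_le_right _ _).trans (min_le_right _ _)
  have := conv_at h hlam hθ hρ hg0 (by rw [hg]; ring) hd' hε0 hε1 hε2 (by linarith)
  obtain ⟨N, hN1, hN2⟩ := ((hw ε hε0).and_eventually this).exists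
  exact hN2 hN1

end Pool.Agent.Run7.h456.Win
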