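import Mathlib
import Pool.Agent.Run7.h456.Win.Num

/-!
# Elementary limits, real parameter
-/

set_option autoImplicit false

open Set Filter Topology Asymptotics

namespace Pool.Agent.Run7.h456.Win

theorem small_evR {ε : ℝ} (hε : 0 < ε) (A B : ℝ) {τ : ℝ} (hτ : 0 < τ) :
    ∀ᶠ U : ℝ in atTop, A + B * Real.log U + U ^ (1 - ε) * (A + B * Real.log U) ≤ τ * U := by
  filter_upwards [(small_o hε A B).def hτ, eventually_ge_atTop 0] with U hU hU0
  rw [Real.norm_eq_abs, Real.norm_eq_abs, abs_of_nonneg hU0] at hU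
  exact (le_abs_self _).trans hU

theorem card_evR {ε τ e : ℝ} (h : (1 + τ) * e < 1 - ε) (C : ℝ) {b : ℝ} (hb : 0 < b) :
    ∀ᶠ U : ℝ in atTop, C * (b * U ^ (1 + τ)) ^ e ≤ U ^ (1 - ε) := by
  set η : ℝ := (1 - ε) - (1 + τ) * e with hη
  have he0 : 0 < η := by rw [hη]; linarith
  filter_upwards [(tendsto_rpow_atTop he0).eventually_ge_atTop (C * b ^ e), eventually_gt_atTop 0] with U hU hU0
  rw [Real.mul_rpow hb.le (by positivity), ← Real.rpow_mul hU0.le]
  calc C * (b ^ e * U ^ ((1 + τ) * e)) = (C * b ^ e) * U ^ ((1 + τ) * e) := by ring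
    _ ≤ U ^ η * U ^ ((1 + τ) * e) := mul_le_mul_of_nonneg_right hU (by positivity)
    _ = _ := by rw [← Real.rpow_add hU0, hη]; congr 1; ring

theorem fin_smallR {g ε C Q σ1 σ2 : ℝ} (hg : 0 < g) (hσ : σ1 + g ≤ σ2) (hε : 0 < ε)
    (hC : 0 < C) (hQ : 1 ≤ Q) (K : ℕ) :
    ∀ᶠ U : ℝ in atTop, ∀ (n m : ℕ) (h V X : ℝ), (n : ℝ) ≤ U ^ (1 - ε) → 0 ≤ X → X ≤ Q * U ^ 5 → h ≤ 1 →
      (m : ℝ) * h = V → U ≤ V →
      Real.exp h * ((Real.exp (σ2 * h) ^ m)⁻¹ *
        (X ^ n * (C * U ^ K * Real.exp (σ1 * V + |σ1|)))) ≤ 1 / 4 := by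
  set A : ℝ := 1 + |Real.log C| + Real.log Q + |σ1| with hA
  have hlogQ : 0 ≤ Real.log Q := Real.log_nonneg hQ
  have h1 := small_evR hε A (K + 5) (τ := g / 2) (by positivity)
  have h2 : Tendsto (fun U : ℝ => g / 2 * U) atTop atTop := tendsto_id.const_mul_atTop (by positivity)
  filter_upwards [h1, h2.eventually_ge_atTop (Real.log 4), eventually_ge_atTop 1] with U hU hU2 hU1 n m h V X hn hX0 hX
    hh hmV hUV
  have hU0 : (0 : ℝ) < U := by linarith
  have hlogU : 0 ≤ Real.log U := Real.log_nonneg hU1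
  set u : ℝ := U ^ (1 - ε) with hu
  have hu0 : 0 ≤ u := by positivity
  have hQU : 0 < Q * U ^ 5 := by positivity
  have hXn : X ^ n ≤ Real.exp (u * (Real.log Q + 5 * Real.log U)) := by
    refine (pow_le_pow_left₀ hX0 hX n).trans ?_
    have e1 : (Q * U ^ 5) ^ n = Real.exp (n * (Real.log Q + 5 * Real.log U)) := by
      have : Real.log Q + 5 * Real.log U = Real.log (Q * U ^ 5) := by
        rw [Real.log_mul (by positivity) (by positivity), Real.log_pow]
        push_cast
        ring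
      rw [this, Real.exp_nat_mul, Real.exp_log hQU]
    rw [e1]
    exact Real.exp_le_exp.2 (mul_le_mul_of_nonneg_right hn (by positivity))
  have hCe : C ≤ Real.exp |Real.log C| := by
    rw [← Real.log_le_iff_le_exp hC]
    exact le_abs_self _
  have hUK : U ^ K = Real.exp (K * Real.log U) := by
    rw [Real.exp_nat_mul, Real.exp_log hU0]
  have hpow : (Real.exp (σ2 * h) ^ m)⁻¹ = Real.exp (-(σ2 * V)) := by
    rw [← Real.exp_nat_mul, Real.exp_neg, ← hmV]
    congr 2
    ring
  rw [hpow, hUK]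
  calc Real.exp h * (Real.exp (-(σ2 * V)) * (X ^ n * (C * Real.exp (K * Real.log U) * Real.exp (σ1 * V + |σ1|))))
      ≤ Real.exp 1 * (Real.exp (-(σ2 * V)) * (Real.exp (u * (Real.log Q + 5 * Real.log U)) *
        (Real.exp |Real.log C| * Real.exp (K * Real.log U) * Real.exp (σ1 * V + |σ1|)))) := by
        have := Real.exp_le_exp.2 hh
        gcongr
    _ = Real.exp (1 + (-(σ2 * V) + (u * (Real.log Q + 5 * Real.log U) + (|Real.log C| + K * Real.log U +
        (σ1 * V + |σ1|))))) := by simp only [Real.exp_add]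
    _ ≤ Real.exp (-Real.log 4) := by
      refine Real.exp_le_exp.2 ?_
      have e2 : (σ1 + g) * V ≤ σ2 * V := mul_le_mul_of_nonneg_right hσ (by linarith)
      have e3 : g * U ≤ g * V := mul_le_mul_of_nonneg_left hUV hg.le
      have e4 : 0 ≤ u * (1 + |Real.log C| + |σ1| + K * Real.log U) := by positivity
      have e5 : A + (K + 5) * Real.log U + u * (A + (K + 5) * Real.log U) =
        (1 + |Real.log C| + |σ1| + K * Real.log U) + (Real.log Q + 5 * Real.log U) +
          u * (1 + |Real.log C| + |σ1| + K * Real.log U) + u * (Real.log Q + 5 * Real.log U) := by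
        rw [hA]; ring
      rw [e5] at hU
      have e6 : 0 ≤ Real.log Q + 5 * Real.log U := by positivity
      nlinarith
    _ = 1 / 4 := by rw [Real.exp_neg, Real.exp_log (by norm_num)]; norm_num

end Pool.Agent.Run7.h456.Win
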