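import Mathlib
import Pool.Agent.Run7.h456.Win.WinJ
import Pool.Agent.Run7.h456.Win.Outer
import Pool.Agent.Run7.h456.Win.NumR
import Pool.Agent.Run7.h456.Win.Conv

/-!
# One short window implies the zero-free half-plane
-/

set_option autoImplicit false

open Complex MeasureTheory Set Filter Topology

namespace Pool.Agent.Run7.h456.Win

/-- The window condition at `X`: a window of relative width `(log X)^(-τ)`. -/
def Win1 (δ : ℕ) (c : ℕ → ℂ) (μ τ X : ℝ) : Prop :=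
  ∀ x y : ℝ, X ≤ x → x ≤ y → y ≤ X * (1 + (Real.log X) ^ (-τ)) →
    ‖∑ n ∈ Finset.Ioc ⌊x⌋₊ ⌊y⌋₊, c n - δ * ((y : ℂ) - x)‖ ≤ X ^ μ

/-- A zero density estimate with exponent `1 - d + o(1)` at distance `d` from the line `Re s = 1/2`. -/
def DensE (F : ℂ → ℂ) : Prop :=
  ∀ d : ℝ, 0 < d → ∀ e : ℝ, 1 - d < e → ∃ C : ℝ, ∀ T : ℝ, 1 ≤ T → ∀ S : Finset ℂ,
    (∀ ρ ∈ S, F ρ = 0 ∧ 1 / 2 + d ≤ ρ.re ∧ |ρ.im| ≤ T) → (S.card : ℝ) ≤ C * T ^ e

variable {δ : ℕ} {c : ℕ → ℂ} {F : ℂ → ℂ}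

theorem pow_bounds1 {τ κ0 b : ℝ} (hτ : 0 < τ) (hτ1 : τ ≤ 2) (hκ0 : 0 < κ0) (hb : 0 < b) {U : ℝ} (hU : 1 ≤ U) :
    1 / (κ0 * U ^ (-1 - 2 * τ)) ≤ 1 / κ0 * U ^ 5 ∧ b * U ^ (1 + τ) ≤ b * U ^ 3 ∧ U ≤ U ^ (1 + τ) ∧
      U ^ (-1 - 2 * τ) ≤ U⁻¹ ∧ (κ0 * U ^ (-1 - 2 * τ)) * (b * U ^ (1 + τ)) ^ 2 = κ0 * b ^ 2 * U ∧
      (U ^ (-τ) / 8) ^ 2 / (8 * (κ0 * U ^ (-1 - 2 * τ))) = U / (512 * κ0) := by
  have hU0 : 0 < U := by linarith
  refine ⟨?_, ?_, ?_, ?_, ?_, ?_⟩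
  · rw [one_div, mul_inv, ← Real.rpow_neg hU0.le, one_div]
    refine mul_le_mul_of_nonneg_left ?_ (by positivity)
    rw [← Real.rpow_natCast]
    exact Real.rpow_le_rpow_of_exponent_le hU (by push_cast; linarith)
  · refine mul_le_mul_of_nonneg_left ?_ hb.le
    rw [← Real.rpow_natCast]
    exact Real.rpow_le_rpow_of_exponent_le hU (by push_cast; linarith)
  · nth_rewrite 1 [← Real.rpow_one U]
    exact Real.rpow_le_rpow_of_exponent_le hU (by linarith)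
  · rw [← Real.rpow_neg_one U]
    exact Real.rpow_le_rpow_of_exponent_le hU (by linarith)
  · rw [mul_pow, ← Real.rpow_natCast (U ^ (1 + τ)), ← Real.rpow_mul hU0.le]
    have : U ^ (-1 - 2 * τ) * U ^ ((1 + τ) * ((2 : ℕ) : ℝ)) = U := by
      rw [← Real.rpow_add hU0]
      push_cast
      ring_nf
      exact Real.rpow_one U
    linear_combination κ0 * b ^ 2 * this
  · rw [div_pow, ← Real.rpow_natCast (U ^ (-τ)), ← Real.rpow_mul hU0.le]
    have h1 : U ^ (-τ * ((2 : ℕ) : ℝ)) = U * U ^ (-1 - 2 * τ) := by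
      nth_rewrite 2 [← Real.rpow_one U]
      rw [← Real.rpow_add hU0]
      push_cast
      ring_nf
    rw [h1]
    have h2 : U ^ (-1 - 2 * τ) ≠ 0 := by positivity
    field_simp
    norm_num

theorem C3_bound {κ κ0 K b H C1 d U : ℝ} (hκ : 0 < κ) (hκ0 : 0 < κ0) (hK : 0 ≤ K) (hd : 0 ≤ d) (hb : 0 < b)
    (hH : 0 ≤ H) (hC1 : 0 ≤ C1) (hU : 1 ≤ U) (p1 : 1 / κ ≤ 1 / κ0 * U ^ 5) (p2 : H ≤ b * U ^ 3) :
    2 / κ ^ 2 + (K + 2 * d) * (1 / κ) * Real.exp 8 + C1 * H ^ 9 / κ + C1 * H ^ 4 * 3 ≤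
      (2 / κ0 ^ 2 + (K + 2 * d) * (1 / κ0) * Real.exp 8 + C1 * b ^ 9 * (1 / κ0) + C1 * b ^ 4 * 3) * U ^ 32 := by
  have hU20 : ∀ i : ℕ, i ≤ 32 → U ^ i ≤ U ^ 32 := fun i hi => pow_le_pow_right₀ hU hi
  have q1 : 2 / κ ^ 2 ≤ 2 / κ0 ^ 2 * U ^ 32 := by
    have e1 : 2 / κ ^ 2 = 2 * (1 / κ) ^ 2 := by field_simp
    rw [e1]
    calc 2 * (1 / κ) ^ 2 ≤ 2 * (1 / κ0 * U ^ 5) ^ 2 := by gcongr
      _ = 2 / κ0 ^ 2 * U ^ 10 := by field_simp
      _ ≤ _ := mul_le_mul_of_nonneg_left (hU20 10 (by norm_num)) (by positivity)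
  have q2 : (K + 2 * d) * (1 / κ) * Real.exp 8 ≤ (K + 2 * d) * (1 / κ0) * Real.exp 8 * U ^ 32 := by
    calc (K + 2 * d) * (1 / κ) * Real.exp 8 ≤ (K + 2 * d) * (1 / κ0 * U ^ 5) * Real.exp 8 := by gcongr
      _ = (K + 2 * d) * (1 / κ0) * Real.exp 8 * U ^ 5 := by ring
      _ ≤ _ := mul_le_mul_of_nonneg_left (hU20 5 (by norm_num)) (by positivity)
  have q3 : C1 * H ^ 9 / κ ≤ C1 * b ^ 9 * (1 / κ0) * U ^ 32 := by
    calc C1 * H ^ 9 / κ = C1 * H ^ 9 * (1 / κ) := by ring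
      _ ≤ C1 * (b * U ^ 3) ^ 9 * (1 / κ0 * U ^ 5) := by gcongr
      _ = _ := by ring
  have q4 : C1 * H ^ 4 * 3 ≤ C1 * b ^ 4 * 3 * U ^ 32 := by
    calc C1 * H ^ 4 * 3 ≤ C1 * (b * U ^ 3) ^ 4 * 3 := by gcongr
      _ = C1 * b ^ 4 * 3 * U ^ 12 := by ring
      _ ≤ _ := mul_le_mul_of_nonneg_left (hU20 12 (by norm_num)) (by positivity)
  have : (2 / κ0 ^ 2 + (K + 2 * d) * (1 / κ0) * Real.exp 8 + C1 * b ^ 9 * (1 / κ0) + C1 * b ^ 4 * 3) * U ^ 32 =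
    2 / κ0 ^ 2 * U ^ 32 + (K + 2 * d) * (1 / κ0) * Real.exp 8 * U ^ 32 +
          C1 * b ^ 9 * (1 / κ0) * U ^ 32 + C1 * b ^ 4 * 3 * U ^ 32 := by ring
  rw [this]
  linarith

theorem exp_w1 {w t : ℝ} (ht : 0 ≤ t) (ht1 : t ≤ 1) (hw : w = t / 8) : Real.exp (3 * w) ≤ 1 + t := by
  have e1 := Real.abs_exp_sub_one_sub_id_le (x := 3 * w) (by rw [hw, abs_of_nonneg (by positivity)]; linarith)
  have e2 := (abs_le.1 e1).2
  rw [hw] at e2 ⊢
  nlinarith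

/-- The choice of the step. -/
theorem step_choice {τ U w : ℝ} (hτ : 0 < τ) (hτ1 : τ ≤ 2) (hU : 1 ≤ U) (hw : w = U ^ (-τ) / 8) :
    ∃ (m : ℕ) (h : ℝ), 1 ≤ m ∧ 0 < h ∧ h ≤ 1 ∧ (m : ℝ) * h = U + w ∧ U * h ≤ w ∧ U ^ (-(4 : ℝ)) / 32 ≤ h := by
  have hU0 : 0 < U := by linarith
  have hw0 : 0 < w := by rw [hw]; positivity
  have hUτ : U ^ (-τ) ≤ 1 := Real.rpow_le_one_of_one_le_of_nonpos hU (by linarith)
  have hw1 : w ≤ 1 / 8 := by rw [hw]; linarith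
  obtain ⟨M, hM⟩ : ∃ M : ℝ, M = 16 * U ^ (2 + τ) := ⟨_, rfl⟩
  have hU2 : 1 ≤ U ^ (2 + τ) := Real.one_le_rpow hU (by linarith)
  have hM16 : 16 ≤ M := by rw [hM]; linarith
  obtain ⟨m, hm⟩ : ∃ m : ℕ, m = ⌈M⌉₊ := ⟨_, rfl⟩
  have hmM : M ≤ m := by rw [hm]; exact Nat.le_ceil M
  have hmM2 : (m : ℝ) ≤ 2 * M := by
    have := Nat.ceil_lt_add_one (show 0 ≤ M by linarith)
    rw [hm]
    linarith
  have hm0 : (0 : ℝ) < m := by linarith
  have hUh : (U + w) / m ≤ U ^ (-1 - τ) / 8 := by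
    rw [div_le_div_iff₀ hm0 (by norm_num)]
    have e1 : U ^ (-1 - τ) * M = 16 * U := by
      have : U ^ (-1 - τ) * U ^ (2 + τ) = U := by
        rw [← Real.rpow_add hU0]
        ring_nf
        exact Real.rpow_one U
      rw [hM]
      linear_combination 16 * this
    have e2 : U ^ (-1 - τ) * M ≤ U ^ (-1 - τ) * m := mul_le_mul_of_nonneg_left hmM (by positivity)
    linarith
  refine ⟨m, (U + w) / m, ?_, by positivity, ?_, ?_, ?_, ?_⟩
  · have : (1 : ℝ) ≤ m := by linarith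
    exact_mod_cast this
  · rw [div_le_one hm0]
    have : U ≤ U ^ (2 + τ) := by
      nth_rewrite 1 [← Real.rpow_one U]
      exact Real.rpow_le_rpow_of_exponent_le hU (by linarith)
    linarith
  · field_simp
  · have e1 : U * U ^ (-1 - τ) = U ^ (-τ) := by
      nth_rewrite 1 [← Real.rpow_one U]
      rw [← Real.rpow_add hU0]
      ring_nf
    calc U * ((U + w) / m) ≤ U * (U ^ (-1 - τ) / 8) := mul_le_mul_of_nonneg_left hUh hU0.le
      _ = w := by rw [hw, ← e1]; ring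
  · rw [div_le_div_iff₀ (by norm_num) hm0]
    have e1 : U ^ (-(4 : ℝ)) * U ^ (2 + τ) ≤ 1 := by
      rw [← Real.rpow_add hU0]
      exact Real.rpow_le_one_of_one_le_of_nonpos hU (by linarith)
    have e2 : U ^ (-(4 : ℝ)) * m ≤ U ^ (-(4 : ℝ)) * (2 * M) := mul_le_mul_of_nonneg_left hmM2 (by positivity)
    rw [hM] at e2
    nlinarith

theorem conv_at1 (h : LD δ c F) {θ : ℝ} (hθ : 1 / 2 ≤ θ) {ρ₀ : ℂ} (hρ0 : F ρ₀ = 0)
    {g : ℝ} (hg : 0 < g) (hρg : ρ₀.re = θ + 5 * g) {C e : ℝ}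
    (hd : ∀ T : ℝ, 1 ≤ T → ∀ S : Finset ℂ,
      (∀ ρ ∈ S, F ρ = 0 ∧ θ + 2 * g ≤ ρ.re ∧ |ρ.im| ≤ T) → (S.card : ℝ) ≤ C * T ^ e)
    {ε τ : ℝ} (hε : 0 < ε) (hεg : ε ≤ g) (hτ : 0 < τ) (hτ1 : τ ≤ 2) (hτe : (1 + τ) * e < 1 - ε) :
    ∀ᶠ U : ℝ in atTop, ¬ Win1 δ c (θ + ε) τ (Real.exp U) := by
  classical
  have hre1 := h.re_le hρ0
  set κ0 : ℝ := 1 / 2048 with hκ0
  have hκ00 : 0 < κ0 := by rw [hκ0]; norm_num
  set b : ℝ := 128 with hb
  have hb0 : 0 < b := by rw [hb]; norm_num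
  obtain ⟨C1, hC1, hex⟩ := expl h (a := θ + g) (σ := θ + 2 * g) (by linarith) (by linarith) (by linarith)
  set K : ℝ := ∑' n : ℕ, ‖c n‖ * (n : ℝ) ^ (-(2 : ℝ)) with hK
  have hK0 : 0 ≤ K := tsum_nonneg fun n => by positivity
  -- the constants
  set C2 : ℝ := 2 / κ0 ^ 2 + (K + 2 * δ) * (1 / κ0) * Real.exp 8 + C1 * b ^ 9 * (1 / κ0) + C1 * b ^ 4 * 3 with hC2
  have hC20 : 0 < C2 := by positivity
  set Q : ℝ := 1 + 8 * 4 * 32 / g with hQ
  have hQ1 : 1 ≤ Q := by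
    have : 0 ≤ 8 * 4 * 32 / g := by positivity
    linarith
  have ev1 := card_evR hτe C hb0
  have ev2 := fin_smallR (g := g) (ε := ε) (C := C2) (Q := Q) (σ1 := θ + 2 * g) (σ2 := θ + 3 * g)
    hg (by linarith) hε hC20 hQ1 32
  have ev3 : ∀ᶠ U : ℝ in atTop, |ρ₀.im| ≤ U := eventually_ge_atTop _
  have hinv : Tendsto (fun U : ℝ => U⁻¹) atTop (𝓝 0) := tendsto_inv_atTop_zero
  have ev4 : ∀ᶠ U : ℝ in atTop, ∀ κ : ℝ, 0 < κ → κ ≤ U⁻¹ → 3 / 4 ≤ (cexp (κ * ρ₀ ^ 2)).re := by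
    have e1 : Tendsto (fun κ : ℝ => (cexp (κ * ρ₀ ^ 2)).re) (𝓝 0) (𝓝 1) := by
      have : Continuous (fun κ : ℝ => (cexp (κ * ρ₀ ^ 2)).re) := by fun_prop
      have := this.tendsto 0
      simpa using this
    have e2 := e1.eventually_const_le (show (3 / 4 : ℝ) < 1 by norm_num)
    rw [Metric.eventually_nhds_iff] at e2
    obtain ⟨r, hr, he⟩ := e2
    filter_upwards [hinv.eventually_lt_const hr] with U hU κ hκ hκU
    refine he ?_
    rw [Real.dist_eq, sub_zero, abs_of_pos hκ]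
    linarith
  have ev5 : ∀ᶠ U : ℝ in atTop, C1 * b ^ 4 * U ^ 12 * (3 * Real.exp (-U / 2)) ≤ 1 / 8 := by
    have e1 : Tendsto (fun x : ℝ => x ^ 12 * Real.exp (-(1 / 2 : ℝ) * x)) atTop (𝓝 0) := by
      have := tendsto_rpow_mul_exp_neg_mul_atTop_nhds_zero 12 (1 / 2) (by norm_num)
      refine this.congr fun x => ?_
      norm_num
    have e2 := e1.const_mul (C1 * b ^ 4 * 3)
    rw [mul_zero] at e2
    filter_upwards [e2.eventually_le_const (show (0 : ℝ) < 1 / 8 by norm_num)] with U hU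
    refine le_trans (le_of_eq ?_) hU
    rw [show -U / 2 = -(1 / 2 : ℝ) * U by ring]
    ring
  filter_upwards [ev1, ev2, ev3, ev4, ev5, eventually_ge_atTop 2] with U h1 h2 h3 h4 h5 hU2 hwin
  have hU1 : 1 ≤ U := by linarith
  have hU0 : 0 < U := by linarith
  obtain ⟨p1, p2, p3, p4, p5, p6⟩ := pow_bounds1 hτ hτ1 hκ00 hb0 hU1
  obtain ⟨κ, hκ⟩ : ∃ κ : ℝ, κ = κ0 * U ^ (-1 - 2 * τ) := ⟨_, rfl⟩
  obtain ⟨H, hH⟩ : ∃ H : ℝ, H = b * U ^ (1 + τ) := ⟨_, rfl⟩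
  obtain ⟨w, hw⟩ : ∃ w : ℝ, w = U ^ (-τ) / 8 := ⟨_, rfl⟩
  rw [← hκ] at p1
  rw [← hH] at p2
  rw [← hκ, ← hH] at p5
  rw [← hκ, ← hw] at p6
  have hκ0' : 0 < κ := by rw [hκ]; positivity
  have hκU : κ ≤ U⁻¹ := by
    rw [hκ]
    calc κ0 * U ^ (-1 - 2 * τ) ≤ 1 * U⁻¹ := mul_le_mul (by rw [hκ0]; norm_num) p4 (by positivity) (by norm_num)
      _ = _ := one_mul _
  have hκ1 : κ ≤ 1 := hκU.trans (inv_le_one_of_one_le₀ hU1)
  have hHU : U ≤ H := by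
    rw [hH]
    calc U ≤ 1 * U ^ (1 + τ) := by rw [one_mul]; exact p3
      _ ≤ _ := mul_le_mul_of_nonneg_right (by rw [hb]; norm_num) (by positivity)
  have hH1 : 1 ≤ H := hU1.trans hHU
  have hw0 : 0 < w := by rw [hw]; positivity
  have hUτ : U ^ (-τ) ≤ 1 := Real.rpow_le_one_of_one_le_of_nonpos hU1 (by linarith)
  have hw1 : w ≤ 1 / 8 := by rw [hw]; linarith
  obtain ⟨l, l1, l2, l3, l4⟩ := hex H hH1
  obtain ⟨m, s, hm1, hs0, hs1, hms, hUs, hsl⟩ := step_choice hτ hτ1 hU1 hw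
  -- the number of steps
  set n : ℕ := ⌊U ^ (1 - ε)⌋₊ with hn
  have hnN : (n : ℝ) ≤ U ^ (1 - ε) := Nat.floor_le (by positivity)
  have hNN : U ^ (1 - ε) ≤ U := by
    nth_rewrite 2 [← Real.rpow_one U]
    exact Real.rpow_le_rpow_of_exponent_le hU1 (by linarith)
  set l' : List ℂ := l.filter (fun ρ => decide (θ + 2 * g ≤ ρ.re ∧ |ρ.im| ≤ H)) with hl'
  have hl'mem : ∀ ρ, ρ ∈ l' ↔ ρ ∈ l ∧ (θ + 2 * g ≤ ρ.re ∧ |ρ.im| ≤ H) := by
    intro ρ
    rw [hl', List.mem_filter, decide_eq_true_eq]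
  have hcard : l'.toFinset.card ≤ n := by
    rw [hn]
    refine Nat.le_floor ?_
    refine le_trans (hd H hH1 l'.toFinset ?_) ?_
    · intro ρ hρ
      have := (hl'mem ρ).1 (List.mem_toFinset.1 hρ)
      exact ⟨(l1 ρ this.1).1, this.2.1, this.2.2⟩
    · rw [hH]
      exact h1
  have hexpw := exp_w1 (by positivity) hUτ hw
  -- the sums over the zeros
  have hsum : ∀ j < n, ‖(l'.map (fun ρ => cexp (κ * ρ ^ 2 + ρ * ((((m + j : ℕ) : ℝ) * s : ℝ) : ℂ)))).sum‖ ≤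
      C2 * U ^ 32 * Real.exp ((θ + 2 * g) * (U + w) + |θ + 2 * g|) := by
    intro j hj
    obtain ⟨Y, hY⟩ : ∃ Y : ℝ, Y = ((m + j : ℕ) : ℝ) * s := ⟨_, rfl⟩
    rw [← hY]
    have hjs : (j : ℝ) * s ≤ w := by
      have e1 : (j : ℝ) ≤ n := by exact_mod_cast hj.le
      have e2 : (j : ℝ) ≤ U := by linarith
      exact (mul_le_mul_of_nonneg_right e2 hs0.le).trans hUs
    have hjs0 : 0 ≤ (j : ℝ) * s := by positivity
    have hYe : Y = U + w + j * s := by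
      rw [hY, ← hms]
      push_cast
      ring
    have hYl : U + w ≤ Y := by linarith
    have hYu : Y ≤ U + 2 * w := by linarith
    have hY0 : 0 ≤ Y := by linarith
    have hY2 : Y ≤ 2 * U := by linarith
    have hYH : 4 * Y ≤ κ * H ^ 2 := by
      rw [p5, hκ0, hb]
      linarith
    have hJ := winJ (δ := δ) h.c0 (h.summ 2 (by norm_num)) (κ := κ) (Y := Y) (w := w)
      (B := Real.exp ((θ + ε) * U)) hκ0' hκ1 hw0 (by linarith) hY0 (by
        intro u hu1 hu2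
        have := hwin (Real.exp (Y - w)) (Real.exp u) (Real.exp_le_exp.2 (by linarith)) (Real.exp_le_exp.2 hu1) (by
          rw [Real.log_exp]
          calc Real.exp u ≤ Real.exp (U + 3 * w) := Real.exp_le_exp.2 (by linarith)
            _ = Real.exp U * Real.exp (3 * w) := Real.exp_add _ _
            _ ≤ _ := mul_le_mul_of_nonneg_left hexpw (Real.exp_pos _).le)
        rw [← Real.exp_mul] at this
        rwa [mul_comm (θ + ε)])
    have hE := l4 κ Y hκ0' hκ1 hY0 hYH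
    -- the other zeros
    have hS := list_split l (fun ρ => θ + 2 * g ≤ ρ.re ∧ |ρ.im| ≤ H) (fun ρ => cexp (κ * ρ ^ 2 + ρ * Y))
      (E := 3 * Real.exp ((θ + 2 * g) * Y)) (by
        intro ρ hρ hneg
        exact other_bound hκ0' hκ1 hY0 hYH (by linarith) (by linarith) (by linarith [(l1 ρ hρ).2.1])
          (l1 ρ hρ).2.2 hneg) (by positivity)
    rw [← hl'] at hS
    -- combine
    obtain ⟨S1, hS1⟩ : ∃ S1, S1 = (l.map (fun ρ => cexp (κ * ρ ^ 2 + ρ * Y))).sum := ⟨_, rfl⟩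
    obtain ⟨S2, hS2⟩ : ∃ S2, S2 = (l'.map (fun ρ => cexp (κ * ρ ^ 2 + ρ * Y))).sum := ⟨_, rfl⟩
    rw [← hS1] at hE hS
    rw [← hS2] at hS ⊢
    obtain ⟨J, hJdef⟩ : ∃ J, J = Jc c κ Y - δ * cexp (κ + Y) := ⟨_, rfl⟩
    rw [← hJdef] at hJ hE
    obtain ⟨W, hW⟩ : ∃ W : ℝ, W = Real.exp ((θ + 2 * g) * Y) := ⟨_, rfl⟩
    have hW1 : 1 ≤ W := by
      rw [hW]
      exact Real.one_le_exp (mul_nonneg (by linarith) hY0)
    rw [← hW] at hS hE
    have hexpl8 : Real.exp (8 * κ + 2 * Y - w ^ 2 / (8 * κ)) ≤ Real.exp 8 := by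
      refine Real.exp_le_exp.2 ?_
      rw [p6, hκ0]
      norm_num
      linarith
    have hB : Real.exp ((θ + ε) * U) ≤ W := by
      rw [hW]
      refine Real.exp_le_exp.2 ?_
      exact mul_le_mul (by linarith) (by linarith) hU0.le (by linarith)
    have hJ2 : ‖J‖ ≤ (2 / κ ^ 2 + (K + 2 * δ) * (1 / κ) * Real.exp 8) * W := by
      have e0 : (2 / κ ^ 2 + (K + 2 * δ) * (1 / κ) * Real.exp 8) * W =
          2 / κ ^ 2 * W + (K + 2 * δ) * (1 / κ) * Real.exp 8 * W := add_mul _ _ _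
      rw [e0]
      refine hJ.trans ?_
      refine add_le_add (mul_le_mul_of_nonneg_left hB (by positivity)) ?_
      calc (K + 2 * δ) * (1 / κ) * Real.exp (8 * κ + 2 * Y - w ^ 2 / (8 * κ)) ≤ (K + 2 * δ) * (1 / κ) * Real.exp 8 :=
            mul_le_mul_of_nonneg_left hexpl8 (by positivity)
        _ = ((K + 2 * δ) * (1 / κ) * Real.exp 8) * 1 := (mul_one _).symm
        _ ≤ _ := mul_le_mul_of_nonneg_left hW1 (by positivity)
    have hS2n : ‖S2‖ ≤ (2 / κ ^ 2 + (K + 2 * δ) * (1 / κ) * Real.exp 8 + C1 * H ^ 9 / κ + C1 * H ^ 4 * 3) * W := by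
      refine comb_bound hJ2 hE (hS.trans ?_)
      calc (l.length : ℝ) * (3 * W) ≤ C1 * H ^ 4 * (3 * W) := mul_le_mul_of_nonneg_right l3 (by linarith)
        _ = _ := by ring
    have hWN : W ≤ Real.exp ((θ + 2 * g) * (U + w) + |θ + 2 * g|) := by
      rw [hW]
      refine Real.exp_le_exp.2 ?_
      have e1 : (θ + 2 * g) * Y ≤ (θ + 2 * g) * (U + w + 1) := mul_le_mul_of_nonneg_left (by linarith) (by linarith)
      have e2 := le_abs_self (θ + 2 * g)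
      linarith
    calc ‖S2‖ ≤ _ := hS2n
      _ ≤ (C2 * U ^ 32) * Real.exp ((θ + 2 * g) * (U + w) + |θ + 2 * g|) :=
        mul_le_mul (C3_bound hκ0' hκ00 hK0 (Nat.cast_nonneg _) hb0 (by linarith) (by linarith) hU1 p1 p2)
          hWN (by linarith) (mul_nonneg hC20.le (by positivity))
  obtain ⟨r, hr, hout⟩ := outer (κ := κ) (σ2 := θ + 3 * g) (σ3 := θ + 4 * g) hs0 hm1 (by linarith) (by positivity)
    (by linarith) (fun ρ hρ => (l1 ρ ((hl'mem ρ).1 hρ).1).2.2) hcard hsum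
  obtain ⟨D, hD⟩ : ∃ D : ℝ, D = Real.exp ((θ + 4 * g) * s) - Real.exp ((θ + 3 * g) * s) := ⟨_, rfl⟩
  rw [← hD] at hout
  have hDl : g * s ≤ D := by
    have e1 : Real.exp ((θ + 4 * g) * s) = Real.exp ((θ + 3 * g) * s) * Real.exp (g * s) := by
      rw [← Real.exp_add]
      congr 1
      ring
    have e2 := Real.add_one_le_exp (g * s)
    have e3 : 1 ≤ Real.exp ((θ + 3 * g) * s) := Real.one_le_exp (mul_nonneg (by linarith) hs0.le)
    rw [hD, e1]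
    have e4 : 0 ≤ g * s := by positivity
    nlinarith
  have hgs : 0 < g * s := by positivity
  have hD0 : 0 < D := by linarith
  have hX : (2 + 2 * Real.exp s) * (2 * (n + 1)) / D ≤ Q * U ^ 5 := by
    have e1 : (n : ℝ) + 1 ≤ 2 * U := by linarith
    have e2 : Real.exp s ≤ 3 := by
      have := Real.exp_one_lt_d9
      have := Real.exp_le_exp.2 hs1
      linarith
    have e3 : 1 / D ≤ 32 / g * U ^ 4 := by
      have f1 : 1 / D ≤ 1 / (g * s) := one_div_le_one_div_of_le hgs hDl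
      have f2 : 1 / (g * s) ≤ 1 / (g * (U ^ (-(4 : ℝ)) / 32)) :=
        one_div_le_one_div_of_le (by positivity) (mul_le_mul_of_nonneg_left hsl hg.le)
      have f3 : U ^ (-(4 : ℝ)) = (U ^ 4)⁻¹ := by
        rw [Real.rpow_neg hU0.le]
        norm_num
      refine f1.trans (f2.trans (le_of_eq ?_))
      rw [f3]
      field_simp
    calc (2 + 2 * Real.exp s) * (2 * (n + 1)) / D = (2 + 2 * Real.exp s) * (2 * (n + 1)) * (1 / D) := by ring
      _ ≤ (2 + 2 * 3) * (2 * (2 * U)) * (32 / g * U ^ 4) := by gcongr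
      _ = 8 * 4 * 32 / g * U ^ 5 := by ring
      _ ≤ _ := by
        refine mul_le_mul_of_nonneg_right ?_ (by positivity)
        rw [hQ]
        linarith
  have hsmall := h2 n m s (U + w) ((2 + 2 * Real.exp s) * (2 * (n + 1)) / D) hnN (by positivity) hX hs1 hms (by linarith)
  have hle := hout.trans hsmall
  -- lower bound
  have hE0 : 0 ≤ Real.exp (κ - 1 / (2 * κ)) := (Real.exp_pos _).le
  have hlow := list_re_ge' l' (fun ρ => (if r < ‖cexp (ρ * s)‖ then 1 else 0) * cexp (κ * ρ ^ 2))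
    (E := Real.exp (κ - 1 / (2 * κ))) (q := 3 / 4) (ρ₀ := ρ₀) hE0 ?_ ?_ ?_
  · have e1 := Complex.re_le_norm ((l'.map (fun ρ => (if r < ‖cexp (ρ * s)‖ then 1 else 0) * cexp (κ * ρ ^ 2))).sum)
    have e2 : (l'.length : ℝ) * Real.exp (κ - 1 / (2 * κ)) ≤ 1 / 8 := by
      refine le_trans ?_ h5
      have e3 : (l'.length : ℝ) ≤ C1 * b ^ 4 * U ^ 12 := by
        have e4 : (l'.length : ℝ) ≤ l.length := by exact_mod_cast List.length_filter_le _ _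
        refine e4.trans (l3.trans ?_)
        calc C1 * H ^ 4 ≤ C1 * (b * U ^ 3) ^ 4 := by gcongr
          _ = _ := by ring
      have e5 : Real.exp (κ - 1 / (2 * κ)) ≤ 3 * Real.exp (-U / 2) := by
        have e6 : U / 2 ≤ 1 / (2 * κ) := by
          rw [div_le_div_iff₀ (by norm_num) (by positivity)]
          have : U * κ ≤ 1 := by
            calc U * κ ≤ U * U⁻¹ := mul_le_mul_of_nonneg_left hκU hU0.le
              _ = 1 := mul_inv_cancel₀ hU0.ne'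
          linarith
        have e7 : Real.exp 1 ≤ 3 := by
          have := Real.exp_one_lt_d9
          linarith
        calc Real.exp (κ - 1 / (2 * κ)) ≤ Real.exp (1 + -U / 2) := Real.exp_le_exp.2 (by linarith)
          _ = Real.exp 1 * Real.exp (-U / 2) := Real.exp_add _ _
          _ ≤ _ := mul_le_mul_of_nonneg_right e7 (Real.exp_pos _).le
      exact mul_le_mul e3 e5 hE0 (by positivity)
    linarith
  · intro ρ hρ
    have e1 := (hl'mem ρ).1 hρ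
    have e2 := re_exp_ge hκ0' (ρ := ρ) (by linarith [e1.2.1]) (l1 ρ e1.1).2.2
    split_ifs
    · rw [one_mul]
      exact e2
    · rw [zero_mul, Complex.zero_re]
      linarith
  · rw [hl'mem]
    have e1 : θ + 2 * g ≤ ρ₀.re := by linarith
    exact ⟨l2 ρ₀ hρ0 e1 (h3.trans hHU), e1, h3.trans hHU⟩
  · have e1 : r < ‖cexp (ρ₀ * s)‖ := by
      rw [Complex.norm_exp, Complex.mul_re, Complex.ofReal_re, Complex.ofReal_im, mul_zero, sub_zero]
      refine lt_of_le_of_lt hr.2 (Real.exp_lt_exp.2 ?_)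
      rw [hρg]
      exact mul_lt_mul_of_pos_right (by linarith) hs0
    rw [if_pos e1, one_mul]
    exact h4 κ hκ0' hκU

/-- the width of the window -/
noncomputable def wid (θ : ℝ) : ℝ := (θ - 1 / 2) / (3 / 2 - θ)

/-- **One short window implies the zero-free half-plane.** -/
theorem conv1 (h : LD δ c F) (hF : DensE F) {θ : ℝ} (hθ : 1 / 2 ≤ θ)
    (hw : ∀ ε : ℝ, 0 < ε → ∃ᶠ X : ℝ in atTop, Win1 δ c (θ + ε) (wid θ + ε) X) :
    ∀ ρ : ℂ, F ρ = 0 → ρ.re ≤ θ := by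
  intro ρ hρ
  by_contra hcon
  rw [not_le] at hcon
  have hre1 := h.re_le hρ
  set g : ℝ := (ρ.re - θ) / 5 with hg
  have hg0 : 0 < g := by rw [hg]; linarith
  have hg5 : θ + 5 * g ≤ 1 := by rw [hg]; linarith
  obtain ⟨C, hd⟩ := hF (θ + 2 * g - 1 / 2) (by linarith) (3 / 2 - θ - g) (by linarith)
  have hd' : ∀ T : ℝ, 1 ≤ T → ∀ S : Finset ℂ,
      (∀ ρ ∈ S, F ρ = 0 ∧ θ + 2 * g ≤ ρ.re ∧ |ρ.im| ≤ T) → (S.card : ℝ) ≤ C * T ^ (3 / 2 - θ - g) := by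
    intro T hT S hS
    refine hd T hT S fun r hr => ⟨(hS r hr).1, ?_, (hS r hr).2.2⟩
    linarith [(hS r hr).2.1]
  have hD : 1 / 2 ≤ 3 / 2 - θ := by linarith
  have hD1 : 3 / 2 - θ ≤ 1 := by linarith
  have hwid0 : 0 ≤ wid θ := div_nonneg (by linarith) (by linarith)
  have hwid1 : wid θ ≤ 1 := by
    unfold wid
    rw [div_le_one (by linarith)]
    linarith
  have hwid2 : (1 + wid θ) * (3 / 2 - θ) = 1 := by
    have hne : 3 / 2 - θ ≠ 0 := by linarith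
    unfold wid
    rw [add_mul, div_mul_cancel₀ _ hne]
    ring
  set ε : ℝ := g / 4 with hε
  have hε0 : 0 < ε := by rw [hε]; linarith
  have hτe : (1 + (wid θ + ε)) * (3 / 2 - θ - g) < 1 - ε := by
    have e1 : (1 + (wid θ + ε)) * (3 / 2 - θ - g) = 1 - (1 + wid θ) * g + ε * (3 / 2 - θ - g) := by
      linear_combination hwid2
    have e2 : ε * (3 / 2 - θ - g) ≤ ε * 1 := mul_le_mul_of_nonneg_left (by linarith) hε0.le
    have e3 : g ≤ (1 + wid θ) * g := le_mul_of_one_le_left hg0.le (by linarith)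
    rw [e1]
    linarith
  have := conv_at1 h hθ hρ hg0 (by rw [hg]; ring) hd' hε0 (by linarith) (τ := wid θ + ε) (by linarith)
    (by linarith) hτe
  have h2 := Real.tendsto_log_atTop.eventually this
  obtain ⟨X, hX1, hX2, hX3⟩ := ((hw ε hε0).and_eventually (h2.and (eventually_gt_atTop 0))).exists
  rw [Real.exp_log hX3] at hX2
  exact hX2 hX1

end Pool.Agent.Run7.h456.Win
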