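import Mathlib
import Pool.Agent.Run7.h456.Win.WinJ
import Pool.Agent.Run7.h456.Win.Expl
import Pool.Agent.H295R2.P

/-!
# A zero-free half-plane: the Gaussian means and their integrals
-/

set_option autoImplicit false

open Complex MeasureTheory Set Filter Topology

namespace Pool.Agent.Run7.h456.Win

open Pool.Agent.TH949.TX (gk EE t_polar)
open Pool.Agent.TH443.TXSum (ee_int ee_cont ee_integral)

variable {δ : ℕ} {c : ℕ → ℂ} {F : ℂ → ℂ}

/-- The logarithmic derivative in a zero-free half-plane. -/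
theorem ldb (h : LD δ c F) {θ σ τ : ℝ} (hθ : 1 / 2 ≤ θ) (hz : ∀ ρ : ℂ, F ρ = 0 → ρ.re ≤ θ) (hσ : θ < σ) (hσ2 : σ < 2)
    (hτ : 0 < τ) (hτ1 : τ ≤ 1) :
    ∃ C : ℝ, 1 ≤ C ∧ ∀ s : ℂ, σ ≤ s.re → s.re ≤ 2 → ‖deriv F s / F s‖ ≤ C * (1 + |s.im|) ^ τ := by
  obtain ⟨A, hA, hg⟩ := h.growth
  obtain ⟨B, hB, hl⟩ := h.lower
  set R1 : ℝ := 2 - (θ + σ) / 2 with hR1
  set r : ℝ := 2 - σ with hr
  have hr0 : 0 < r := by rw [hr]; linarith
  have hrR : r < R1 := by rw [hr, hR1]; linarith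
  have hR12 : R1 ≤ 3 / 2 := by rw [hR1]; linarith
  have hR10 : 0 < R1 := by linarith
  set C0 : ℝ := |Real.log (A / B)| + 1 + A * (8 / τ) with hC0
  set C1 : ℝ := 8 * R1 / (R1 - r) ^ 2 * C0 with hC1
  refine ⟨1 + C1, ?_, ?_⟩
  · have : 0 ≤ C1 := by
      have := abs_nonneg (Real.log (A / B))
      positivity
    linarith
  intro s hs1 hs2
  set t : ℝ := s.im with ht
  set cc : ℂ := ((2 : ℝ) : ℂ) + t * I with hcc
  have hccre : cc.re = 2 := by rw [hcc]; simp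
  have hccim : cc.im = t := by rw [hcc]; simp
  have hFc : B ≤ ‖F cc‖ := hl cc (by rw [hccre])
  have hFc0 : F cc ≠ 0 := h.ne cc (by rw [hccre]; norm_num)
  have hT0 : 0 ≤ |t| := abs_nonneg t
  obtain ⟨M, hM⟩ : ∃ M : ℝ, M = A * (8 * (1 + |t|)) ^ A := ⟨_, rfl⟩
  have hM0 : 0 < M := by rw [hM]; positivity
  have hbound : ∀ z ∈ Metric.closedBall cc (R1 + 1 / 4), ‖F z‖ ≤ M := by
    intro z hz
    rw [Metric.mem_closedBall, dist_eq_norm] at hz
    have h1 : |(z - cc).re| ≤ R1 + 1 / 4 := (Complex.abs_re_le_norm _).trans hz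
    rw [Complex.sub_re, hccre] at h1
    have h2 := (abs_le.1 h1).1
    have h3 : 2 + ‖z‖ ≤ 8 * (1 + |t|) := by
      have h4 : ‖z‖ ≤ ‖z - cc‖ + ‖cc‖ := by
        have := norm_add_le (z - cc) cc
        rwa [sub_add_cancel] at this
      have h5 : ‖cc‖ ≤ 2 + |t| := by
        rw [hcc]
        refine (norm_add_le _ _).trans ?_
        rw [norm_mul, Complex.norm_I, mul_one, Complex.norm_real, Complex.norm_real, Real.norm_eq_abs,
          Real.norm_eq_abs, abs_two]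
      linarith
    refine (hg z (by linarith)).trans ?_
    rw [hM]
    refine mul_le_mul_of_nonneg_left ?_ (by linarith)
    exact Real.rpow_le_rpow (by positivity) h3 (by linarith)
  obtain ⟨L, G, h1, h2, h3, h4, h5, h6, h7⟩ := Pool.Agent.Y757.LL.landau2 F h.diff cc (r := r) (R1 := R1)
    (R2 := R1 + 1 / 4) (M := M) hr0 hrR (by linarith) hFc0 hbound
  have hL : L = [] := by
    rw [List.eq_nil_iff_forall_not_mem]
    intro ρ hρ
    obtain ⟨h8, h9⟩ := h1 ρ hρ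
    have h10 := hz ρ h8
    rw [Metric.mem_closedBall, dist_eq_norm] at h9
    have h11 : |(ρ - cc).re| ≤ R1 := (Complex.abs_re_le_norm _).trans h9
    rw [Complex.sub_re, hccre] at h11
    have := (abs_le.1 h11).1
    rw [hR1] at this
    linarith
  have hFG : F = G := by
    funext v
    rw [h5 v, hL]
    simp
  have hsmem : s ∈ Metric.closedBall cc r := by
    rw [Metric.mem_closedBall, dist_eq_norm]
    have e : s - cc = ((s.re - 2 : ℝ) : ℂ) := by
      apply Complex.ext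
      · rw [Complex.sub_re, hccre, Complex.ofReal_re]
      · rw [Complex.sub_im, hccim, Complex.ofReal_im, ← ht, sub_self]
    rw [e, Complex.norm_real, Real.norm_eq_abs, abs_le, hr]
    exact ⟨by linarith, by linarith⟩
  have h8 := h7 s hsmem
  rw [← hFG, hL] at h8
  simp only [List.length_nil, Nat.cast_zero, zero_mul, add_zero] at h8
  have hlog : Real.log (M / ‖F cc‖) + 1 ≤ C0 * (1 + |t|) ^ τ := by
    have h8 : M / ‖F cc‖ ≤ A / B * (8 * (1 + |t|)) ^ A := by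
      rw [hM, div_mul_eq_mul_div]
      exact div_le_div_of_nonneg_left (by positivity) hB hFc
    have h9 : 0 < M / ‖F cc‖ := div_pos hM0 (lt_of_lt_of_le hB hFc)
    have h10 : Real.log (M / ‖F cc‖) ≤ Real.log (A / B) + A * Real.log (8 * (1 + |t|)) := by
      refine (Real.log_le_log h9 h8).trans ?_
      rw [Real.log_mul (by positivity) (by positivity), Real.log_rpow (by positivity)]
    have h11 : Real.log (8 * (1 + |t|)) ≤ 8 / τ * (1 + |t|) ^ τ := by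
      refine (Real.log_le_rpow_div (by positivity) hτ).trans ?_
      rw [Real.mul_rpow (by norm_num) (by positivity), div_mul_eq_mul_div]
      refine div_le_div_of_nonneg_right (mul_le_mul_of_nonneg_right ?_ (by positivity)) hτ.le
      calc (8 : ℝ) ^ τ ≤ (8 : ℝ) ^ (1 : ℝ) := Real.rpow_le_rpow_of_exponent_le (by norm_num) hτ1
        _ = 8 := Real.rpow_one 8
    have h12 : 1 ≤ (1 + |t|) ^ τ := Real.one_le_rpow (by linarith) hτ.le
    have h13 := le_abs_self (Real.log (A / B))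
    have h14 : A * Real.log (8 * (1 + |t|)) ≤ A * (8 / τ * (1 + |t|) ^ τ) :=
      mul_le_mul_of_nonneg_left h11 (by linarith)
    have h15 : (|Real.log (A / B)| + 1) * 1 ≤ (|Real.log (A / B)| + 1) * (1 + |t|) ^ τ :=
      mul_le_mul_of_nonneg_left h12 (by positivity)
    rw [hC0]
    nlinarith
  refine h8.trans ?_
  have h16 : 0 ≤ 8 * R1 / (R1 - r) ^ 2 := by positivity
  calc 8 * R1 / (R1 - r) ^ 2 * (Real.log (M / ‖F cc‖) + 1) ≤ 8 * R1 / (R1 - r) ^ 2 * (C0 * (1 + |t|) ^ τ) :=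
        mul_le_mul_of_nonneg_left hlog h16
    _ = C1 * (1 + |t|) ^ τ := by rw [hC1]; ring
    _ ≤ _ := by
      refine mul_le_mul_of_nonneg_right (by linarith) (by positivity)

theorem gauss_decay {κ : ℝ} (hκ : 0 < κ) (hκ1 : κ ≤ 1) (v : ℝ) :
    Real.exp (-(κ * v ^ 2)) ≤ 16 / κ ^ 2 * (1 + |v|) ^ (-4 : ℝ) := by
  have h1 : (1 + |v|) ^ (-4 : ℝ) = ((1 + |v|) ^ 4)⁻¹ := by
    rw [Real.rpow_neg (by positivity)]
    norm_num
  rw [h1, Real.exp_neg, ← div_eq_mul_inv, inv_eq_one_div, div_le_div_iff₀ (Real.exp_pos _) (by positivity), one_mul,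
    div_mul_eq_mul_div, le_div_iff₀ (by positivity)]
  have h2 : (1 + |v|) ^ 4 ≤ 8 * (1 + v ^ 4) := by
    have e : v ^ 4 = |v| ^ 4 := by
      rw [← abs_pow]
      exact (abs_of_nonneg (by positivity)).symm
    rw [e]
    have := abs_nonneg v
    nlinarith [sq_nonneg (|v| - 1), sq_nonneg (|v| ^ 2 - 1), sq_nonneg (|v| ^ 2 - |v|)]
  have h3 : 1 + κ ^ 2 * v ^ 4 / 2 ≤ Real.exp (κ * v ^ 2) := by
    have := Real.quadratic_le_exp_of_nonneg (x := κ * v ^ 2) (by positivity)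
    have e : (κ * v ^ 2) ^ 2 = κ ^ 2 * v ^ 4 := by ring
    rw [e] at this
    have : 0 ≤ κ * v ^ 2 := by positivity
    linarith
  have h4 : κ ^ 2 ≤ 1 := by nlinarith
  have h5 : 0 ≤ v ^ 4 := by positivity
  have h6 : (1 + |v|) ^ 4 * κ ^ 2 ≤ 8 * (1 + v ^ 4) * κ ^ 2 := mul_le_mul_of_nonneg_right h2 (by positivity)
  nlinarith

theorem ee_norm (κ Y a v : ℝ) : ‖EE κ Y a v‖ = Real.exp (κ * (a ^ 2 - v ^ 2) + a * Y) := by
  unfold Pool.Agent.TH949.TX.EE
  rw [Complex.norm_exp]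
  congr 1
  have e1 : (((a : ℂ) + v * I) * ((a : ℂ) + v * I)).re = a * a - v * v := by simp
  have e2 : (((a : ℂ) + v * I) * Y).re = a * Y := by simp
  rw [Complex.add_re, pow_two, Complex.re_ofReal_mul, e1, e2]
  ring

/-- Shift to the line `Re s = σ`. -/
theorem shift_sigma (h : LD δ c F) {σ : ℝ} (hσ0 : 1 / 2 < σ) (hσ2 : σ < 2) (hz : ∀ ρ : ℂ, σ ≤ ρ.re → F ρ ≠ 0) {C τ : ℝ}
    (hτ1 : τ ≤ 1) (hC : ∀ s : ℂ, σ ≤ s.re → s.re ≤ 2 → ‖deriv F s / F s‖ ≤ C * (1 + |s.im|) ^ τ)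
    {κ Y : ℝ} (hκ : 0 < κ) (hκ1 : κ ≤ 1) (hY : 0 ≤ Y) :
    ‖(Jc c κ Y - δ * cexp (κ + Y)) * (2 * Real.pi) +
        ∫ v : ℝ, deriv F ((σ : ℂ) + v * I) / F ((σ : ℂ) + v * I) * EE κ Y σ v‖ ≤
      δ * (2 * Real.pi * Real.exp (κ - Y)) := by
  have hC0 : 0 ≤ C := by
    have := (norm_nonneg _).trans (hC 2 (by simpa using hσ2.le) (by simp))
    simpa using this
  have hF0 : ∀ v : ℝ, F (((2 : ℝ) : ℂ) + v * I) ≠ 0 := fun v => h.ne _ (by simp)
  obtain ⟨g1, g2, g3, g4⟩ := gauss_line (c := c) h.c0 (h.summ 2 (by norm_num)) hκ Y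
  have hpol := t_polar (κ := κ) (a := 2) hκ (z := 1) (by simp) (by simp) Y
  have hGd : ∀ z : ℂ, DifferentiableAt ℂ (deriv F) z := fun z => (h.diff.analyticAt z).deriv.differentiableAt
  have hline : ∀ v : ℝ, deriv F (((2 : ℝ) : ℂ) + v * I) / F (((2 : ℝ) : ℂ) + v * I) * EE κ Y 2 v =
      (δ : ℂ) * (EE κ Y 2 v / (((2 : ℝ) : ℂ) + v * I - 1)) -
        (∑' n : ℕ, c n * (n : ℂ) ^ (-(((2 : ℝ) : ℂ) + v * I))) * EE κ Y 2 v := by
    intro v
    rw [h.ld _ (by simp)]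
    ring
  have hshift := Pool.Agent.H295R2.contour_shift (a := σ) (b := 2)
    (H := fun s => deriv F s / F s * cexp (κ * s ^ 2 + s * Y))
    (B := C * (16 / κ ^ 2) * Real.exp (4 + 2 * Y)) hσ2.le (fun s hs1 _ => by
      have := (hGd s).div (h.diff s) (hz s hs1)
      exact DifferentiableAt.mul this (by fun_prop)) (fun s hs1 hs2 => by
      have e0 : (cexp (κ * s ^ 2 + s * Y)) = EE κ Y s.re s.im := by
        unfold Pool.Agent.TH949.TX.EE
        rw [Complex.re_add_im]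
      rw [norm_mul, e0, ee_norm]
      have e1 := hC s hs1 hs2
      have e2 := gauss_decay hκ hκ1 s.im
      have e3 : Real.exp (κ * (s.re ^ 2 - s.im ^ 2) + s.re * Y) ≤
          Real.exp (4 + 2 * Y) * Real.exp (-(κ * s.im ^ 2)) := by
        rw [← Real.exp_add]
        refine Real.exp_le_exp.2 ?_
        have q1 : κ * s.re ^ 2 ≤ 1 * 4 := mul_le_mul hκ1 (by nlinarith) (by positivity) (by norm_num)
        have q2 : s.re * Y ≤ 2 * Y := mul_le_mul_of_nonneg_right hs2 hY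
        linarith
      have hp : (0 : ℝ) < 1 + |s.im| := by positivity
      calc ‖deriv F s / F s‖ * Real.exp (κ * (s.re ^ 2 - s.im ^ 2) + s.re * Y) ≤
          (C * (1 + |s.im|) ^ τ) * (Real.exp (4 + 2 * Y) * (16 / κ ^ 2 * (1 + |s.im|) ^ (-4 : ℝ))) := by
            refine mul_le_mul e1 (e3.trans ?_) (Real.exp_pos _).le (by positivity)
            exact mul_le_mul_of_nonneg_left e2 (Real.exp_pos _).le
        _ = C * (16 / κ ^ 2) * Real.exp (4 + 2 * Y) * ((1 + |s.im|) ^ τ * (1 + |s.im|) ^ (-4 : ℝ)) := by ring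
        _ ≤ _ := by
          refine mul_le_mul_of_nonneg_left ?_ (by positivity)
          rw [← Real.rpow_add hp]
          exact Real.rpow_le_rpow_of_exponent_le (by linarith [abs_nonneg s.im]) (by linarith))
  have e1 : ∫ v : ℝ, deriv F ((σ : ℂ) + v * I) / F ((σ : ℂ) + v * I) * EE κ Y σ v =
      ∫ v : ℝ, deriv F (((2 : ℝ) : ℂ) + v * I) / F (((2 : ℝ) : ℂ) + v * I) * EE κ Y 2 v := by
    simpa [Pool.Agent.TH949.TX.EE] using hshift
  have e2 : ∫ v : ℝ, deriv F (((2 : ℝ) : ℂ) + v * I) / F (((2 : ℝ) : ℂ) + v * I) * EE κ Y 2 v =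
      (δ : ℂ) * (∫ v : ℝ, EE κ Y 2 v / (((2 : ℝ) : ℂ) + v * I - 1)) - 2 * Real.pi * Jc c κ Y := by
    rw [← g4, ← integral_const_mul, ← integral_sub (hpol.1.const_mul _) g3]
    exact integral_congr_ae (Eventually.of_forall hline)
  rw [e1, e2]
  have e3 : (Jc c κ Y - δ * cexp (κ + Y)) * (2 * Real.pi) +
      ((δ : ℂ) * (∫ v : ℝ, EE κ Y 2 v / (((2 : ℝ) : ℂ) + v * I - 1)) - 2 * Real.pi * Jc c κ Y) =
      δ * ((∫ v : ℝ, EE κ Y 2 v / (((2 : ℝ) : ℂ) + v * I - 1)) - 2 * Real.pi * cexp (κ * 1 ^ 2 + 1 * Y)) := by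
    rw [one_pow, mul_one, one_mul]
    ring
  rw [e3, norm_mul, Complex.norm_natCast]
  exact mul_le_mul_of_nonneg_left hpol.2 (Nat.cast_nonneg _)

end Pool.Agent.Run7.h456.Win
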