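import Mathlib
import Pool.Agent.Run7.h456.Win.Fwd1

/-!
# Integrals of the Gaussian means
-/

set_option autoImplicit false

open Complex MeasureTheory Set Filter Topology

namespace Pool.Agent.Run7.h456.Win

open Pool.Agent.TH949.TX (gk EE t_polar)
open Pool.Agent.TH443.TXSum (ee_int ee_cont ee_integral)

variable {δ : ℕ} {c : ℕ → ℂ} {F : ℂ → ℂ}

theorem norm_line {σ : ℝ} (hσ : 1 / 2 ≤ σ) (v : ℝ) : (1 + |v|) / 4 ≤ ‖(σ : ℂ) + v * I‖ := by
  have h1 : σ ≤ ‖(σ : ℂ) + v * I‖ := by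
    have := Complex.re_le_norm ((σ : ℂ) + v * I)
    simpa using this
  have h2 : |v| ≤ ‖(σ : ℂ) + v * I‖ := by
    have := Complex.abs_im_le_norm ((σ : ℂ) + v * I)
    simpa using this
  linarith

/-- Integral of the Gaussian kernel over the height. -/
theorem ee_u_int (κ σ v : ℝ) (hσ : 1 / 2 ≤ σ) (u0 u1 : ℝ) :
    ∫ u in u0..u1, EE κ u σ v = (EE κ u1 σ v - EE κ u0 σ v) / ((σ : ℂ) + v * I) := by
  have hne : (σ : ℂ) + v * I ≠ 0 := by
    rw [← norm_pos_iff]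
    have := norm_line hσ v
    have := abs_nonneg v
    linarith
  have hd : ∀ u ∈ uIcc u0 u1, HasDerivAt (fun u : ℝ => EE κ u σ v / ((σ : ℂ) + v * I)) (EE κ u σ v) u := by
    intro u _
    unfold Pool.Agent.TH949.TX.EE
    have h1 : HasDerivAt (fun u : ℝ => (κ : ℂ) * ((σ : ℂ) + v * I) ^ 2 + ((σ : ℂ) + v * I) * (u : ℂ))
        (((σ : ℂ) + v * I) * 1) u :=
      ((Complex.ofRealCLM.hasDerivAt (x := u)).const_mul ((σ : ℂ) + v * I)).const_add _
    have h2 := h1.cexp.div_const ((σ : ℂ) + v * I)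
    refine h2.congr_deriv ?_
    field_simp
  have hc : Continuous fun u : ℝ => EE κ u σ v := by
    unfold Pool.Agent.TH949.TX.EE
    fun_prop
  rw [intervalIntegral.integral_eq_sub_of_hasDerivAt hd (hc.intervalIntegrable _ _)]
  ring

theorem weight_le {κ τ : ℝ} (hκ : 0 < κ) (hκ1 : κ ≤ 1) (hτ : 0 < τ) (hτ1 : τ ≤ 1) (v : ℝ) :
    (1 + |v|) ^ (2 * τ) * Real.exp (-(κ * v ^ 2)) ≤ 6 * κ ^ (-τ) := by
  have hp : (0 : ℝ) < 1 + |v| := by positivity
  obtain ⟨X, hX⟩ : ∃ X : ℝ, X = (1 + |v|) ^ 2 := ⟨_, rfl⟩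
  have hX0 : 0 < X := by rw [hX]; positivity
  have h1 : (1 + |v|) ^ (2 * τ) = X ^ τ := by
    rw [hX, ← Real.rpow_natCast, ← Real.rpow_mul hp.le]
    norm_num
  have h2 : X ≤ 2 + 2 * v ^ 2 := by
    rw [hX, ← sq_abs v]
    nlinarith [sq_nonneg (|v| - 1)]
  have h3 : Real.exp (-(κ * v ^ 2)) ≤ 3 * Real.exp (-(κ * X / 2)) := by
    have e1 : Real.exp 1 ≤ 3 := by
      have := Real.exp_one_lt_d9
      linarith
    calc Real.exp (-(κ * v ^ 2)) ≤ Real.exp (1 + -(κ * X / 2)) := by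
          refine Real.exp_le_exp.2 ?_
          nlinarith
      _ = Real.exp 1 * Real.exp (-(κ * X / 2)) := Real.exp_add _ _
      _ ≤ _ := mul_le_mul_of_nonneg_right e1 (Real.exp_pos _).le
  have h4 : (κ * X) ^ τ * Real.exp (-(κ * X / 2)) ≤ 2 := by
    have hy : 0 ≤ κ * X := by positivity
    have e1 : (κ * X) ^ τ ≤ 1 + κ * X := by
      rcases le_or_gt (κ * X) 1 with h | h
      · have := Real.rpow_le_one hy h hτ.le
        linarith
      · have := Real.rpow_le_rpow_of_exponent_le h.le hτ1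
        rw [Real.rpow_one] at this
        linarith
    have e2 : 1 + κ * X ≤ 2 * Real.exp (κ * X / 2) := by
      have := Real.add_one_le_exp (κ * X / 2)
      linarith
    calc (κ * X) ^ τ * Real.exp (-(κ * X / 2)) ≤ (2 * Real.exp (κ * X / 2)) * Real.exp (-(κ * X / 2)) :=
          mul_le_mul_of_nonneg_right (e1.trans e2) (Real.exp_pos _).le
      _ = 2 := by rw [mul_assoc, ← Real.exp_add]; simp
  have h5 : X ^ τ = κ ^ (-τ) * (κ * X) ^ τ := by
    rw [Real.mul_rpow hκ.le hX0.le, ← mul_assoc, ← Real.rpow_add hκ]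
    simp
  rw [h1, h5]
  have h6 : 0 < κ ^ (-τ) := Real.rpow_pos_of_pos hκ _
  calc κ ^ (-τ) * (κ * X) ^ τ * Real.exp (-(κ * v ^ 2)) ≤ κ ^ (-τ) * (κ * X) ^ τ * (3 * Real.exp (-(κ * X / 2))) := by
        refine mul_le_mul_of_nonneg_left h3 ?_
        positivity
    _ = 3 * κ ^ (-τ) * ((κ * X) ^ τ * Real.exp (-(κ * X / 2))) := by ring
    _ ≤ 3 * κ ^ (-τ) * 2 := mul_le_mul_of_nonneg_left h4 (by positivity)
    _ = _ := by ring

/-- The integrated contour integral. -/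
theorem line_int {k : ℝ → ℂ} (hk : Continuous k) {C τ σ : ℝ} (hC : 0 ≤ C) (hτ : 0 < τ) (hτ1 : τ ≤ 1) (hσ : 1 / 2 ≤ σ)
    (hσ2 : σ ≤ 2) (hkb : ∀ v, ‖k v‖ ≤ C * (1 + |v|) ^ τ) {κ : ℝ} (hκ : 0 < κ) (hκ1 : κ ≤ 1) {u0 u1 : ℝ} (h0 : 0 ≤ u0)
    (h01 : u0 ≤ u1) :
    IntervalIntegrable (fun u => ∫ v : ℝ, k v * EE κ u σ v) volume u0 u1 ∧
    ‖∫ u in u0..u1, ∫ v : ℝ, k v * EE κ u σ v‖ ≤
      (48 * Real.exp 4 * C * ∫ v : ℝ, (1 + |v|) ^ (-(1 + τ))) * κ ^ (-τ) * Real.exp (σ * u1) := by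
  have hint : Integrable (fun p : ℝ × ℝ => k p.2 * EE κ p.1 σ p.2) ((volume.restrict (Ioc u0 u1)).prod volume) := by
    have hg : Integrable (fun v : ℝ => C * (16 / κ ^ 2) * Real.exp (4 + 2 * u1) * (1 + |v|) ^ (-(3 / 2 : ℝ))) :=
      Pool.Agent.H295R2.integrable_decay.const_mul _
    have h1 : Integrable (fun _ : ℝ => (1 : ℝ)) (volume.restrict (Ioc u0 u1)) := by
      rw [integrable_const_iff]
      right
      constructor
      simp
    have h2 := h1.mul_prod hg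
    refine h2.mono' ?_ ?_
    · have : Continuous fun p : ℝ × ℝ => k p.2 * EE κ p.1 σ p.2 := by
        unfold Pool.Agent.TH949.TX.EE
        fun_prop
      exact this.aestronglyMeasurable
    · have hae : ∀ᵐ p : ℝ × ℝ ∂((volume.restrict (Ioc u0 u1)).prod volume), p.1 ∈ Ioc u0 u1 := by
        have : ∀ᵐ x ∂(volume.restrict (Ioc u0 u1)), x ∈ Ioc u0 u1 := ae_restrict_mem measurableSet_Ioc
        exact Measure.quasiMeasurePreserving_fst.ae this
      filter_upwards [hae] with p hp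
      rw [norm_mul, ee_norm, one_mul]
      have e1 := hkb p.2
      have e2 := gauss_decay hκ hκ1 p.2
      have e3 : Real.exp (κ * (σ ^ 2 - p.2 ^ 2) + σ * p.1) ≤
          Real.exp (4 + 2 * u1) * Real.exp (-(κ * p.2 ^ 2)) := by
        rw [← Real.exp_add]
        refine Real.exp_le_exp.2 ?_
        have q1 : κ * σ ^ 2 ≤ 1 * 4 := mul_le_mul hκ1 (by nlinarith) (by positivity) (by norm_num)
        have q2 : σ * p.1 ≤ 2 * u1 := mul_le_mul hσ2 hp.2 (by linarith [hp.1]) (by norm_num)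
        linarith
      have hp0 : (0 : ℝ) < 1 + |p.2| := by positivity
      calc ‖k p.2‖ * Real.exp (κ * (σ ^ 2 - p.2 ^ 2) + σ * p.1) ≤
          (C * (1 + |p.2|) ^ τ) * (Real.exp (4 + 2 * u1) * (16 / κ ^ 2 * (1 + |p.2|) ^ (-4 : ℝ))) := by
            refine mul_le_mul e1 (e3.trans ?_) (Real.exp_pos _).le (by positivity)
            exact mul_le_mul_of_nonneg_left e2 (Real.exp_pos _).le
        _ = C * (16 / κ ^ 2) * Real.exp (4 + 2 * u1) * ((1 + |p.2|) ^ τ * (1 + |p.2|) ^ (-4 : ℝ)) := by ring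
        _ ≤ _ := by
          refine mul_le_mul_of_nonneg_left ?_ (by positivity)
          rw [← Real.rpow_add hp0]
          exact Real.rpow_le_rpow_of_exponent_le (by linarith [abs_nonneg p.2]) (by linarith)
  refine ⟨?_, ?_⟩
  · rw [intervalIntegrable_iff_integrableOn_Ioc_of_le h01]
    exact hint.integral_prod_left
  rw [intervalIntegral.integral_of_le h01, integral_integral_swap hint]
  have hin : ∀ v : ℝ, ∫ u in Ioc u0 u1, k v * EE κ u σ v = k v * ((EE κ u1 σ v - EE κ u0 σ v) / ((σ : ℂ) + v * I)) := by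
    intro v
    rw [← intervalIntegral.integral_of_le h01, intervalIntegral.integral_const_mul, ee_u_int κ σ v hσ]
  simp_rw [hin]
  have hdec : Integrable (fun v : ℝ => (1 + |v|) ^ (-(1 + τ))) := by
    have := integrable_one_add_norm (E := ℝ) (μ := volume) (r := 1 + τ) (by simp; linarith)
    simpa using this
  have hbd : ∀ v : ℝ, ‖k v * ((EE κ u1 σ v - EE κ u0 σ v) / ((σ : ℂ) + v * I))‖ ≤
      (48 * Real.exp 4 * C * κ ^ (-τ) * Real.exp (σ * u1)) * (1 + |v|) ^ (-(1 + τ)) := by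
    intro v
    have hp : (0 : ℝ) < 1 + |v| := by positivity
    rw [norm_mul, norm_div]
    have e1 : ∀ u : ℝ, u ≤ u1 → ‖EE κ u σ v‖ ≤ Real.exp 4 * Real.exp (σ * u1) * Real.exp (-(κ * v ^ 2)) := by
      intro u hu
      rw [ee_norm, ← Real.exp_add, ← Real.exp_add]
      refine Real.exp_le_exp.2 ?_
      have q1 : κ * σ ^ 2 ≤ 1 * 4 := mul_le_mul hκ1 (by nlinarith) (by positivity) (by norm_num)
      have q2 : σ * u ≤ σ * u1 := mul_le_mul_of_nonneg_left hu (by linarith)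
      linarith
    have e2 : ‖EE κ u1 σ v - EE κ u0 σ v‖ ≤ 2 * (Real.exp 4 * Real.exp (σ * u1) * Real.exp (-(κ * v ^ 2))) := by
      refine (norm_sub_le _ _).trans ?_
      have := e1 u1 le_rfl
      have := e1 u0 h01
      linarith
    have e3 := norm_line hσ v
    have e4 : ‖EE κ u1 σ v - EE κ u0 σ v‖ / ‖(σ : ℂ) + v * I‖ ≤
        (2 * (Real.exp 4 * Real.exp (σ * u1) * Real.exp (-(κ * v ^ 2)))) / ((1 + |v|) / 4) :=
      div_le_div₀ (by positivity) e2 (by positivity) e3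
    have e5 := weight_le hκ hκ1 hτ hτ1 v
    calc ‖k v‖ * (‖EE κ u1 σ v - EE κ u0 σ v‖ / ‖(σ : ℂ) + v * I‖) ≤
        (C * (1 + |v|) ^ τ) * ((2 * (Real.exp 4 * Real.exp (σ * u1) * Real.exp (-(κ * v ^ 2)))) / ((1 + |v|) / 4)) :=
          mul_le_mul (hkb v) e4 (by positivity) (by positivity)
      _ = 8 * C * Real.exp 4 * Real.exp (σ * u1) * (((1 + |v|) ^ τ * (1 + |v|) ^ (-1 : ℝ)) * Real.exp (-(κ * v ^ 2))) := by
        rw [Real.rpow_neg_one]
        field_simp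
        ring
      _ = 8 * C * Real.exp 4 * Real.exp (σ * u1) * (((1 + |v|) ^ (-(1 + τ))) *
          ((1 + |v|) ^ (2 * τ) * Real.exp (-(κ * v ^ 2)))) := by
        have : (1 + |v|) ^ τ * (1 + |v|) ^ (-1 : ℝ) = (1 + |v|) ^ (-(1 + τ)) * (1 + |v|) ^ (2 * τ) := by
          rw [← Real.rpow_add hp, ← Real.rpow_add hp]
          congr 1
          ring
        rw [this]
        ring
      _ ≤ 8 * C * Real.exp 4 * Real.exp (σ * u1) * (((1 + |v|) ^ (-(1 + τ))) * (6 * κ ^ (-τ))) := by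
        refine mul_le_mul_of_nonneg_left (mul_le_mul_of_nonneg_left e5 (by positivity)) (by positivity)
      _ = _ := by ring
  refine (norm_integral_le_of_norm_le (hdec.const_mul _) (Eventually.of_forall hbd)).trans (le_of_eq ?_)
  rw [integral_const_mul]
  ring

end Pool.Agent.Run7.h456.Win
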