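import Mathlib
import Pool.Agent.Run7.h456.Win.Fwd2

/-!
# From the integrated Gaussian means to the sums
-/

set_option autoImplicit false

open Complex MeasureTheory Set Filter Topology

namespace Pool.Agent.Run7.h456.Win

open Pool.Agent.TH949.TX (gk EE t_polar)
open Pool.Agent.TH443.TXSum (ee_int ee_cont ee_integral)

variable {δ : ℕ} {c : ℕ → ℂ} {F : ℂ → ℂ}

/-- weight of `n` -/
noncomputable def Iw (κ u0 u1 : ℝ) (n : ℕ) : ℝ := ∫ u in u0..u1, gk κ (Real.log n - u)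

theorem gk_integral {κ : ℝ} (hκ : 0 < κ) : Integrable (gk κ) ∧ ∫ v : ℝ, gk κ v = 1 := by
  have h1 : gk κ = fun v => (Real.sqrt (4 * Real.pi * κ))⁻¹ * Real.exp (-(1 / (4 * κ)) * v ^ 2) := by
    funext v
    unfold Pool.Agent.TH949.TX.gk
    congr 2
    ring
  have h2 : (0 : ℝ) < 1 / (4 * κ) := by positivity
  rw [h1]
  refine ⟨(integrable_exp_neg_mul_sq h2).const_mul _, ?_⟩
  rw [integral_const_mul, integral_gaussian]
  have h4 : Real.pi / (1 / (4 * κ)) = 4 * Real.pi * κ := by field_simp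
  rw [h4]
  have h5 : Real.sqrt (4 * Real.pi * κ) ≠ 0 := by
    have := Real.pi_pos
    positivity
  exact inv_mul_cancel₀ h5

theorem Iw_eq (κ u0 u1 : ℝ) (n : ℕ) : Iw κ u0 u1 n = ∫ v in (Real.log n - u1)..(Real.log n - u0), gk κ v := by
  unfold Iw
  exact intervalIntegral.integral_comp_sub_left (fun v => gk κ v) (Real.log n)

theorem Iw_nonneg {κ u0 u1 : ℝ} (h : u0 ≤ u1) (n : ℕ) : 0 ≤ Iw κ u0 u1 n :=
  intervalIntegral.integral_nonneg h fun _ _ => gk_nonneg _ _

/-- tails -/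
theorem tail_int {κ W : ℝ} (hκ : 0 < κ) (hW : 0 ≤ W) {S : Set ℝ} (hS : MeasurableSet S) (h : ∀ v ∈ S, W ≤ |v|) :
    ∫ v in S, gk κ v ≤ 2 * Real.exp (-(W ^ 2 / (8 * κ))) := by
  obtain ⟨h1, h2⟩ := gk_integral hκ
  obtain ⟨h3, h4⟩ := gk_integral (κ := 2 * κ) (by linarith)
  calc ∫ v in S, gk κ v ≤ ∫ v in S, 2 * Real.exp (-(W ^ 2 / (8 * κ))) * gk (2 * κ) v := by
        refine setIntegral_mono_on h1.integrableOn (h3.const_mul _).integrableOn hS fun v hv => ?_
        refine gk_tail2 hκ ?_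
        have := h v hv
        rw [← sq_abs v]
        exact pow_le_pow_left₀ hW this 2
    _ ≤ ∫ v : ℝ, 2 * Real.exp (-(W ^ 2 / (8 * κ))) * gk (2 * κ) v :=
        setIntegral_le_integral (h3.const_mul _) (Eventually.of_forall fun v => mul_nonneg (by positivity) (gk_nonneg _ _))
    _ = _ := by rw [integral_const_mul, h4, mul_one]

theorem Iw_outside {κ u0 u1 W : ℝ} (hκ : 0 < κ) (h01 : u0 ≤ u1) (hW : 0 ≤ W) (n : ℕ)
    (h : u1 + W ≤ Real.log n ∨ Real.log n ≤ u0 - W) :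
    |Iw κ u0 u1 n| ≤ 2 * Real.exp (-(W ^ 2 / (8 * κ))) := by
  rw [abs_of_nonneg (Iw_nonneg h01 n), Iw_eq, intervalIntegral.integral_of_le (by linarith)]
  refine tail_int hκ hW measurableSet_Ioc fun v hv => ?_
  rcases h with h | h
  · refine le_trans ?_ (le_abs_self v)
    linarith [hv.1]
  · refine le_trans ?_ (neg_le_abs v)
    linarith [hv.2]

theorem Iw_inside {κ u0 u1 W : ℝ} (hκ : 0 < κ) (hW : 0 ≤ W) (n : ℕ)
    (h0 : u0 + W ≤ Real.log n) (h1 : Real.log n ≤ u1 - W) :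
    |Iw κ u0 u1 n - 1| ≤ 2 * Real.exp (-(W ^ 2 / (8 * κ))) := by
  obtain ⟨k1, k2⟩ := gk_integral hκ
  have hsplit := integral_add_compl (s := Ioc (Real.log n - u1) (Real.log n - u0)) measurableSet_Ioc k1
  rw [k2] at hsplit
  rw [Iw_eq, intervalIntegral.integral_of_le (by linarith)]
  have e : (∫ v in Ioc (Real.log n - u1) (Real.log n - u0), gk κ v) - 1 =
      -∫ v in (Ioc (Real.log n - u1) (Real.log n - u0))ᶜ, gk κ v := by linarith
  rw [e, abs_neg, abs_of_nonneg (integral_nonneg fun v => gk_nonneg _ _)]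
  refine tail_int hκ hW measurableSet_Ioc.compl fun v hv => ?_
  rw [mem_compl_iff, mem_Ioc, not_and_or, not_lt, not_le] at hv
  rcases hv with hv | hv
  · refine le_trans ?_ (neg_le_abs v)
    linarith
  · refine le_trans ?_ (le_abs_self v)
    linarith

/-- The integral of the Gaussian mean. -/
theorem int_J (h0 : ∀ n : ℕ, n ≤ 1 → c n = 0)
    (hs : Summable fun n : ℕ => ‖c n‖ * (n : ℝ) ^ (-(2 : ℝ))) {κ : ℝ} (hκ : 0 < κ) (hκ1 : κ ≤ 1) {u0 u1 : ℝ}
    (h01 : u0 ≤ u1) :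
    IntervalIntegrable (fun u => Jc c κ u) volume u0 u1 ∧
    HasSum (fun n : ℕ => c n * (Iw κ u0 u1 n : ℂ)) (∫ u in u0..u1, Jc c κ u) := by
  set T : ℝ := 1 / κ * Real.exp (8 * κ + 2 * u1) with hT
  have hT0 : 0 ≤ T := by positivity
  have hterm : ∀ (n : ℕ) (u : ℝ), u ≤ u1 → ‖c n * (gk κ (Real.log n - u) : ℂ)‖ ≤ ‖c n‖ * (n : ℝ) ^ (-(2 : ℝ)) * T := by
    intro n u hu
    rcases Nat.eq_zero_or_pos n with rfl | hn0
    · rw [h0 0 (by norm_num)]
      simp
    · have hn0' : (0 : ℝ) < n := by exact_mod_cast hn0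
      rw [norm_mul, Complex.norm_real, Real.norm_eq_abs, abs_of_nonneg (gk_nonneg _ _), mul_assoc]
      refine mul_le_mul_of_nonneg_left ?_ (norm_nonneg _)
      have h5 : (0 : ℝ) ^ 2 ≤ (Real.log n - u) ^ 2 := by
        rw [zero_pow two_ne_zero]
        positivity
      refine (gk_tail hκ hκ1 h5).trans ?_
      rw [hT, Real.rpow_def_of_pos hn0']
      have : Real.exp (-((0 : ℝ) ^ 2 / (8 * κ)) - 2 * (Real.log n - u) + 8 * κ) ≤
          Real.exp (Real.log n * -2) * Real.exp (8 * κ + 2 * u1) := by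
        rw [← Real.exp_add]
        refine Real.exp_le_exp.2 ?_
        simp
        linarith
      calc 1 / κ * Real.exp (-((0 : ℝ) ^ 2 / (8 * κ)) - 2 * (Real.log n - u) + 8 * κ) ≤
          1 / κ * (Real.exp (Real.log n * -2) * Real.exp (8 * κ + 2 * u1)) :=
            mul_le_mul_of_nonneg_left this (by positivity)
        _ = _ := by ring
  have hcont : ∀ n : ℕ, Continuous fun u : ℝ => c n * (gk κ (Real.log n - u) : ℂ) := by
    intro n
    exact continuous_const.mul (continuous_ofReal.comp ((gk_cont κ).comp (continuous_const.sub continuous_id)))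
  have hsum : Summable fun n : ℕ => ‖c n‖ * (n : ℝ) ^ (-(2 : ℝ)) * T := hs.mul_right T
  refine ⟨?_, ?_⟩
  · have hc : ContinuousOn (fun u => Jc c κ u) (Iic u1) := by
      unfold Jc
      exact continuousOn_tsum (fun n => (hcont n).continuousOn) hsum fun n u hu => hterm n u hu
    exact (hc.mono (by rw [uIcc_of_le h01]; exact fun u hu => hu.2)).intervalIntegrable
  · have := intervalIntegral.hasSum_integral_of_dominated_convergence (μ := volume) (a := u0) (b := u1)
      (F := fun (n : ℕ) (u : ℝ) => c n * (gk κ (Real.log n - u) : ℂ)) (f := fun u => Jc c κ u)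
      (fun n _ => ‖c n‖ * (n : ℝ) ^ (-(2 : ℝ)) * T) (fun n => (hcont n).aestronglyMeasurable)
      (fun n => Eventually.of_forall fun u hu => by
        rw [uIoc_of_le h01] at hu
        exact hterm n u hu.2)
      (Eventually.of_forall fun u _ => hsum) (by simp) (Eventually.of_forall fun u hu => by
        rw [uIoc_of_le h01] at hu
        exact (Summable.of_norm_bounded hsum fun n => hterm n u hu.2).hasSum)
    refine this.congr_fun ?_ 
    intro n
    unfold Iw
    rw [intervalIntegral.integral_const_mul]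
    congr 1
    rw [← intervalIntegral.integral_ofReal]

/-- logarithms of half-integers -/
theorem log_half {m n : ℕ} (hm : 1 ≤ m) (hn : 1 ≤ n) :
    (n ≤ m → Real.log n ≤ Real.log (m + 1 / 2) - 1 / (4 * (m + 1 / 2))) ∧
      (m < n → Real.log (m + 1 / 2) + 1 / (4 * (m + 1 / 2)) ≤ Real.log n) := by
  have hm' : (1 : ℝ) ≤ m := by exact_mod_cast hm
  have hn' : (1 : ℝ) ≤ n := by exact_mod_cast hn
  have hx : (0 : ℝ) < (m : ℝ) + 1 / 2 := by linarith
  have key : ∀ a b : ℝ, 0 < a → a + 1 / 2 ≤ b → b ≤ (m : ℝ) + 1 / 2 ∨ a ≤ (m : ℝ) + 1 / 2 →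
      Real.log a + 1 / (4 * (m + 1 / 2)) ≤ Real.log b := by
    intro a b ha hab hor
    have hb : 0 < b := by linarith
    have ham : a ≤ (m : ℝ) + 1 / 2 := by
      rcases hor with h | h
      · linarith
      · exact h
    have h1 : 1 - (b / a)⁻¹ ≤ Real.log (b / a) := Real.one_sub_inv_le_log_of_pos (by positivity)
    rw [Real.log_div hb.ne' ha.ne', inv_div] at h1
    have h2 : Real.log (a + 1 / 2) ≤ Real.log b := Real.log_le_log (by linarith) hab
    have h3 : 1 - ((a + 1 / 2) / a)⁻¹ ≤ Real.log ((a + 1 / 2) / a) := Real.one_sub_inv_le_log_of_pos (by positivity)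
    rw [Real.log_div (by linarith) ha.ne', inv_div] at h3
    have h4 : 1 - a / (a + 1 / 2) = 1 / (2 * a + 1) := by field_simp; ring
    have h5 : 1 / (4 * ((m : ℝ) + 1 / 2)) ≤ 1 / (2 * a + 1) :=
      one_div_le_one_div_of_le (by linarith) (by linarith)
    linarith
  constructor
  · intro h
    have h' : (n : ℝ) ≤ m := by exact_mod_cast h
    have := key n (m + 1 / 2) (by linarith) (by linarith) (Or.inl le_rfl)
    linarith
  · intro h
    have h' : (m : ℝ) + 1 ≤ n := by exact_mod_cast h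
    have := key (m + 1 / 2) n hx (by linarith) (Or.inr le_rfl)
    linarith

/-- The integrated mean and the sum. -/
theorem sum_close (h0 : ∀ n : ℕ, n ≤ 1 → c n = 0)
    (hs : Summable fun n : ℕ => ‖c n‖ * (n : ℝ) ^ (-(2 : ℝ))) {κ : ℝ} (hκ : 0 < κ) (hκ1 : κ ≤ 1) {m0 m1 : ℕ}
    (hm0 : 1 ≤ m0) (hm : m0 ≤ m1) {w : ℝ} (hw : w = 1 / (4 * ((m1 : ℝ) + 1 / 2))) :
    ‖(∫ u in (Real.log (m0 + 1 / 2))..(Real.log (m1 + 1 / 2)), Jc c κ u) - ∑ n ∈ Finset.Ioc m0 m1, c n‖ ≤
      (∑' n : ℕ, ‖c n‖ * (n : ℝ) ^ (-(2 : ℝ))) *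
        (2 * ((m1 : ℝ) + 1 / 2) ^ 2 * Real.exp (16 * κ - w ^ 2 / (16 * κ))) := by
  classical
  have hm0' : (1 : ℝ) ≤ m0 := by exact_mod_cast hm0
  have hm' : (m0 : ℝ) ≤ m1 := by exact_mod_cast hm
  set u0 : ℝ := Real.log (m0 + 1 / 2) with hu0
  set u1 : ℝ := Real.log (m1 + 1 / 2) with hu1
  have h01 : u0 ≤ u1 := Real.log_le_log (by linarith) (by linarith)
  have hw0 : 0 < w := by rw [hw]; positivity
  have hw1 : w ≤ 1 / (4 * ((m0 : ℝ) + 1 / 2)) := by
    rw [hw]
    exact one_div_le_one_div_of_le (by linarith) (by linarith)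
  set T : ℝ := 2 * ((m1 : ℝ) + 1 / 2) ^ 2 * Real.exp (16 * κ - w ^ 2 / (16 * κ)) with hT
  obtain ⟨-, q2⟩ := int_J h0 hs hκ hκ1 h01
  have hfin : HasSum (fun n : ℕ => if n ∈ Finset.Ioc m0 m1 then c n else 0) (∑ n ∈ Finset.Ioc m0 m1, c n) := by
    have e0 : ∑ n ∈ Finset.Ioc m0 m1, (if n ∈ Finset.Ioc m0 m1 then c n else 0) = ∑ n ∈ Finset.Ioc m0 m1, c n :=
      Finset.sum_congr rfl fun n hn => if_pos hn
    rw [← e0]
    exact hasSum_sum_of_ne_finset_zero fun n hn => by rw [if_neg hn]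
  have hd := q2.sub hfin
  rw [← hd.tsum_eq, ← tsum_mul_right]
  refine tsum_of_norm_bounded (hs.mul_right T).hasSum fun n => ?_
  rcases Nat.eq_zero_or_pos n with rfl | hn0
  · have := h0 0 (by norm_num)
    simp [this]
  have hn1 : (1 : ℝ) ≤ n := by exact_mod_cast hn0
  have hn0' : (0 : ℝ) < n := by linarith
  have hbound : |Iw κ u0 u1 n - (if n ∈ Finset.Ioc m0 m1 then 1 else 0)| ≤ (n : ℝ) ^ (-(2 : ℝ)) * T := by
    have hsmall : n ≤ m1 → 2 * Real.exp (-(w ^ 2 / (8 * κ))) ≤ (n : ℝ) ^ (-(2 : ℝ)) * T := by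
      intro hnm
      have hnm' : (n : ℝ) ≤ m1 := by exact_mod_cast hnm
      have e1 : Real.exp (-(w ^ 2 / (8 * κ))) ≤ Real.exp (16 * κ - w ^ 2 / (16 * κ)) := by
        refine Real.exp_le_exp.2 ?_
        have : w ^ 2 / (16 * κ) ≤ w ^ 2 / (8 * κ) := div_le_div_of_nonneg_left (by positivity) (by positivity) (by linarith)
        linarith
      have e2 : 1 ≤ (n : ℝ) ^ (-(2 : ℝ)) * ((m1 : ℝ) + 1 / 2) ^ 2 := by
        rw [Real.rpow_neg hn0'.le, ← div_eq_inv_mul, Real.rpow_two, one_le_div (by positivity)]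
        exact pow_le_pow_left₀ hn0'.le (by linarith) 2
      calc 2 * Real.exp (-(w ^ 2 / (8 * κ))) ≤ 2 * Real.exp (16 * κ - w ^ 2 / (16 * κ)) := by linarith
        _ = 1 * (2 * Real.exp (16 * κ - w ^ 2 / (16 * κ))) := (one_mul _).symm
        _ ≤ ((n : ℝ) ^ (-(2 : ℝ)) * ((m1 : ℝ) + 1 / 2) ^ 2) * (2 * Real.exp (16 * κ - w ^ 2 / (16 * κ))) :=
          mul_le_mul_of_nonneg_right e2 (by positivity)
        _ = _ := by rw [hT]; ring
    by_cases hmem : n ∈ Finset.Ioc m0 m1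
    · rw [if_pos hmem]
      rw [Finset.mem_Ioc] at hmem
      have e1 := (log_half hm0 hn0).2 hmem.1
      have e2 := (log_half (hm0.trans hm) hn0).1 hmem.2
      rw [← hu1, ← hw] at e2
      rw [← hu0] at e1
      exact (Iw_inside hκ hw0.le n (by linarith) e2).trans (hsmall hmem.2)
    · rw [if_neg hmem, sub_zero]
      rw [Finset.mem_Ioc, not_and_or, not_lt, not_le] at hmem
      rcases hmem with hmem | hmem
      · have e1 := (log_half hm0 hn0).1 hmem
        rw [← hu0] at e1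
        exact (Iw_outside hκ h01 hw0.le n (Or.inr (by linarith))).trans (hsmall (hmem.trans hm))
      · have e2 := (log_half (hm0.trans hm) hn0).2 hmem
        rw [← hu1, ← hw] at e2
        set W : ℝ := Real.log n - u1 with hW
        have hWw : w ≤ W := by rw [hW]; linarith
        refine (Iw_outside hκ h01 (hw0.le.trans hWw) n (Or.inl (by rw [hW]; linarith))).trans ?_
        have e3 : Real.exp (-(W ^ 2 / (8 * κ))) ≤ Real.exp (16 * κ - w ^ 2 / (16 * κ) + -(2 * W)) := by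
          refine Real.exp_le_exp.2 ?_
          have f1 : w ^ 2 / (16 * κ) ≤ W ^ 2 / (16 * κ) := by gcongr
          have f2 : 0 ≤ (W - 16 * κ) ^ 2 / (16 * κ) := by positivity
          have f3 : (W - 16 * κ) ^ 2 / (16 * κ) = W ^ 2 / (16 * κ) - 2 * W + 16 * κ := by field_simp; ring
          have f4 : W ^ 2 / (8 * κ) = W ^ 2 / (16 * κ) + W ^ 2 / (16 * κ) := by field_simp; ring
          rw [f3] at f2
          rw [f4]
          linarith
        have e4 : Real.exp (-(2 * W)) = (n : ℝ) ^ (-(2 : ℝ)) * ((m1 : ℝ) + 1 / 2) ^ 2 := by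
          have f1 : (0 : ℝ) < (m1 : ℝ) + 1 / 2 := by linarith
          rw [Real.rpow_def_of_pos hn0']
          have f2 : ((m1 : ℝ) + 1 / 2) ^ 2 = Real.exp (2 * u1) := by
            rw [two_mul, Real.exp_add, hu1, Real.exp_log f1]
            ring
          rw [f2, ← Real.exp_add]
          congr 1
          rw [hW]
          ring
        calc 2 * Real.exp (-(W ^ 2 / (8 * κ))) ≤ 2 * Real.exp (16 * κ - w ^ 2 / (16 * κ) + -(2 * W)) := by linarith
          _ = _ := by rw [Real.exp_add, e4, hT]; ring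
  have e : c n * (Iw κ u0 u1 n : ℂ) - (if n ∈ Finset.Ioc m0 m1 then c n else 0) =
      c n * ((Iw κ u0 u1 n - (if n ∈ Finset.Ioc m0 m1 then 1 else 0) : ℝ) : ℂ) := by
    split_ifs <;> push_cast <;> ring
  rw [e, norm_mul, Complex.norm_real, Real.norm_eq_abs, mul_assoc]
  exact mul_le_mul_of_nonneg_left hbound (norm_nonneg _)

end Pool.Agent.Run7.h456.Win
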