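import Mathlib
import Pool.Agent.Run7.h456.Win.Fwd3
import Pool.Agent.Run7.h456.Win.Conv

/-!
# A zero-free half-plane implies the windows
-/

set_option autoImplicit false

open Complex MeasureTheory Set Filter Topology

namespace Pool.Agent.Run7.h456.Win

open Pool.Agent.TH949.TX (gk EE t_polar)
open Pool.Agent.TH443.TXSum (ee_int ee_cont ee_integral)

variable {δ : ℕ} {c : ℕ → ℂ} {F : ℂ → ℂ}

theorem fwd_bound (h : LD δ c F) {θ ε : ℝ} (hθ : 1 / 2 ≤ θ) (hθ1 : θ ≤ 1) (hz : ∀ ρ : ℂ, F ρ = 0 → ρ.re ≤ θ)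
    (hε : 0 < ε) (hε1 : ε ≤ 1) :
    ∃ C : ℝ, 0 < C ∧ ∀ m0 m1 : ℕ, 1 ≤ m0 → m0 ≤ m1 →
      ‖∑ n ∈ Finset.Ioc m0 m1, c n - δ * ((m1 : ℂ) - m0)‖ ≤ C * ((m1 : ℝ) + 1 / 2) ^ (θ + ε) := by
  obtain ⟨C0, hC0, hld⟩ := ldb h (σ := θ + ε / 2) (τ := ε / 6) hθ hz (by linarith) (by linarith) (by linarith)
    (by linarith)
  have hdec : Integrable (fun v : ℝ => (1 + |v|) ^ (-(1 + ε / 6))) := by
    have := integrable_one_add_norm (E := ℝ) (μ := volume) (r := 1 + ε / 6) (by simp; linarith)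
    simpa using this
  set D : ℝ := 48 * Real.exp 4 * C0 * ∫ v : ℝ, (1 + |v|) ^ (-(1 + ε / 6)) with hD
  have hD0 : 0 ≤ D := by
    have : 0 ≤ ∫ v : ℝ, (1 + |v|) ^ (-(1 + ε / 6)) := integral_nonneg fun v => by positivity
    positivity
  set K : ℝ := ∑' n : ℕ, ‖c n‖ * (n : ℝ) ^ (-(2 : ℝ)) with hK
  have hK0 : 0 ≤ K := tsum_nonneg fun n => by positivity
  have hδ0 : (0 : ℝ) ≤ δ := Nat.cast_nonneg _
  have hpi := Real.pi_pos
  have hpi3 := Real.pi_gt_three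
  refine ⟨6 * δ + D + K * (262144 * Real.exp 16) + 2 * δ + 1, by positivity, fun m0 m1 hm0 hm => ?_⟩
  have hm0' : (1 : ℝ) ≤ m0 := by exact_mod_cast hm0
  have hm' : (m0 : ℝ) ≤ m1 := by exact_mod_cast hm
  obtain ⟨X, hX⟩ : ∃ X : ℝ, X = (m1 : ℝ) + 1 / 2 := ⟨_, rfl⟩
  have hX1 : 1 ≤ X := by rw [hX]; linarith
  have hX0 : 0 < X := by linarith
  set κ : ℝ := X ^ (-(3 : ℝ)) with hκdef
  have hκ : 0 < κ := Real.rpow_pos_of_pos hX0 _
  have hκ1 : κ ≤ 1 := Real.rpow_le_one_of_one_le_of_nonpos hX1 (by norm_num)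
  set u0 : ℝ := Real.log (m0 + 1 / 2) with hu0
  set u1 : ℝ := Real.log (m1 + 1 / 2) with hu1
  have h0 : 0 ≤ u0 := Real.log_nonneg (by linarith)
  have h01 : u0 ≤ u1 := Real.log_le_log (by linarith) (by linarith)
  have hu1X : u1 = Real.log X := by rw [hX]
  -- the function on the line
  have hne : ∀ ρ : ℂ, θ + ε / 2 ≤ ρ.re → F ρ ≠ 0 := by
    intro ρ hρ h0
    have := hz ρ h0
    linarith
  set k : ℝ → ℂ := fun v => deriv F (((θ + ε / 2 : ℝ) : ℂ) + v * I) / F (((θ + ε / 2 : ℝ) : ℂ) + v * I) with hk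
  have hkc : Continuous k := by
    rw [hk, continuous_iff_continuousAt]
    intro v
    have hGd : ∀ z : ℂ, DifferentiableAt ℂ (deriv F) z := fun z => (h.diff.analyticAt z).deriv.differentiableAt
    have e1 : ContinuousAt (fun s : ℂ => deriv F s / F s) (((θ + ε / 2 : ℝ) : ℂ) + v * I) :=
      (hGd _).continuousAt.div (h.diff _).continuousAt (hne _ (by simp))
    exact ContinuousAt.comp (f := fun v : ℝ => ((θ + ε / 2 : ℝ) : ℂ) + v * I) e1 (by fun_prop)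
  have hkb : ∀ v, ‖k v‖ ≤ C0 * (1 + |v|) ^ (ε / 6) := by
    intro v
    have := hld (((θ + ε / 2 : ℝ) : ℂ) + v * I) (by simp) (by simp; linarith)
    simpa [hk] using this
  obtain ⟨i1, b1⟩ := line_int hkc (C := C0) (τ := ε / 6) (σ := θ + ε / 2) (by linarith) (by linarith) (by linarith)
    (by linarith) (by linarith) hkb hκ hκ1 h0 h01
  obtain ⟨i2, -⟩ := int_J (c := c) h.c0 (h.summ 2 (by norm_num)) hκ hκ1 h01
  have hcl := sum_close (c := c) h.c0 (h.summ 2 (by norm_num)) hκ hκ1 hm0 hm (w := 1 / (4 * ((m1 : ℝ) + 1 / 2))) rfl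
  rw [← hu0, ← hu1, ← hK, ← hX] at hcl
  -- the integral of the exponential
  have i3 : IntervalIntegrable (fun u : ℝ => (δ : ℂ) * cexp (κ + u)) volume u0 u1 := by
    apply Continuous.intervalIntegrable
    fun_prop
  have hexp : ∫ u in u0..u1, (δ : ℂ) * cexp (κ + u) = δ * (Real.exp κ * ((m1 : ℂ) - m0)) := by
    rw [intervalIntegral.integral_const_mul]
    congr 1
    have e1 : ∀ u : ℝ, cexp (κ + u) = ((Real.exp κ * Real.exp u : ℝ) : ℂ) := by
      intro u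
      push_cast
      rw [Complex.exp_add]
    simp_rw [e1]
    rw [intervalIntegral.integral_ofReal, intervalIntegral.integral_const_mul, integral_exp, hu0, hu1,
      Real.exp_log (by linarith), Real.exp_log (by linarith)]
    push_cast
    ring
  have hmain : ‖(∫ u in u0..u1, Jc c κ u) - δ * (Real.exp κ * ((m1 : ℂ) - m0))‖ * (2 * Real.pi) ≤
      δ * (2 * Real.pi * 3) * u1 + D * κ ^ (-(ε / 6)) * Real.exp ((θ + ε / 2) * u1) := by
    have e1 : ((∫ u in u0..u1, Jc c κ u) - δ * (Real.exp κ * ((m1 : ℂ) - m0))) * (2 * Real.pi) =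
        (∫ u in u0..u1, ((Jc c κ u - δ * cexp (κ + u)) * (2 * Real.pi) +
          ∫ v : ℝ, k v * EE κ u (θ + ε / 2) v)) - ∫ u in u0..u1, ∫ v : ℝ, k v * EE κ u (θ + ε / 2) v := by
      rw [← hexp, ← intervalIntegral.integral_sub i2 i3, ← intervalIntegral.integral_mul_const,
        intervalIntegral.integral_add ((i2.sub i3).mul_const _) i1, add_sub_cancel_right]
    have e2 : ‖((∫ u in u0..u1, Jc c κ u) - δ * (Real.exp κ * ((m1 : ℂ) - m0))) * (2 * Real.pi)‖ =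
        ‖(∫ u in u0..u1, Jc c κ u) - δ * (Real.exp κ * ((m1 : ℂ) - m0))‖ * (2 * Real.pi) := by
      rw [norm_mul]
      congr 1
      rw [norm_mul, Complex.norm_real, Real.norm_eq_abs, abs_of_pos hpi]
      norm_num
    rw [← e2, e1]
    refine (norm_sub_le _ _).trans (add_le_add ?_ b1)
    have e3 := intervalIntegral.norm_integral_le_of_norm_le_const (a := u0) (b := u1) (C := δ * (2 * Real.pi * 3))
      (f := fun u : ℝ => (Jc c κ u - δ * cexp (κ + u)) * (2 * Real.pi) +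
          ∫ v : ℝ, k v * EE κ u (θ + ε / 2) v) (fun u hu => by
        rw [uIoc_of_le h01] at hu
        have hu' : 0 ≤ u := by linarith [hu.1]
        refine (shift_sigma h (σ := θ + ε / 2) (by linarith) (by linarith) hne (C := C0) (τ := ε / 6) (by linarith)
          hld hκ hκ1 hu').trans ?_
        refine mul_le_mul_of_nonneg_left (mul_le_mul_of_nonneg_left ?_ (by positivity)) hδ0
        have := Real.exp_one_lt_d9
        have : Real.exp (κ - u) ≤ Real.exp 1 := Real.exp_le_exp.2 (by linarith)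
        linarith)
    refine e3.trans (mul_le_mul_of_nonneg_left ?_ (by positivity))
    rw [abs_of_nonneg (by linarith)]
    linarith
  -- elementary bounds
  have hXp : ∀ p : ℝ, p ≤ θ + ε → X ^ p ≤ X ^ (θ + ε) := fun p hp => Real.rpow_le_rpow_of_exponent_le hX1 hp
  obtain ⟨P, hP⟩ : ∃ P : ℝ, P = X ^ (θ + ε) := ⟨_, rfl⟩
  have hP1 : 1 ≤ P := by rw [hP]; exact Real.one_le_rpow hX1 (by linarith)
  have c1 : u1 ≤ 2 * P := by
    rw [hu1X, hP]
    have e1 := Real.log_le_rpow_div hX0.le (show (0 : ℝ) < 1 / 2 by norm_num)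
    have e2 := hXp (1 / 2) (by linarith)
    linarith
  have c2 : κ ^ (-(ε / 6)) * Real.exp ((θ + ε / 2) * u1) = P := by
    rw [hκdef, ← Real.rpow_mul hX0.le, hu1X, mul_comm (θ + ε / 2), ← Real.rpow_def_of_pos hX0, ← Real.rpow_add hX0, hP]
    congr 1
    ring
  have c3 : X ^ 2 * Real.exp (16 * κ - (1 / (4 * X)) ^ 2 / (16 * κ)) ≤ 131072 * Real.exp 16 := by
    have e1 : (1 / (4 * X)) ^ 2 / (16 * κ) = X / 256 := by
      have : X ^ 3 * κ = 1 := by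
        rw [hκdef, ← Real.rpow_natCast, ← Real.rpow_add hX0]
        norm_num
      have hκX : κ = (X ^ 3)⁻¹ := eq_inv_of_mul_eq_one_right this
      rw [hκX]
      field_simp
      norm_num
    rw [e1]
    have e2 : Real.exp (16 * κ - X / 256) ≤ Real.exp 16 * Real.exp (-(X / 256)) := by
      rw [← Real.exp_add]
      exact Real.exp_le_exp.2 (by linarith)
    have e3 : X ^ 2 * Real.exp (-(X / 256)) ≤ 131072 := by
      have := Real.quadratic_le_exp_of_nonneg (x := X / 256) (by positivity)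
      have e4 : X ^ 2 ≤ 131072 * Real.exp (X / 256) := by nlinarith
      calc X ^ 2 * Real.exp (-(X / 256)) ≤ 131072 * Real.exp (X / 256) * Real.exp (-(X / 256)) :=
            mul_le_mul_of_nonneg_right e4 (Real.exp_pos _).le
        _ = 131072 := by rw [mul_assoc, ← Real.exp_add]; simp
    calc X ^ 2 * Real.exp (16 * κ - X / 256) ≤ X ^ 2 * (Real.exp 16 * Real.exp (-(X / 256))) := by gcongr
      _ = Real.exp 16 * (X ^ 2 * Real.exp (-(X / 256))) := by ring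
      _ ≤ Real.exp 16 * 131072 := mul_le_mul_of_nonneg_left e3 (Real.exp_pos _).le
      _ = _ := by ring
  have c4 : ‖(δ : ℂ) * (Real.exp κ * ((m1 : ℂ) - m0)) - δ * ((m1 : ℂ) - m0)‖ ≤ 2 * δ := by
    have e1 : (δ : ℂ) * (Real.exp κ * ((m1 : ℂ) - m0)) - δ * ((m1 : ℂ) - m0) =
        ((δ * ((Real.exp κ - 1) * ((m1 : ℝ) - m0)) : ℝ) : ℂ) := by push_cast; ring
    rw [e1, Complex.norm_real, Real.norm_eq_abs, abs_of_nonneg (by
      have : 1 ≤ Real.exp κ := Real.one_le_exp hκ.le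
      exact mul_nonneg hδ0 (mul_nonneg (by linarith) (by linarith)))]
    have e2 : Real.exp κ - 1 ≤ 2 * κ := by
      have := Real.abs_exp_sub_one_le (x := κ) (by rw [abs_of_pos hκ]; exact hκ1)
      rw [abs_of_pos hκ] at this
      exact (le_abs_self _).trans this
    have e3 : (m1 : ℝ) - m0 ≤ X := by rw [hX]; linarith
    have e4 : κ * X ≤ 1 := by
      rw [hκdef]
      nth_rewrite 2 [← Real.rpow_one X]
      rw [← Real.rpow_add hX0]
      exact Real.rpow_le_one_of_one_le_of_nonpos hX1 (by norm_num)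
    have e5 : (Real.exp κ - 1) * ((m1 : ℝ) - m0) ≤ 2 * κ * X :=
      mul_le_mul e2 e3 (by linarith) (by positivity)
    have e6 : (Real.exp κ - 1) * ((m1 : ℝ) - m0) ≤ 2 := by linarith
    calc (δ : ℝ) * ((Real.exp κ - 1) * ((m1 : ℝ) - m0)) ≤ δ * 2 := mul_le_mul_of_nonneg_left e6 hδ0
      _ = _ := by ring
  have c5 : ‖(∫ u in u0..u1, Jc c κ u) - δ * (Real.exp κ * ((m1 : ℂ) - m0))‖ ≤ (6 * δ + D) * P := by
    have e1 : δ * (2 * Real.pi * 3) * u1 ≤ δ * (2 * Real.pi * 3) * (2 * P) := mul_le_mul_of_nonneg_left c1 (by positivity)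
    have e2 : D * κ ^ (-(ε / 6)) * Real.exp ((θ + ε / 2) * u1) = D * P := by rw [mul_assoc, c2]
    rw [e2] at hmain
    have e3 : D * P ≤ D * P * (2 * Real.pi) := le_mul_of_one_le_right (mul_nonneg hD0 (by linarith)) (by linarith)
    refine le_of_mul_le_mul_right (?_ : _ * (2 * Real.pi) ≤ _ * (2 * Real.pi)) (by positivity)
    calc _ ≤ _ := hmain
      _ ≤ δ * (2 * Real.pi * 3) * (2 * P) + D * P * (2 * Real.pi) := by linarith
      _ = _ := by ring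
  have c6 : K * (2 * X ^ 2 * Real.exp (16 * κ - (1 / (4 * X)) ^ 2 / (16 * κ))) ≤ K * (262144 * Real.exp 16) * P := by
    calc K * (2 * X ^ 2 * Real.exp (16 * κ - (1 / (4 * X)) ^ 2 / (16 * κ))) =
        K * (2 * (X ^ 2 * Real.exp (16 * κ - (1 / (4 * X)) ^ 2 / (16 * κ)))) := by ring
      _ ≤ K * (2 * (131072 * Real.exp 16)) := by gcongr
      _ = K * (262144 * Real.exp 16) * 1 := by ring
      _ ≤ _ := mul_le_mul_of_nonneg_left hP1 (by positivity)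
  rw [← hX, ← hP]
  have hfin : ∑ n ∈ Finset.Ioc m0 m1, c n - δ * ((m1 : ℂ) - m0) =
      -((∫ u in u0..u1, Jc c κ u) - ∑ n ∈ Finset.Ioc m0 m1, c n) +
      ((∫ u in u0..u1, Jc c κ u) - δ * (Real.exp κ * ((m1 : ℂ) - m0))) +
      ((δ : ℂ) * (Real.exp κ * ((m1 : ℂ) - m0)) - δ * ((m1 : ℂ) - m0)) := by ring
  rw [hfin]
  refine (norm_add_le _ _).trans ?_
  have e1 := norm_add_le (-((∫ u in u0..u1, Jc c κ u) - ∑ n ∈ Finset.Ioc m0 m1, c n))
    ((∫ u in u0..u1, Jc c κ u) - δ * (Real.exp κ * ((m1 : ℂ) - m0)))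
  rw [norm_neg] at e1
  have e2 : 2 * (δ : ℝ) ≤ 2 * δ * P := le_mul_of_one_le_right (by positivity) hP1
  have e3 := hcl.trans c6
  have e4 : (6 * δ + D + K * (262144 * Real.exp 16) + 2 * δ + 1) * P =
    K * (262144 * Real.exp 16) * P + (6 * δ + D) * P + 2 * δ * P + P := by ring
  rw [e4]
  linarith

/-- monotonicity in `ε` -/
theorem WinAt.mono {lam θ ε ε' : ℝ} {N : ℕ} (hlam : 1 ≤ lam) (hN : 1 ≤ N) (hε : ε ≤ ε') (h : WinAt δ c lam θ ε N) :
    WinAt δ c lam θ ε' N := by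
  intro k hk1 hk2 x y hx hxy hy
  have hN' : (1 : ℝ) ≤ N := by exact_mod_cast hN
  have e1 : (N : ℝ) ^ (1 - ε') ≤ (N : ℝ) ^ (1 - ε) := Real.rpow_le_rpow_of_exponent_le hN' (by linarith)
  have e2 : (N : ℝ) ^ (-ε') ≤ (N : ℝ) ^ (-ε) := Real.rpow_le_rpow_of_exponent_le hN' (by linarith)
  have hl : 0 < lam ^ k := by positivity
  refine (h k hk1 (by linarith) x y ?_ hxy ?_).trans ?_
  · refine le_trans (mul_le_mul_of_nonneg_left (by linarith) hl.le) hx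
  · exact hy.trans (mul_le_mul_of_nonneg_left (by linarith) hl.le)
  · exact Real.rpow_le_rpow_of_exponent_le hlam (mul_le_mul_of_nonneg_left (by linarith) (Nat.cast_nonneg _))

/-- **A zero-free half-plane implies the windows**, for all large `N`. -/
theorem fwd (h : LD δ c F) {lam θ : ℝ} (hlam : 1 < lam) (hθ : 1 / 2 ≤ θ) (hθ1 : θ ≤ 1)
    (hz : ∀ ρ : ℂ, F ρ = 0 → ρ.re ≤ θ) {ε : ℝ} (hε : 0 < ε) : ∀ᶠ N : ℕ in atTop, WinAt δ c lam θ ε N := by
  set ε' : ℝ := min ε 1 with hε'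
  have hε0 : 0 < ε' := lt_min hε one_pos
  have hε1 : ε' ≤ 1 := min_le_right _ _
  obtain ⟨C, hC, hb⟩ := fwd_bound h (ε := ε' / 2) hθ hθ1 hz (by linarith) (by linarith)
  have hL : 0 < Real.log lam := Real.log_pos hlam
  have ev1 : ∀ᶠ N : ℕ in atTop, (C * 16 + δ) ≤ lam ^ ((N : ℝ) * (ε' / 2)) := by
    have : Tendsto (fun N : ℕ => lam ^ ((N : ℝ) * (ε' / 2))) atTop atTop := by
      have e : (fun N : ℕ => lam ^ ((N : ℝ) * (ε' / 2))) = fun N : ℕ => Real.exp (Real.log lam * (ε' / 2) * (N : ℝ)) := by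
        funext N
        rw [Real.rpow_def_of_pos (by linarith)]
        congr 1
        ring
      rw [e]
      exact Real.tendsto_exp_atTop.comp (tendsto_natCast_atTop_atTop.const_mul_atTop (by positivity))
    exact this.eventually_ge_atTop _
  have ev2 : ∀ᶠ N : ℕ in atTop, (N : ℝ) ^ (-ε') ≤ 1 / 2 := by
    have := (tendsto_rpow_neg_atTop hε0).comp tendsto_natCast_atTop_atTop (α := ℕ)
    exact this.eventually_le_const (by norm_num)
  have ev3 : ∀ᶠ N : ℕ in atTop, 4 ≤ lam ^ N := (tendsto_pow_atTop_atTop_of_one_lt hlam).eventually_ge_atTop 4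
  filter_upwards [ev1, ev2, ev3, eventually_ge_atTop 1] with N h1 h2 h3 h4
  refine WinAt.mono hlam.le h4 (min_le_left ε 1) ?_
  intro k hk1 hk2 x y hx hxy hy
  have hlk : lam ^ N ≤ lam ^ k := pow_le_pow_right₀ hlam.le hk1
  have hx2 : lam ^ k / 2 ≤ x := by
    refine le_trans ?_ hx
    have : lam ^ k * (1 / 2) ≤ lam ^ k * (1 - (N : ℝ) ^ (-ε')) := mul_le_mul_of_nonneg_left (by linarith) (by positivity)
    linarith
  have hy2 : y ≤ 2 * lam ^ k := by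
    refine hy.trans ?_
    have : lam ^ k * (1 + (N : ℝ) ^ (-ε')) ≤ lam ^ k * 2 := mul_le_mul_of_nonneg_left (by linarith) (by positivity)
    linarith
  have hx0 : 2 ≤ x := by linarith
  have hm0 : 1 ≤ ⌊x⌋₊ := Nat.one_le_floor_iff _ |>.2 (by linarith)
  have hb1 := hb ⌊x⌋₊ ⌊y⌋₊ hm0 (Nat.floor_mono hxy)
  have f1 : (⌊x⌋₊ : ℝ) ≤ x := Nat.floor_le (by linarith)
  have f2 : x < ⌊x⌋₊ + 1 := Nat.lt_floor_add_one x
  have f3 : (⌊y⌋₊ : ℝ) ≤ y := Nat.floor_le (by linarith)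
  have f4 : y < ⌊y⌋₊ + 1 := Nat.lt_floor_add_one y
  have hδb : ‖(δ : ℂ) * (((⌊y⌋₊ : ℂ) - ⌊x⌋₊) - ((y : ℂ) - x))‖ ≤ δ := by
    have e1 : (δ : ℂ) * (((⌊y⌋₊ : ℂ) - ⌊x⌋₊) - ((y : ℂ) - x)) = ((δ * (((⌊y⌋₊ : ℝ) - ⌊x⌋₊) - (y - x)) : ℝ) : ℂ) := by
      push_cast; ring
    rw [e1, Complex.norm_real, Real.norm_eq_abs, abs_mul, abs_of_nonneg (Nat.cast_nonneg δ : (0 : ℝ) ≤ δ)]
    refine mul_le_of_le_one_right (Nat.cast_nonneg δ) (abs_le.2 ⟨by linarith, by linarith⟩)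
  have hdec : ∑ n ∈ Finset.Ioc ⌊x⌋₊ ⌊y⌋₊, c n - δ * ((y : ℂ) - x) =
      (∑ n ∈ Finset.Ioc ⌊x⌋₊ ⌊y⌋₊, c n - δ * ((⌊y⌋₊ : ℂ) - ⌊x⌋₊)) + δ * (((⌊y⌋₊ : ℂ) - ⌊x⌋₊) - ((y : ℂ) - x)) := by ring
  rw [hdec]
  refine (norm_add_le _ _).trans ?_
  have hl0 : (0 : ℝ) < lam := by linarith
  have hY : ((⌊y⌋₊ : ℝ) + 1 / 2) ^ (θ + ε' / 2) ≤ 16 * lam ^ ((k : ℝ) * (θ + ε' / 2)) := by
    have e1 : (⌊y⌋₊ : ℝ) + 1 / 2 ≤ 4 * lam ^ (k : ℝ) := by
      rw [Real.rpow_natCast]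
      linarith
    refine (Real.rpow_le_rpow (by positivity) e1 (by linarith)).trans ?_
    rw [Real.mul_rpow (by norm_num) (by positivity), ← Real.rpow_mul hl0.le]
    refine mul_le_mul_of_nonneg_right ?_ (by positivity)
    calc (4 : ℝ) ^ (θ + ε' / 2) ≤ (4 : ℝ) ^ (2 : ℝ) := Real.rpow_le_rpow_of_exponent_le (by norm_num) (by linarith)
      _ = 16 := by norm_num
  have hk0 : (N : ℝ) * (ε' / 2) ≤ (k : ℝ) * (ε' / 2) :=
    mul_le_mul_of_nonneg_right (by exact_mod_cast hk1) (by linarith)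
  have h5 : C * 16 + δ ≤ lam ^ ((k : ℝ) * (ε' / 2)) :=
    h1.trans (Real.rpow_le_rpow_of_exponent_le hlam.le hk0)
  have h6 : 1 ≤ lam ^ ((k : ℝ) * (θ + ε' / 2)) := Real.one_le_rpow hlam.le (by positivity)
  have h7 : lam ^ ((k : ℝ) * (θ + ε')) = lam ^ ((k : ℝ) * (ε' / 2)) * lam ^ ((k : ℝ) * (θ + ε' / 2)) := by
    rw [← Real.rpow_add hl0]
    congr 1
    ring
  rw [h7]
  calc ‖∑ n ∈ Finset.Ioc ⌊x⌋₊ ⌊y⌋₊, c n - δ * ((⌊y⌋₊ : ℂ) - ⌊x⌋₊)‖ +
      ‖(δ : ℂ) * (((⌊y⌋₊ : ℂ) - ⌊x⌋₊) - ((y : ℂ) - x))‖ ≤ C * (16 * lam ^ ((k : ℝ) * (θ + ε' / 2))) + δ * 1 := by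
        rw [mul_one]
        exact add_le_add (hb1.trans (mul_le_mul_of_nonneg_left hY hC.le)) hδb
    _ ≤ C * (16 * lam ^ ((k : ℝ) * (θ + ε' / 2))) + δ * lam ^ ((k : ℝ) * (θ + ε' / 2)) := by
        have := mul_le_mul_of_nonneg_left h6 (Nat.cast_nonneg δ : (0 : ℝ) ≤ δ)
        linarith
    _ = (C * 16 + δ) * lam ^ ((k : ℝ) * (θ + ε' / 2)) := by ring
    _ ≤ _ := mul_le_mul_of_nonneg_right h5 (by positivity)

end Pool.Agent.Run7.h456.Win
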