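import Mathlib
import Pool.Agent.Run7.h456.Win.Fwd4

/-!
# From prime powers to primes, and changes of weights
-/

set_option autoImplicit false

open Complex MeasureTheory Set Filter Topology

namespace Pool.Agent.Run7.h456.Win

/-- all partial sums over subintervals of `(M0, M1]` are bounded by `B` -/
def Bd (a : ℕ → ℂ) (M0 M1 : ℕ) (B : ℝ) : Prop :=
  ∀ m0 m1 : ℕ, M0 ≤ m0 → m0 ≤ m1 → m1 ≤ M1 → ‖∑ n ∈ Finset.Ioc m0 m1, a n‖ ≤ B

theorem Bd.mono {a : ℕ → ℂ} {M0 M1 : ℕ} {B B' : ℝ} (h : Bd a M0 M1 B) (hB : B ≤ B') : Bd a M0 M1 B' :=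
  fun m0 m1 h0 h1 h2 => (h m0 m1 h0 h1 h2).trans hB

theorem Bd.congr {a b : ℕ → ℂ} {M0 M1 : ℕ} {B : ℝ} (h : Bd a M0 M1 B) (hab : ∀ n, M0 < n → n ≤ M1 → a n = b n) :
    Bd b M0 M1 B := by
  intro m0 m1 h0 h1 h2
  have e : ∑ n ∈ Finset.Ioc m0 m1, b n = ∑ n ∈ Finset.Ioc m0 m1, a n := by
    refine Finset.sum_congr rfl fun n hn => ?_
    rw [Finset.mem_Ioc] at hn
    exact (hab n (by omega) (by omega)).symm
  rw [e]
  exact h m0 m1 h0 h1 h2

theorem Bd.add {a b : ℕ → ℂ} {M0 M1 : ℕ} {B B' : ℝ} (h : Bd a M0 M1 B) (h' : Bd b M0 M1 B') :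
    Bd (fun n => a n + b n) M0 M1 (B + B') := by
  intro m0 m1 h0 h1 h2
  rw [Finset.sum_add_distrib]
  exact (norm_add_le _ _).trans (add_le_add (h m0 m1 h0 h1 h2) (h' m0 m1 h0 h1 h2))

/-- real end points -/
theorem bd_of_real {a : ℕ → ℂ} {X0 X1 B : ℝ} (h0 : 0 ≤ X0) (h1 : X0 ≤ X1)
    (h : ∀ x y : ℝ, X0 ≤ x → x ≤ y → y ≤ X1 → ‖∑ n ∈ Finset.Ioc ⌊x⌋₊ ⌊y⌋₊, a n‖ ≤ B) :
    Bd a ⌊X0⌋₊ ⌊X1⌋₊ B := by
  intro m0 m1 h2 h3 h4
  have hX1 : (⌊X1⌋₊ : ℝ) ≤ X1 := Nat.floor_le (h0.trans h1)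
  have hm0X1 : (m0 : ℝ) ≤ X1 := le_trans (by exact_mod_cast h3.trans h4) hX1
  have hm1X1 : (m1 : ℝ) ≤ X1 := le_trans (by exact_mod_cast h4) hX1
  have hfl : ∀ m : ℕ, ⌊X0⌋₊ ≤ m → ⌊max X0 m⌋₊ = m := by
    intro m hm
    rcases le_or_gt X0 m with h | h
    · rw [max_eq_right h, Nat.floor_natCast]
    · rw [max_eq_left h.le]
      have : m ≤ ⌊X0⌋₊ := Nat.le_floor h.le
      omega
  have e0 := hfl m0 h2
  have e1 := hfl m1 (h2.trans h3)
  have := h (max X0 m0) (max X0 m1) (le_max_left _ _) (max_le_max le_rfl (by exact_mod_cast h3)) (max_le h1 hm1X1)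
  rwa [e0, e1] at this

theorem real_of_bd {a : ℕ → ℂ} {X0 X1 B : ℝ} (h : Bd a ⌊X0⌋₊ ⌊X1⌋₊ B) :
    ∀ x y : ℝ, X0 ≤ x → x ≤ y → y ≤ X1 → ‖∑ n ∈ Finset.Ioc ⌊x⌋₊ ⌊y⌋₊, a n‖ ≤ B :=
  fun _ _ hx hxy hy => h _ _ (Nat.floor_mono hx) (Nat.floor_mono hxy) (Nat.floor_mono hy)

/-- Abel summation with a monotone weight. -/
theorem abel_mono {a : ℕ → ℂ} {w : ℕ → ℝ} {m0 : ℕ} {B : ℝ} (m : ℕ) (hm : m0 < m)
    (ha : ∀ m' : ℕ, m0 ≤ m' → m' ≤ m → ‖∑ n ∈ Finset.Ioc m0 m', a n‖ ≤ B)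
    (hw : ∀ n : ℕ, m0 < n → n < m → w n ≤ w (n + 1)) :
    ‖∑ n ∈ Finset.Ioc m0 m, (w n : ℂ) * a n - (w m : ℂ) * ∑ n ∈ Finset.Ioc m0 m, a n‖ ≤ B * (w m - w (m0 + 1)) := by
  induction m, hm using Nat.le_induction with
  | base =>
    have e : Finset.Ioc m0 (m0 + 1) = {m0 + 1} := by
      ext n
      rw [Finset.mem_Ioc, Finset.mem_singleton]
      omega
    rw [Nat.succ_eq_add_one, e]
    simp
  | succ m hm ih =>
    have ih' := ih (fun m' h1 h2 => ha m' h1 (by omega)) fun n h1 h2 => hw n h1 (by omega)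
    have hmem : Finset.Ioc m0 (m + 1) = insert (m + 1) (Finset.Ioc m0 m) := by
      ext n
      rw [Finset.mem_insert, Finset.mem_Ioc, Finset.mem_Ioc]
      omega
    have hnot : m + 1 ∉ Finset.Ioc m0 m := by
      rw [Finset.mem_Ioc]
      omega
    rw [hmem, Finset.sum_insert hnot, Finset.sum_insert hnot]
    have e : (w (m + 1) : ℂ) * a (m + 1) + ∑ n ∈ Finset.Ioc m0 m, (w n : ℂ) * a n -
        (w (m + 1) : ℂ) * (a (m + 1) + ∑ n ∈ Finset.Ioc m0 m, a n) =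
        (∑ n ∈ Finset.Ioc m0 m, (w n : ℂ) * a n - (w m : ℂ) * ∑ n ∈ Finset.Ioc m0 m, a n) -
          ((w (m + 1) - w m : ℝ) : ℂ) * ∑ n ∈ Finset.Ioc m0 m, a n := by
      push_cast; ring
    rw [e]
    refine (norm_sub_le _ _).trans ?_
    have h1 := hw m (by omega) (by omega)
    have h2 := ha m (by omega) (by omega)
    have h3 : ‖((w (m + 1) - w m : ℝ) : ℂ) * ∑ n ∈ Finset.Ioc m0 m, a n‖ ≤ (w (m + 1) - w m) * B := by
      rw [norm_mul, Complex.norm_real, Real.norm_eq_abs, abs_of_nonneg (by linarith)]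
      exact mul_le_mul_of_nonneg_left h2 (by linarith)
    linarith

theorem Bd.weight {a : ℕ → ℂ} {M0 M1 : ℕ} {B W : ℝ} (h : Bd a M0 M1 B) (hB : 0 ≤ B) {w : ℕ → ℝ}
    (hw : (∀ n : ℕ, M0 < n → n < M1 → w n ≤ w (n + 1)) ∨ (∀ n : ℕ, M0 < n → n < M1 → w (n + 1) ≤ w n))
    (hw0 : ∀ n : ℕ, M0 < n → n ≤ M1 → 0 ≤ w n ∧ w n ≤ W) (hW : 0 ≤ W) :
    Bd (fun n => (w n : ℂ) * a n) M0 M1 (2 * W * B) := by
  intro m0 m1 h0 h1 h2
  rcases eq_or_lt_of_le h1 with rfl | h1'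
  · simp
    positivity
  have hS := h m0 m1 h0 h1 h2
  obtain ⟨p1, p2⟩ := hw0 m1 (by omega) h2
  obtain ⟨p3, p4⟩ := hw0 (m0 + 1) (by omega) (by omega)
  have hmain : ‖∑ n ∈ Finset.Ioc m0 m1, (w n : ℂ) * a n - (w m1 : ℂ) * ∑ n ∈ Finset.Ioc m0 m1, a n‖ ≤ B * W := by
    rcases hw with hw | hw
    · refine (abel_mono m1 h1' (fun m' h3 h4 => h m0 m' h0 h3 (by omega)) fun n h3 h4 => hw n (by omega) (by omega)).trans ?_
      exact mul_le_mul_of_nonneg_left (by linarith) hB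
    · have := abel_mono (w := fun n => -w n) m1 h1' (fun m' h3 h4 => h m0 m' h0 h3 (by omega)) fun n h3 h4 =>
        neg_le_neg (hw n (by omega) (by omega))
      have e : ∑ n ∈ Finset.Ioc m0 m1, ((-w n : ℝ) : ℂ) * a n - ((-w m1 : ℝ) : ℂ) * ∑ n ∈ Finset.Ioc m0 m1, a n =
          -(∑ n ∈ Finset.Ioc m0 m1, (w n : ℂ) * a n - (w m1 : ℂ) * ∑ n ∈ Finset.Ioc m0 m1, a n) := by
        have : ∑ n ∈ Finset.Ioc m0 m1, ((-w n : ℝ) : ℂ) * a n = -∑ n ∈ Finset.Ioc m0 m1, (w n : ℂ) * a n := by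
          rw [← Finset.sum_neg_distrib]
          refine Finset.sum_congr rfl fun n _ => ?_
          push_cast; ring
        rw [this]
        push_cast; ring
      rw [e, norm_neg] at this
      refine this.trans (mul_le_mul_of_nonneg_left (by linarith) hB)
  have e : ∑ n ∈ Finset.Ioc m0 m1, (w n : ℂ) * a n =
      (∑ n ∈ Finset.Ioc m0 m1, (w n : ℂ) * a n - (w m1 : ℂ) * ∑ n ∈ Finset.Ioc m0 m1, a n) +
        (w m1 : ℂ) * ∑ n ∈ Finset.Ioc m0 m1, a n := by ring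
  rw [e]
  refine (norm_add_le _ _).trans ?_
  have h5 : ‖(w m1 : ℂ) * ∑ n ∈ Finset.Ioc m0 m1, a n‖ ≤ W * B := by
    rw [norm_mul, Complex.norm_real, Real.norm_eq_abs, abs_of_nonneg p1]
    exact mul_le_mul p2 hS (norm_nonneg _) hW
  linarith

/-- The contribution of the prime powers. -/
theorem bd_pp {c : ℕ → ℂ} {K : ℝ} (hc : ∀ n, ‖c n‖ ≤ K * ArithmeticFunction.vonMangoldt n) (hK : 0 ≤ K) (M0 M1 : ℕ)
    (hM : 1 ≤ M1) : Bd (fun n => if n.Prime then 0 else c n) M0 M1 (K * (2 * Real.sqrt M1 * Real.log M1)) := by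
  classical
  intro m0 m1 h0 h1 h2
  have hM' : (1 : ℝ) ≤ M1 := by exact_mod_cast hM
  have h3 := Chebyshev.psi_sub_theta_le hM'
  rw [Chebyshev.psi_sub_theta_eq_sum_not_prime] at h3
  refine (norm_sum_le _ _).trans ?_
  calc ∑ n ∈ Finset.Ioc m0 m1, ‖(if n.Prime then 0 else c n)‖ ≤
      ∑ n ∈ (Finset.Ioc m0 m1).filter (fun n => ¬ n.Prime), K * ArithmeticFunction.vonMangoldt n := by
        rw [Finset.sum_filter]
        refine Finset.sum_le_sum fun n _ => ?_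
        by_cases hp : n.Prime
        · simp [hp]
        · simp only [hp, if_false, not_false_eq_true, if_true]
          exact hc n
    _ ≤ K * (2 * Real.sqrt M1 * Real.log M1) := by
      rw [← Finset.mul_sum]
      refine mul_le_mul_of_nonneg_left (le_trans ?_ h3) hK
      refine Finset.sum_le_sum_of_subset_of_nonneg ?_ fun n _ _ => ArithmeticFunction.vonMangoldt_nonneg
      intro n hn
      simp only [Finset.mem_filter, Finset.mem_Ioc, Nat.floor_natCast] at hn ⊢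
      exact ⟨⟨by omega, by omega⟩, hn.2⟩

theorem lin_le_exp {lam τ : ℝ} (hlam : 1 < lam) (hτ : 0 < τ) (A : ℝ) :
    ∀ᶠ N : ℕ in atTop, ∀ k : ℕ, N ≤ k → A * (1 + k * Real.log lam) ≤ lam ^ ((k : ℝ) * τ) := by
  have hL : 0 < Real.log lam := Real.log_pos hlam
  have h1 : Tendsto (fun x : ℝ => Real.exp (Real.log lam * τ * x) / x ^ (2 : ℕ)) atTop atTop := by
    have h2 := Real.tendsto_exp_div_pow_atTop 2
    have h3 := h2.comp (tendsto_id.const_mul_atTop (show 0 < Real.log lam * τ by positivity))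
    have h4 := h3.const_mul_atTop (show 0 < (Real.log lam * τ) ^ 2 by positivity)
    refine h4.congr' ?_
    filter_upwards [eventually_gt_atTop 0] with x hx
    simp only [Function.comp_apply, id]
    field_simp
  have h5 := (h1.comp tendsto_natCast_atTop_atTop (α := ℕ)).eventually_ge_atTop (|A| * (1 + Real.log lam))
  rw [eventually_atTop] at h5
  obtain ⟨N0, hN0⟩ := h5
  filter_upwards [eventually_ge_atTop (max N0 1)] with N hN k hk
  have hk1 : 1 ≤ k := le_trans (le_max_right N0 1) (hN.trans hk)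
  have hk1' : (1 : ℝ) ≤ k := by exact_mod_cast hk1
  have h6 := hN0 k (le_trans (le_max_left N0 1) (hN.trans hk))
  simp only [Function.comp_apply] at h6
  rw [le_div_iff₀ (by positivity)] at h6
  have e : lam ^ ((k : ℝ) * τ) = Real.exp (Real.log lam * τ * k) := by
    rw [Real.rpow_def_of_pos (by linarith)]
    congr 1
    ring
  rw [e]
  refine le_trans ?_ h6
  have h7 : 1 + k * Real.log lam ≤ (1 + Real.log lam) * (k : ℝ) ^ 2 := by
    have q1 : (k : ℝ) ≤ (k : ℝ) ^ 2 := by nlinarith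
    have q2 := mul_le_mul_of_nonneg_right q1 hL.le
    have q3 : (1 : ℝ) ≤ (k : ℝ) ^ 2 := by nlinarith
    linarith
  calc A * (1 + k * Real.log lam) ≤ |A| * (1 + k * Real.log lam) :=
        mul_le_mul_of_nonneg_right (le_abs_self A) (by positivity)
    _ ≤ |A| * ((1 + Real.log lam) * (k : ℝ) ^ 2) := mul_le_mul_of_nonneg_left h7 (abs_nonneg A)
    _ = _ := by ring

/-- elementary facts about the window -/
theorem win_facts {lam t : ℝ} (hlam : 1 < lam) {k : ℕ} (ht0 : 0 ≤ t) (ht : t ≤ 1 / 2) (hk : 16 ≤ lam ^ k) :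
    0 ≤ lam ^ k * (1 - t) ∧ lam ^ k * (1 - t) ≤ lam ^ k * (1 + t) ∧
      lam ^ k / 4 ≤ (⌊lam ^ k * (1 - t)⌋₊ : ℝ) ∧ (4 : ℝ) ≤ ⌊lam ^ k * (1 - t)⌋₊ ∧
      (⌊lam ^ k * (1 + t)⌋₊ : ℝ) ≤ 2 * lam ^ k ∧ 1 ≤ ⌊lam ^ k * (1 + t)⌋₊ ∧
      Real.sqrt ⌊lam ^ k * (1 + t)⌋₊ ≤ 2 * lam ^ ((k : ℝ) * (1 / 2)) ∧
      Real.log ⌊lam ^ k * (1 + t)⌋₊ ≤ 1 + k * Real.log lam := by
  have hl : 0 < lam := by linarith
  have h1 : lam ^ k * (1 / 2) ≤ lam ^ k * (1 - t) := mul_le_mul_of_nonneg_left (by linarith) (by positivity)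
  have h2 : lam ^ k * 1 ≤ lam ^ k * (1 + t) := mul_le_mul_of_nonneg_left (by linarith) (by positivity)
  have h3 : lam ^ k * (1 + t) ≤ lam ^ k * 2 := mul_le_mul_of_nonneg_left (by linarith) (by positivity)
  have h4 := Nat.lt_floor_add_one (lam ^ k * (1 - t))
  have h5 : (⌊lam ^ k * (1 + t)⌋₊ : ℝ) ≤ lam ^ k * (1 + t) := Nat.floor_le (by linarith)
  have h6 : (⌊lam ^ k * (1 + t)⌋₊ : ℝ) ≤ 2 * lam ^ k := by linarith
  have h7 : 1 ≤ ⌊lam ^ k * (1 + t)⌋₊ := (Nat.one_le_floor_iff _).2 (by linarith)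
  have h7' : (1 : ℝ) ≤ ⌊lam ^ k * (1 + t)⌋₊ := by exact_mod_cast h7
  refine ⟨by linarith, mul_le_mul_of_nonneg_left (by linarith) (by positivity), by linarith, by linarith, h6, h7, ?_, ?_⟩
  · rw [Real.sqrt_le_left (by positivity), mul_pow, ← Real.rpow_natCast (lam ^ ((k : ℝ) * (1 / 2))),
      ← Real.rpow_mul hl.le]
    have : (k : ℝ) * (1 / 2) * ((2 : ℕ) : ℝ) = k := by push_cast; ring
    rw [this, Real.rpow_natCast]
    linarith
  · calc Real.log ⌊lam ^ k * (1 + t)⌋₊ ≤ Real.log (2 * lam ^ k) := Real.log_le_log (by linarith) h6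
      _ = Real.log 2 + k * Real.log lam := by rw [Real.log_mul (by norm_num) (by positivity), Real.log_pow]
      _ ≤ _ := by
        have := Real.log_two_lt_d9
        linarith

theorem sum_sub_const (c : ℕ → ℂ) (δ : ℂ) {m0 m1 : ℕ} (h : m0 ≤ m1) :
    ∑ n ∈ Finset.Ioc m0 m1, (c n - δ) = ∑ n ∈ Finset.Ioc m0 m1, c n - δ * ((m1 : ℂ) - m0) := by
  rw [Finset.sum_sub_distrib, Finset.sum_const, Nat.card_Ioc, nsmul_eq_mul, Nat.cast_sub h]
  ring

theorem floor_diff {δ : ℕ} {x y : ℝ} (hx : 0 ≤ x) (hxy : x ≤ y) :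
    ‖(δ : ℂ) * (((⌊y⌋₊ : ℂ) - ⌊x⌋₊) - ((y : ℂ) - x))‖ ≤ δ := by
  have f1 : (⌊x⌋₊ : ℝ) ≤ x := Nat.floor_le hx
  have f2 : x < ⌊x⌋₊ + 1 := Nat.lt_floor_add_one x
  have f3 : (⌊y⌋₊ : ℝ) ≤ y := Nat.floor_le (hx.trans hxy)
  have f4 : y < ⌊y⌋₊ + 1 := Nat.lt_floor_add_one y
  have e1 : (δ : ℂ) * (((⌊y⌋₊ : ℂ) - ⌊x⌋₊) - ((y : ℂ) - x)) = ((δ * (((⌊y⌋₊ : ℝ) - ⌊x⌋₊) - (y - x)) : ℝ) : ℂ) := by
    push_cast; ring
  rw [e1, Complex.norm_real, Real.norm_eq_abs, abs_mul, abs_of_nonneg (Nat.cast_nonneg δ : (0 : ℝ) ≤ δ)]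
  exact mul_le_of_le_one_right (Nat.cast_nonneg δ) (abs_le.2 ⟨by linarith, by linarith⟩)

section conv

variable {δ : ℕ} {c a : ℕ → ℂ} {K lam θ ν ε : ℝ} {P0 : ℕ}

theorem toA (hc : ∀ n, ‖c n‖ ≤ K * ArithmeticFunction.vonMangoldt n) (hK : 0 ≤ K) (hlam : 1 < lam) (hθ : 1 / 2 ≤ θ)
    (hν : 0 ≤ ν) (hε : 0 < ε)
    (ha : ∀ n : ℕ, P0 < n → a n = (((n : ℝ) ^ ν / Real.log n : ℝ) : ℂ) * ((if n.Prime then c n else 0) - δ)) :
    ∀ᶠ N : ℕ in atTop, WinAt δ c lam θ (ε / 2) N → WinAt 0 a lam (θ + ν) ε N := by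
  set A : ℝ := 4 * 2 ^ ν * (1 + δ + 4 * K) + 1 with hA
  have hδ0 : (0 : ℝ) ≤ δ := Nat.cast_nonneg _
  have hA0 : 1 ≤ A := by
    have : 0 ≤ 4 * (2 : ℝ) ^ ν * (1 + δ + 4 * K) := by positivity
    linarith
  have hL : 0 < Real.log lam := Real.log_pos hlam
  have ev1 := lin_le_exp hlam (show 0 < ε / 2 by linarith) A
  have ev2 : ∀ᶠ N : ℕ in atTop, (N : ℝ) ^ (-ε) ≤ 1 / 2 := by
    have := (tendsto_rpow_neg_atTop hε).comp tendsto_natCast_atTop_atTop (α := ℕ)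
    exact this.eventually_le_const (by norm_num)
  have ev3 : ∀ᶠ N : ℕ in atTop, (16 + 4 * P0 : ℝ) ≤ lam ^ N := (tendsto_pow_atTop_atTop_of_one_lt hlam).eventually_ge_atTop _
  filter_upwards [ev1, ev2, ev3, eventually_ge_atTop 1] with N h1 h2 h3 h4 hwin
  have hN' : (1 : ℝ) ≤ N := by exact_mod_cast h4
  have hl : 0 < lam := by linarith
  intro k hk1 hk2
  have hlk : lam ^ N ≤ lam ^ k := pow_le_pow_right₀ hlam.le hk1
  have hk16 : 16 ≤ lam ^ k := by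
    have : (0 : ℝ) ≤ 4 * P0 := by positivity
    linarith
  obtain ⟨g1, g2, g3, g4, g5, g6, g7, g8⟩ := win_facts hlam (k := k) (t := (N : ℝ) ^ (-ε)) (by positivity) h2 hk16
  obtain ⟨M0, hM0⟩ : ∃ M0 : ℕ, M0 = ⌊lam ^ k * (1 - (N : ℝ) ^ (-ε))⌋₊ := ⟨_, rfl⟩
  obtain ⟨M1, hM1⟩ : ∃ M1 : ℕ, M1 = ⌊lam ^ k * (1 + (N : ℝ) ^ (-ε))⌋₊ := ⟨_, rfl⟩
  have e1 : (N : ℝ) ^ (1 - ε) ≤ (N : ℝ) ^ (1 - ε / 2) := Real.rpow_le_rpow_of_exponent_le hN' (by linarith)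
  have e2 : (N : ℝ) ^ (-ε) ≤ (N : ℝ) ^ (-(ε / 2)) := Real.rpow_le_rpow_of_exponent_le hN' (by linarith)
  -- step 1
  have s1 : Bd (fun n => c n - δ) M0 M1 (lam ^ ((k : ℝ) * (θ + ε / 2)) + δ) := by
    rw [hM0, hM1]
    refine bd_of_real g1 g2 fun x y hx hxy hy => ?_
    have := hwin k hk1 (by linarith) x y (le_trans (mul_le_mul_of_nonneg_left (by linarith) (by positivity)) hx) hxy
      (hy.trans (mul_le_mul_of_nonneg_left (by linarith) (by positivity)))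
    rw [sum_sub_const c δ (Nat.floor_mono hxy)]
    have e : ∑ n ∈ Finset.Ioc ⌊x⌋₊ ⌊y⌋₊, c n - δ * ((⌊y⌋₊ : ℂ) - ⌊x⌋₊) =
        (∑ n ∈ Finset.Ioc ⌊x⌋₊ ⌊y⌋₊, c n - δ * ((y : ℂ) - x)) - δ * (((⌊y⌋₊ : ℂ) - ⌊x⌋₊) - ((y : ℂ) - x)) := by ring
    rw [e]
    exact (norm_sub_le _ _).trans (add_le_add this (floor_diff (g1.trans hx) hxy))
  rw [← hM0] at g3 g4
  rw [← hM1] at g5 g6 g7 g8
  -- step 2
  have s2 := s1.add (bd_pp (c := fun n => -c n) (K := K) (fun n => by rw [norm_neg]; exact hc n) hK M0 M1 g6)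
  obtain ⟨B1, hB1⟩ : ∃ B1 : ℝ, B1 = lam ^ ((k : ℝ) * (θ + ε / 2)) + δ + K * (2 * Real.sqrt M1 * Real.log M1) := ⟨_, rfl⟩
  rw [← hB1] at s2
  have hlogM : 0 ≤ Real.log M1 := Real.log_natCast_nonneg _
  have hB10 : 0 ≤ B1 := by
    rw [hB1]
    positivity
  have s3 : Bd (fun n => (if n.Prime then c n else 0) - δ) M0 M1 B1 := by
    refine s2.congr fun n _ _ => ?_
    split_ifs <;> ring
  have hn4 : ∀ n : ℕ, M0 < n → (4 : ℝ) ≤ n := fun n hn => g4.trans (by exact_mod_cast hn.le)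
  -- step 3
  have s4 := s3.weight (W := (2 * lam ^ k) ^ ν) hB10 (w := fun n => (n : ℝ) ^ ν)
    (Or.inl fun n _ _ => Real.rpow_le_rpow (Nat.cast_nonneg _) (by push_cast; linarith) hν)
    (fun n _ hn => ⟨by positivity, Real.rpow_le_rpow (Nat.cast_nonneg _) (le_trans (by exact_mod_cast hn) g5) hν⟩)
    (by positivity)
  have s5 := s4.weight (W := 1) (by positivity) (w := fun n => 1 / Real.log n)
    (Or.inr fun n hn _ => by
      have := hn4 n hn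
      exact one_div_le_one_div_of_le (Real.log_pos (by linarith)) (Real.log_le_log (by linarith) (by push_cast; linarith)))
    (fun n hn _ => by
      have := hn4 n hn
      have h7 : 1 ≤ Real.log n := by
        rw [Real.le_log_iff_exp_le (by linarith)]
        have := Real.exp_one_lt_d9
        linarith
      exact ⟨by positivity, by rw [div_le_one (by linarith)]; exact h7⟩)
    zero_le_one
  have s6 : Bd a M0 M1 (2 * 1 * (2 * (2 * lam ^ k) ^ ν * B1)) := by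
    refine s5.congr fun n hn _ => ?_
    have hP : P0 < n := by
      have h8 : (P0 : ℝ) < n := by
        have h9 : (M0 : ℝ) < n := by exact_mod_cast hn
        have : (P0 : ℝ) ≤ lam ^ k / 4 := by linarith
        linarith
      exact_mod_cast h8
    rw [ha n hP]
    push_cast
    ring
  -- the bound
  have hb : 2 * 1 * (2 * (2 * lam ^ k) ^ ν * B1) ≤ lam ^ ((k : ℝ) * (θ + ν + ε)) := by
    obtain ⟨E, hE⟩ : ∃ E : ℝ, E = lam ^ ((k : ℝ) * (ε / 2)) := ⟨_, rfl⟩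
    have hA1 := h1 k hk1
    rw [← hE] at hA1
    have hk0 : 0 ≤ (k : ℝ) * Real.log lam := by positivity
    have hE1 : 1 + k * Real.log lam ≤ E := by nlinarith
    have hE2 : 1 ≤ E := by linarith
    have hAE : A ≤ E := by nlinarith
    obtain ⟨G, hG⟩ : ∃ G : ℝ, G = lam ^ ((k : ℝ) * θ) := ⟨_, rfl⟩
    have hG1 : 1 ≤ G := by
      rw [hG]
      exact Real.one_le_rpow hlam.le (by positivity)
    have hsq : lam ^ ((k : ℝ) * (1 / 2)) ≤ G := by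
      rw [hG]
      exact Real.rpow_le_rpow_of_exponent_le hlam.le (mul_le_mul_of_nonneg_left hθ (Nat.cast_nonneg _))
    have hB1le : B1 ≤ (1 + δ + 4 * K) * (G * E) := by
      rw [hB1]
      have f1 : lam ^ ((k : ℝ) * (θ + ε / 2)) = G * E := by
        rw [hG, hE, ← Real.rpow_add hl]
        congr 1
        ring
      have hGE : 1 ≤ G * E := by nlinarith
      have f2 : (δ : ℝ) ≤ δ * (G * E) := le_mul_of_one_le_right hδ0 hGE
      have f3 : K * (2 * Real.sqrt M1 * Real.log M1) ≤ K * (2 * (2 * G) * E) := by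
        refine mul_le_mul_of_nonneg_left ?_ hK
        refine mul_le_mul ?_ (g8.trans hE1) hlogM (by positivity)
        linarith
      rw [f1]
      nlinarith
    have f4 : (2 * lam ^ k) ^ ν = 2 ^ ν * lam ^ ((k : ℝ) * ν) := by
      rw [Real.mul_rpow (by norm_num) (by positivity), ← Real.rpow_natCast lam k, ← Real.rpow_mul hl.le]
    have f5 : lam ^ ((k : ℝ) * (θ + ν + ε)) = lam ^ ((k : ℝ) * ν) * (G * E) * E := by
      rw [hG, hE, ← Real.rpow_add hl, ← Real.rpow_add hl, ← Real.rpow_add hl]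
      congr 1
      ring
    rw [f4, f5]
    calc 2 * 1 * (2 * (2 ^ ν * lam ^ ((k : ℝ) * ν)) * B1) ≤
        2 * 1 * (2 * (2 ^ ν * lam ^ ((k : ℝ) * ν)) * ((1 + δ + 4 * K) * (G * E))) := by gcongr
      _ = lam ^ ((k : ℝ) * ν) * (G * E) * (4 * 2 ^ ν * (1 + δ + 4 * K)) := by ring
      _ ≤ lam ^ ((k : ℝ) * ν) * (G * E) * E := by
        refine mul_le_mul_of_nonneg_left ?_ (by positivity)
        linarith
  intro x y hx hxy hy
  simp only [Nat.cast_zero, zero_mul, sub_zero]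
  refine le_trans ?_ hb
  rw [hM0, hM1] at s6
  exact real_of_bd s6 x y hx hxy hy

theorem ofA (hc : ∀ n, ‖c n‖ ≤ K * ArithmeticFunction.vonMangoldt n) (hK : 0 ≤ K) (hlam : 1 < lam) (hθ : 1 / 2 ≤ θ)
    (hν : 0 ≤ ν) (hε : 0 < ε)
    (ha : ∀ n : ℕ, P0 < n → a n = (((n : ℝ) ^ ν / Real.log n : ℝ) : ℂ) * ((if n.Prime then c n else 0) - δ)) :
    ∀ᶠ N : ℕ in atTop, WinAt 0 a lam (θ + ν) (ε / 2) N → WinAt δ c lam θ ε N := by
  set A : ℝ := 4 * 4 ^ ν + 4 * K + δ + 1 with hA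
  have hδ0 : (0 : ℝ) ≤ δ := Nat.cast_nonneg _
  have hA0 : 1 ≤ A := by
    have : 0 ≤ 4 * (4 : ℝ) ^ ν := by positivity
    linarith
  have hL : 0 < Real.log lam := Real.log_pos hlam
  have ev1 := lin_le_exp hlam (show 0 < ε / 2 by linarith) A
  have ev2 : ∀ᶠ N : ℕ in atTop, (N : ℝ) ^ (-ε) ≤ 1 / 2 := by
    have := (tendsto_rpow_neg_atTop hε).comp tendsto_natCast_atTop_atTop (α := ℕ)
    exact this.eventually_le_const (by norm_num)
  have ev3 : ∀ᶠ N : ℕ in atTop, (16 + 4 * P0 : ℝ) ≤ lam ^ N := (tendsto_pow_atTop_atTop_of_one_lt hlam).eventually_ge_atTop _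
  filter_upwards [ev1, ev2, ev3, eventually_ge_atTop 1] with N h1 h2 h3 h4 hwin
  have hN' : (1 : ℝ) ≤ N := by exact_mod_cast h4
  have hl : 0 < lam := by linarith
  intro k hk1 hk2
  have hlk : lam ^ N ≤ lam ^ k := pow_le_pow_right₀ hlam.le hk1
  have hk16 : 16 ≤ lam ^ k := by
    have : (0 : ℝ) ≤ 4 * P0 := by positivity
    linarith
  obtain ⟨g1, g2, g3, g4, g5, g6, g7, g8⟩ := win_facts hlam (k := k) (t := (N : ℝ) ^ (-ε)) (by positivity) h2 hk16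
  obtain ⟨M0, hM0⟩ : ∃ M0 : ℕ, M0 = ⌊lam ^ k * (1 - (N : ℝ) ^ (-ε))⌋₊ := ⟨_, rfl⟩
  obtain ⟨M1, hM1⟩ : ∃ M1 : ℕ, M1 = ⌊lam ^ k * (1 + (N : ℝ) ^ (-ε))⌋₊ := ⟨_, rfl⟩
  have e1 : (N : ℝ) ^ (1 - ε) ≤ (N : ℝ) ^ (1 - ε / 2) := Real.rpow_le_rpow_of_exponent_le hN' (by linarith)
  have e2 : (N : ℝ) ^ (-ε) ≤ (N : ℝ) ^ (-(ε / 2)) := Real.rpow_le_rpow_of_exponent_le hN' (by linarith)
  have s1 : Bd a M0 M1 (lam ^ ((k : ℝ) * (θ + ν + ε / 2))) := by
    rw [hM0, hM1]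
    refine bd_of_real g1 g2 fun x y hx hxy hy => ?_
    have := hwin k hk1 (by linarith) x y (le_trans (mul_le_mul_of_nonneg_left (by linarith) (by positivity)) hx) hxy
      (hy.trans (mul_le_mul_of_nonneg_left (by linarith) (by positivity)))
    simpa using this
  rw [← hM0] at g3 g4
  rw [← hM1] at g5 g6 g7 g8
  have hlogM : 0 ≤ Real.log M1 := Real.log_natCast_nonneg _
  have hn4 : ∀ n : ℕ, M0 < n → (4 : ℝ) ≤ n := fun n hn => g4.trans (by exact_mod_cast hn.le)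
  have hkL : 0 ≤ (k : ℝ) * Real.log lam := by positivity
  have s2 := s1.weight (W := 1 + k * Real.log lam) (by positivity) (w := fun n => Real.log n)
    (Or.inl fun n hn _ => by
      have := hn4 n hn
      exact Real.log_le_log (by linarith) (by push_cast; linarith))
    (fun n hn hn1 => by
      have := hn4 n hn
      refine ⟨Real.log_nonneg (by linarith), le_trans (Real.log_le_log (by linarith) ?_) g8⟩
      exact_mod_cast hn1)
    (by linarith)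
  have s3 := s2.weight (W := 4 ^ ν * lam ^ ((k : ℝ) * (-ν))) (by positivity) (w := fun n => (n : ℝ) ^ (-ν))
    (Or.inr fun n hn _ => by
      have := hn4 n hn
      exact Real.rpow_le_rpow_of_nonpos (by linarith) (by push_cast; linarith) (by linarith))
    (fun n hn hn1 => by
      have := hn4 n hn
      refine ⟨by positivity, ?_⟩
      have h9 : (M0 : ℝ) ≤ n := by exact_mod_cast hn.le
      calc (n : ℝ) ^ (-ν) ≤ (lam ^ k / 4) ^ (-ν) :=
            Real.rpow_le_rpow_of_nonpos (by positivity) (by linarith) (by linarith)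
        _ = _ := by
          rw [Real.div_rpow (by positivity) (by norm_num), ← Real.rpow_natCast lam k, ← Real.rpow_mul hl.le,
            Real.rpow_neg (by norm_num : (0 : ℝ) ≤ 4), div_inv_eq_mul, mul_comm])
    (by positivity)
  obtain ⟨B2, hB2⟩ : ∃ B2 : ℝ, B2 = 2 * (4 ^ ν * lam ^ ((k : ℝ) * (-ν))) *
      (2 * (1 + k * Real.log lam) * lam ^ ((k : ℝ) * (θ + ν + ε / 2))) := ⟨_, rfl⟩
  rw [← hB2] at s3
  have s4 : Bd (fun n => (if n.Prime then c n else 0) - δ) M0 M1 B2 := by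
    refine s3.congr fun n hn _ => ?_
    have hn4' := hn4 n hn
    have hP : P0 < n := by
      have h8 : (P0 : ℝ) < n := by
        have h9 : (M0 : ℝ) < n := by exact_mod_cast hn
        have : (P0 : ℝ) ≤ lam ^ k / 4 := by linarith
        linarith
      exact_mod_cast h8
    rw [ha n hP, ← mul_assoc, ← mul_assoc, ← Complex.ofReal_mul, ← Complex.ofReal_mul]
    have hlog : Real.log n ≠ 0 := (Real.log_pos (by linarith)).ne'
    have e : (n : ℝ) ^ (-ν) * Real.log n * ((n : ℝ) ^ ν / Real.log n) = 1 := by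
      rw [Real.rpow_neg (Nat.cast_nonneg _)]
      have : (n : ℝ) ^ ν ≠ 0 := (Real.rpow_pos_of_pos (by linarith) _).ne'
      field_simp
    rw [e, Complex.ofReal_one, one_mul]
  have s5 := s4.add (bd_pp (c := c) (K := K) hc hK M0 M1 g6)
  have s6 : Bd (fun n => c n - δ) M0 M1 (B2 + K * (2 * Real.sqrt M1 * Real.log M1)) := by
    refine s5.congr fun n _ _ => ?_
    split_ifs <;> ring
  have hb : B2 + K * (2 * Real.sqrt M1 * Real.log M1) + δ ≤ lam ^ ((k : ℝ) * (θ + ε)) := by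
    obtain ⟨E, hE⟩ : ∃ E : ℝ, E = lam ^ ((k : ℝ) * (ε / 2)) := ⟨_, rfl⟩
    have hA1 := h1 k hk1
    rw [← hE] at hA1
    have hE2 : 1 ≤ E := by nlinarith
    obtain ⟨G, hG⟩ : ∃ G : ℝ, G = lam ^ ((k : ℝ) * θ) := ⟨_, rfl⟩
    have hG1 : 1 ≤ G := by
      rw [hG]
      exact Real.one_le_rpow hlam.le (by positivity)
    have hsq : lam ^ ((k : ℝ) * (1 / 2)) ≤ G := by
      rw [hG]
      exact Real.rpow_le_rpow_of_exponent_le hlam.le (mul_le_mul_of_nonneg_left hθ (Nat.cast_nonneg _))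
    obtain ⟨u, hu⟩ : ∃ u : ℝ, u = 1 + k * Real.log lam := ⟨_, rfl⟩
    rw [← hu] at hA1 g8 hB2
    have hu1 : 1 ≤ u := by linarith
    have f1 : B2 = 4 * 4 ^ ν * u * (G * E) := by
      have : lam ^ ((k : ℝ) * (-ν)) * lam ^ ((k : ℝ) * (θ + ν + ε / 2)) = G * E := by
        rw [hG, hE, ← Real.rpow_add hl, ← Real.rpow_add hl]
        congr 1
        ring
      rw [hB2]
      linear_combination 4 * 4 ^ ν * u * this
    have f2 : K * (2 * Real.sqrt M1 * Real.log M1) ≤ 4 * K * u * (G * E) := by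
      calc K * (2 * Real.sqrt M1 * Real.log M1) ≤ K * (2 * (2 * G) * u) := by
            refine mul_le_mul_of_nonneg_left ?_ hK
            refine mul_le_mul ?_ g8 hlogM (by positivity)
            linarith
        _ = 4 * K * u * (G * 1) := by ring
        _ ≤ _ := by gcongr
    have hGE : 1 ≤ G * E := by nlinarith
    have f3 : (δ : ℝ) ≤ δ * u * (G * E) := by
      have : 1 ≤ u * (G * E) := by nlinarith
      calc (δ : ℝ) = δ * 1 := (mul_one _).symm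
        _ ≤ δ * (u * (G * E)) := mul_le_mul_of_nonneg_left this hδ0
        _ = _ := by ring
    have f4 : lam ^ ((k : ℝ) * (θ + ε)) = G * E * E := by
      rw [hG, hE, ← Real.rpow_add hl, ← Real.rpow_add hl]
      congr 1
      ring
    rw [f4]
    calc B2 + K * (2 * Real.sqrt M1 * Real.log M1) + δ ≤
        4 * 4 ^ ν * u * (G * E) + 4 * K * u * (G * E) + δ * u * (G * E) := by linarith
      _ = (G * E) * ((4 * 4 ^ ν + 4 * K + δ) * u) := by ring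
      _ ≤ (G * E) * (A * u) := by
        refine mul_le_mul_of_nonneg_left ?_ (by linarith)
        refine mul_le_mul_of_nonneg_right (by rw [hA]; linarith) (by linarith)
      _ ≤ (G * E) * E := mul_le_mul_of_nonneg_left hA1 (by linarith)
  intro x y hx hxy hy
  refine le_trans ?_ hb
  rw [hM0, hM1] at s6
  have h10 := real_of_bd s6 x y hx hxy hy
  rw [sum_sub_const c δ (Nat.floor_mono hxy), ← hM1] at h10
  have e : ∑ n ∈ Finset.Ioc ⌊x⌋₊ ⌊y⌋₊, c n - δ * ((y : ℂ) - x) =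
      (∑ n ∈ Finset.Ioc ⌊x⌋₊ ⌊y⌋₊, c n - δ * ((⌊y⌋₊ : ℂ) - ⌊x⌋₊)) + δ * (((⌊y⌋₊ : ℂ) - ⌊x⌋₊) - ((y : ℂ) - x)) := by ring
  rw [e]
  exact (norm_add_le _ _).trans (add_le_add h10 (floor_diff (g1.trans hx) hxy))

/-- **The criterion.** -/
theorem crit {F : ℂ → ℂ} (h : LD δ c F) (hF : Dens F) (hc : ∀ n, ‖c n‖ ≤ K * ArithmeticFunction.vonMangoldt n)
    (hK : 0 ≤ K) (hlam : 1 < lam) (hθ : 1 / 2 ≤ θ) (hθ1 : θ ≤ 1) (hν : 0 ≤ ν)
    (ha : ∀ n : ℕ, P0 < n → a n = (((n : ℝ) ^ ν / Real.log n : ℝ) : ℂ) * ((if n.Prime then c n else 0) - δ)) :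
    ((∀ ρ : ℂ, F ρ = 0 → ρ.re ≤ θ) ↔ ∀ ε : ℝ, 0 < ε → ∃ᶠ N : ℕ in atTop, WinAt 0 a lam (θ + ν) ε N) ∧
      ((∀ ρ : ℂ, F ρ = 0 → ρ.re ≤ θ) ↔ ∀ ε : ℝ, 0 < ε → ∀ᶠ N : ℕ in atTop, WinAt 0 a lam (θ + ν) ε N) := by
  have h1 : (∀ ρ : ℂ, F ρ = 0 → ρ.re ≤ θ) → ∀ ε : ℝ, 0 < ε → ∀ᶠ N : ℕ in atTop, WinAt 0 a lam (θ + ν) ε N := by
    intro hz ε hε
    filter_upwards [fwd h hlam hθ hθ1 hz (show 0 < ε / 2 by linarith), toA (P0 := P0) hc hK hlam hθ hν hε ha]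
      with N h1 h2
    exact h2 h1
  have h2 : (∀ ε : ℝ, 0 < ε → ∃ᶠ N : ℕ in atTop, WinAt 0 a lam (θ + ν) ε N) → ∀ ρ : ℂ, F ρ = 0 → ρ.re ≤ θ := by
    intro hw
    refine conv h hF hlam hθ fun ε hε => ?_
    have h3 := (hw (ε / 2) (by linarith)).and_eventually (ofA (P0 := P0) hc hK hlam hθ hν hε ha)
    exact h3.mono fun N hN => hN.2 hN.1
  exact ⟨⟨fun hz ε hε => (h1 hz ε hε).frequently, h2⟩, ⟨h1, fun hw => h2 fun ε hε => (hw ε hε).frequently⟩⟩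

end conv

end Pool.Agent.Run7.h456.Win
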