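import Mathlib
import Pool.Agent.Run7.h456.Win.Prime
import Pool.Agent.Run7.h456.Win.Conv1

/-!
# One short window: zeros force large sums, and the change from prime powers to primes
-/

set_option autoImplicit false

open Complex MeasureTheory Set Filter Topology

namespace Pool.Agent.Run7.h456.Win

section basic

variable {δ : ℕ} {c : ℕ → ℂ} {F : ℂ → ℂ}

theorem Win1.mono {μ μ' τ τ' X : ℝ} (hX : Real.exp 1 ≤ X) (hμ : μ ≤ μ') (hτ : τ ≤ τ') (h : Win1 δ c μ τ X) :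
    Win1 δ c μ' τ' X := by
  intro x y hx hxy hy
  have he : 1 < Real.exp 1 := by simp
  have hX1 : 1 ≤ X := by linarith
  have hlog : 1 ≤ Real.log X := by
    rw [Real.le_log_iff_exp_le (by linarith)]
    exact hX
  have e1 : (Real.log X) ^ (-τ') ≤ (Real.log X) ^ (-τ) := Real.rpow_le_rpow_of_exponent_le hlog (by linarith)
  refine (h x y hx hxy (hy.trans (mul_le_mul_of_nonneg_left (by linarith) (by linarith)))).trans ?_
  exact Real.rpow_le_rpow_of_exponent_le hX1 hμ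

/-- **A zero forces large sums in every short window.** -/
theorem omega (h : LD δ c F) (hF : DensE F) {ρ : ℂ} (hρ : F ρ = 0) (hb : 1 / 2 < ρ.re) {μ τ : ℝ}
    (hμ : μ < ρ.re) (hτ : τ < wid ρ.re) : ∀ᶠ X : ℝ in atTop, ¬ Win1 δ c μ τ X := by
  have hre1 := h.re_le hρ
  obtain ⟨β, hβ⟩ : ∃ β : ℝ, β = ρ.re := ⟨_, rfl⟩
  rw [← hβ] at hb hμ hτ hre1
  have hw0 : 0 < wid β := div_pos (by linarith) (by linarith)
  have hw1 : wid β ≤ 1 := by
    unfold wid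
    rw [div_le_one (by linarith)]
    linarith
  have hwid2 : (1 + wid β) * (3 / 2 - β) = 1 := by
    have hne : 3 / 2 - β ≠ 0 := by linarith
    unfold wid
    rw [add_mul, div_mul_cancel₀ _ hne]
    ring
  obtain ⟨τ', hτ'⟩ : ∃ τ' : ℝ, τ' = max τ (wid β / 2) := ⟨_, rfl⟩
  have ht0 : 0 < τ' := by
    rw [hτ']
    exact lt_max_of_lt_right (by linarith)
  have ht1 : τ' < wid β := by
    rw [hτ']
    exact max_lt hτ (by linarith)
  have htt : τ ≤ τ' := by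
    rw [hτ']
    exact le_max_left _ _
  obtain ⟨gap, hgap⟩ : ∃ gap : ℝ, gap = 1 - (1 + τ') * (3 / 2 - β) := ⟨_, rfl⟩
  have hgap0 : 0 < gap := by
    rw [hgap]
    have : (1 + τ') * (3 / 2 - β) < (1 + wid β) * (3 / 2 - β) := mul_lt_mul_of_pos_right (by linarith) (by linarith)
    linarith
  obtain ⟨g, hg⟩ : ∃ g : ℝ, g = min (min (gap / 10) ((β - 1 / 2) / 5)) ((β - μ) / 5) := ⟨_, rfl⟩
  have hg0 : 0 < g := by
    rw [hg]
    exact lt_min (lt_min (by linarith) (by linarith)) (by linarith)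
  have hg1 : g ≤ gap / 10 := by
    rw [hg]
    exact (min_le_left _ _).trans (min_le_left _ _)
  have hg2 : g ≤ (β - 1 / 2) / 5 := by
    rw [hg]
    exact (min_le_left _ _).trans (min_le_right _ _)
  have hg3 : g ≤ (β - μ) / 5 := by
    rw [hg]
    exact min_le_right _ _
  obtain ⟨C, hd⟩ := hF (β - 3 * g - 1 / 2) (by linarith) (3 / 2 - β + 4 * g) (by linarith)
  have hd' : ∀ T : ℝ, 1 ≤ T → ∀ S : Finset ℂ,
      (∀ r ∈ S, F r = 0 ∧ (β - 5 * g) + 2 * g ≤ r.re ∧ |r.im| ≤ T) → (S.card : ℝ) ≤ C * T ^ (3 / 2 - β + 4 * g) := by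
    intro T hT S hS
    refine hd T hT S fun r hr => ⟨(hS r hr).1, ?_, (hS r hr).2.2⟩
    linarith [(hS r hr).2.1]
  have hτe : (1 + τ') * (3 / 2 - β + 4 * g) < 1 - g := by
    have e1 : (1 + τ') * (3 / 2 - β + 4 * g) = 1 - gap + (1 + τ') * (4 * g) := by
      rw [hgap]
      ring
    have e2 : (1 + τ') * (4 * g) ≤ 2 * (4 * g) := mul_le_mul_of_nonneg_right (by linarith) (by linarith)
    rw [e1]
    linarith
  have hcon := conv_at1 h (θ := β - 5 * g) (by linarith) hρ hg0 (by rw [← hβ]; ring) hd' (ε := g) hg0 le_rfl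
    (τ := τ') ht0 (by linarith) hτe
  have h2 := Real.tendsto_log_atTop.eventually hcon
  filter_upwards [h2, eventually_ge_atTop (Real.exp 1)] with X hX1 hX2 hwin
  have hX0 : 0 < X := lt_of_lt_of_le (Real.exp_pos 1) hX2
  rw [Real.exp_log hX0] at hX1
  exact hX1 (hwin.mono hX2 (by linarith) htt)

theorem wid_lt {a b : ℝ} (hab : a < b) (hb : b ≤ 1) : wid a < wid b := by
  unfold wid
  rw [div_lt_div_iff₀ (by linarith) (by linarith)]
  nlinarith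

theorem log_le_pow {τ : ℝ} (hτ : 0 < τ) (A : ℝ) : ∀ᶠ X : ℝ in atTop, A * (1 + Real.log X) ≤ X ^ τ := by
  have h1 : (fun X : ℝ => 1 + Real.log X) =o[atTop] fun X : ℝ => X ^ τ := by
    refine Asymptotics.IsLittleO.add ?_ (isLittleO_log_rpow_atTop hτ)
    rw [Asymptotics.isLittleO_const_left]
    right
    refine (tendsto_rpow_atTop hτ).congr' ?_ |> fun h => h
    filter_upwards [eventually_gt_atTop 0] with X hX
    simp only [Function.comp_apply]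
    rw [Real.norm_eq_abs, abs_of_pos (Real.rpow_pos_of_pos hX _)]
  have h2 := (h1.const_mul_left A).def one_pos
  filter_upwards [h2, eventually_gt_atTop 0] with X hX hX0
  rw [one_mul, Real.norm_eq_abs (X ^ τ), abs_of_pos (Real.rpow_pos_of_pos hX0 _)] at hX
  exact (le_abs_self _).trans hX

/-- **A zero-free half-plane bounds the sums in every window.** -/
theorem fwd1 (h : LD δ c F) {θ : ℝ} (hθ : 1 / 2 ≤ θ) (hθ1 : θ ≤ 1)
    (hz : ∀ ρ : ℂ, F ρ = 0 → ρ.re ≤ θ) {ε : ℝ} (hε : 0 < ε) : ∀ᶠ X : ℝ in atTop, Win1 δ c (θ + ε) 0 X := by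
  obtain ⟨ε', hε'⟩ : ∃ ε' : ℝ, ε' = min ε 1 := ⟨_, rfl⟩
  have hε0 : 0 < ε' := by rw [hε']; exact lt_min hε one_pos
  have hε1 : ε' ≤ 1 := by rw [hε']; exact min_le_right _ _
  have hεε : ε' ≤ ε := by rw [hε']; exact min_le_left _ _
  obtain ⟨C, hC, hb⟩ := fwd_bound h (ε := ε' / 2) hθ hθ1 hz (by linarith) (by linarith)
  have ev1 : ∀ᶠ X : ℝ in atTop, C * 16 + δ ≤ X ^ (ε' / 2) := (tendsto_rpow_atTop (by linarith)).eventually_ge_atTop _
  filter_upwards [ev1, eventually_ge_atTop 16] with X h1 h2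
  intro x y hx hxy hy
  rw [neg_zero, Real.rpow_zero] at hy
  have hX1 : 1 ≤ X := by linarith
  have hm0 : 1 ≤ ⌊x⌋₊ := Nat.one_le_floor_iff _ |>.2 (by linarith)
  have hb1 := hb ⌊x⌋₊ ⌊y⌋₊ hm0 (Nat.floor_mono hxy)
  have f3 : (⌊y⌋₊ : ℝ) ≤ y := Nat.floor_le (by linarith)
  have hδb := floor_diff (δ := δ) (x := x) (y := y) (by linarith) hxy
  have hdec : ∑ n ∈ Finset.Ioc ⌊x⌋₊ ⌊y⌋₊, c n - δ * ((y : ℂ) - x) =
      (∑ n ∈ Finset.Ioc ⌊x⌋₊ ⌊y⌋₊, c n - δ * ((⌊y⌋₊ : ℂ) - ⌊x⌋₊)) + δ * (((⌊y⌋₊ : ℂ) - ⌊x⌋₊) - ((y : ℂ) - x)) := by ring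
  rw [hdec]
  refine (norm_add_le _ _).trans ?_
  have hY : ((⌊y⌋₊ : ℝ) + 1 / 2) ^ (θ + ε' / 2) ≤ 16 * X ^ (θ + ε' / 2) := by
    have e1 : (⌊y⌋₊ : ℝ) + 1 / 2 ≤ 4 * X := by linarith
    refine (Real.rpow_le_rpow (by positivity) e1 (by linarith)).trans ?_
    rw [Real.mul_rpow (by norm_num) (by linarith)]
    refine mul_le_mul_of_nonneg_right ?_ (by positivity)
    calc (4 : ℝ) ^ (θ + ε' / 2) ≤ (4 : ℝ) ^ (2 : ℝ) := Real.rpow_le_rpow_of_exponent_le (by norm_num) (by linarith)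
      _ = 16 := by norm_num
  have h6 : 1 ≤ X ^ (θ + ε' / 2) := Real.one_le_rpow hX1 (by positivity)
  have h7 : X ^ (θ + ε') = X ^ (ε' / 2) * X ^ (θ + ε' / 2) := by
    rw [← Real.rpow_add (by linarith)]
    congr 1
    ring
  have h8 : X ^ (θ + ε') ≤ X ^ (θ + ε) := Real.rpow_le_rpow_of_exponent_le hX1 (by linarith)
  refine le_trans ?_ h8
  rw [h7]
  calc ‖∑ n ∈ Finset.Ioc ⌊x⌋₊ ⌊y⌋₊, c n - δ * ((⌊y⌋₊ : ℂ) - ⌊x⌋₊)‖ +
      ‖(δ : ℂ) * (((⌊y⌋₊ : ℂ) - ⌊x⌋₊) - ((y : ℂ) - x))‖ ≤ C * (16 * X ^ (θ + ε' / 2)) + δ * 1 := by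
        rw [mul_one]
        exact add_le_add (hb1.trans (mul_le_mul_of_nonneg_left hY hC.le)) hδb
    _ ≤ C * (16 * X ^ (θ + ε' / 2)) + δ * X ^ (θ + ε' / 2) := by
        have := mul_le_mul_of_nonneg_left h6 (Nat.cast_nonneg δ : (0 : ℝ) ≤ δ)
        linarith
    _ = (C * 16 + δ) * X ^ (θ + ε' / 2) := by ring
    _ ≤ _ := mul_le_mul_of_nonneg_right h1 (by positivity)

/-- elementary facts about the window -/
theorem win1_facts {X t : ℝ} (ht0 : 0 ≤ t) (ht : t ≤ 1) (hX : 16 ≤ X) :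
    X ≤ X * (1 + t) ∧ X / 4 ≤ (⌊X⌋₊ : ℝ) ∧ (4 : ℝ) ≤ ⌊X⌋₊ ∧
      (⌊X * (1 + t)⌋₊ : ℝ) ≤ 2 * X ∧ 1 ≤ ⌊X * (1 + t)⌋₊ ∧
      Real.sqrt ⌊X * (1 + t)⌋₊ ≤ 2 * X ^ (1 / 2 : ℝ) ∧
      Real.log ⌊X * (1 + t)⌋₊ ≤ 1 + Real.log X := by
  have h2 : X * 1 ≤ X * (1 + t) := mul_le_mul_of_nonneg_left (by linarith) (by linarith)
  have h3 : X * (1 + t) ≤ X * 2 := mul_le_mul_of_nonneg_left (by linarith) (by linarith)
  have h4 := Nat.lt_floor_add_one X
  have h5 : (⌊X * (1 + t)⌋₊ : ℝ) ≤ X * (1 + t) := Nat.floor_le (by linarith)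
  have h6 : (⌊X * (1 + t)⌋₊ : ℝ) ≤ 2 * X := by linarith
  have h7 : 1 ≤ ⌊X * (1 + t)⌋₊ := (Nat.one_le_floor_iff _).2 (by linarith)
  have h7' : (1 : ℝ) ≤ ⌊X * (1 + t)⌋₊ := by exact_mod_cast h7
  have hX0 : 0 < X := by linarith
  refine ⟨by linarith, by linarith, by linarith, h6, h7, ?_, ?_⟩
  · rw [Real.sqrt_le_left (by positivity), mul_pow, ← Real.rpow_natCast (X ^ (1 / 2 : ℝ)), ← Real.rpow_mul hX0.le]
    have : (1 / 2 : ℝ) * ((2 : ℕ) : ℝ) = 1 := by push_cast; ring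
    rw [this, Real.rpow_one]
    linarith
  · calc Real.log ⌊X * (1 + t)⌋₊ ≤ Real.log (2 * X) := Real.log_le_log (by linarith) h6
      _ = Real.log 2 + Real.log X := by rw [Real.log_mul (by norm_num) (by positivity)]
      _ ≤ _ := by
        have := Real.log_two_lt_d9
        linarith

end basic

section conv

variable {δ : ℕ} {c a : ℕ → ℂ} {K θ ν ε τ : ℝ} {P0 : ℕ}

theorem toA1 (hc : ∀ n, ‖c n‖ ≤ K * ArithmeticFunction.vonMangoldt n) (hK : 0 ≤ K) (hθ : 1 / 2 ≤ θ)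
    (hν : 0 ≤ ν) (hε : 0 < ε) (hτ : 0 ≤ τ)
    (ha : ∀ n : ℕ, P0 < n → a n = (((n : ℝ) ^ ν / Real.log n : ℝ) : ℂ) * ((if n.Prime then c n else 0) - δ)) :
    ∀ᶠ X : ℝ in atTop, Win1 δ c (θ + ε / 2) τ X → Win1 0 a (θ + ν + ε) τ X := by
  set A : ℝ := 4 * 2 ^ ν * (1 + δ + 4 * K) + 1 with hA
  have hδ0 : (0 : ℝ) ≤ δ := Nat.cast_nonneg _
  have hA0 : 1 ≤ A := by
    have : 0 ≤ 4 * (2 : ℝ) ^ ν * (1 + δ + 4 * K) := by positivity
    linarith
  have ev1 := log_le_pow (show 0 < ε / 2 / 2 by linarith) A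
  filter_upwards [ev1, eventually_ge_atTop (16 + 4 * P0 : ℝ)] with X h1 h3 hwin
  have hP00 : (0 : ℝ) ≤ 4 * P0 := by positivity
  have hX16 : 16 ≤ X := by linarith
  have hX0 : 0 < X := by linarith
  have hX1 : 1 ≤ X := by linarith
  have hlog1 : 1 ≤ Real.log X := by
    rw [Real.le_log_iff_exp_le hX0]
    have := Real.exp_one_lt_d9
    linarith
  have ht0 : 0 ≤ (Real.log X) ^ (-τ) := Real.rpow_nonneg (by linarith) _
  have ht1 : (Real.log X) ^ (-τ) ≤ 1 := Real.rpow_le_one_of_one_le_of_nonpos hlog1 (by linarith)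
  obtain ⟨g2, g3, g4, g5, g6, g7, g8⟩ := win1_facts ht0 ht1 hX16
  obtain ⟨M0, hM0⟩ : ∃ M0 : ℕ, M0 = ⌊X⌋₊ := ⟨_, rfl⟩
  obtain ⟨M1, hM1⟩ : ∃ M1 : ℕ, M1 = ⌊X * (1 + (Real.log X) ^ (-τ))⌋₊ := ⟨_, rfl⟩
  -- step 1
  have s1 : Bd (fun n => c n - δ) M0 M1 (X ^ (θ + ε / 2) + δ) := by
    rw [hM0, hM1]
    refine bd_of_real hX0.le g2 fun x y hx hxy hy => ?_
    have := hwin x y hx hxy hy
    rw [sum_sub_const c δ (Nat.floor_mono hxy)]
    have e : ∑ n ∈ Finset.Ioc ⌊x⌋₊ ⌊y⌋₊, c n - δ * ((⌊y⌋₊ : ℂ) - ⌊x⌋₊) =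
        (∑ n ∈ Finset.Ioc ⌊x⌋₊ ⌊y⌋₊, c n - δ * ((y : ℂ) - x)) - δ * (((⌊y⌋₊ : ℂ) - ⌊x⌋₊) - ((y : ℂ) - x)) := by ring
    rw [e]
    exact (norm_sub_le _ _).trans (add_le_add this (floor_diff (hX0.le.trans hx) hxy))
  rw [← hM0] at g3 g4
  rw [← hM1] at g5 g6 g7 g8
  -- step 2
  have s2 := s1.add (bd_pp (c := fun n => -c n) (K := K) (fun n => by rw [norm_neg]; exact hc n) hK M0 M1 g6)
  obtain ⟨B1, hB1⟩ : ∃ B1 : ℝ, B1 = X ^ (θ + ε / 2) + δ + K * (2 * Real.sqrt M1 * Real.log M1) := ⟨_, rfl⟩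
  rw [← hB1] at s2
  have hlogM : 0 ≤ Real.log M1 := Real.log_natCast_nonneg _
  have hB10 : 0 ≤ B1 := by
    rw [hB1]
    positivity
  have s3 : Bd (fun n => (if n.Prime then c n else 0) - δ) M0 M1 B1 := by
    refine s2.congr fun n _ _ => ?_
    split_ifs <;> ring
  have hn4 : ∀ n : ℕ, M0 < n → (4 : ℝ) ≤ n := fun n hn => g4.trans (by exact_mod_cast hn.le)
  -- step 3
  have s4 := s3.weight (W := (2 * X) ^ ν) hB10 (w := fun n => (n : ℝ) ^ ν)
    (Or.inl fun n _ _ => Real.rpow_le_rpow (Nat.cast_nonneg _) (by push_cast; linarith) hν)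
    (fun n _ hn => ⟨by positivity, Real.rpow_le_rpow (Nat.cast_nonneg _) (le_trans (by exact_mod_cast hn) g5) hν⟩)
    (by positivity)
  have s5 := s4.weight (W := 1) (by positivity) (w := fun n => 1 / Real.log n)
    (Or.inr fun n hn _ => by
      have := hn4 n hn
      exact one_div_le_one_div_of_le (Real.log_pos (by linarith)) (Real.log_le_log (by linarith) (by push_cast; linarith)))
    (fun n hn _ => by
      have := hn4 n hn
      have h7 : 1 ≤ Real.log n := by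
        rw [Real.le_log_iff_exp_le (by linarith)]
        have := Real.exp_one_lt_d9
        linarith
      exact ⟨by positivity, by rw [div_le_one (by linarith)]; exact h7⟩)
    zero_le_one
  have s6 : Bd a M0 M1 (2 * 1 * (2 * (2 * X) ^ ν * B1)) := by
    refine s5.congr fun n hn _ => ?_
    have hP : P0 < n := by
      have h8 : (P0 : ℝ) < n := by
        have h9 : (M0 : ℝ) < n := by exact_mod_cast hn
        have : (P0 : ℝ) ≤ X / 4 := by linarith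
        linarith
      exact_mod_cast h8
    rw [ha n hP]
    push_cast
    ring
  -- the bound
  have hb : 2 * 1 * (2 * (2 * X) ^ ν * B1) ≤ X ^ (θ + ν + ε) := by
    obtain ⟨E, hE⟩ : ∃ E : ℝ, E = X ^ (ε / 2) := ⟨_, rfl⟩
    obtain ⟨E', hE'⟩ : ∃ E' : ℝ, E' = X ^ (ε / 2 / 2) := ⟨_, rfl⟩
    have hE'1 : 1 ≤ E' := by
      rw [hE']
      exact Real.one_le_rpow hX1 (by positivity)
    have hEE : E' ≤ E := by
      rw [hE, hE']
      exact Real.rpow_le_rpow_of_exponent_le hX1 (by linarith)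
    rw [← hE'] at h1
    have hk0 : 0 ≤ Real.log X := by linarith
    have hE1 : 1 + Real.log X ≤ E := by nlinarith
    have hE2 : 1 ≤ E := by linarith
    have hAE : A ≤ E := by nlinarith
    obtain ⟨G, hG⟩ : ∃ G : ℝ, G = X ^ θ := ⟨_, rfl⟩
    have hG1 : 1 ≤ G := by
      rw [hG]
      exact Real.one_le_rpow hX1 (by positivity)
    have hsq : X ^ (1 / 2 : ℝ) ≤ G := by
      rw [hG]
      exact Real.rpow_le_rpow_of_exponent_le hX1 hθ
    have hB1le : B1 ≤ (1 + δ + 4 * K) * (G * E) := by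
      rw [hB1]
      have f1 : X ^ (θ + ε / 2) = G * E := by
        rw [hG, hE, ← Real.rpow_add hX0]
      have hGE : 1 ≤ G * E := by nlinarith
      have f2 : (δ : ℝ) ≤ δ * (G * E) := le_mul_of_one_le_right hδ0 hGE
      have f3 : K * (2 * Real.sqrt M1 * Real.log M1) ≤ K * (2 * (2 * G) * E) := by
        refine mul_le_mul_of_nonneg_left ?_ hK
        refine mul_le_mul ?_ (g8.trans hE1) hlogM (by positivity)
        linarith
      rw [f1]
      nlinarith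
    have f4 : (2 * X) ^ ν = 2 ^ ν * X ^ ν := by
      rw [Real.mul_rpow (by norm_num) (by positivity)]
    have f5 : X ^ (θ + ν + ε) = X ^ ν * (G * E) * E := by
      rw [hG, hE, ← Real.rpow_add hX0, ← Real.rpow_add hX0, ← Real.rpow_add hX0]
      congr 1
      ring
    rw [f4, f5]
    calc 2 * 1 * (2 * (2 ^ ν * X ^ ν) * B1) ≤
        2 * 1 * (2 * (2 ^ ν * X ^ ν) * ((1 + δ + 4 * K) * (G * E))) := by gcongr
      _ = X ^ ν * (G * E) * (4 * 2 ^ ν * (1 + δ + 4 * K)) := by ring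
      _ ≤ X ^ ν * (G * E) * E := by
        refine mul_le_mul_of_nonneg_left ?_ (by positivity)
        linarith
  intro x y hx hxy hy
  simp only [Nat.cast_zero, zero_mul, sub_zero]
  refine le_trans ?_ hb
  rw [hM0, hM1] at s6
  exact real_of_bd s6 x y hx hxy hy

theorem ofA1 (hc : ∀ n, ‖c n‖ ≤ K * ArithmeticFunction.vonMangoldt n) (hK : 0 ≤ K) (hθ : 1 / 2 ≤ θ)
    (hν : 0 ≤ ν) (hε : 0 < ε) (hτ : 0 ≤ τ)
    (ha : ∀ n : ℕ, P0 < n → a n = (((n : ℝ) ^ ν / Real.log n : ℝ) : ℂ) * ((if n.Prime then c n else 0) - δ)) :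
    ∀ᶠ X : ℝ in atTop, Win1 0 a (θ + ν + ε / 2) τ X → Win1 δ c (θ + ε) τ X := by
  set A : ℝ := 4 * 4 ^ ν + 4 * K + δ + 1 with hA
  have hδ0 : (0 : ℝ) ≤ δ := Nat.cast_nonneg _
  have hA0 : 1 ≤ A := by
    have : 0 ≤ 4 * (4 : ℝ) ^ ν := by positivity
    linarith
  have ev1 := log_le_pow (show 0 < ε / 2 by linarith) A
  filter_upwards [ev1, eventually_ge_atTop (16 + 4 * P0 : ℝ)] with X h1 h3 hwin
  have hP00 : (0 : ℝ) ≤ 4 * P0 := by positivity
  have hX16 : 16 ≤ X := by linarith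
  have hX0 : 0 < X := by linarith
  have hX1 : 1 ≤ X := by linarith
  have hlog1 : 1 ≤ Real.log X := by
    rw [Real.le_log_iff_exp_le hX0]
    have := Real.exp_one_lt_d9
    linarith
  have ht0 : 0 ≤ (Real.log X) ^ (-τ) := Real.rpow_nonneg (by linarith) _
  have ht1 : (Real.log X) ^ (-τ) ≤ 1 := Real.rpow_le_one_of_one_le_of_nonpos hlog1 (by linarith)
  obtain ⟨g2, g3, g4, g5, g6, g7, g8⟩ := win1_facts ht0 ht1 hX16
  obtain ⟨M0, hM0⟩ : ∃ M0 : ℕ, M0 = ⌊X⌋₊ := ⟨_, rfl⟩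
  obtain ⟨M1, hM1⟩ : ∃ M1 : ℕ, M1 = ⌊X * (1 + (Real.log X) ^ (-τ))⌋₊ := ⟨_, rfl⟩
  have s1 : Bd a M0 M1 (X ^ (θ + ν + ε / 2)) := by
    rw [hM0, hM1]
    refine bd_of_real hX0.le g2 fun x y hx hxy hy => ?_
    have := hwin x y hx hxy hy
    simpa using this
  rw [← hM0] at g3 g4
  rw [← hM1] at g5 g6 g7 g8
  have hlogM : 0 ≤ Real.log M1 := Real.log_natCast_nonneg _
  have hn4 : ∀ n : ℕ, M0 < n → (4 : ℝ) ≤ n := fun n hn => g4.trans (by exact_mod_cast hn.le)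
  have hkL : 0 ≤ Real.log X := by linarith
  have s2 := s1.weight (W := 1 + Real.log X) (by positivity) (w := fun n => Real.log n)
    (Or.inl fun n hn _ => by
      have := hn4 n hn
      exact Real.log_le_log (by linarith) (by push_cast; linarith))
    (fun n hn hn1 => by
      have := hn4 n hn
      refine ⟨Real.log_nonneg (by linarith), le_trans (Real.log_le_log (by linarith) ?_) g8⟩
      exact_mod_cast hn1)
    (by linarith)
  have s3 := s2.weight (W := 4 ^ ν * X ^ (-ν)) (by positivity) (w := fun n => (n : ℝ) ^ (-ν))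
    (Or.inr fun n hn _ => by
      have := hn4 n hn
      exact Real.rpow_le_rpow_of_nonpos (by linarith) (by push_cast; linarith) (by linarith))
    (fun n hn hn1 => by
      have := hn4 n hn
      refine ⟨by positivity, ?_⟩
      have h9 : (M0 : ℝ) ≤ n := by exact_mod_cast hn.le
      calc (n : ℝ) ^ (-ν) ≤ (X / 4) ^ (-ν) :=
            Real.rpow_le_rpow_of_nonpos (by positivity) (by linarith) (by linarith)
        _ = _ := by
          rw [Real.div_rpow (by positivity) (by norm_num),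
            Real.rpow_neg (by norm_num : (0 : ℝ) ≤ 4), div_inv_eq_mul, mul_comm])
    (by positivity)
  obtain ⟨B2, hB2⟩ : ∃ B2 : ℝ, B2 = 2 * (4 ^ ν * X ^ (-ν)) *
      (2 * (1 + Real.log X) * X ^ (θ + ν + ε / 2)) := ⟨_, rfl⟩
  rw [← hB2] at s3
  have s4 : Bd (fun n => (if n.Prime then c n else 0) - δ) M0 M1 B2 := by
    refine s3.congr fun n hn _ => ?_
    have hn4' := hn4 n hn
    have hP : P0 < n := by
      have h8 : (P0 : ℝ) < n := by
        have h9 : (M0 : ℝ) < n := by exact_mod_cast hn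
        have : (P0 : ℝ) ≤ X / 4 := by linarith
        linarith
      exact_mod_cast h8
    rw [ha n hP, ← mul_assoc, ← mul_assoc, ← Complex.ofReal_mul, ← Complex.ofReal_mul]
    have hlog : Real.log n ≠ 0 := (Real.log_pos (by linarith)).ne'
    have e : (n : ℝ) ^ (-ν) * Real.log n * ((n : ℝ) ^ ν / Real.log n) = 1 := by
      rw [Real.rpow_neg (Nat.cast_nonneg _)]
      have : (n : ℝ) ^ ν ≠ 0 := (Real.rpow_pos_of_pos (by linarith) _).ne'
      field_simp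
    rw [e, Complex.ofReal_one, one_mul]
  have s5 := s4.add (bd_pp (c := c) (K := K) hc hK M0 M1 g6)
  have s6 : Bd (fun n => c n - δ) M0 M1 (B2 + K * (2 * Real.sqrt M1 * Real.log M1)) := by
    refine s5.congr fun n _ _ => ?_
    split_ifs <;> ring
  have hb : B2 + K * (2 * Real.sqrt M1 * Real.log M1) + δ ≤ X ^ (θ + ε) := by
    obtain ⟨E, hE⟩ : ∃ E : ℝ, E = X ^ (ε / 2) := ⟨_, rfl⟩
    rw [← hE] at h1
    have hE2 : 1 ≤ E := by nlinarith
    obtain ⟨G, hG⟩ : ∃ G : ℝ, G = X ^ θ := ⟨_, rfl⟩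
    have hG1 : 1 ≤ G := by
      rw [hG]
      exact Real.one_le_rpow hX1 (by positivity)
    have hsq : X ^ (1 / 2 : ℝ) ≤ G := by
      rw [hG]
      exact Real.rpow_le_rpow_of_exponent_le hX1 hθ
    obtain ⟨u, hu⟩ : ∃ u : ℝ, u = 1 + Real.log X := ⟨_, rfl⟩
    rw [← hu] at h1 g8 hB2
    have hu1 : 1 ≤ u := by linarith
    have f1 : B2 = 4 * 4 ^ ν * u * (G * E) := by
      have : X ^ (-ν) * X ^ (θ + ν + ε / 2) = G * E := by
        rw [hG, hE, ← Real.rpow_add hX0, ← Real.rpow_add hX0]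
        congr 1
        ring
      rw [hB2]
      linear_combination 4 * 4 ^ ν * u * this
    have f2 : K * (2 * Real.sqrt M1 * Real.log M1) ≤ 4 * K * u * (G * E) := by
      calc K * (2 * Real.sqrt M1 * Real.log M1) ≤ K * (2 * (2 * G) * u) := by
            refine mul_le_mul_of_nonneg_left ?_ hK
            refine mul_le_mul ?_ g8 hlogM (by positivity)
            linarith
        _ = 4 * K * u * (G * 1) := by ring
        _ ≤ _ := by gcongr
    have hGE : 1 ≤ G * E := by nlinarith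
    have f3 : (δ : ℝ) ≤ δ * u * (G * E) := by
      have : 1 ≤ u * (G * E) := by nlinarith
      calc (δ : ℝ) = δ * 1 := (mul_one _).symm
        _ ≤ δ * (u * (G * E)) := mul_le_mul_of_nonneg_left this hδ0
        _ = _ := by ring
    have f4 : X ^ (θ + ε) = G * E * E := by
      rw [hG, hE, ← Real.rpow_add hX0, ← Real.rpow_add hX0]
      congr 1
      ring
    rw [f4]
    calc B2 + K * (2 * Real.sqrt M1 * Real.log M1) + δ ≤
        4 * 4 ^ ν * u * (G * E) + 4 * K * u * (G * E) + δ * u * (G * E) := by linarith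
      _ = (G * E) * ((4 * 4 ^ ν + 4 * K + δ) * u) := by ring
      _ ≤ (G * E) * (A * u) := by
        refine mul_le_mul_of_nonneg_left ?_ (by linarith)
        refine mul_le_mul_of_nonneg_right (by rw [hA]; linarith) (by linarith)
      _ ≤ (G * E) * E := mul_le_mul_of_nonneg_left h1 (by linarith)
  intro x y hx hxy hy
  refine le_trans ?_ hb
  rw [hM0, hM1] at s6
  have h10 := real_of_bd s6 x y hx hxy hy
  rw [sum_sub_const c δ (Nat.floor_mono hxy), ← hM1] at h10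
  have e : ∑ n ∈ Finset.Ioc ⌊x⌋₊ ⌊y⌋₊, c n - δ * ((y : ℂ) - x) =
      (∑ n ∈ Finset.Ioc ⌊x⌋₊ ⌊y⌋₊, c n - δ * ((⌊y⌋₊ : ℂ) - ⌊x⌋₊)) + δ * (((⌊y⌋₊ : ℂ) - ⌊x⌋₊) - ((y : ℂ) - x)) := by ring
  rw [e]
  exact (norm_add_le _ _).trans (add_le_add h10 (floor_diff (hX0.le.trans hx) hxy))

/-- **Zeros force large sums over primes in every short window.** -/
theorem omega_prime {F : ℂ → ℂ} (h : LD δ c F) (hF : DensE F) (hc : ∀ n, ‖c n‖ ≤ K * ArithmeticFunction.vonMangoldt n)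
    (hK : 0 ≤ K) (hν : 0 ≤ ν)
    (ha : ∀ n : ℕ, P0 < n → a n = (((n : ℝ) ^ ν / Real.log n : ℝ) : ℂ) * ((if n.Prime then c n else 0) - δ))
    {ρ : ℂ} (hρ : F ρ = 0) (hb : 1 / 2 < ρ.re) {μ : ℝ} (hμ : μ < ρ.re + ν) (hτ : τ < wid ρ.re) :
    ∀ᶠ X : ℝ in atTop, ¬ Win1 0 a μ τ X := by
  have hre1 := h.re_le hρ
  have hw0 : 0 < wid ρ.re := div_pos (by linarith) (by linarith)
  obtain ⟨τ', hτ'⟩ : ∃ τ' : ℝ, τ' = max τ (wid ρ.re / 2) := ⟨_, rfl⟩
  have ht0 : 0 < τ' := by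
    rw [hτ']
    exact lt_max_of_lt_right (by linarith)
  have ht1 : τ' < wid ρ.re := by
    rw [hτ']
    exact max_lt hτ (by linarith)
  have htt : τ ≤ τ' := by
    rw [hτ']
    exact le_max_left _ _
  obtain ⟨θ, hθ⟩ : ∃ θ : ℝ, θ = max (μ - ν) (1 / 2) := ⟨_, rfl⟩
  have hθ1 : 1 / 2 ≤ θ := by
    rw [hθ]
    exact le_max_right _ _
  have hθ2 : μ - ν ≤ θ := by
    rw [hθ]
    exact le_max_left _ _
  have hθ3 : θ < ρ.re := by
    rw [hθ]
    exact max_lt (by linarith) hb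
  have hε : 0 < (ρ.re - θ) / 2 := by linarith
  filter_upwards [ofA1 (P0 := P0) hc hK hθ1 hν hε ht0.le ha,
    omega h hF hρ hb (μ := θ + (ρ.re - θ) / 2) (by linarith) ht1, eventually_ge_atTop (Real.exp 1)] with X h1 h2 h3 hwin
  exact h2 (h1 (hwin.mono h3 (by linarith) htt))

/-- **The criterion.** -/
theorem crit1 {F : ℂ → ℂ} (h : LD δ c F) (hF : DensE F) (hc : ∀ n, ‖c n‖ ≤ K * ArithmeticFunction.vonMangoldt n)
    (hK : 0 ≤ K) (hθ : 1 / 2 ≤ θ) (hθ1 : θ ≤ 1) (hν : 0 ≤ ν)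
    (ha : ∀ n : ℕ, P0 < n → a n = (((n : ℝ) ^ ν / Real.log n : ℝ) : ℂ) * ((if n.Prime then c n else 0) - δ)) :
    ((∀ ρ : ℂ, F ρ = 0 → ρ.re ≤ θ) ↔ ∀ ε : ℝ, 0 < ε → ∃ᶠ X : ℝ in atTop, Win1 0 a (θ + ν + ε) (wid θ + ε) X) ∧
      ((∀ ρ : ℂ, F ρ = 0 → ρ.re ≤ θ) ↔ ∀ ε : ℝ, 0 < ε → ∀ᶠ X : ℝ in atTop, Win1 0 a (θ + ν + ε) 0 X) := by
  have hwid0 : 0 ≤ wid θ := div_nonneg (by linarith) (by linarith)
  have h1 : (∀ ρ : ℂ, F ρ = 0 → ρ.re ≤ θ) → ∀ ε : ℝ, 0 < ε → ∀ᶠ X : ℝ in atTop, Win1 0 a (θ + ν + ε) 0 X := by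
    intro hz ε hε
    filter_upwards [fwd1 h hθ hθ1 hz (show 0 < ε / 2 by linarith), toA1 (P0 := P0) hc hK hθ hν hε le_rfl ha]
      with X h1 h2
    exact h2 h1
  have h2 : (∀ ε : ℝ, 0 < ε → ∃ᶠ X : ℝ in atTop, Win1 0 a (θ + ν + ε) (wid θ + ε) X) →
      ∀ ρ : ℂ, F ρ = 0 → ρ.re ≤ θ := by
    intro hw ρ hρ
    by_contra hcon
    rw [not_le] at hcon
    have hre1 := h.re_le hρ
    have hwlt := wid_lt hcon hre1
    obtain ⟨ε, hεdef⟩ : ∃ ε : ℝ, ε = min ((ρ.re - θ) / 2) ((wid ρ.re - wid θ) / 2) := ⟨_, rfl⟩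
    have hε0 : 0 < ε := by
      rw [hεdef]
      exact lt_min (by linarith) (by linarith)
    have hε1 : ε ≤ (ρ.re - θ) / 2 := by
      rw [hεdef]
      exact min_le_left _ _
    have hε2 : ε ≤ (wid ρ.re - wid θ) / 2 := by
      rw [hεdef]
      exact min_le_right _ _
    have h3 := omega_prime h hF hc hK hν ha hρ (by linarith) (μ := θ + ν + ε) (τ := wid θ + ε) (by linarith)
      (by linarith)
    obtain ⟨X, hX1, hX2⟩ := ((hw ε hε0).and_eventually h3).exists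
    exact hX2 hX1
  have h12 : (∀ ρ : ℂ, F ρ = 0 → ρ.re ≤ θ) → ∀ ε : ℝ, 0 < ε →
      ∃ᶠ X : ℝ in atTop, Win1 0 a (θ + ν + ε) (wid θ + ε) X := by
    intro hz ε hε
    have h3 := (h1 hz ε hε).and (eventually_ge_atTop (Real.exp 1))
    refine (h3.mono fun X hX => ?_).frequently
    exact hX.1.mono hX.2 le_rfl (by linarith)
  refine ⟨⟨h12, h2⟩, ⟨h1, fun hw => h2 fun ε hε => ?_⟩⟩
  have h3 := (hw ε hε).and (eventually_ge_atTop (Real.exp 1))
  refine (h3.mono fun X hX => ?_).frequently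
  exact hX.1.mono hX.2 le_rfl (by linarith)

end conv

end Pool.Agent.Run7.h456.Win
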