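import Mathlib
import Pool.Agent.Run7.h456.Win.Prime
import Pool.Agent.R838.NB.Form

/-!
# Density of zeros for forms, and the dual form
-/

set_option autoImplicit false

open Complex MeasureTheory Set Filter Topology
open scoped ComplexConjugate

namespace Pool.Agent.Run7.h456.Win

open Pool.Agent.Y671.GL (Frm IsL Ph aa)
open Pool.Agent.Y24.GL (LFn ZF)

variable {k N : ℕ} {ps lam : ℕ → ℂ} {F : ℂ → ℂ}

theorem aa_conj (lam : ℕ → ℂ) (n : ℕ) : aa k (fun n => conj (lam n)) n = conj (aa k lam n) := by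
  unfold Pool.Agent.Y671.GL.aa
  rw [map_mul, Complex.conj_ofReal]

theorem Ph_conj (lam : ℕ → ℂ) (z : ℂ) : Ph k (fun n => conj (lam n)) z = conj (Ph k lam (conj z)) := by
  unfold Pool.Agent.Y671.GL.Ph
  rw [Complex.conj_tsum]
  refine tsum_congr fun n => ?_
  rw [aa_conj, map_mul, ← Complex.exp_conj, map_neg, map_mul, Complex.conj_natCast, Complex.conj_conj]

/-- The dual form. -/
theorem frm_conj (h : Frm k N ps lam) : Frm k N (fun n => conj (ps n)) (fun n => conj (lam n)) where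
  k_pos := h.k_pos
  N_pos := h.N_pos
  zero := by rw [h.zero, map_zero]
  one := by rw [h.one, map_one]
  mul m n hmn := by rw [h.mul m n hmn, map_mul]
  pow p j hp := by rw [h.pow p j hp, map_sub, map_mul, map_mul]
  ps_le p := by rw [Complex.norm_conj]; exact h.ps_le p
  ram := by simpa [Complex.norm_conj] using h.ram
  rs := by simpa [Complex.norm_conj] using h.rs
  bd := by
    obtain ⟨C, hC⟩ := h.bd
    refine ⟨C, fun z hz => ?_⟩
    rw [Ph_conj, Complex.norm_conj]
    have := hC (conj z) (by simpa using hz)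
    simpa using this
  cusp := by
    obtain ⟨ch, h1, h2⟩ := h.cusp
    refine ⟨fun a => (-1) ^ k * conj (ch (-a)), fun a ha => ?_, fun q a b hq hN hab z hz => ?_⟩
    · rw [norm_mul, norm_pow, norm_neg, norm_one, one_pow, one_mul, Complex.norm_conj]
      exact h1 (-a) ha.neg_left
    · have h3 := h2 q (-a) (-b) hq hN (by rw [neg_mul_neg]; exact hab) (conj z) (by simpa using hz)
      rw [Ph_conj, Ph_conj]
      have e1 : conj (z + 2 * Real.pi * I * a / q) = conj z + 2 * Real.pi * I * ((-a : ℤ) : ℂ) / q := by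
        simp only [map_add, map_div₀, map_mul, Complex.conj_ofReal, Complex.conj_I, Complex.conj_natCast,
          map_intCast, map_ofNat]
        push_cast
        ring
      have e2 : conj (4 * (Real.pi : ℂ) ^ 2 / ((q : ℂ) ^ 2 * z) - 2 * Real.pi * I * b / q) =
          4 * (Real.pi : ℂ) ^ 2 / ((q : ℂ) ^ 2 * conj z) - 2 * Real.pi * I * ((-b : ℤ) : ℂ) / q := by
        simp only [map_sub, map_div₀, map_mul, map_pow, Complex.conj_ofReal, Complex.conj_I, Complex.conj_natCast,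
          map_intCast, map_ofNat]
        push_cast
        ring
      rw [e1, e2, h3, map_mul, map_mul]
      have e3 : conj ((2 * (Real.pi : ℂ) / (I * q * conj z)) ^ k) = (-1) ^ k * (2 * (Real.pi : ℂ) / (I * q * z)) ^ k := by
        rw [map_pow, ← mul_pow]
        congr 1
        simp only [map_div₀, map_mul, Complex.conj_ofReal, Complex.conj_I, Complex.conj_natCast, Complex.conj_conj,
          map_ofNat]
        rw [neg_mul, neg_mul, div_neg]
        ring
      rw [e3]
      ring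
  fricke := by
    obtain ⟨ε, h1, h2⟩ := h.fricke
    refine ⟨conj ε, by rw [Complex.norm_conj]; exact h1, fun z hz => ?_⟩
    have h3 := h2 (conj z) (by simpa using hz)
    rw [Ph_conj]
    have e1 : conj (4 * (Real.pi : ℂ) ^ 2 / ((N : ℂ) * z)) = 4 * (Real.pi : ℂ) ^ 2 / ((N : ℂ) * conj z) := by
      simp only [map_div₀, map_mul, map_pow, Complex.conj_ofReal, Complex.conj_natCast, map_ofNat]
    rw [e1, h3, map_mul, map_mul, Ph_conj, Complex.conj_conj, map_pow]
    have e2 : conj (((Real.sqrt N : ℝ) : ℂ) * conj z / (2 * Real.pi)) = ((Real.sqrt N : ℝ) : ℂ) * z / (2 * Real.pi) := by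
      simp only [map_div₀, map_mul, Complex.conj_ofReal, Complex.conj_conj, map_ofNat]
    rw [e2]
    simp only [Complex.conj_conj]

theorem isL_conj (h : IsL lam F) : IsL (fun n => conj (lam n)) (fun s => conj (F (conj s))) where
  diff := by
    intro s
    have := (h.diff (conj s)).conj_conj
    rwa [Complex.conj_conj] at this
  ser s hs := by
    rw [h.ser (conj s) (by simpa using hs), Complex.conj_tsum]
    refine tsum_congr fun n => ?_
    rw [map_mul]
    congr 1
    have ha : ((n : ℂ)).arg ≠ Real.pi := by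
      rw [Complex.natCast_arg]
      exact Real.pi_ne_zero.symm
    rw [← map_neg, Complex.cpow_conj _ _ ha, Complex.conj_natCast, Complex.conj_conj]

theorem lfn_conj (h : LFn F) : LFn (fun s => conj (F (conj s))) where
  diff := by
    intro s
    have := (h.diff (conj s)).conj_conj
    rwa [Complex.conj_conj] at this
  gro := by
    intro A
    obtain ⟨C, B, hC, hg⟩ := h.gro A
    refine ⟨C, B, hC, fun z h1 h2 => ?_⟩
    rw [Complex.norm_conj]
    have := hg (conj z) (by simpa using h1) (by simpa using h2)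
    simpa using this
  low := by
    obtain ⟨c, hc, hl⟩ := h.low
    refine ⟨c, hc, fun z hz => ?_⟩
    rw [Complex.norm_conj]
    exact hl (conj z) (by simpa using hz)
  ne := by
    intro z hz h0
    exact h.ne (conj z) (by simpa using hz) (by simpa using h0)

theorem zf_card (hf : Frm k N ps lam) (hL : IsL lam F) (h : LFn F) {d : ℝ} (hd : 0 < d) (hd1 : d ≤ 1 / 2) :
    ∃ C : ℝ, 0 < C ∧ ∀ T : ℝ, 1 ≤ T → ∀ S : Finset ℂ, (∀ ρ ∈ S, F ρ = 0 ∧ 1 / 2 + d ≤ ρ.re ∧ 0 < ρ.im ∧ ρ.im ≤ T) →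
      (S.card : ℝ) ≤ C * T ^ (1 - d / 4) := by
  obtain ⟨C, hC, hden⟩ := Pool.Agent.Y24.GL.density h
    (fun κ h1 h2 => Pool.Agent.Y24.GL.mol hf hL (by linarith) h2.le) (c := 1 / 2) (by norm_num)
  refine ⟨C * 2 ^ (1 - d / 4) * (4 / d), by positivity, fun T hT S hS => ?_⟩
  have hF0 : ∃ z : ℂ, F z ≠ 0 := ⟨2, h.ne 2 (by simp)⟩
  obtain ⟨h1, h2⟩ := hden (1 / 2 + d) (2 * T) (by linarith) (by linarith) (by linarith)
  rw [add_sub_cancel_left, finsum_mem_eq_finite_toFinset_sum _ h1] at h2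
  have hsub : S ⊆ h1.toFinset := by
    intro ρ hρ
    obtain ⟨a1, a2, a3, a4⟩ := hS ρ hρ
    rw [Set.Finite.mem_toFinset]
    exact ⟨a1, a2, a3, by linarith⟩
  have hpos : ∀ ρ ∈ h1.toFinset, (1 : ℝ) ≤ (analyticOrderNatAt F ρ : ℝ) := by
    intro ρ hρ
    rw [Set.Finite.mem_toFinset] at hρ
    have hρ0 : F ρ = 0 := hρ.1
    have han : AnalyticAt ℂ F ρ := h.diff.analyticAt ρ
    have hne : analyticOrderAt F ρ ≠ ⊤ := by
      intro htop
      obtain ⟨z, hz⟩ := hF0
      apply hz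
      have hon : AnalyticOnNhd ℂ F univ := fun z _ => h.diff.analyticAt z
      rw [analyticOrderAt_eq_top] at htop
      exact hon.eqOn_zero_of_preconnected_of_eventuallyEq_zero isPreconnected_univ (mem_univ ρ) htop (mem_univ z)
    have hne0 : analyticOrderAt F ρ ≠ 0 := by
      rw [Ne, han.analyticOrderAt_eq_zero]
      exact fun hh => hh hρ0
    have : analyticOrderNatAt F ρ ≠ 0 := by
      unfold analyticOrderNatAt
      intro hz
      rcases ENat.toNat_eq_zero.1 hz with h5 | h5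
      · exact hne0 h5
      · exact hne h5
    exact_mod_cast Nat.one_le_iff_ne_zero.2 this
  have h3 : (S.card : ℝ) ≤ ∑ ρ ∈ h1.toFinset, (analyticOrderNatAt F ρ : ℝ) := by
    calc (S.card : ℝ) ≤ h1.toFinset.card := by exact_mod_cast Finset.card_le_card hsub
      _ = ∑ ρ ∈ h1.toFinset, (1 : ℝ) := by simp
      _ ≤ _ := Finset.sum_le_sum hpos
  have h4 : Real.log (2 * T) ≤ (2 * T) ^ (d / 4) / (d / 4) := Real.log_le_rpow_div (by linarith) (by positivity)
  have h5 : (0 : ℝ) ≤ Real.log (2 * T) := Real.log_nonneg (by linarith)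
  calc (S.card : ℝ) ≤ C * (2 * T) ^ (1 - 1 / 2 * d) * Real.log (2 * T) := h3.trans h2
    _ ≤ C * (2 * T) ^ (1 - 1 / 2 * d) * ((2 * T) ^ (d / 4) / (d / 4)) :=
      mul_le_mul_of_nonneg_left h4 (by positivity)
    _ = C * ((2 * T) ^ (1 - 1 / 2 * d) * (2 * T) ^ (d / 4)) * (4 / d) := by field_simp
    _ = C * (2 * T) ^ (1 - d / 4) * (4 / d) := by
      rw [← Real.rpow_add (by linarith)]
      congr 3
      ring
    _ = _ := by
      rw [Real.mul_rpow (by norm_num) (by linarith)]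
      ring

/-- the real zeros -/
theorem real_zeros (hd : Differentiable ℂ F) (h0 : ∃ z : ℂ, F z ≠ 0) (a b : ℝ) :
    {ρ : ℂ | F ρ = 0 ∧ a ≤ ρ.re ∧ ρ.re ≤ b ∧ ρ.im = 0}.Finite := by
  obtain ⟨z, hz⟩ := h0
  have hon : AnalyticOnNhd ℂ F univ := fun z _ => hd.analyticAt z
  have hK : IsCompact (Set.Icc a b ×ℂ Set.Icc (0 : ℝ) 0) := isCompact_Icc.reProdIm isCompact_Icc
  by_contra hinf
  have hinf' : {ρ : ℂ | F ρ = 0 ∧ a ≤ ρ.re ∧ ρ.re ≤ b ∧ ρ.im = 0}.Infinite := hinf
  obtain ⟨w, hw, hacc⟩ := hinf'.exists_accPt_of_subset_isCompact hK (by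
    rintro ρ ⟨-, h1, h2, h3⟩
    exact ⟨⟨h1, h2⟩, ⟨h3.ge, h3.le⟩⟩)
  apply hz
  have hfreq : ∃ᶠ z in 𝓝[≠] w, F z = 0 := by
    rw [accPt_iff_frequently_nhdsNE] at hacc
    exact hacc.mono fun z hz => hz.1
  exact hon.eqOn_zero_of_preconnected_of_frequently_eq_zero isPreconnected_univ (mem_univ w) hfreq (mem_univ z)

/-- **Density.** -/
theorem dens_frm (hf : Frm k N ps lam) (hL : IsL lam F) (h : LFn F) : Dens F := by
  classical
  intro d hd
  rcases le_or_gt d (1 / 2) with hd1 | hd1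
  swap
  · refine ⟨1, 1, one_pos, fun T hT S hS => ?_⟩
    have : S = ∅ := by
      rw [Finset.eq_empty_iff_forall_notMem]
      intro ρ hρ
      obtain ⟨h1, h2, -⟩ := hS ρ hρ
      exact h.ne ρ (by linarith) h1
    rw [this]
    simp
  obtain ⟨C1, hC1, h1⟩ := zf_card hf hL h hd hd1
  obtain ⟨C2, hC2, h2⟩ := zf_card (frm_conj hf) (isL_conj hL) (lfn_conj h) hd hd1
  have hfin := real_zeros h.diff ⟨2, h.ne 2 (by simp)⟩ (1 / 2 + d) 1
  set R : ℝ := (hfin.toFinset.card : ℝ) with hR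
  refine ⟨C1 + C2 + R, d / 4, by positivity, fun T hT S hS => ?_⟩
  have hT1 : 1 ≤ T ^ (1 - d / 4) := Real.one_le_rpow hT (by linarith)
  have b1 := h1 T hT (S.filter fun ρ => 0 < ρ.im) (by
    intro ρ hρ
    rw [Finset.mem_filter] at hρ
    obtain ⟨a1, a2, a3⟩ := hS ρ hρ.1
    exact ⟨a1, a2, hρ.2, (le_abs_self _).trans a3⟩)
  have b2 := h2 T hT ((S.filter fun ρ => ρ.im < 0).image conj) (by
    intro ρ hρ
    rw [Finset.mem_image] at hρ
    obtain ⟨r, hr, rfl⟩ := hρ
    rw [Finset.mem_filter] at hr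
    obtain ⟨a1, a2, a3⟩ := hS r hr.1
    refine ⟨?_, ?_, ?_, ?_⟩
    · rw [Complex.conj_conj, a1, map_zero]
    · rw [Complex.conj_re]
      exact a2
    · rw [Complex.conj_im]
      linarith [hr.2]
    · rw [Complex.conj_im]
      exact (neg_le_abs _).trans a3)
  rw [Finset.card_image_of_injective _ (starRingEnd ℂ).injective] at b2
  have b3 : ((S.filter fun ρ => ρ.im = 0).card : ℝ) ≤ R := by
    rw [hR]
    have : S.filter (fun ρ => ρ.im = 0) ⊆ hfin.toFinset := by
      intro ρ hρ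
      rw [Finset.mem_filter] at hρ
      rw [Set.Finite.mem_toFinset]
      obtain ⟨a1, a2, a3⟩ := hS ρ hρ.1
      refine ⟨a1, a2, ?_, hρ.2⟩
      by_contra hc
      exact h.ne ρ (not_le.1 hc) a1
    exact_mod_cast Finset.card_le_card this
  have hcov : S = (S.filter fun ρ => 0 < ρ.im) ∪ ((S.filter fun ρ => ρ.im < 0) ∪ (S.filter fun ρ => ρ.im = 0)) := by
    ext ρ
    simp only [Finset.mem_union, Finset.mem_filter]
    constructor
    · intro hρ
      rcases lt_trichotomy ρ.im 0 with h5 | h5 | h5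
      · exact Or.inr (Or.inl ⟨hρ, h5⟩)
      · exact Or.inr (Or.inr ⟨hρ, h5⟩)
      · exact Or.inl ⟨hρ, h5⟩
    · rintro (h5 | h5 | h5) <;> exact h5.1
  have hle : (S.card : ℝ) ≤ (S.filter fun ρ => 0 < ρ.im).card + ((S.filter fun ρ => ρ.im < 0).card +
      (S.filter fun ρ => ρ.im = 0).card) := by
    have e1 := Finset.card_union_le (S.filter fun ρ => 0 < ρ.im)
      ((S.filter fun ρ => ρ.im < 0) ∪ (S.filter fun ρ => ρ.im = 0))
    have e2 := Finset.card_union_le (S.filter fun ρ => ρ.im < 0) (S.filter fun ρ => ρ.im = 0)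
    rw [← hcov] at e1
    exact_mod_cast e1.trans (Nat.add_le_add_left e2 _)
  have hR0 : 0 ≤ R := by rw [hR]; exact Nat.cast_nonneg _
  have b4 : R ≤ R * T ^ (1 - d / 4) := le_mul_of_one_le_right hR0 hT1
  calc (S.card : ℝ) ≤ _ := hle
    _ ≤ C1 * T ^ (1 - d / 4) + (C2 * T ^ (1 - d / 4) + R * T ^ (1 - d / 4)) := by linarith
    _ = _ := by ring

end Pool.Agent.Run7.h456.Win
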