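import Mathlib
import Pool.Agent.Run7.h456.Win.FrmD
import Pool.Agent.Run7.h456.Win.Conv1

/-!
# Density of zeros for forms with the exponent `1 - d + o(1)`
-/

set_option autoImplicit false

open Complex MeasureTheory Set Filter Topology
open scoped ComplexConjugate

namespace Pool.Agent.Run7.h456.Win

open Pool.Agent.Y671.GL (Frm IsL Ph aa)
open Pool.Agent.Y24.GL (LFn ZF)

variable {k N : ℕ} {ps lam : ℕ → ℂ} {F : ℂ → ℂ}

theorem zf_cardE (hf : Frm k N ps lam) (hL : IsL lam F) (h : LFn F) {d : ℝ} (hd : 0 < d) (hd1 : d ≤ 1 / 2)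
    {e : ℝ} (he : 1 - d < e) (he1 : e ≤ 1 - d / 2) :
    ∃ C : ℝ, 0 < C ∧ ∀ T : ℝ, 1 ≤ T → ∀ S : Finset ℂ, (∀ ρ ∈ S, F ρ = 0 ∧ 1 / 2 + d ≤ ρ.re ∧ 0 < ρ.im ∧ ρ.im ≤ T) →
      (S.card : ℝ) ≤ C * T ^ e := by
  obtain ⟨c, hcdef⟩ : ∃ c : ℝ, c = (1 - e + d) / (2 * d) := ⟨_, rfl⟩
  have hcd : c * d = (1 - e + d) / 2 := by
    rw [hcdef]
    field_simp
  have hc1 : c < 1 := by
    rw [hcdef, div_lt_one (by linarith)]
    linarith
  obtain ⟨g, hg⟩ : ∃ g : ℝ, g = (e - (1 - d)) / 2 := ⟨_, rfl⟩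
  have hg0 : 0 < g := by rw [hg]; linarith
  obtain ⟨C, hC, hden⟩ := Pool.Agent.Y24.GL.density h
    (fun κ h1 h2 => Pool.Agent.Y24.GL.mol hf hL (by linarith) h2.le) (c := c) hc1
  refine ⟨C * 2 ^ e * (1 / g), by positivity, fun T hT S hS => ?_⟩
  have hF0 : ∃ z : ℂ, F z ≠ 0 := ⟨2, h.ne 2 (by simp)⟩
  obtain ⟨h1, h2⟩ := hden (1 / 2 + d) (2 * T) (by linarith) (by linarith) (by linarith)
  rw [add_sub_cancel_left, finsum_mem_eq_finite_toFinset_sum _ h1] at h2
  have hsub : S ⊆ h1.toFinset := by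
    intro ρ hρ
    obtain ⟨a1, a2, a3, a4⟩ := hS ρ hρ
    rw [Set.Finite.mem_toFinset]
    exact ⟨a1, a2, a3, by linarith⟩
  have hpos : ∀ ρ ∈ h1.toFinset, (1 : ℝ) ≤ (analyticOrderNatAt F ρ : ℝ) := by
    intro ρ hρ
    rw [Set.Finite.mem_toFinset] at hρ
    have hρ0 : F ρ = 0 := hρ.1
    have han : AnalyticAt ℂ F ρ := h.diff.analyticAt ρ
    have hne : analyticOrderAt F ρ ≠ ⊤ := by
      intro htop
      obtain ⟨z, hz⟩ := hF0
      apply hz
      have hon : AnalyticOnNhd ℂ F univ := fun z _ => h.diff.analyticAt z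
      rw [analyticOrderAt_eq_top] at htop
      exact hon.eqOn_zero_of_preconnected_of_eventuallyEq_zero isPreconnected_univ (mem_univ ρ) htop (mem_univ z)
    have hne0 : analyticOrderAt F ρ ≠ 0 := by
      rw [Ne, han.analyticOrderAt_eq_zero]
      exact fun hh => hh hρ0
    have : analyticOrderNatAt F ρ ≠ 0 := by
      unfold analyticOrderNatAt
      intro hz
      rcases ENat.toNat_eq_zero.1 hz with h5 | h5
      · exact hne0 h5
      · exact hne h5
    exact_mod_cast Nat.one_le_iff_ne_zero.2 this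
  have h3 : (S.card : ℝ) ≤ ∑ ρ ∈ h1.toFinset, (analyticOrderNatAt F ρ : ℝ) := by
    calc (S.card : ℝ) ≤ h1.toFinset.card := by exact_mod_cast Finset.card_le_card hsub
      _ = ∑ ρ ∈ h1.toFinset, (1 : ℝ) := by simp
      _ ≤ _ := Finset.sum_le_sum hpos
  have h4 : Real.log (2 * T) ≤ (2 * T) ^ g / g := Real.log_le_rpow_div (by linarith) hg0
  have h5 : (0 : ℝ) ≤ Real.log (2 * T) := Real.log_nonneg (by linarith)
  calc (S.card : ℝ) ≤ C * (2 * T) ^ (1 - c * d) * Real.log (2 * T) := h3.trans h2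
    _ ≤ C * (2 * T) ^ (1 - c * d) * ((2 * T) ^ g / g) :=
      mul_le_mul_of_nonneg_left h4 (by positivity)
    _ = C * ((2 * T) ^ (1 - c * d) * (2 * T) ^ g) * (1 / g) := by field_simp
    _ = C * (2 * T) ^ e * (1 / g) := by
      rw [← Real.rpow_add (by linarith)]
      congr 3
      rw [hcd, hg]
      ring
    _ = _ := by
      rw [Real.mul_rpow (by norm_num) (by linarith)]
      ring

/-- **Density.** -/
theorem densE_frm (hf : Frm k N ps lam) (hL : IsL lam F) (h : LFn F) : DensE F := by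
  classical
  intro d hd e' he'
  rcases le_or_gt d (1 / 2) with hd1 | hd1
  swap
  · refine ⟨0, fun T hT S hS => ?_⟩
    have : S = ∅ := by
      rw [Finset.eq_empty_iff_forall_notMem]
      intro ρ hρ
      obtain ⟨h1, h2, -⟩ := hS ρ hρ
      exact h.ne ρ (by linarith) h1
    rw [this]
    simp
  obtain ⟨e, hedef⟩ : ∃ e : ℝ, e = min e' (1 - d / 2) := ⟨_, rfl⟩
  have he : 1 - d < e := by
    rw [hedef]
    exact lt_min he' (by linarith)
  have he1 : e ≤ 1 - d / 2 := by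
    rw [hedef]
    exact min_le_right _ _
  have hee : e ≤ e' := by
    rw [hedef]
    exact min_le_left _ _
  obtain ⟨C1, hC1, h1⟩ := zf_cardE hf hL h hd hd1 he he1
  obtain ⟨C2, hC2, h2⟩ := zf_cardE (frm_conj hf) (isL_conj hL) (lfn_conj h) hd hd1 he he1
  have hfin := real_zeros h.diff ⟨2, h.ne 2 (by simp)⟩ (1 / 2 + d) 1
  set R : ℝ := (hfin.toFinset.card : ℝ) with hR
  refine ⟨C1 + C2 + R, fun T hT S hS => ?_⟩
  have hT1 : 1 ≤ T ^ e := Real.one_le_rpow hT (by linarith)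
  have b1 := h1 T hT (S.filter fun ρ => 0 < ρ.im) (by
    intro ρ hρ
    rw [Finset.mem_filter] at hρ
    obtain ⟨a1, a2, a3⟩ := hS ρ hρ.1
    exact ⟨a1, a2, hρ.2, (le_abs_self _).trans a3⟩)
  have b2 := h2 T hT ((S.filter fun ρ => ρ.im < 0).image conj) (by
    intro ρ hρ
    rw [Finset.mem_image] at hρ
    obtain ⟨r, hr, rfl⟩ := hρ
    rw [Finset.mem_filter] at hr
    obtain ⟨a1, a2, a3⟩ := hS r hr.1
    refine ⟨?_, ?_, ?_, ?_⟩
    · rw [Complex.conj_conj, a1, map_zero]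
    · rw [Complex.conj_re]
      exact a2
    · rw [Complex.conj_im]
      linarith [hr.2]
    · rw [Complex.conj_im]
      exact (neg_le_abs _).trans a3)
  rw [Finset.card_image_of_injective _ (starRingEnd ℂ).injective] at b2
  have b3 : ((S.filter fun ρ => ρ.im = 0).card : ℝ) ≤ R := by
    rw [hR]
    have : S.filter (fun ρ => ρ.im = 0) ⊆ hfin.toFinset := by
      intro ρ hρ
      rw [Finset.mem_filter] at hρ
      rw [Set.Finite.mem_toFinset]
      obtain ⟨a1, a2, a3⟩ := hS ρ hρ.1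
      refine ⟨a1, a2, ?_, hρ.2⟩
      by_contra hc
      exact h.ne ρ (not_le.1 hc) a1
    exact_mod_cast Finset.card_le_card this
  have hcov : S = (S.filter fun ρ => 0 < ρ.im) ∪ ((S.filter fun ρ => ρ.im < 0) ∪ (S.filter fun ρ => ρ.im = 0)) := by
    ext ρ
    simp only [Finset.mem_union, Finset.mem_filter]
    constructor
    · intro hρ
      rcases lt_trichotomy ρ.im 0 with h5 | h5 | h5
      · exact Or.inr (Or.inl ⟨hρ, h5⟩)
      · exact Or.inr (Or.inr ⟨hρ, h5⟩)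
      · exact Or.inl ⟨hρ, h5⟩
    · rintro (h5 | h5 | h5) <;> exact h5.1
  have hle : (S.card : ℝ) ≤ (S.filter fun ρ => 0 < ρ.im).card + ((S.filter fun ρ => ρ.im < 0).card +
      (S.filter fun ρ => ρ.im = 0).card) := by
    have e1 := Finset.card_union_le (S.filter fun ρ => 0 < ρ.im)
      ((S.filter fun ρ => ρ.im < 0) ∪ (S.filter fun ρ => ρ.im = 0))
    have e2 := Finset.card_union_le (S.filter fun ρ => ρ.im < 0) (S.filter fun ρ => ρ.im = 0)
    rw [← hcov] at e1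
    exact_mod_cast e1.trans (Nat.add_le_add_left e2 _)
  have hR0 : 0 ≤ R := by rw [hR]; exact Nat.cast_nonneg _
  have b4 : R ≤ R * T ^ e := le_mul_of_one_le_right hR0 hT1
  calc (S.card : ℝ) ≤ _ := hle
    _ ≤ C1 * T ^ e + (C2 * T ^ e + R * T ^ e) := by linarith
    _ = (C1 + C2 + R) * T ^ e := by ring
    _ ≤ _ := mul_le_mul_of_nonneg_left (Real.rpow_le_rpow_of_exponent_le hT hee)
      (add_nonneg (add_nonneg hC1.le hC2.le) hR0)

end Pool.Agent.Run7.h456.Win
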