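import Mathlib
import Pool.Agent.Run7.h456.Win.FrmD
import Pool.Agent.W22.TC.Dir

/-!
# The criterion for newforms and their twists
-/

set_option autoImplicit false

open MeasureTheory Set Filter Topology Complex
open scoped ComplexConjugate

namespace Pool.Agent.Run7.h456.Win

open Pool.Agent.Y671.GL (Frm IsL)
open Pool.Agent.Y24.GL (LFn)
open W388 (HeckeSeq cS RSLim CMul)

/-! ### the coefficients of the logarithmic derivative -/

theorem minFac_pow {p j : ℕ} (hp : p.Prime) (hj : j ≠ 0) : (p ^ j).minFac = p := hp.pow_minFac hj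

theorem cS_one {N : ℕ} {lam : ℕ → ℝ} {p : ℕ} (hp : p.Prime) : cS N lam p = lam p := by
  unfold W388.cS
  have h : ¬ (p.minFac ^ 2 ∣ p ∧ ¬ p.minFac ∣ N) := by
    rw [hp.minFac_eq]
    rintro ⟨h1, -⟩
    have := Nat.le_of_dvd hp.pos h1
    have := hp.two_le
    nlinarith
  rw [if_neg h, sub_zero]

theorem cS_pow {N : ℕ} {lam : ℕ → ℝ} {p : ℕ} (hp : p.Prime) (j : ℕ) :
    cS N lam (p ^ (j + 2)) = lam (p ^ (j + 2)) - (if p ∣ N then 0 else lam (p ^ j)) := by
  unfold W388.cS
  rw [minFac_pow hp (by omega)]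
  have h1 : p ^ 2 ∣ p ^ (j + 2) := pow_dvd_pow p (by omega)
  have h2 : p ^ (j + 2) / p ^ 2 = p ^ j := Nat.pow_div (by omega) hp.pos
  by_cases h : p ∣ N
  · rw [if_neg (by tauto), if_pos h]
  · rw [if_pos ⟨h1, h⟩, if_neg h, h2]

/-- The bound `|α^j + β^j| ≤ 2`. -/
theorem cS_le {N : ℕ} {lam : ℕ → ℝ} (h : HeckeSeq N lam) {p : ℕ} (hp : p.Prime)
    (h1 : ¬ p ∣ N → |lam p| ≤ 2) (h2 : p ∣ N → |lam p| ≤ 1) (j : ℕ) (hj : j ≠ 0) : |cS N lam (p ^ j)| ≤ 2 := by
  by_cases hN : p ∣ N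
  · have hpow : ∀ i : ℕ, lam (p ^ (i + 1)) = lam p ^ (i + 1) := by
      intro i
      induction i with
      | zero => simp
      | succ i ih =>
        have := h.pow p i hp
        rw [if_pos hN, sub_zero, ih] at this
        rw [show i + 1 + 1 = i + 2 by ring, this]
        ring
    have hle : ∀ i : ℕ, |lam p ^ i| ≤ 1 := by
      intro i
      rw [abs_pow]
      exact pow_le_one₀ (abs_nonneg _) (h2 hN)
    rcases j with _ | _ | j
    · exact absurd rfl hj
    · rw [zero_add, pow_one, cS_one hp]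
      exact (h2 hN).trans (by norm_num)
    · rw [show j + 1 + 1 = j + 2 by ring, cS_pow hp, if_pos hN, sub_zero, show j + 2 = (j + 1) + 1 by ring, hpow]
      exact (hle _).trans (by norm_num)
  · obtain ⟨φ, hφ⟩ : ∃ φ : ℝ, lam p = 2 * Real.cos φ := by
      refine ⟨Real.arccos (lam p / 2), ?_⟩
      have := abs_le.1 (h1 hN)
      rw [Real.cos_arccos (by linarith) (by linarith)]
      ring
    have hrec : ∀ i : ℕ, cS N lam (p ^ (i + 1)) = 2 * Real.cos ((i + 1 : ℕ) * φ) ∧
        cS N lam (p ^ (i + 2)) = 2 * Real.cos ((i + 2 : ℕ) * φ) := by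
      intro i
      induction i with
      | zero =>
        refine ⟨?_, ?_⟩
        · rw [zero_add, pow_one, cS_one hp, hφ]
          simp
        · have := h.pow p 0 hp
          rw [if_neg hN, zero_add, pow_one, pow_zero, h.one, hφ] at this
          rw [cS_pow hp, if_neg hN, zero_add, pow_zero, h.one, this]
          push_cast
          rw [Real.cos_two_mul]
          ring
      | succ i ih =>
        refine ⟨ih.2, ?_⟩
        have e0 : cS N lam (p ^ (i + 3)) = lam p * cS N lam (p ^ (i + 2)) - cS N lam (p ^ (i + 1)) := by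
          rw [show i + 3 = (i + 1) + 2 by ring, cS_pow hp, cS_pow hp, if_neg hN, if_neg hN, h.pow p (i + 1) hp,
            if_neg hN]
          rcases i with _ | i
          · have := h.pow p 0 hp
            rw [if_neg hN, zero_add, pow_one, pow_zero, h.one] at this
            rw [zero_add, pow_one, cS_one hp, pow_zero, h.one, show 1 + 1 = 2 by norm_num]
            ring
          · rw [show i + 1 + 1 = i + 2 by ring, cS_pow hp, if_neg hN, h.pow p i hp, if_neg hN,
              show i + 1 + 2 = i + 2 + 1 by ring]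
            have := h.pow p (i + 1) hp
            ring
        rw [show i + 1 + 2 = i + 3 by ring, e0, ih.1, ih.2, hφ]
        have e1 : ((i + 3 : ℕ) : ℝ) * φ = ((i + 2 : ℕ) : ℝ) * φ + φ := by push_cast; ring
        have e2 : ((i + 1 : ℕ) : ℝ) * φ = ((i + 2 : ℕ) : ℝ) * φ - φ := by push_cast; ring
        rw [e1, e2, Real.cos_add, Real.cos_sub]
        ring
    have hfin : cS N lam (p ^ j) = 2 * Real.cos ((j : ℕ) * φ) := by
      rcases j with _ | j
      · exact absurd rfl hj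
      · exact (hrec j).1
    rw [hfin, abs_mul, abs_two]
    have := Real.abs_cos_le_one ((j : ℕ) * φ)
    linarith

theorem cS_vm {N : ℕ} {lam : ℕ → ℝ} (h : HeckeSeq N lam)
    (h1 : ∀ p : ℕ, p.Prime → ¬ p ∣ N → |lam p| ≤ 2) (h2 : ∀ p : ℕ, p.Prime → p ∣ N → |lam p| ≤ 1) (n : ℕ) :
    |cS N lam n| * ArithmeticFunction.vonMangoldt n ≤ 2 * ArithmeticFunction.vonMangoldt n := by
  by_cases hn : IsPrimePow n
  · obtain ⟨p, j, hp, hj, rfl⟩ := hn
    exact mul_le_mul_of_nonneg_right (cS_le h hp.nat_prime (h1 p hp.nat_prime) (h2 p hp.nat_prime) j (by omega))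
      ArithmeticFunction.vonMangoldt_nonneg
  · rw [ArithmeticFunction.vonMangoldt_eq_zero_iff.2 hn]
    simp

theorem summ_of_vm {c : ℕ → ℂ} {K : ℝ} (hc : ∀ n, ‖c n‖ ≤ K * ArithmeticFunction.vonMangoldt n) {σ : ℝ}
    (hσ : 1 < σ) : Summable fun n : ℕ => ‖c n‖ * (n : ℝ) ^ (-σ) := by
  have h1 := ArithmeticFunction.LSeriesSummable_vonMangoldt (s := (σ : ℂ)) (by simpa using hσ)
  have h2 : Summable fun n : ℕ => K * ‖LSeries.term (fun n => (ArithmeticFunction.vonMangoldt n : ℂ)) σ n‖ :=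
    h1.norm.mul_left K
  refine h2.of_nonneg_of_le (fun n => by positivity) fun n => ?_
  rcases Nat.eq_zero_or_pos n with rfl | hn
  · have := hc 0
    simp only [ArithmeticFunction.map_zero, mul_zero] at this
    have h3 : ‖c 0‖ = 0 := le_antisymm this (norm_nonneg _)
    rw [h3]
    simp
  · have hn0 : (0 : ℝ) < n := by exact_mod_cast hn
    rw [LSeries.norm_term_eq, if_neg hn.ne', Complex.norm_real, Real.norm_eq_abs,
      abs_of_nonneg ArithmeticFunction.vonMangoldt_nonneg, Complex.ofReal_re, Real.rpow_neg hn0.le, ← div_eq_mul_inv,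
      ← mul_div_assoc]
    exact div_le_div_of_nonneg_right (hc n) (by positivity)

/-! ### newforms -/

section newf

open Pool.Agent.R838.NB (lmc red_lmc p_dirG exists_LC frm_twc lxc)

variable {N : ℕ} [NeZero N] {k : ℕ} {ψ : DirichletCharacter ℂ N}
  {f : CuspForm (CongruenceSubgroup.Gamma1 N : Subgroup (Matrix.GeneralLinearGroup (Fin 2) ℝ)) (k : ℤ)} {η : ℂ}
variable {q : ℕ} [NeZero q] {χ : DirichletCharacter ℂ q}

/-- growth in the form used here -/
theorem growth_of {F : ℂ → ℂ} (h : LFn F) {A : ℝ} (hA : ∀ s : ℂ, 3 / 2 ≤ s.re → ‖F s‖ ≤ A) :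
    ∃ A : ℝ, 1 ≤ A ∧ ∀ s : ℂ, 1 / 4 ≤ s.re → ‖F s‖ ≤ A * (2 + ‖s‖) ^ A := by
  obtain ⟨C, B, hC, hg⟩ := h.gro 2
  refine ⟨max 1 (max |A| (max C B)), le_max_left _ _, fun s hs => ?_⟩
  set D : ℝ := max 1 (max |A| (max C B)) with hD
  have hD1 : 1 ≤ D := le_max_left _ _
  have hDA : |A| ≤ D := (le_max_left _ _).trans (le_max_right _ _)
  have hDC : C ≤ D := (le_max_left _ _).trans ((le_max_right _ _).trans (le_max_right _ _))
  have hDB : (B : ℝ) ≤ D := (le_max_right _ _).trans ((le_max_right _ _).trans (le_max_right _ _))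
  have hp : (1 : ℝ) ≤ 2 + ‖s‖ := by linarith [norm_nonneg s]
  rcases le_or_gt s.re 2 with h2 | h2
  · refine (hg s hs h2).trans ?_
    have h3 : (1 + |s.im|) ^ B ≤ (2 + ‖s‖) ^ D := by
      calc (1 + |s.im|) ^ B ≤ (2 + ‖s‖) ^ B := by
            refine pow_le_pow_left₀ (by positivity) ?_ B
            linarith [Complex.abs_im_le_norm s]
        _ = (2 + ‖s‖) ^ (B : ℝ) := (Real.rpow_natCast _ _).symm
        _ ≤ _ := Real.rpow_le_rpow_of_exponent_le hp hDB
    exact mul_le_mul hDC h3 (by positivity) (by linarith)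
  · refine (hA s (by linarith)).trans ?_
    have h3 : 1 ≤ (2 + ‖s‖) ^ D := Real.one_le_rpow hp (by linarith)
    calc A ≤ |A| := le_abs_self A
      _ ≤ D * 1 := by rw [mul_one]; exact hDA
      _ ≤ _ := mul_le_mul_of_nonneg_left h3 (by linarith)

/-- **Newforms (with Deligne's bound) and their twists.** -/
theorem newf_data (hk : 1 ≤ k) (hf : W388.IsNewfC N k ψ f η) (hχ : χ.IsPrimitive) (hco : Nat.Coprime q N)
    (hD1 : ∀ p : ℕ, p.Prime → ¬ p ∣ N → ‖lmc f p‖ ≤ 2) (hD2 : ∀ p : ℕ, p.Prime → p ∣ N → ‖lmc f p‖ ≤ 1) :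
    ∃ (F : ℂ → ℂ) (c : ℕ → ℂ), W388.FE2 k N q F ∧ IsL (lxc f χ) F ∧ LD 0 c F ∧ Dens F ∧
      (∀ n, ‖c n‖ ≤ 2 * ArithmeticFunction.vonMangoldt n) ∧
      ∀ p : ℕ, p.Prime → c p = χ (p : ZMod q) * lmc f p * (Real.log p : ℂ) := by
  obtain ⟨F, hFE, hL⟩ := exists_LC hk hf hχ hco
  have hfm := frm_twc hk hf hχ hco
  have hN1 : (1 : ℝ) ≤ N := by exact_mod_cast Nat.one_le_iff_ne_zero.2 (NeZero.ne N)
  have hq1 : (1 : ℝ) ≤ q := by exact_mod_cast Nat.one_le_iff_ne_zero.2 (NeZero.ne q)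
  have hlfn := Pool.Agent.R838.TW.lfn_of hk hN1 hq1 hFE hfm hL
  have hN : 0 < N := Nat.pos_of_ne_zero (NeZero.ne N)
  obtain ⟨θ, lam, hθ, hθ1, hθ2, hH, hR, hlam⟩ := red_lmc hk hf
  obtain ⟨A, hA1, hA2, hA3, h⟩ := p_dirG N hN lam hH hR
  obtain ⟨e1, e2, e3, e4, e5, e6⟩ := h _ (W388.cmul_twist hθ χ) F (fun s hs => by
    rw [hL.ser s hs]
    refine tsum_congr fun n => ?_
    unfold Pool.Agent.R838.NB.lxc
    rw [hlam n]; ring)
  have hlamp : ∀ p : ℕ, p.Prime → |lam p| = ‖lmc f p‖ := by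
    intro p hp
    rw [hlam p, norm_mul, hθ1 p hp.ne_zero, one_mul, Complex.norm_real, Real.norm_eq_abs]
  obtain ⟨c, hcdef⟩ : ∃ c : ℕ → ℂ, c = fun n : ℕ => (χ (n : ZMod q) * θ n) * (cS N lam n : ℂ) *
    (ArithmeticFunction.vonMangoldt n : ℂ) := ⟨_, rfl⟩
  have hcn : ∀ n, ‖c n‖ ≤ 2 * ArithmeticFunction.vonMangoldt n := by
    intro n
    rw [hcdef]
    simp only
    rw [norm_mul, norm_mul, Complex.norm_real, Complex.norm_real, Real.norm_eq_abs, Real.norm_eq_abs,
      abs_of_nonneg (ArithmeticFunction.vonMangoldt_nonneg (n := n))]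
    have g1 : ‖χ (n : ZMod q) * θ n‖ ≤ 1 := (W388.cmul_twist hθ χ).le n
    have g2 := cS_vm hH (fun p hp hpN => by rw [hlamp p hp]; exact hD1 p hp hpN)
      (fun p hp hpN => by rw [hlamp p hp]; exact hD2 p hp hpN) n
    have g3 : 0 ≤ |cS N lam n| * ArithmeticFunction.vonMangoldt n :=
      mul_nonneg (abs_nonneg _) ArithmeticFunction.vonMangoldt_nonneg
    calc ‖χ (n : ZMod q) * θ n‖ * |cS N lam n| * ArithmeticFunction.vonMangoldt n =
        ‖χ (n : ZMod q) * θ n‖ * (|cS N lam n| * ArithmeticFunction.vonMangoldt n) := by ring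
      _ ≤ 1 * (|cS N lam n| * ArithmeticFunction.vonMangoldt n) := mul_le_mul_of_nonneg_right g1 g3
      _ ≤ _ := by rw [one_mul]; exact g2
  refine ⟨F, c, hFE, hL, ?_, dens_frm hfm hL hlfn, hcn, ?_⟩
  · exact
      { diff := hL.diff
        c0 := by
          intro n hn
          have : ArithmeticFunction.vonMangoldt n = 0 := by
            interval_cases n <;> simp
          have h3 := hcn n
          rw [this, mul_zero] at h3
          exact norm_le_zero_iff.1 h3
        summ := fun σ hσ => summ_of_vm hcn hσ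
        ne := e2
        ld := by
          intro s hs
          rw [e3 s hs, Nat.cast_zero, zero_div, zero_sub, hcdef]
        growth := growth_of hlfn e4
        lower := ⟨A⁻¹, by positivity, e5⟩ }
  · intro p hp
    rw [hcdef]
    simp only
    rw [cS_one hp, ArithmeticFunction.vonMangoldt_apply_prime hp, hlam p]
    ring

end newf

end Pool.Agent.Run7.h456.Win
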