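import Mathlib
import Pool.Agent.Run7.h456.Win.FrmE
import Pool.Agent.Run7.h456.Win.PrimeR
import Pool.Agent.Run7.h456.Win.Newf
import Pool.Agent.R838.TW.Part

/-!
# Data of an L-function, products, and newforms
-/

set_option autoImplicit false

open MeasureTheory Set Filter Topology Complex
open scoped ComplexConjugate

namespace Pool.Agent.Run7.h456.Win

open Pool.Agent.Y671.GL (Frm IsL)
open Pool.Agent.Y24.GL (LFn)
open W388 (HeckeSeq cS RSLim CMul)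

/-- everything that is used -/
structure Dat (δ : ℕ) (K : ℝ) (c : ℕ → ℂ) (F : ℂ → ℂ) : Prop where
  ld : LD δ c F
  dens : DensE F
  bd : ∀ n, ‖c n‖ ≤ K * ArithmeticFunction.vonMangoldt n
  K0 : 0 ≤ K

section prod

variable {δ1 δ2 : ℕ} {c1 c2 : ℕ → ℂ} {F1 F2 : ℂ → ℂ} {K1 K2 : ℝ}

theorem LD.mul (h1 : LD δ1 c1 F1) (h2 : LD δ2 c2 F2) :
    LD (δ1 + δ2) (fun n => c1 n + c2 n) (fun s => F1 s * F2 s) where
  diff := h1.diff.mul h2.diff
  c0 n hn := by rw [h1.c0 n hn, h2.c0 n hn, add_zero]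
  summ σ hσ := by
    refine ((h1.summ σ hσ).add (h2.summ σ hσ)).of_nonneg_of_le (fun n => by positivity) fun n => ?_
    rw [← add_mul]
    exact mul_le_mul_of_nonneg_right (norm_add_le _ _) (by positivity)
  ne s hs := mul_ne_zero (h1.ne s hs) (h2.ne s hs)
  ld s hs := by
    have n1 := h1.ne s hs
    have n2 := h2.ne s hs
    have sm : ∀ {c : ℕ → ℂ}, (Summable fun n : ℕ => ‖c n‖ * (n : ℝ) ^ (-s.re)) → (∀ n : ℕ, n ≤ 1 → c n = 0) →
        Summable fun n : ℕ => c n * (n : ℂ) ^ (-s) := by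
      intro c hc h0
      refine Summable.of_norm (hc.congr fun n => ?_)
      rcases Nat.eq_zero_or_pos n with rfl | hn
      · rw [h0 0 (by norm_num)]
        simp
      · rw [norm_mul, Complex.norm_natCast_cpow_of_pos hn, Complex.neg_re]
    have e1 : deriv (fun s => F1 s * F2 s) s = deriv F1 s * F2 s + F1 s * deriv F2 s :=
      deriv_fun_mul (h1.diff s) (h2.diff s)
    have e2 : deriv (fun s => F1 s * F2 s) s / (F1 s * F2 s) = deriv F1 s / F1 s + deriv F2 s / F2 s := by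
      rw [e1]
      field_simp
    have e3 : ∑' n : ℕ, (c1 n + c2 n) * (n : ℂ) ^ (-s) =
        ∑' n : ℕ, c1 n * (n : ℂ) ^ (-s) + ∑' n : ℕ, c2 n * (n : ℂ) ^ (-s) := by
      rw [← (sm (h1.summ s.re hs) h1.c0).tsum_add (sm (h2.summ s.re hs) h2.c0)]
      exact tsum_congr fun n => by ring
    rw [e2, h1.ld s hs, h2.ld s hs, e3]
    push_cast
    ring
  growth := by
    obtain ⟨A, hA, hg⟩ := h1.growth
    obtain ⟨B, hB, hg'⟩ := h2.growth
    refine ⟨A * B + A + B, by nlinarith, fun s hs => ?_⟩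
    have hp : (1 : ℝ) ≤ 2 + ‖s‖ := by linarith [norm_nonneg s]
    have hAB : A * B ≤ A * B + A + B := by linarith
    rw [norm_mul]
    calc ‖F1 s‖ * ‖F2 s‖ ≤ (A * (2 + ‖s‖) ^ A) * (B * (2 + ‖s‖) ^ B) :=
          mul_le_mul (hg s hs) (hg' s hs) (norm_nonneg _) (by positivity)
      _ = (A * B) * (2 + ‖s‖) ^ (A + B) := by
          rw [Real.rpow_add (by linarith)]
          ring
      _ ≤ (A * B + A + B) * (2 + ‖s‖) ^ (A * B + A + B) := by
          refine mul_le_mul hAB (Real.rpow_le_rpow_of_exponent_le hp ?_) (by positivity) (by positivity)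
          have : 0 ≤ A * B := by positivity
          linarith
  lower := by
    obtain ⟨A, hA, hg⟩ := h1.lower
    obtain ⟨B, hB, hg'⟩ := h2.lower
    refine ⟨A * B, by positivity, fun s hs => ?_⟩
    rw [norm_mul]
    exact mul_le_mul (hg s hs) (hg' s hs) hB.le (norm_nonneg _)

theorem DensE.mul (h1 : DensE F1) (h2 : DensE F2) : DensE (fun s => F1 s * F2 s) := by
  classical
  intro d hd e he
  obtain ⟨C1, hC1⟩ := h1 d hd e he
  obtain ⟨C2, hC2⟩ := h2 d hd e he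
  refine ⟨C1 + C2, fun T hT S hS => ?_⟩
  have b1 := hC1 T hT (S.filter fun ρ => F1 ρ = 0) (by
    intro ρ hρ
    rw [Finset.mem_filter] at hρ
    exact ⟨hρ.2, (hS ρ hρ.1).2⟩)
  have b2 := hC2 T hT (S.filter fun ρ => ¬ F1 ρ = 0) (by
    intro ρ hρ
    rw [Finset.mem_filter] at hρ
    refine ⟨?_, (hS ρ hρ.1).2⟩
    exact (mul_eq_zero.1 (hS ρ hρ.1).1).resolve_left hρ.2)
  have hcard := Finset.card_filter_add_card_filter_not (s := S) (fun ρ => F1 ρ = 0)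
  have : (S.card : ℝ) = (S.filter fun ρ => F1 ρ = 0).card + (S.filter fun ρ => ¬ F1 ρ = 0).card := by
    exact_mod_cast hcard.symm
  rw [this, add_mul]
  exact add_le_add b1 b2

theorem Dat.mul (h1 : Dat δ1 K1 c1 F1) (h2 : Dat δ2 K2 c2 F2) :
    Dat (δ1 + δ2) (K1 + K2) (fun n => c1 n + c2 n) (fun s => F1 s * F2 s) where
  ld := h1.ld.mul h2.ld
  dens := h1.dens.mul h2.dens
  bd n := by
    rw [add_mul]
    exact (norm_add_le _ _).trans (add_le_add (h1.bd n) (h2.bd n))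
  K0 := add_nonneg h1.K0 h2.K0

/-- finite products, with multiplicities given by repetition in the index type -/
theorem Dat.prod {ι : Type*} (s : Finset ι) (hs : s.Nonempty) {δ : ι → ℕ} {K : ι → ℝ} {c : ι → ℕ → ℂ} {F : ι → ℂ → ℂ}
    (h : ∀ j ∈ s, Dat (δ j) (K j) (c j) (F j)) :
    Dat (∑ j ∈ s, δ j) (∑ j ∈ s, K j) (fun n => ∑ j ∈ s, c j n) (fun z => ∏ j ∈ s, F j z) := by
  classical
  induction hs using Finset.Nonempty.cons_induction with
  | singleton a => simpa using h a (by simp)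
  | cons a s ha hs ih =>
    have h1 := h a (by simp)
    have h2 := ih fun j hj => h j (by simp [hj])
    have := h1.mul h2
    simpa only [Finset.sum_cons, Finset.prod_cons] using this

/-- **The criterion and the omega theorem**, in the form used for the results. -/
theorem Dat.crit {δ : ℕ} {K : ℝ} {c a : ℕ → ℂ} {F : ℂ → ℂ} {P0 : ℕ} {ν θ : ℝ} (h : Dat δ K c F)
    (hθ : 1 / 2 ≤ θ) (hθ1 : θ ≤ 1) (hν : 0 ≤ ν)
    (ha : ∀ n : ℕ, P0 < n → a n = (((n : ℝ) ^ ν / Real.log n : ℝ) : ℂ) * ((if n.Prime then c n else 0) - δ)) :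
    ((∀ ρ : ℂ, F ρ = 0 → ρ.re ≤ θ) ↔ ∀ ε : ℝ, 0 < ε → ∃ᶠ X : ℝ in atTop, Win1 0 a (θ + ν + ε) (wid θ + ε) X) ∧
      ((∀ ρ : ℂ, F ρ = 0 → ρ.re ≤ θ) ↔ ∀ ε : ℝ, 0 < ε → ∀ᶠ X : ℝ in atTop, Win1 0 a (θ + ν + ε) 0 X) :=
  crit1 h.ld h.dens h.bd h.K0 hθ hθ1 hν ha

theorem Dat.omega {δ : ℕ} {K : ℝ} {c a : ℕ → ℂ} {F : ℂ → ℂ} {P0 : ℕ} {ν μ τ : ℝ} (h : Dat δ K c F) (hν : 0 ≤ ν)
    (ha : ∀ n : ℕ, P0 < n → a n = (((n : ℝ) ^ ν / Real.log n : ℝ) : ℂ) * ((if n.Prime then c n else 0) - δ))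
    {ρ : ℂ} (hρ : F ρ = 0) (hb : 1 / 2 < ρ.re) (hμ : μ < ρ.re + ν) (hτ : τ < wid ρ.re) :
    ∀ᶠ X : ℝ in atTop, ¬ Win1 0 a μ τ X :=
  omega_prime h.ld h.dens h.bd h.K0 hν ha hρ hb hμ hτ

end prod

/-! ### newforms with nebentypus -/

section newfC

open Pool.Agent.R838.NB (lmc red_lmc p_dirG exists_LC frm_twc lxc)

variable {N : ℕ} [NeZero N] {k : ℕ} {ψ : DirichletCharacter ℂ N}
  {f : CuspForm (CongruenceSubgroup.Gamma1 N : Subgroup (Matrix.GeneralLinearGroup (Fin 2) ℝ)) (k : ℤ)} {η : ℂ}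
variable {q : ℕ} [NeZero q] {χ : DirichletCharacter ℂ q}

/-- **Newforms (with Deligne's bound) and their twists.** -/
theorem newf_dat (hk : 1 ≤ k) (hf : W388.IsNewfC N k ψ f η) (hχ : χ.IsPrimitive) (hco : Nat.Coprime q N)
    (hD1 : ∀ p : ℕ, p.Prime → ¬ p ∣ N → ‖lmc f p‖ ≤ 2) (hD2 : ∀ p : ℕ, p.Prime → p ∣ N → ‖lmc f p‖ ≤ 1) :
    ∃ (F : ℂ → ℂ) (c : ℕ → ℂ), W388.FE2 k N q F ∧ IsL (lxc f χ) F ∧ Dat 0 2 c F ∧
      ∀ p : ℕ, p.Prime → c p = χ (p : ZMod q) * lmc f p * (Real.log p : ℂ) := by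
  obtain ⟨F, c, h1, h2, h3, -, h5, h6⟩ := newf_data hk hf hχ hco hD1 hD2
  have hfm := frm_twc hk hf hχ hco
  have hN1 : (1 : ℝ) ≤ N := by exact_mod_cast Nat.one_le_iff_ne_zero.2 (NeZero.ne N)
  have hq1 : (1 : ℝ) ≤ q := by exact_mod_cast Nat.one_le_iff_ne_zero.2 (NeZero.ne q)
  have hlfn := Pool.Agent.R838.TW.lfn_of hk hN1 hq1 h1 hfm h2
  exact ⟨F, c, h1, h2, ⟨h3, densE_frm hfm h2 hlfn, h5, by norm_num⟩, h6⟩

end newfC

/-! ### newforms of trivial character -/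

section newf0

open UpperHalfPlane hiding I
open MatrixGroups CongruenceSubgroup
open Pool.Agent.Y771.NF (lm psN frm_newf heckeSeq p_rs)
open Pool.Agent.Y693.GL (lx psx frm_tw)
open Pool.Agent.R838.TW (p_dir exists_L lfn_of)

variable {N : ℕ} [NeZero N] {k : ℕ} {f : CuspForm (Gamma0 N : Subgroup (GL (Fin 2) ℝ)) (k : ℤ)} {ε : ℝ}
variable {q : ℕ} [NeZero q] {χ : DirichletCharacter ℂ q}

/-- **Newforms of trivial character (with Deligne's bound) and their twists.** -/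
theorem newf_dat0 (hk : 1 ≤ k) (hf : W388.IsNewf N k f ε) (hχ : χ.IsPrimitive) (hco : Nat.Coprime q N)
    (hD1 : ∀ p : ℕ, p.Prime → ¬ p ∣ N → |W388.lamf f p| ≤ 2) (hD2 : ∀ p : ℕ, p.Prime → p ∣ N → |W388.lamf f p| ≤ 1) :
    ∃ (F : ℂ → ℂ) (c : ℕ → ℂ), W388.FE2 k N q F ∧ IsL (lx f χ) F ∧ Dat 0 2 c F ∧
      ∀ p : ℕ, p.Prime → c p = χ (p : ZMod q) * (W388.lamf f p : ℂ) * (Real.log p : ℂ) := by
  obtain ⟨F, hFE, hL⟩ := exists_L hk hf hχ hco
  have hfm := frm_tw hk hf hχ hco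
  have hN1 : (1 : ℝ) ≤ N := by exact_mod_cast Nat.one_le_iff_ne_zero.2 (NeZero.ne N)
  have hq1 : (1 : ℝ) ≤ q := by exact_mod_cast Nat.one_le_iff_ne_zero.2 (NeZero.ne q)
  have hlfn := lfn_of hk hN1 hq1 hFE hfm hL
  have hN : 0 < N := Nat.pos_of_ne_zero (NeZero.ne N)
  have hk' : (1 : ℤ) ≤ (k : ℤ) := by exact_mod_cast hk
  have hH := heckeSeq hf
  obtain ⟨A, hA1, hA2, hA3, h⟩ := p_dir N hN (W388.lamf f) hH (p_rs N k hk' f ε hf)
  obtain ⟨e1, e2, e3, e4, e5, e6⟩ := h q χ F (fun s hs => hL.ser s hs)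
  obtain ⟨c, hcdef⟩ : ∃ c : ℕ → ℂ, c = fun n : ℕ => χ (n : ZMod q) * (cS N (W388.lamf f) n : ℂ) *
    (ArithmeticFunction.vonMangoldt n : ℂ) := ⟨_, rfl⟩
  have hcn : ∀ n, ‖c n‖ ≤ 2 * ArithmeticFunction.vonMangoldt n := by
    intro n
    rw [hcdef]
    simp only
    rw [norm_mul, norm_mul, Complex.norm_real, Complex.norm_real, Real.norm_eq_abs, Real.norm_eq_abs,
      abs_of_nonneg (ArithmeticFunction.vonMangoldt_nonneg (n := n))]
    have g1 : ‖χ (n : ZMod q)‖ ≤ 1 := χ.norm_le_one _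
    have g2 := cS_vm hH hD1 hD2 n
    have g3 : 0 ≤ |cS N (W388.lamf f) n| * ArithmeticFunction.vonMangoldt n :=
      mul_nonneg (abs_nonneg _) ArithmeticFunction.vonMangoldt_nonneg
    calc ‖χ (n : ZMod q)‖ * |cS N (W388.lamf f) n| * ArithmeticFunction.vonMangoldt n =
        ‖χ (n : ZMod q)‖ * (|cS N (W388.lamf f) n| * ArithmeticFunction.vonMangoldt n) := by ring
      _ ≤ 1 * (|cS N (W388.lamf f) n| * ArithmeticFunction.vonMangoldt n) := mul_le_mul_of_nonneg_right g1 g3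
      _ ≤ _ := by rw [one_mul]; exact g2
  refine ⟨F, c, hFE, hL, ⟨?_, densE_frm hfm hL hlfn, hcn, by norm_num⟩, ?_⟩
  · exact
      { diff := hL.diff
        c0 := by
          intro n hn
          have : ArithmeticFunction.vonMangoldt n = 0 := by
            interval_cases n <;> simp
          have h3 := hcn n
          rw [this, mul_zero] at h3
          exact norm_le_zero_iff.1 h3
        summ := fun σ hσ => summ_of_vm hcn hσ
        ne := e2
        ld := by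
          intro s hs
          rw [e3 s hs, Nat.cast_zero, zero_div, zero_sub, hcdef]
        growth := growth_of hlfn e4
        lower := ⟨A⁻¹, by positivity, e5⟩ }
  · intro p hp
    rw [hcdef]
    simp only
    rw [cS_one hp, ArithmeticFunction.vonMangoldt_apply_prime hp]

end newf0

end Pool.Agent.Run7.h456.Win
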