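import Mathlib
import Pool.Agent.Run7.h456.Win.Dat

/-!
# Elliptic curves: the completed function and the data
-/

set_option autoImplicit false

namespace Pool.Agent.Run7.h456.Win

open UpperHalfPlane hiding I
open MatrixGroups CongruenceSubgroup Filter Topology Complex
open Pool.Agent.Y671.GL (Frm IsL)
open Pool.Agent.Y771.NF (lm psN frm_newf)
open Pool.Agent.Y693.GL (lx l2)
open Pool.Agent.W169.HF (IsForm coef)
open Pool.Agent.W355.UN (facE isNewf_of)
open scoped ComplexConjugate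

variable {N : ℕ} [NeZero N] {f : CuspForm (Gamma0 N : Subgroup (GL (Fin 2) ℝ)) 2} {w : ℝ}
variable {q : ℕ} [NeZero q] {χ : DirichletCharacter ℂ q}

omit [NeZero N] in
theorem lamf_coef (hf : IsForm N f w) {n : ℕ} (hn : 0 < n) :
    coef f n = ((Real.sqrt n : ℝ) : ℂ) * (W388.lamf (k := ((2 : ℕ) : ℤ)) f n : ℂ) := by
  have hn0 : (0 : ℝ) < n := by exact_mod_cast hn
  have e2 : ((((2 : ℕ) : ℤ) : ℝ) - 1) / 2 = 1 / 2 := by norm_num
  have hre : coef f n = (((coef f n).re : ℝ) : ℂ) := by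
    apply Complex.ext
    · simp
    · rw [hf.real n]; simp
  have hs : Real.sqrt n ≠ 0 := (Real.sqrt_pos.2 hn0).ne'
  have e3 : W388.lamf (k := ((2 : ℕ) : ℤ)) f n = (coef f n).re / Real.sqrt n := by
    unfold W388.lamf
    rw [e2, ← Real.sqrt_eq_rpow]
    rfl
  rw [e3, ← Complex.ofReal_mul, mul_div_cancel₀ _ hs]
  exact hre

theorem ec_core (hf : IsForm N f w) (hb : ∀ p : ℕ, p.Prime → p ∣ N → ‖coef f p‖ ≤ 1) (hχ : χ.IsPrimitive)
    (hco : Nat.Coprime q N) :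
    ∃ (Λ F : ℂ → ℂ) (c : ℕ → ℂ), Differentiable ℂ Λ ∧ (∀ s : ℂ, 3 / 2 < s.re → Λ s = facE f χ s) ∧
      (∃ W : ℂ, ‖W‖ = 1 ∧ ∀ s : ℂ, Λ (2 - s) = W * conj (Λ (conj s))) ∧
      (∀ s : ℂ, 0 < s.re → (Λ s = 0 ↔ F (s - 1 / 2) = 0)) ∧ Dat 0 2 c F ∧
      ∀ p : ℕ, p.Prime → c p = χ (p : ZMod q) * (W388.lamf (k := ((2 : ℕ) : ℤ)) f p : ℂ) * (Real.log p : ℂ) := by
  have hpi := Real.pi_pos
  have hN0 : (0 : ℝ) < N := by exact_mod_cast Nat.pos_of_ne_zero (NeZero.ne N)
  have hq0 : (0 : ℝ) < q := by exact_mod_cast Nat.pos_of_ne_zero (NeZero.ne q)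
  have hlam : ∀ p : ℕ, p.Prime → ‖coef f p‖ = Real.sqrt p * |W388.lamf (k := ((2 : ℕ) : ℤ)) f p| := by
    intro p hp
    rw [lamf_coef hf hp.pos, norm_mul, Complex.norm_real, Complex.norm_real, Real.norm_eq_abs, Real.norm_eq_abs,
      abs_of_nonneg (Real.sqrt_nonneg _)]
  obtain ⟨F, c, hFE, hL, hDat, hcp⟩ := newf_dat0 (k := 2) (f := f) (by norm_num) (isNewf_of hf) hχ hco
    (fun p hp hpN => by
      have h1 := hf.good p hp hpN
      rw [hlam p hp] at h1
      have h2 : 0 < Real.sqrt p := Real.sqrt_pos.2 (by exact_mod_cast hp.pos)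
      by_contra hc
      rw [not_le] at hc
      nlinarith)
    (fun p hp hpN => by
      have h1 := hb p hp hpN
      rw [hlam p hp] at h1
      have h2 : 1 ≤ Real.sqrt p := by
        rw [Real.one_le_sqrt]
        exact_mod_cast hp.one_le
      nlinarith [abs_nonneg (W388.lamf (k := ((2 : ℕ) : ℤ)) f p)])
  obtain ⟨X, v, h1, h2, h3⟩ := Pool.Agent.R838.TW.pl_fac hf hχ hco
  obtain ⟨Λ, k1, k2, ⟨W, hW, hfe⟩, k4⟩ := Pool.Agent.R838.TW.exists_Lam h1 1 (G := fun s => facE f χ s) h2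
    (σ := 3 / 2) (fun s hs => by rw [Complex.ofReal_one]; exact h3 s hs)
  obtain ⟨r, hr⟩ : ∃ r : ℝ, r = Real.sqrt N * q / (2 * Real.pi) := ⟨_, rfl⟩
  have hr0 : 0 < r := by
    rw [hr]
    have := Real.sqrt_pos.2 hN0
    positivity
  have hrc : (r : ℂ) ≠ 0 := by exact_mod_cast hr0.ne'
  have h00 : W388.lamf (k := ((2 : ℕ) : ℤ)) f 0 = 0 := by
    have h0 : Frm 2 N (psN N) (lm (k := 2) f) := frm_newf (by norm_num) (isNewf_of hf)
    have h5 : (W388.lamf f 0 : ℂ) = 0 := h0.zero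
    exact_mod_cast h5
  have hL' : IsL (l2 f χ) F := hL
  -- the identity in `Re s > 0`
  have hid : ∀ s : ℂ, 0 < s.re → Λ s = (r : ℂ) ^ s * Complex.Gamma s * F (s - 1 / 2) := by
    have hopen : IsOpen {s : ℂ | 0 < s.re} := isOpen_lt continuous_const Complex.continuous_re
    have a1 : AnalyticOnNhd ℂ Λ {s : ℂ | 0 < s.re} := fun z _ => k1.analyticAt z
    have a2 : AnalyticOnNhd ℂ (fun s => (r : ℂ) ^ s * Complex.Gamma s * F (s - 1 / 2)) {s : ℂ | 0 < s.re} := by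
      refine DifferentiableOn.analyticOnNhd (fun z hz => ?_) hopen
      have hz' : 0 < z.re := hz
      have e1 : DifferentiableAt ℂ (fun s : ℂ => (r : ℂ) ^ s) z :=
        (differentiableAt_id).const_cpow (Or.inl hrc)
      have e2 : DifferentiableAt ℂ Complex.Gamma z := Complex.differentiableAt_Gamma z fun m hm => by
        rw [hm, neg_re, natCast_re] at hz'
        have : (0 : ℝ) ≤ m := Nat.cast_nonneg m
        linarith
      have e3 : DifferentiableAt ℂ (fun s : ℂ => F (s - 1 / 2)) z :=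
        (hL.diff.comp (by fun_prop : Differentiable ℂ fun s : ℂ => s - 1 / 2)) z
      exact ((e1.mul e2).mul e3).differentiableWithinAt
    intro s hs
    have hz0 : (2 : ℂ) ∈ {s : ℂ | 0 < s.re} := by simp
    refine a1.eqOn_of_preconnected_of_eventuallyEq a2 (convex_halfSpace_re_gt 0).isPreconnected hz0 ?_ hs
    have h6 : ∀ᶠ z : ℂ in 𝓝 (2 : ℂ), 3 / 2 < z.re :=
      (Complex.continuous_re.tendsto _).eventually (lt_mem_nhds (by norm_num))
    filter_upwards [h6] with z hz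
    rw [k2 z hz, Pool.Agent.Y693.GL.facE_eq hf hL' hz h00, ← hr]
  refine ⟨Λ, F, c, k1, k2, ⟨W, hW, fun s => ?_⟩, fun s hs => ?_, hDat, hcp⟩
  · have := hfe s
    rwa [Complex.ofReal_one, mul_one] at this
  · rw [hid s hs]
    have e1 : (r : ℂ) ^ s ≠ 0 := by
      rw [Ne, Complex.cpow_eq_zero_iff]
      exact fun h => hrc h.1
    have e2 : Complex.Gamma s ≠ 0 := Complex.Gamma_ne_zero_of_re_pos hs
    constructor
    · intro h
      exact (mul_eq_zero.1 h).resolve_left (mul_ne_zero e1 e2)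
    · intro h
      rw [h, mul_zero]

end Pool.Agent.Run7.h456.Win
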