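import Mathlib
import Pool.Agent.Run7.h456.Win.Dat

/-!
# Parts of the cohomology
-/

set_option autoImplicit false

namespace Pool.Agent.Run7.h456.Win

open UpperHalfPlane hiding I
open MatrixGroups CongruenceSubgroup Filter Topology Complex
open Pool.Agent.Y671.GL (Frm IsL)
open Pool.Agent.R838.NB (lmc lxc euler_twc one_val)
open scoped ComplexConjugate

section part

variable {N : ℕ} [NeZero N] {k : ℕ} {ψ : DirichletCharacter ℂ N}
  {f : CuspForm (Gamma1 N : Subgroup (GL (Fin 2) ℝ)) (k : ℤ)} {η : ℂ}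
variable {q : ℕ} [NeZero q] {χ : DirichletCharacter ℂ q}

omit [NeZero N] in
/-- normalised coefficients -/
theorem lmc_eq (n : ℕ) : lmc f n = (qExpansion 1 f).coeff n / (((n : ℝ) ^ (((k : ℝ) - 1) / 2) : ℝ) : ℂ) := by
  unfold Pool.Agent.R838.NB.lmc W388.lamC
  simp

/-- **A newform as a part of the cohomology of degree `i = k - 1 + 2 r`.** -/
theorem part_core (hk : 1 ≤ k) (hf : W388.IsNewfC N k ψ f η) {i r : ℕ} (hi : k + 2 * r = i + 1)
    (hD1 : ∀ p : ℕ, p.Prime → ¬ p ∣ N → ‖(qExpansion 1 f).coeff p‖ ≤ 2 * (p : ℝ) ^ (((k : ℝ) - 1) / 2))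
    (hD2 : ∀ p : ℕ, p.Prime → p ∣ N → ‖(qExpansion 1 f).coeff p‖ ≤ (p : ℝ) ^ (((k : ℝ) - 1) / 2)) :
    ∃ (F : ℂ → ℂ) (c : ℕ → ℂ), Dat 0 2 c F ∧
      (∀ s : ℂ, (i : ℝ) / 2 + 1 < s.re → HasProd (fun p : Nat.Primes =>
        (1 - (qExpansion 1 f).coeff p * ((p : ℕ) : ℂ) ^ ((r : ℂ) - s) +
          ψ ((p : ℕ) : ZMod N) * ((p : ℕ) : ℂ) ^ ((i : ℂ) - 2 * s))⁻¹) (F (s - i / 2))) ∧
      ∀ p : ℕ, p.Prime → (((p : ℝ) ^ ((i : ℝ) / 2) / Real.log p : ℝ) : ℂ) * c p =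
        (qExpansion 1 f).coeff p * (p : ℂ) ^ r := by
  have hlm : ∀ p : ℕ, p.Prime → ‖lmc f p‖ = ‖(qExpansion 1 f).coeff p‖ / (p : ℝ) ^ (((k : ℝ) - 1) / 2) := by
    intro p hp
    rw [lmc_eq, norm_div, Complex.norm_real, Real.norm_eq_abs, abs_of_nonneg (by positivity)]
  obtain ⟨F, c, hFE, hL, hDat, hcp⟩ := newf_dat (q := 1) (χ := 1) hk hf DirichletCharacter.isPrimitive_one_level_one
    (Nat.coprime_one_left N)
    (fun p hp hpN => by
      have hp0 : (0 : ℝ) < p := by exact_mod_cast hp.pos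
      rw [hlm p hp, div_le_iff₀ (by positivity)]
      exact hD1 p hp hpN)
    (fun p hp hpN => by
      have hp0 : (0 : ℝ) < p := by exact_mod_cast hp.pos
      rw [hlm p hp, div_le_iff₀ (by positivity), one_mul]
      exact hD2 p hp hpN)
  have hir : (k : ℂ) + 2 * r = i + 1 := by exact_mod_cast hi
  have hik : (k : ℂ) = i + 1 - 2 * r := by linear_combination hir
  have hirR : (k : ℝ) + 2 * r = i + 1 := by exact_mod_cast hi
  refine ⟨F, c, hDat, fun s hs => ?_, fun p hp => ?_⟩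
  · have hs' : 1 < (s - (i : ℂ) / 2).re := by
      have e : (s - (i : ℂ) / 2).re = s.re - (i : ℝ) / 2 := by
        rw [Complex.sub_re]
        congr 1
        rw [show ((i : ℂ) / 2) = (((i : ℝ) / 2 : ℝ) : ℂ) by push_cast; ring, Complex.ofReal_re]
      rw [e]
      linarith
    have h1 := euler_twc hk hf hL hs'
    refine h1.congr_fun fun p => ?_
    have hp := p.2
    have hp0 : (0 : ℝ) < (p : ℕ) := by exact_mod_cast hp.pos
    have hpc : (((p : ℕ)) : ℂ) ≠ 0 := by exact_mod_cast hp.ne_zero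
    have e1 : W388.lamC f p * ((p : ℕ) : ℂ) ^ (-(s - (i : ℂ) / 2)) =
        (qExpansion 1 f).coeff (p : ℕ) * ((p : ℕ) : ℂ) ^ ((r : ℂ) - s) := by
      unfold W388.lamC
      rw [Complex.ofReal_cpow hp0.le, Complex.ofReal_natCast]
      have e2 : ((((((k : ℕ) : ℤ) : ℝ) - 1) / 2 : ℝ) : ℂ) = ((k : ℂ) - 1) / 2 := by
        push_cast
        ring
      rw [e2, div_mul_eq_mul_div, mul_div_assoc, ← Complex.cpow_sub _ _ hpc]
      congr 2
      rw [hik]
      ring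
    have e3 : ((p : ℕ) : ℂ) ^ ((i : ℂ) - 2 * s) = ((p : ℕ) : ℂ) ^ (-2 * (s - (i : ℂ) / 2)) := by
      congr 1
      ring
    rw [e3, one_val, one_pow, one_mul, one_mul, e1]
  · have hp0 : (0 : ℝ) < p := by exact_mod_cast hp.pos
    have hlog : ((Real.log p : ℝ) : ℂ) ≠ 0 := by
      have : 0 < Real.log p := Real.log_pos (by exact_mod_cast hp.one_lt)
      rw [Complex.ofReal_ne_zero]
      exact this.ne'
    have hpw : (((p : ℝ) ^ (((k : ℝ) - 1) / 2) : ℝ) : ℂ) ≠ 0 := by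
      rw [Complex.ofReal_ne_zero]
      positivity
    have e1 : (p : ℝ) ^ ((i : ℝ) / 2) = (p : ℝ) ^ (((k : ℝ) - 1) / 2) * (p : ℝ) ^ r := by
      rw [← Real.rpow_natCast (p : ℝ) r, ← Real.rpow_add hp0]
      congr 1
      linarith
    rw [hcp p hp, one_val, one_mul, lmc_eq, e1, Complex.ofReal_div, Complex.ofReal_mul]
    push_cast at hlog hpw ⊢
    field_simp

end part

end Pool.Agent.Run7.h456.Win
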